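import Pool.Agent.Lib.BFE.Defs

set_option autoImplicit false
set_option linter.unusedSectionVars false

open Finset
open scoped Classical

namespace Pool.Agent.Lib.BFE

/-!
## Module M (large edges): windows, lazy edges, keys, the state after a window
-/

variable {V : Type} [DecidableEq V]

/-- different edges that meet -/
def Nb (e f : Finset V) : Prop := e ≠ f ∧ ¬ Disjoint e f

/-- the hypotheses on the hypergraph: linear, edge sizes at least `2`, closed neighbourhoods of at most `D`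
vertices (in the form `∑_{e ∋ v} (|e| - 1) ≤ D - 1`) -/
structure Hyp (E : Finset (Finset V)) (D : ℕ) : Prop where
  D_pos : 1 ≤ D
  size : ∀ e ∈ E, 2 ≤ e.card
  lin : ∀ e ∈ E, ∀ f ∈ E, e ≠ f → (e ∩ f).card ≤ 1
  vol : ∀ v, ∑ e ∈ E.filter (fun e => v ∈ e), (e.card - 1) ≤ D - 1

/-- number of neighbours of `e` with at least `u` vertices -/
noncomputable def NN (E : Finset (Finset V)) (e : Finset V) (u : ℕ) : ℕ :=
  (E.filter fun g => Nb e g ∧ u ≤ g.card).card

/-- number of neighbours of `e` with size in `[a, u)` -/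
noncomputable def BB (E : Finset (Finset V)) (e : Finset V) (a u : ℕ) : ℕ :=
  (E.filter fun g => Nb e g ∧ a ≤ g.card ∧ g.card < u).card

/-- the window bottoms: `b0`, `b0 / 4`, `b0 / 16`, ... (integer division) -/
def bs (b0 : ℕ) : ℕ → ℕ
  | 0 => b0
  | i + 1 => bs b0 i / 4

/-- an edge in the window `[bs (i + 1), bs i)` is lazy if more than `D / 20` of its neighbours have at least
`bs i + G` vertices -/
def Lazy (E : Finset (Finset V)) (D G b0 : ℕ) (g : Finset V) : Prop :=
  ∃ i, bs b0 (i + 1) ≤ g.card ∧ g.card < bs b0 i ∧ D < 20 * NN E g (bs b0 i + G)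

/-- the edges are coloured in descending order of the key; lazy edges are delayed by `C` -/
noncomputable def key (E : Finset (Finset V)) (D C G b0 : ℕ) (g : Finset V) : ℕ :=
  if Lazy E D G b0 g then g.card - C else g.card

/-- the parameters: `M = ⌊√(D-1)⌋`, `R = ⌊√M⌋`, `l ≥ 20 log₂ D`, `b0` the size at which the two regimes are
glued (the zone: in `[b0 - C, b0 + G]` the trivial bound leaves the slack `M / 8`), `K0` a lower bound for the
edge sizes treated in this module -/
structure Par (D M R l C G b0 K0 : ℕ) : Prop where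
  M1 : M * M ≤ D - 1
  M2 : D - 1 < (M + 1) * (M + 1)
  R1 : R * R ≤ M
  R2 : M < (R + 1) * (R + 1)
  big : 10 ^ 12 * (l + G + 1) ≤ R
  C1 : 1000 ≤ C
  G1 : G = 20 * C + 40
  ell : D ^ 20 ≤ 2 ^ l
  K1 : 10 ^ 11 ≤ K0
  K2 : 1000 * G ≤ K0
  K3 : K0 ≤ R
  z1 : b0 + R / 3 ≤ M
  z2 : M ≤ b0 + R
  zone : ∀ s, b0 ≤ s + C → s ≤ b0 + G → 8 * (s * ((D - 1) / (s - 1) - 1)) + M ≤ 8 * D

/-- the state of the colouring when all edges with key at least `b + G` are coloured, together with some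
edges of the window with bottom `b` (chosen at random) -/
structure State (E : Finset (Finset V)) (D l C G b0 b : ℕ) (χ : Finset V → Option (Fin D)) : Prop where
  dom : ∀ f, χ f ≠ none → f ∈ E
  proper : Proper Nb χ
  s1 : ∀ f ∈ E, b + G ≤ key E D C G b0 f → χ f ≠ none
  s2 : ∀ f, χ f ≠ none → key E D C G b0 f < b + G → b ≤ f.card ∧ ¬ Lazy E D G b0 f
  s3 : ∀ f ∈ E, ∀ u, u ≤ b + G →
    5000 * (E.filter fun g => Nb f g ∧ χ g ≠ none ∧ key E D C G b0 g < u).card
      ≤ BB E f b u + 5000 * l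
  s4 : b < b0 → ∀ e ∈ E, ∀ s, e.card ≤ s → s ≤ b + G →
    10 ^ 10 * l * D ≤ n2 Nb (E.filter fun g => Nb e g ∧ ¬ Lazy E D G b0 g ∧ b ≤ g.card ∧
      s ≤ g.card ∧ g.card < s + C) →
    n2 Nb (E.filter fun g => Nb e g ∧ ¬ Lazy E D G b0 g ∧ b ≤ g.card ∧
      s ≤ g.card ∧ g.card < s + C) ≤ 4 * 10 ^ 9 * D *
      sav χ (E.filter fun g => Nb e g ∧ ¬ Lazy E D G b0 g ∧ b ≤ g.card ∧
        s ≤ g.card ∧ g.card < s + C)

end Pool.Agent.Lib.BFE
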