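import Pool.Agent.Lib.BFE.Defs
import Pool.Agent.Lib.BFE.MDefs

set_option autoImplicit false
set_option linter.unusedSectionVars false

open Finset
open scoped Classical

namespace Pool.Agent.Lib.BFE

variable {V : Type} [DecidableEq V]

/-- Chunk A1 (S/M): volume at a vertex.

**Proof.** `Hyp.vol w` with the term of `e` split off: `∑_{g ∋ w, g ≠ e} (|g| - 1) + (|e| - 1) ≤ D - 1`, and
`|e| ≥ 2`, `D ≥ 1`. -/
theorem a1_vert {E : Finset (Finset V)} {D : ℕ} (H : Hyp E D) {e : Finset V} (he : e ∈ E) {w : V}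
    (hw : w ∈ e) :
    ∑ g ∈ E.filter (fun g => w ∈ g ∧ g ≠ e), (g.card - 1) + e.card ≤ D := by
  have h1 := H.vol w
  have heS : e ∈ E.filter (fun g => w ∈ g) := mem_filter.2 ⟨he, hw⟩
  have h2 := Finset.add_sum_erase (E.filter (fun g => w ∈ g)) (fun g => g.card - 1) heS
  have h3 : E.filter (fun g => w ∈ g ∧ g ≠ e) = (E.filter (fun g => w ∈ g)).erase e := by
    ext g
    rw [mem_filter, mem_erase, mem_filter]
    tauto
  rw [h3]
  have h4 := H.size e he
  have h5 := H.D_pos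
  omega

/-- **Proof.** `a1_vert` for a vertex of `e` (`|e| ≥ 2`). -/
theorem a1_card_le {E : Finset (Finset V)} {D : ℕ} (H : Hyp E D) {e : Finset V} (he : e ∈ E) :
    e.card ≤ D := by
  have h1 := H.size e he
  obtain ⟨w, hw⟩ := Finset.card_pos.1 (show 0 < e.card by omega)
  have h2 := a1_vert H he hw
  omega

/-- The neighbours of `e` (in a subfamily `A`), sorted by the vertex in which they meet `e`.

**Proof.** `Nb e g` for `e, g ∈ E` means `g ≠ e` and `e ∩ g ≠ ∅`, and then `e ∩ g` is a single vertex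
(`Hyp.lin`). So `∑_{w ∈ e} ∑_{g ∈ A, w ∈ g} φ g = ∑_{g ∈ A} |e ∩ g| φ g = ∑_{g ∈ A} φ g` (`sum_comm'` or
`sum_comm` with indicators; `card_eq_one`). -/
theorem a1_sum {E : Finset (Finset V)} {D : ℕ} (H : Hyp E D) {e : Finset V} (he : e ∈ E)
    (A : Finset (Finset V)) (hA : ∀ g ∈ A, g ∈ E ∧ Nb e g) (φ : Finset V → ℕ) :
    ∑ w ∈ e, ∑ g ∈ A.filter (fun g => w ∈ g), φ g = ∑ g ∈ A, φ g := by
  have h1 : ∑ w ∈ e, ∑ g ∈ A.filter (fun g => w ∈ g), φ g = ∑ g ∈ A, ∑ _w ∈ e ∩ g, φ g := by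
    refine Finset.sum_comm' ?_
    intro w g
    rw [mem_filter, mem_inter]
    tauto
  rw [h1]
  refine Finset.sum_congr rfl fun g hg => ?_
  obtain ⟨hgE, hne, hnd⟩ := hA g hg
  have h2 := H.lin e he g hgE hne
  have h3 : (e ∩ g).Nonempty := by
    rw [Finset.not_disjoint_iff] at hnd
    obtain ⟨a, ha, hb⟩ := hnd
    exact ⟨a, mem_inter.2 ⟨ha, hb⟩⟩
  have h4 := Finset.card_pos.2 h3
  have h5 : (e ∩ g).card = 1 := by omega
  rw [Finset.sum_const, h5, one_smul]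

/-- Chunk A1, main part (S/M): volume of the neighbourhood.

**Proof.** `a1_sum` with `φ g = |g| - 1`, and `a1_vert` for every `w ∈ e`
(`A.filter (w ∈ ·) ⊆ E.filter (w ∈ g ∧ g ≠ e)`). -/
theorem a1_vol {E : Finset (Finset V)} {D : ℕ} (H : Hyp E D) {e : Finset V} (he : e ∈ E)
    (A : Finset (Finset V)) (hA : ∀ g ∈ A, g ∈ E ∧ Nb e g) :
    ∑ g ∈ A, (g.card - 1) ≤ e.card * (D - e.card) := by
  rw [← a1_sum H he A hA (fun g => g.card - 1)]
  have h1 : ∀ w ∈ e, ∑ g ∈ A.filter (fun g => w ∈ g), (g.card - 1) ≤ D - e.card := by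
    intro w hw
    have h2 := a1_vert H he hw
    have h3 : ∑ g ∈ A.filter (fun g => w ∈ g), (g.card - 1) ≤
        ∑ g ∈ E.filter (fun g => w ∈ g ∧ g ≠ e), (g.card - 1) := by
      refine Finset.sum_le_sum_of_subset fun g hg => ?_
      obtain ⟨hgA, hgw⟩ := mem_filter.1 hg
      obtain ⟨hgE, hne, _⟩ := hA g hgA
      exact mem_filter.2 ⟨hgE, hgw, Ne.symm hne⟩
    omega
  have h4 := Finset.sum_le_card_nsmul e _ _ h1
  rw [smul_eq_mul] at h4
  exact h4

/-- **Proof.** From `a1_vol`: every term is at least `u - 1`. -/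
theorem a1_count {E : Finset (Finset V)} {D : ℕ} (H : Hyp E D) {e : Finset V} (he : e ∈ E)
    (A : Finset (Finset V)) (u : ℕ) (hA : ∀ g ∈ A, g ∈ E ∧ Nb e g ∧ u ≤ g.card) :
    (u - 1) * A.card ≤ e.card * (D - e.card) := by
  have h1 := a1_vol H he A (fun g hg => ⟨(hA g hg).1, (hA g hg).2.1⟩)
  have h2 := Finset.card_nsmul_le_sum A (fun g => g.card - 1) (u - 1) (fun g hg => by
    have := (hA g hg).2.2
    omega)
  rw [smul_eq_mul, mul_comm] at h2
  exact h2.trans h1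

/-- **Proof.** `a1_vert`: every term is at least `u - 1`. -/
theorem a1_deg {E : Finset (Finset V)} {D : ℕ} (H : Hyp E D) {e : Finset V} (he : e ∈ E)
    (A : Finset (Finset V)) (u : ℕ) (hA : ∀ g ∈ A, g ∈ E ∧ Nb e g ∧ u ≤ g.card) {w : V} (hw : w ∈ e) :
    (u - 1) * (A.filter fun g => w ∈ g).card ≤ D - e.card := by
  have h1 := a1_vert H he hw
  have h3 : ∑ g ∈ A.filter (fun g => w ∈ g), (g.card - 1) ≤
      ∑ g ∈ E.filter (fun g => w ∈ g ∧ g ≠ e), (g.card - 1) := by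
    refine Finset.sum_le_sum_of_subset fun g hg => ?_
    obtain ⟨hgA, hgw⟩ := mem_filter.1 hg
    obtain ⟨hgE, ⟨hne, _⟩, _⟩ := hA g hgA
    exact mem_filter.2 ⟨hgE, hgw, Ne.symm hne⟩
  have h2 := Finset.card_nsmul_le_sum (A.filter fun g => w ∈ g) (fun g => g.card - 1) (u - 1)
    (fun g hg => by
      have := (hA g (mem_filter.1 hg).1).2.2
      omega)
  rw [smul_eq_mul, mul_comm] at h2
  omega

end Pool.Agent.Lib.BFE
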