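import Pool.Agent.Lib.BFE.Defs
import Pool.Agent.Lib.BFE.A1

set_option autoImplicit false
set_option linter.unusedSectionVars false

open Finset
open scoped Classical

namespace Pool.Agent.Lib.BFE

variable {V : Type} [DecidableEq V]

/-- auxiliary: neighbours of `g` in `A` that avoid the common vertex `w` -/
theorem a2_aux {E : Finset (Finset V)} {D : ℕ} (H : Hyp E D) {e : Finset V} (he : e ∈ E)
    (A : Finset (Finset V)) (hA : ∀ g ∈ A, g ∈ E ∧ Nb e g) {g : Finset V} (hg : g ∈ A) {w : V}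
    (hwe : w ∈ e) (hwg : w ∈ g) :
    (A.filter fun h => w ∉ h ∧ Nb g h).card ≤ (e.card - 1) * (g.card - 1) := by
  have hex : ∀ h ∈ A.filter (fun h => w ∉ h ∧ Nb g h),
      ∃ z : V × V, z.1 ∈ e ∧ z.1 ∈ h ∧ z.2 ∈ g ∧ z.2 ∈ h := by
    intro h hh
    rw [mem_filter] at hh
    obtain ⟨hhA, _, hNb⟩ := hh
    obtain ⟨x, hx1, hx2⟩ := Finset.not_disjoint_iff.1 (hA h hhA).2.2
    obtain ⟨y, hy1, hy2⟩ := Finset.not_disjoint_iff.1 hNb.2
    exact ⟨(x, y), hx1, hx2, hy1, hy2⟩
  have hcard : ((e.erase w) ×ˢ (g.erase w)).card = (e.card - 1) * (g.card - 1) := by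
    rw [card_product, card_erase_of_mem hwe, card_erase_of_mem hwg]
  rw [← hcard]
  let f : Finset V → V × V := fun h =>
    if hh : h ∈ A.filter (fun h => w ∉ h ∧ Nb g h) then Classical.choose (hex h hh) else (w, w)
  have hf : ∀ h, ∀ hh : h ∈ A.filter (fun h => w ∉ h ∧ Nb g h),
      (f h).1 ∈ e ∧ (f h).1 ∈ h ∧ (f h).2 ∈ g ∧ (f h).2 ∈ h := by
    intro h hh
    have h1 : f h = Classical.choose (hex h hh) := by
      simp only [f]
      rw [dif_pos hh]
    rw [h1]
    exact Classical.choose_spec (hex h hh)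
  apply card_le_card_of_injOn f
  · intro h hh
    have hh' : h ∈ A.filter (fun h => w ∉ h ∧ Nb g h) := by simpa using hh
    obtain ⟨h1, h2, h3, h4⟩ := hf h hh'
    have hw : w ∉ h := (mem_filter.1 hh').2.1
    simp only [coe_product, Set.mem_prod, mem_coe, mem_erase]
    refine ⟨⟨?_, h1⟩, ⟨?_, h3⟩⟩
    · intro hc
      rw [hc] at h2
      exact hw h2
    · intro hc
      rw [hc] at h4
      exact hw h4
  · intro h hh k hk hfe
    have hh' : h ∈ A.filter (fun h => w ∉ h ∧ Nb g h) := by simpa using hh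
    have hk' : k ∈ A.filter (fun h => w ∉ h ∧ Nb g h) := by simpa using hk
    obtain ⟨h1, h2, h3, h4⟩ := hf h hh'
    obtain ⟨k1, k2, k3, k4⟩ := hf k hk'
    have hw : w ∉ h := (mem_filter.1 hh').2.1
    have hhE : h ∈ E := (hA h (mem_filter.1 hh').1).1
    have hkE : k ∈ E := (hA k (mem_filter.1 hk').1).1
    have hgE : g ∈ E := (hA g hg).1
    have hne : e ≠ g := (hA g hg).2.1
    by_contra hhk
    have hxy : (f h).1 ≠ (f h).2 := by
      intro hc
      have hlt : 1 < (e ∩ g).card := by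
        rw [Finset.one_lt_card]
        refine ⟨w, mem_inter.2 ⟨hwe, hwg⟩, (f h).1, mem_inter.2 ⟨h1, ?_⟩, ?_⟩
        · rw [hc]
          exact h3
        · intro hcc
          rw [← hcc] at h2
          exact hw h2
      have := H.lin e he g hgE hne
      omega
    have hlt : 1 < (h ∩ k).card := by
      rw [Finset.one_lt_card]
      refine ⟨(f h).1, mem_inter.2 ⟨h2, ?_⟩, (f h).2, mem_inter.2 ⟨h4, ?_⟩, hxy⟩
      · rw [hfe]
        exact k2
      · rw [hfe]
        exact k4
    have := H.lin h hhE k hkE hhk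
    omega

/-- Chunk A2 (M): **many non-adjacent pairs**.

**Proof.** For `g ∈ A` let `w` be the common vertex of `e` and `g`. The members `h ∈ A` with `h = g` or `Nb g h`
are at most `a + (|e| - 1) (|g| - 1)` many: those through `w` are at most `a` (`ha`); if `w ∉ h` then `h` meets
`e` in a vertex `w' ≠ w` and `g` in a vertex `x ≠ w`; `w' ∉ g` (as `e ∩ g = {w}`), so `w' ≠ x` are two
different vertices of `h`, and `h` is determined by `(w', x) ∈ (e \ {w}) × (g \ {w})` (`Hyp.lin`): an injection,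
for instance `card_le_card_of_injOn` into the product. So the number of ordered pairs of `A × A` that are not
counted in `n2 Nb A` (equal or `Nb`) is at most `∑_{g ∈ A} (a + (|e| - 1) (|g| - 1))`. -/
theorem a2_pairs {E : Finset (Finset V)} {D : ℕ} (H : Hyp E D) {e : Finset V} (he : e ∈ E)
    (A : Finset (Finset V)) (hA : ∀ g ∈ A, g ∈ E ∧ Nb e g) (a : ℕ)
    (ha : ∀ w ∈ e, (A.filter fun g => w ∈ g).card ≤ a) :
    A.card * A.card ≤ n2 Nb A + a * A.card + (e.card - 1) * ∑ g ∈ A, (g.card - 1) := by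
  have h1 : A.card * A.card = n2 Nb A +
      ((A ×ˢ A).filter fun z => ¬ (z.1 ≠ z.2 ∧ ¬ Nb z.1 z.2)).card := by
    have h0 : n2 Nb A = ((A ×ˢ A).filter fun z => z.1 ≠ z.2 ∧ ¬ Nb z.1 z.2).card := by
      unfold n2
      refine congrArg Finset.card ?_
      ext z
      simp only [mem_filter]
    rw [← card_product, h0]
    exact (card_filter_add_card_filter_not (s := A ×ˢ A)
      (fun z : Finset V × Finset V => z.1 ≠ z.2 ∧ ¬ Nb z.1 z.2)).symm
  have h2 : ((A ×ˢ A).filter fun z => ¬ (z.1 ≠ z.2 ∧ ¬ Nb z.1 z.2)).card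
      = ∑ g ∈ A, (A.filter fun h => ¬ (g ≠ h ∧ ¬ Nb g h)).card := by
    rw [card_filter, sum_product]
    refine sum_congr rfl fun g _ => ?_
    rw [card_filter]
  have h3 : ∀ g ∈ A, (A.filter fun h => ¬ (g ≠ h ∧ ¬ Nb g h)).card
      ≤ a + (e.card - 1) * (g.card - 1) := by
    intro g hg
    obtain ⟨w, hwe, hwg⟩ := Finset.not_disjoint_iff.1 (hA g hg).2.2
    have hsub : (A.filter fun h => ¬ (g ≠ h ∧ ¬ Nb g h)) ⊆
        (A.filter fun h => w ∈ h) ∪ (A.filter fun h => w ∉ h ∧ Nb g h) := by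
      intro h hh
      rw [mem_filter] at hh
      obtain ⟨hhA, hnot⟩ := hh
      rw [mem_union, mem_filter, mem_filter]
      by_cases hwh : w ∈ h
      · exact Or.inl ⟨hhA, hwh⟩
      · refine Or.inr ⟨hhA, hwh, ?_⟩
        by_contra hN
        refine hnot ⟨?_, hN⟩
        intro hgh
        rw [← hgh] at hwh
        exact hwh hwg
    calc (A.filter fun h => ¬ (g ≠ h ∧ ¬ Nb g h)).card
        ≤ ((A.filter fun h => w ∈ h) ∪ (A.filter fun h => w ∉ h ∧ Nb g h)).card := card_le_card hsub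
      _ ≤ (A.filter fun h => w ∈ h).card + (A.filter fun h => w ∉ h ∧ Nb g h).card :=
          card_union_le _ _
      _ ≤ a + (e.card - 1) * (g.card - 1) :=
          Nat.add_le_add (ha w hwe) (a2_aux H he A hA hg hwe hwg)
  have h4 : ∑ g ∈ A, (A.filter fun h => ¬ (g ≠ h ∧ ¬ Nb g h)).card
      ≤ a * A.card + (e.card - 1) * ∑ g ∈ A, (g.card - 1) := by
    refine (sum_le_sum h3).trans ?_
    rw [sum_add_distrib, sum_const, smul_eq_mul, ← mul_sum, mul_comm a]
  rw [h1, h2, add_assoc]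
  exact Nat.add_le_add_left h4 _

end Pool.Agent.Lib.BFE
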