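import Pool.Agent.Lib.BFE.Defs

set_option autoImplicit false
set_option linter.unusedSectionVars false

open Finset
open scoped Classical

namespace Pool.Agent.Lib.BFE

variable {ι C : Type} [DecidableEq ι]

/-- Chunk A3 (S): savings.

**Proof.** Both numbers only see the coloured elements. -/
theorem a3_filter (χ : ι → Option C) (A : Finset ι) :
    sav χ (A.filter fun i => χ i ≠ none) = sav χ A := by
  unfold sav
  rw [Finset.filter_filter]
  simp only [and_self]

/-- **Proof.** Adding one coloured element raises the number of coloured elements by one and the number of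
colours by at most one: `|B' \ A'| + |image A'| ≥ |image B'|` (`image_union`, `card_union_le`,
`card_image_le`), with `A' ⊆ B'` the coloured parts. -/
theorem a3_mono (χ : ι → Option C) {A B : Finset ι} (h : ∀ i ∈ A, χ i ≠ none → i ∈ B) :
    sav χ A ≤ sav χ B := by
  unfold sav
  obtain ⟨A', hA'⟩ : ∃ A', A' = A.filter fun i => χ i ≠ none := ⟨_, rfl⟩
  obtain ⟨B', hB'⟩ : ∃ B', B' = B.filter fun i => χ i ≠ none := ⟨_, rfl⟩
  rw [← hA', ← hB']
  have hsub : A' ⊆ B' := by
    intro i hi
    rw [hA', mem_filter] at hi
    rw [hB', mem_filter]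
    exact ⟨h i hi.1 hi.2, hi.2⟩
  have h1 : (B'.image χ).card ≤ (A'.image χ).card + (B' \ A').card := by
    have h2 : B'.image χ = A'.image χ ∪ (B' \ A').image χ := by
      rw [← image_union, union_sdiff_of_subset hsub]
    rw [h2]
    exact (card_union_le _ _).trans (Nat.add_le_add_left card_image_le _)
  have h3 : (B' \ A').card + A'.card = B'.card := card_sdiff_add_card_eq_card hsub
  have h4 : (A'.image χ).card ≤ A'.card := card_image_le
  have h5 : (B'.image χ).card ≤ B'.card := card_image_le
  omega

/-- **Proof.** `A' = {i ∈ A : χ i ≠ none} ⊆ {i ∈ A : χ' i ≠ none}`, `χ = χ'` on `A'`, so `sav χ A = sav χ A'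
= sav χ' A' ≤ sav χ' A` (`a3_filter`, `a3_mono`; the images agree, `image_congr`). -/
theorem a3_ext (χ χ' : ι → Option C) (A : Finset ι) (h : ∀ i ∈ A, χ i ≠ none → χ' i = χ i) :
    sav χ A ≤ sav χ' A := by
  obtain ⟨A', hA'⟩ : ∃ A', A' = A.filter fun i => χ i ≠ none := ⟨_, rfl⟩
  have h1 : sav χ A = sav χ A' := by
    rw [hA', a3_filter]
  have h2 : ∀ i ∈ A', χ' i = χ i := by
    intro i hi
    rw [hA', mem_filter] at hi
    exact h i hi.1 hi.2
  have h3 : sav χ A' = sav χ' A' := by
    unfold sav
    have h4 : (A'.filter fun i => χ i ≠ none) = A'.filter fun i => χ' i ≠ none := by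
      apply Finset.filter_congr
      intro i hi
      rw [h2 i hi]
    have h5 : (A'.filter fun i => χ' i ≠ none).image χ = (A'.filter fun i => χ' i ≠ none).image χ' := by
      apply Finset.image_congr
      intro i hi
      rw [mem_coe, mem_filter] at hi
      exact (h2 i hi.1).symm
    rw [h4, h5]
  rw [h1, h3]
  apply a3_mono
  intro i hi _
  rw [hA', mem_filter] at hi
  exact hi.1

end Pool.Agent.Lib.BFE
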