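import Pool.Agent.Lib.BFE.Defs
import Pool.Agent.Lib.BFE.A3

set_option autoImplicit false
set_option linter.unusedSectionVars false

open Finset
open scoped Classical

namespace Pool.Agent.Lib.BFE

variable {ι : Type} [DecidableEq ι]

/-- a free colour -/
theorem a4_colour (adj : ι → ι → Prop) (D : ℕ) (E : Finset ι) (χ χ₁ : ι → Option (Fin D))
    (hdom : ∀ i, χ i ≠ none → i ∈ E) (key : ι → ℕ) (T S : Finset ι) (hST : S ⊆ T)
    (hext : ∀ i, χ i ≠ none → χ₁ i = χ i) (hd1 : ∀ i, χ₁ i ≠ none → χ i ≠ none ∨ i ∈ S) (i : ι)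
    (hmin : ∀ j ∈ S, key i ≤ key j)
    (hb : (E.filter fun j => adj i j ∧ χ j ≠ none).card
      + (T.filter fun j => adj i j ∧ key i ≤ key j).card + 1
      ≤ D + sav χ (E.filter fun j => adj i j ∧ χ j ≠ none)) :
    ∃ c : Fin D, ∀ j, adj i j → χ₁ j ≠ some c := by
  by_contra hcon
  push Not at hcon
  obtain ⟨Nc, hNc⟩ : ∃ Nc, Nc = E.filter fun j => adj i j ∧ χ j ≠ none := ⟨_, rfl⟩
  obtain ⟨F, hF⟩ : ∃ F, F = T.filter fun j => adj i j ∧ key i ≤ key j := ⟨_, rfl⟩
  rw [← hNc, ← hF] at hb
  have h1 : (univ : Finset (Fin D)).image some ⊆ Nc.image χ ∪ F.image χ₁ := by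
    intro o ho
    rw [mem_image] at ho
    obtain ⟨c, _, rfl⟩ := ho
    obtain ⟨j, hj, hjc⟩ := hcon c
    have hne : χ₁ j ≠ none := by rw [hjc]; exact Option.some_ne_none c
    rw [mem_union, mem_image, mem_image]
    rcases hd1 j hne with h | h
    · left
      refine ⟨j, ?_, by rw [← hext j h, hjc]⟩
      rw [hNc, mem_filter]
      exact ⟨hdom j h, hj, h⟩
    · right
      refine ⟨j, ?_, hjc⟩
      rw [hF, mem_filter]
      exact ⟨hST h, hj, hmin j h⟩
  have h2 := card_le_card h1
  rw [card_image_of_injective _ (Option.some_injective _), card_univ, Fintype.card_fin] at h2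
  have h3 := card_union_le (Nc.image χ) (F.image χ₁)
  have h4 : (F.image χ₁).card ≤ F.card := card_image_le
  have h5 : (Nc.image χ).card ≤ Nc.card := card_image_le
  have h6 : sav χ Nc = Nc.card - (Nc.image χ).card := by
    unfold sav
    have h7 : (Nc.filter fun i => χ i ≠ none) = Nc := by
      rw [Finset.filter_eq_self]
      intro j hj
      rw [hNc, mem_filter] at hj
      exact hj.2.2
    have e : ∀ (i1 i2 : DecidableEq (Option (Fin D))), (@Finset.image _ _ i1 χ Nc) = (@Finset.image _ _ i2 χ Nc) :=
      fun i1 i2 => by rw [Subsingleton.elim i1 i2]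
    rw [h7]
    exact congrArg (fun z : Finset (Option (Fin D)) => Nc.card - z.card) (e _ _)
  rw [h6] at hb
  omega

theorem a4_aux (adj : ι → ι → Prop) (hsym : ∀ i j, adj i j → adj j i) (hirr : ∀ i, ¬ adj i i)
    (D : ℕ) (E : Finset ι) (χ : ι → Option (Fin D)) (hχ : Proper adj χ)
    (hdom : ∀ i, χ i ≠ none → i ∈ E) (key : ι → ℕ) (T : Finset ι)
    (hT : ∀ i ∈ T, χ i = none)
    (hb : ∀ i ∈ T, (E.filter fun j => adj i j ∧ χ j ≠ none).card
      + (T.filter fun j => adj i j ∧ key i ≤ key j).card + 1
      ≤ D + sav χ (E.filter fun j => adj i j ∧ χ j ≠ none)) :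
    ∀ (n : ℕ) (S : Finset ι), S.card = n → S ⊆ T → (∀ i ∈ S, ∀ j ∈ T, key i < key j → j ∈ S) →
    ∃ χ' : ι → Option (Fin D), Proper adj χ' ∧ (∀ i, χ i ≠ none → χ' i = χ i) ∧
      (∀ i, χ' i ≠ none ↔ (χ i ≠ none ∨ i ∈ S)) := by
  intro n
  induction n with
  | zero =>
    intro S hS _ _
    rw [card_eq_zero] at hS
    subst hS
    exact ⟨χ, hχ, fun _ _ => rfl, fun i => by simp⟩
  | succ n ih =>
    intro S hS hST hup
    have hne : S.Nonempty := by
      rw [← card_pos]
      omega
    obtain ⟨i, hiS, hmin⟩ := exists_min_image S key hne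
    obtain ⟨χ₁, h1, h2, h3⟩ := ih (S.erase i) (by rw [card_erase_of_mem hiS]; omega)
      ((erase_subset _ _).trans hST) (by
        intro a ha j hj hlt
        rw [mem_erase] at ha ⊢
        refine ⟨?_, hup a ha.2 j hj hlt⟩
        rintro rfl
        have := hmin a ha.2
        omega)
    obtain ⟨c, hc⟩ := a4_colour adj D E χ χ₁ hdom key T (S.erase i) ((erase_subset _ _).trans hST) h2
      (fun j hj => (h3 j).1 hj) i (fun j hj => hmin j (mem_of_mem_erase hj)) (hb i (hST hiS))
    refine ⟨Function.update χ₁ i (some c), ?_, ?_, ?_⟩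
    · intro a b hab ha
      by_cases hai : a = i
      · subst hai
        have hba : b ≠ a := by
          rintro rfl
          exact hirr _ hab
        rw [Function.update_self, Function.update_of_ne hba]
        exact (hc b hab).symm
      · by_cases hbi : b = i
        · subst hbi
          rw [Function.update_self, Function.update_of_ne hai]
          exact hc a (hsym _ _ hab)
        · rw [Function.update_of_ne hai] at ha ⊢
          rw [Function.update_of_ne hbi]
          exact h1 a b hab ha
    · intro j hj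
      have hji : j ≠ i := by
        rintro rfl
        exact hj (hT _ (hST hiS))
      rw [Function.update_of_ne hji]
      exact h2 j hj
    · intro j
      by_cases hji : j = i
      · subst hji
        rw [Function.update_self]
        exact ⟨fun _ => Or.inr hiS, fun _ => Option.some_ne_none c⟩
      · rw [Function.update_of_ne hji, h3 j, mem_erase]
        constructor
        · rintro (h | h)
          · exact Or.inl h
          · exact Or.inr h.2
        · rintro (h | h)
          · exact Or.inl h
          · exact Or.inr ⟨hji, h⟩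

/-- Chunk A4 (M): **greedy completion** in descending order of the keys.

**Proof.** Induction over `T.card` for the following statement: for every `S ⊆ T` that is closed upwards
(`i ∈ S`, `j ∈ T`, `key i < key j → j ∈ S`) there is a proper `χ'` that extends `χ` and is defined exactly on
`dom χ ∪ S`. Empty `S`: `χ' = χ`. Otherwise let `i ∈ S` have the smallest key in `S`; `S' = S.erase i` is closed
upwards too (an element `j` with larger key than a member of `S'` has larger key than `i`, so `j ≠ i`); take
`χ''` for `S'`. The colours of the neighbours of `i` under `χ''`: those on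
`Nc = {j ∈ E : adj i j, χ j ≠ none}` are `|Nc| - sav χ Nc` many, the others are on
`{j ∈ S' : adj i j} ⊆ {j ∈ T : adj i j, key i ≤ key j}`. Together at most `D - 1` by `hb`, so a colour
`c : Fin D` is not used by a neighbour; define `χ' = update χ'' i (some c)`. Properness: pairs with `i` by the
choice of `c` and symmetry of `adj` (`adj i i` is excluded by `hirr`). -/
theorem a4_greedy (adj : ι → ι → Prop) (hsym : ∀ i j, adj i j → adj j i) (hirr : ∀ i, ¬ adj i i)
    (D : ℕ) (E : Finset ι) (χ : ι → Option (Fin D)) (hχ : Proper adj χ)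
    (hdom : ∀ i, χ i ≠ none → i ∈ E) (key : ι → ℕ) (T : Finset ι) (hTE : T ⊆ E)
    (hT : ∀ i ∈ T, χ i = none)
    (hb : ∀ i ∈ T, (E.filter fun j => adj i j ∧ χ j ≠ none).card
      + (T.filter fun j => adj i j ∧ key i ≤ key j).card + 1
      ≤ D + sav χ (E.filter fun j => adj i j ∧ χ j ≠ none)) :
    ∃ χ' : ι → Option (Fin D), Proper adj χ' ∧ (∀ i, χ i ≠ none → χ' i = χ i) ∧
      (∀ i, χ' i ≠ none ↔ (χ i ≠ none ∨ i ∈ T)) :=
  a4_aux adj hsym hirr D E χ hχ hdom key T hT hb T.card T rfl (Finset.Subset.refl _) (fun _ _ _ hj _ => hj)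

end Pool.Agent.Lib.BFE
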