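import Pool.Agent.Lib.BFE.Defs
import Pool.Agent.Lib.BFE.MDefs

set_option autoImplicit false
set_option linter.unusedSectionVars false

open Finset
open scoped Classical

namespace Pool.Agent.Lib.BFE

variable {V : Type} [DecidableEq V]

/-- Chunk A5 (S): the windows.

**Proof.** Induction: `bs b0 (i+1) = bs b0 i / 4 ≤ bs b0 i`. -/
theorem a5_anti (b0 i j : ℕ) (h : i ≤ j) : bs b0 j ≤ bs b0 i := by
  induction j, h using Nat.le_induction with
  | base => exact le_refl _
  | succ k _ ih =>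
    refine le_trans ?_ ih
    show bs b0 k / 4 ≤ bs b0 k
    exact Nat.div_le_self _ _

/-- **Proof.** Division by `4`: `4 * (x / 4) ≤ x ≤ 4 * (x / 4) + 3`. -/
theorem a5_div (b0 i : ℕ) : 4 * bs b0 (i + 1) ≤ bs b0 i ∧ bs b0 i ≤ 4 * bs b0 (i + 1) + 3 := by
  have h : bs b0 (i + 1) = bs b0 i / 4 := rfl
  rw [h]
  omega

/-- **Proof.** The sequence `bs b0 i` is non-increasing and reaches `0` (`bs (i+1) ≤ bs i / 4`); take the last
`i` with `K ≤ bs b0 i`; then `bs b0 (i+1) < K`, so `bs b0 i < 4 K + 4`. (Strong induction / `Nat.find`.) -/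
theorem a5_last (b0 K : ℕ) (hK : 1 ≤ K) (h : K ≤ b0) :
    ∃ i, K ≤ bs b0 i ∧ bs b0 i < 4 * K + 4 := by
  have key : ∀ n : ℕ, ∀ i : ℕ, bs b0 i = n → K ≤ n → ∃ j, K ≤ bs b0 j ∧ bs b0 j < 4 * K + 4 := by
    intro n
    induction n using Nat.strong_induction_on with
    | _ n ih =>
      intro i hi hn
      by_cases hlt : n < 4 * K + 4
      · exact ⟨i, by rw [hi]; exact hn, by rw [hi]; exact hlt⟩
      · have h1 : bs b0 (i + 1) = bs b0 i / 4 := rfl
        have h2 : bs b0 (i + 1) < n := by omega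
        have h3 : K ≤ bs b0 (i + 1) := by omega
        exact ih (bs b0 (i + 1)) h2 (i + 1) rfl h3
  exact key b0 0 rfl h

/-- Two windows do not overlap. **Proof.** If `bs (i+1) ≤ t < bs i` and `bs (j+1) ≤ t < bs j` and `i < j` then
`t < bs j ≤ bs (i+1) ≤ t` (`a5_anti`). -/
theorem a5_uniq (b0 i j t : ℕ) (h1 : bs b0 (i + 1) ≤ t) (h2 : t < bs b0 i)
    (h3 : bs b0 (j + 1) ≤ t) (h4 : t < bs b0 j) : i = j := by
  rcases lt_trichotomy i j with hij | hij | hij
  · have := a5_anti b0 (i + 1) j hij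
    omega
  · exact hij
  · have := a5_anti b0 (j + 1) i hij
    omega

/-- **Proof.** A lazy edge has `|g| < bs b0 i ≤ b0`. -/
theorem a5_lazy_lt {E : Finset (Finset V)} {D G b0 : ℕ} {g : Finset V} (h : Lazy E D G b0 g) :
    g.card < b0 := by
  obtain ⟨i, _, h2, _⟩ := h
  exact lt_of_lt_of_le h2 (a5_anti b0 0 i (Nat.zero_le i))

/-- **Proof.** `a5_uniq`: the index in the definition of `Lazy` is `i`. -/
theorem a5_not_lazy {E : Finset (Finset V)} {D G b0 i : ℕ} {g : Finset V}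
    (h : ¬ Lazy E D G b0 g) (h1 : bs b0 (i + 1) ≤ g.card) (h2 : g.card < bs b0 i) :
    20 * NN E g (bs b0 i + G) ≤ D := by
  by_contra hc
  exact h ⟨i, h1, h2, lt_of_not_ge hc⟩

/-- **Proof.** Definition of the key. -/
theorem a5_key_le (E : Finset (Finset V)) (D C G b0 : ℕ) (g : Finset V) :
    key E D C G b0 g ≤ g.card ∧ g.card ≤ key E D C G b0 g + C := by
  unfold key
  split
  · omega
  · omega

end Pool.Agent.Lib.BFE
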