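import Pool.Agent.Lib.BFE.Defs
import Pool.Agent.Lib.BFE.MDefs
import Pool.Agent.Lib.BFE.A1
import Pool.Agent.Lib.BFE.A5

set_option autoImplicit false
set_option linter.unusedSectionVars false

open Finset
open scoped Classical

namespace Pool.Agent.Lib.BFE

variable {V : Type} [DecidableEq V]

/-- the volume bound for the neighbours with at least `a` vertices, split at `u` and `w` -/
theorem b1_vol {E : Finset (Finset V)} {D : ℕ} (H : Hyp E D) {f : Finset V} (hf : f ∈ E)
    (a u w z : ℕ) (hau : a ≤ u) (huw : u + z ≤ w) (hu : 1 ≤ u) :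
    (a - 1) * BB E f a u + (u - 1) * NN E f u + z * NN E f w ≤ f.card * (D - f.card) := by
  have h1 := a1_vol H hf (E.filter fun g => Nb f g ∧ a ≤ g.card)
    (fun g hg => ⟨(mem_filter.1 hg).1, (mem_filter.1 hg).2.1⟩)
  refine le_trans ?_ h1
  have h2 : (a - 1) * BB E f a u = ∑ g ∈ E.filter (fun g => Nb f g ∧ a ≤ g.card),
      (if g.card < u then a - 1 else 0) := by
    rw [← Finset.sum_filter, Finset.filter_filter, Finset.sum_const, smul_eq_mul, mul_comm]
    unfold BB
    have e : (E.filter fun g => Nb f g ∧ a ≤ g.card ∧ g.card < u) =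
        E.filter fun g => (Nb f g ∧ a ≤ g.card) ∧ g.card < u := by
      apply Finset.filter_congr
      intro g _
      tauto
    rw [e]
  have h3 : (u - 1) * NN E f u = ∑ g ∈ E.filter (fun g => Nb f g ∧ a ≤ g.card),
      (if u ≤ g.card then u - 1 else 0) := by
    rw [← Finset.sum_filter, Finset.filter_filter, Finset.sum_const, smul_eq_mul, mul_comm]
    unfold NN
    have e : (E.filter fun g => Nb f g ∧ u ≤ g.card) =
        E.filter fun g => (Nb f g ∧ a ≤ g.card) ∧ u ≤ g.card := by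
      apply Finset.filter_congr
      intro g _
      constructor
      · intro h
        exact ⟨⟨h.1, by omega⟩, h.2⟩
      · intro h
        exact ⟨h.1.1, h.2⟩
    rw [e]
  have h4 : z * NN E f w = ∑ g ∈ E.filter (fun g => Nb f g ∧ a ≤ g.card),
      (if w ≤ g.card then z else 0) := by
    rw [← Finset.sum_filter, Finset.filter_filter, Finset.sum_const, smul_eq_mul, mul_comm]
    unfold NN
    have e : (E.filter fun g => Nb f g ∧ w ≤ g.card) =
        E.filter fun g => (Nb f g ∧ a ≤ g.card) ∧ w ≤ g.card := by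
      apply Finset.filter_congr
      intro g _
      constructor
      · intro h
        exact ⟨⟨h.1, by omega⟩, h.2⟩
      · intro h
        exact ⟨h.1.1, h.2⟩
    rw [e]
  rw [h2, h3, h4, ← Finset.sum_add_distrib, ← Finset.sum_add_distrib]
  apply Finset.sum_le_sum
  intro g hg
  have hg2 := (mem_filter.1 hg).2.2
  split_ifs <;> omega

/-- the arithmetic of `b1_lazy` -/
theorem b1_arith {D M R l C G u a t N B N1 : ℕ} (M1 : M * M ≤ D - 1) (R1 : R * R ≤ M)
    (big : 10 ^ 12 * (l + G + 1) ≤ R) (G1 : G = 20 * C + 40) (ht : t = u + C) (htM : t ≤ M)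
    (hD : 1 ≤ D) (hN1 : D < 20 * N1) (ha : 1000 * G ≤ a) (hua : u ≤ 4 * a + 3 + G) (hau : a + G ≤ u)
    (hv : (a - 1) * B + (u - 1) * N + (G + C + 1) * N1 ≤ t * (D - t)) :
    5000 * N + B + 10000 * l ≤ 5000 * (D - 1) := by
  obtain ⟨x, rfl⟩ : ∃ x, u = x + 1 := ⟨u - 1, by omega⟩
  obtain ⟨y, rfl⟩ : ∃ y, a = y + 1 := ⟨a - 1, by omega⟩
  obtain ⟨d, rfl⟩ : ∃ d, D = d + 1 := ⟨D - 1, by omega⟩
  simp only [Nat.add_sub_cancel] at *
  have hx : x ≤ 5000 * y := by omega
  have hx0 : 0 < x := by omega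
  have h1 : t * (d + 1 - t) ≤ t * (d + 1) := Nat.mul_le_mul_left _ (Nat.sub_le _ _)
  have h2 : x * B ≤ 5000 * y * B := Nat.mul_le_mul_right _ hx
  have hRM : R ≤ M := le_trans (Nat.le_mul_self R) R1
  have h3 : (10000 * l + 5000) * x ≤ 250 * 21 * (d + 1) := by
    have h31 : (10000 * l + 5000) * x ≤ M * M := by
      apply Nat.mul_le_mul
      · omega
      · omega
    omega
  have h4 : (G + C + 1) * (d + 2) ≤ (G + C + 1) * (20 * N1) := Nat.mul_le_mul_left _ (by omega)
  refine Nat.le_of_mul_le_mul_left ?_ hx0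
  subst ht
  subst G1
  nlinarith [h1, h2, h3, h4, hv]

/-- Chunk B1 (M): a lazy edge has slack although it is delayed.

**Proof.** Let `t = |f|`, `u = key f = t - C` (so `t = u + C`, since `u ≥ a + G > 0`), and let `i` be the index
of `Lazy`: `t < bs i =: T`, `D < 20 N₁` with `N₁ = NN E f (T + G)`. Volume (`a1_vol`) of all neighbours with at
least `a` vertices: those with size in `[a, u)` contribute at least `a - 1` each, those with size `≥ u` at least
`u - 1`, and the `N₁` with size `≥ T + G ≥ u + C + 1 + G` at least `(u - 1) + (G + C + 1)`. So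
`(u - 1) NN(u) + (G + C + 1) N₁ + (a - 1) BB ≤ t (D - t) ≤ (u + C) D`; with `20 N₁ ≥ D` and
`G + C + 1 = 21 C + 41`: `20 (u - 1) NN + 20 (a - 1) BB ≤ 20 (u - 1) D - (C + 21) D`. As
`u - 1 ≤ b + G ≤ 4 a + 3 + G ≤ 5000 (a - 1)` we get
`(u - 1) (5000 NN + BB + 10000 l) ≤ 5000 (u - 1) D - 250 (C + 21) D + 10000 l (u - 1) ≤ 5000 (u - 1) (D - 1)`,
because `u ≤ t < b0 ≤ M` and `(10000 l + 5000) M ≤ 250 * 21 * D` (`Par.big`, `M² ≤ D`, `R ≤ M`). -/
theorem b1_lazy {E : Finset (Finset V)} {D M R l C G b0 K0 : ℕ} (H : Hyp E D)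
    (P : Par D M R l C G b0 K0) {f : Finset V} (hf : f ∈ E) (hL : Lazy E D G b0 f) (a b : ℕ)
    (hab : b ≤ 4 * a + 3) (ha : K0 ≤ a) (h1 : a + G ≤ key E D C G b0 f)
    (h2 : key E D C G b0 f < b + G) :
    5000 * NN E f (key E D C G b0 f) + BB E f a (key E D C G b0 f) + 10000 * l
      ≤ 5000 * (D - 1) := by
  obtain ⟨i, hi1, hi2, hi3⟩ := id hL
  have hkey : key E D C G b0 f = f.card - C := by
    unfold key
    rw [if_pos hL]
  obtain ⟨u, hu⟩ : ∃ u, u = key E D C G b0 f := ⟨_, rfl⟩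
  rw [← hu] at h1 h2 ⊢
  rw [← hu] at hkey
  have hK1 := P.K1
  have hK2 := P.K2
  have hC := P.C1
  have hG := P.G1
  have ht : f.card = u + C := by omega
  have hT : u + (G + C + 1) ≤ bs b0 i + G := by omega
  have hv := b1_vol H hf a u (bs b0 i + G) (G + C + 1) (by omega) hT (by omega)
  have hb : bs b0 i ≤ b0 := a5_anti b0 0 i (Nat.zero_le i)
  have hz := P.z1
  exact b1_arith P.M1 P.R1 P.big P.G1 ht (by omega) H.D_pos hi3 (by omega) (by omega) h1 hv

end Pool.Agent.Lib.BFE
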