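import Pool.Agent.Lib.BFE.Defs
import Pool.Agent.Lib.BFE.MDefs
import Pool.Agent.Lib.BFE.A1
import Pool.Agent.Lib.BFE.A5

set_option autoImplicit false
set_option linter.unusedSectionVars false

open Finset
open scoped Classical

namespace Pool.Agent.Lib.BFE

variable {V : Type} [DecidableEq V]

/-- the inequality at one vertex of `f` -/
lemma b2_vertex {E : Finset (Finset V)} {D : ℕ} (H : Hyp E D) {f : Finset V} (hf : f ∈ E) (a : ℕ)
    {w : V} (hw : w ∈ f) :
    (f.card - 1) * ((E.filter fun g => Nb f g ∧ f.card ≤ g.card).filter fun g => w ∈ g).card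
      + (a - 1) * ((E.filter fun g => Nb f g ∧ a ≤ g.card ∧ g.card < f.card).filter
          fun g => w ∈ g).card + f.card ≤ D := by
  have h := a1_vert H hf hw
  set S := (E.filter fun g => Nb f g ∧ f.card ≤ g.card).filter fun g => w ∈ g with hS
  set T := (E.filter fun g => Nb f g ∧ a ≤ g.card ∧ g.card < f.card).filter
    fun g => w ∈ g with hT
  have hdisj : Disjoint S T := by
    rw [Finset.disjoint_left]
    intro g hg hg'
    simp only [hS, hT, mem_filter] at hg hg'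
    omega
  have hsub : S ∪ T ⊆ E.filter (fun g => w ∈ g ∧ g ≠ f) := by
    intro g hg
    rw [mem_union] at hg
    rw [mem_filter]
    rcases hg with hg | hg
    · simp only [hS, mem_filter] at hg
      exact ⟨hg.1.1, hg.2, fun h => hg.1.2.1.1 h.symm⟩
    · simp only [hT, mem_filter] at hg
      exact ⟨hg.1.1, hg.2, fun h => hg.1.2.1.1 h.symm⟩
  have h1 : ∑ g ∈ S ∪ T, (g.card - 1) ≤ ∑ g ∈ E.filter (fun g => w ∈ g ∧ g ≠ f), (g.card - 1) :=
    sum_le_sum_of_subset hsub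
  rw [sum_union hdisj] at h1
  have h2 : (f.card - 1) * S.card ≤ ∑ g ∈ S, (g.card - 1) := by
    rw [mul_comm, ← smul_eq_mul]
    refine card_nsmul_le_sum _ _ _ fun g hg => ?_
    simp only [hS, mem_filter] at hg
    omega
  have h3 : (a - 1) * T.card ≤ ∑ g ∈ T, (g.card - 1) := by
    rw [mul_comm, ← smul_eq_mul]
    refine card_nsmul_le_sum _ _ _ fun g hg => ?_
    simp only [hT, mem_filter] at hg
    omega
  omega

/-- the arithmetic at one vertex of `f` -/
lemma b2_arith {D s a q F B : ℕ} (hs : 2 ≤ s) (hq : q = (D - 1) / (s - 1)) (ha : s - 1 ≤ 5 * (a - 1))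
    (h : (s - 1) * F + (a - 1) * B + s ≤ D) : B + 5000 * F ≤ 5000 * (q - 1) + 5 := by
  obtain ⟨m, rfl⟩ : ∃ m, s = m + 1 := ⟨s - 1, by omega⟩
  rw [Nat.add_sub_cancel] at hq ha h
  have hm : 0 < m := by omega
  have h1 : D - 1 < m * (q + 1) := by
    rw [hq]
    exact Nat.lt_mul_div_succ _ hm
  have h2 : m * (F + 1) + (a - 1) * B < m * (q + 1) := by
    rw [mul_add, mul_one]
    omega
  have h3 : F + 1 < q + 1 := by
    refine lt_of_mul_lt_mul_left (a := m) ?_ (Nat.zero_le _)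
    omega
  obtain ⟨k, rfl⟩ : ∃ k, q = F + 1 + k := ⟨q - (F + 1), by omega⟩
  have h4 : (a - 1) * B < (a - 1) * (5 * (k + 1)) := by
    have h5 : m * (F + 1 + k + 1) = m * (F + 1) + m * (k + 1) := by ring
    have h6 : m * (k + 1) ≤ 5 * (a - 1) * (k + 1) := Nat.mul_le_mul_right _ ha
    have h7 : 5 * (a - 1) * (k + 1) = (a - 1) * (5 * (k + 1)) := by ring
    omega
  have h8 : B < 5 * (k + 1) := lt_of_mul_lt_mul_left h4 (Nat.zero_le _)
  omega

/-- Chunk B2 (M): the zone.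

**Proof.** `s = |f|`, `m = s - 1`, `q = (D - 1) / m`, `r = (D - 1) % m < m`, `a = b0 / 4`. For `w ∈ f` let `F w`,
`β w` be the numbers of `g ∋ w`, `g ≠ f` with `|g| ≥ s` resp. `a ≤ |g| < s`. `a1_vert`:
`m (F w + 1) + (a - 1) β w ≤ D - 1 = q m + r`. So `F w + 1 ≤ q`; put `δ w = q - 1 - F w`:
`(a - 1) β w ≤ r + m δ w ≤ m (1 + δ w) ≤ 5 (a - 1) (1 + δ w)` (`m < b0 + G ≤ 5 (a - 1)`), so
`β w ≤ 5 + 5 δ w`. Sum over `w ∈ f` (`a1_sum`): `NN = s (q - 1) - Δ`, `BB ≤ 5 s + 5 Δ`, `Δ = ∑ δ`. Hence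
`5000 NN + BB + 10000 l ≤ 5000 s (q - 1) + 5 s + 10000 l` and by `Par.zone`
`5000 s (q - 1) ≤ 5000 D - 625 M`; finally `5 s + 10000 l + 5000 ≤ 625 M` (`s ≤ b0 + G ≤ M`: `z1`, `big`). -/
theorem b2_zone {E : Finset (Finset V)} {D M R l C G b0 K0 : ℕ} (H : Hyp E D)
    (P : Par D M R l C G b0 K0) {f : Finset V} (hf : f ∈ E) (h1 : b0 ≤ f.card + C)
    (h2 : f.card ≤ b0 + G) :
    5000 * NN E f f.card + BB E f (b0 / 4) f.card + 10000 * l ≤ 5000 * (D - 1) := by
  have hs2 : 2 ≤ f.card := H.size f hf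
  have hbig := P.big
  have hR1 := P.R1
  have hz1 := P.z1
  have hz2 := P.z2
  have hR : 2 ≤ R := by omega
  have hRR : R + R ≤ R * R := by nlinarith
  have hb0 : R ≤ b0 := by omega
  have hG : f.card - 1 ≤ 5 * (b0 / 4 - 1) := by omega
  have hzone := P.zone f.card h1 h2
  have hN : NN E f f.card = ∑ w ∈ f,
      ((E.filter fun g => Nb f g ∧ f.card ≤ g.card).filter fun g => w ∈ g).card := by
    have h := a1_sum H hf (E.filter fun g => Nb f g ∧ f.card ≤ g.card)
      (fun g hg => by rw [mem_filter] at hg; exact ⟨hg.1, hg.2.1⟩) (fun _ => 1)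
    simp only [sum_const, smul_eq_mul, mul_one] at h
    rw [h]
    rfl
  have hB : BB E f (b0 / 4) f.card = ∑ w ∈ f,
      ((E.filter fun g => Nb f g ∧ b0 / 4 ≤ g.card ∧ g.card < f.card).filter
        fun g => w ∈ g).card := by
    have h := a1_sum H hf (E.filter fun g => Nb f g ∧ b0 / 4 ≤ g.card ∧ g.card < f.card)
      (fun g hg => by rw [mem_filter] at hg; exact ⟨hg.1, hg.2.1⟩) (fun _ => 1)
    simp only [sum_const, smul_eq_mul, mul_one] at h
    rw [h]
    rfl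
  have hsum : BB E f (b0 / 4) f.card + 5000 * NN E f f.card
      ≤ f.card * (5000 * ((D - 1) / (f.card - 1) - 1) + 5) := by
    rw [hN, hB, mul_sum, ← sum_add_distrib, ← smul_eq_mul]
    exact sum_le_card_nsmul _ _ _ fun w hw => b2_arith hs2 rfl hG (b2_vertex H hf (b0 / 4) hw)
  have h5 : f.card * (5000 * ((D - 1) / (f.card - 1) - 1) + 5)
      = 625 * (8 * (f.card * ((D - 1) / (f.card - 1) - 1))) + 5 * f.card := by ring
  rw [h5] at hsum
  omega

end Pool.Agent.Lib.BFE
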