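import Pool.Agent.Lib.BFE.Defs
import Pool.Agent.Lib.BFE.MDefs
import Pool.Agent.Lib.BFE.A1

set_option autoImplicit false
set_option linter.unusedSectionVars false

open Finset
open scoped Classical

namespace Pool.Agent.Lib.BFE

variable {V : Type} [DecidableEq V]

/-- Chunk B3 (S/M): sizes above `M + l`.

**Proof.** `s = |f|`; volume (`a1_vol`): `(s - 1) NN(s) + (b0 - 1) BB ≤ s (D - s)`. As `s - 1 ≤ 5000 (b0 - 1)`
(`b0 ≥ M - R`, `s ≤ 4000 M`): `(s - 1) (5000 NN + BB + 5000 l) ≤ 5000 (s - 1) NN + 5000 (b0 - 1) BB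
+ 5000 l (s - 1) ≤ 5000 (s (D - s) + l (s - 1))`, and `s (D - s) + l (s - 1) ≤ (s - 1) (D - 1)` is
`D - 1 ≤ (s - 1) (s - l)`, true since `s - 1 ≥ M + 1`, `s - l ≥ M + 2` and `D - 1 ≤ M² + 2 M` (`M2`). -/
theorem b3_top {E : Finset (Finset V)} {D M R l C G b0 K0 : ℕ} (H : Hyp E D)
    (P : Par D M R l C G b0 K0) {f : Finset V} (hf : f ∈ E) (h1 : M + l + 2 ≤ f.card)
    (h2 : f.card ≤ 4000 * M) :
    5000 * NN E f f.card + BB E f b0 f.card + 5000 * l ≤ 5000 * (D - 1) := by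
  obtain ⟨s, hs⟩ : ∃ s, s = f.card := ⟨_, rfl⟩
  have hD := a1_card_le H hf
  have hv := a1_vol H hf (E.filter fun g => Nb f g ∧ b0 ≤ g.card) fun g hg => by
    rw [mem_filter] at hg
    exact ⟨hg.1, hg.2.1⟩
  have hR : 10 ^ 12 ≤ R := by
    have := P.big
    nlinarith [Nat.zero_le l, Nat.zero_le G]
  have hM : 10 ^ 12 * R ≤ M := by
    have := P.R1
    nlinarith
  have hb1 : b0 ≤ M := by have := P.z1; omega
  have hb2 : M ≤ b0 + R := P.z2
  have hsplit : (f.card - 1) * NN E f f.card + (b0 - 1) * BB E f b0 f.card ≤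
      ∑ g ∈ E.filter (fun g => Nb f g ∧ b0 ≤ g.card), (g.card - 1) := by
    have hU : E.filter (fun g => Nb f g ∧ b0 ≤ g.card) =
        (E.filter fun g => Nb f g ∧ f.card ≤ g.card) ∪ (E.filter fun g => Nb f g ∧ b0 ≤ g.card ∧ g.card < f.card) := by
      ext g
      simp only [mem_union, mem_filter]
      constructor
      · rintro ⟨h3, h4, h5⟩
        by_cases h6 : f.card ≤ g.card
        · exact Or.inl ⟨h3, h4, h6⟩
        · exact Or.inr ⟨h3, h4, h5, by omega⟩
      · rintro (⟨h3, h4, h5⟩ | ⟨h3, h4, h5, -⟩)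
        · exact ⟨h3, h4, by omega⟩
        · exact ⟨h3, h4, h5⟩
    have hdis : Disjoint (E.filter fun g => Nb f g ∧ f.card ≤ g.card) (E.filter fun g => Nb f g ∧ b0 ≤ g.card ∧ g.card < f.card) := by
      rw [Finset.disjoint_left]
      intro g hg hg'
      rw [mem_filter] at hg hg'
      omega
    rw [hU, sum_union hdis]
    refine add_le_add ?_ ?_
    · unfold NN
      rw [mul_comm, ← smul_eq_mul]
      refine card_nsmul_le_sum _ _ _ fun g hg => ?_
      rw [mem_filter] at hg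
      omega
    · unfold BB
      rw [mul_comm, ← smul_eq_mul]
      refine card_nsmul_le_sum _ _ _ fun g hg => ?_
      rw [mem_filter] at hg
      omega
  have h3 := hsplit.trans hv
  rw [← hs] at h1 h2 hD h3 ⊢
  obtain ⟨x, hx⟩ : ∃ x, x = NN E f s := ⟨_, rfl⟩
  obtain ⟨y, hy⟩ : ∃ y, y = BB E f b0 s := ⟨_, rfl⟩
  rw [← hx, ← hy] at h3 ⊢
  have hM2 := P.M2
  have h5 : s - 1 ≤ 5000 * (b0 - 1) := by omega
  obtain ⟨u, hu⟩ : ∃ u, s = u + 1 := ⟨s - 1, by omega⟩
  obtain ⟨w, hw⟩ : ∃ w, D = s + w := ⟨D - s, by omega⟩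
  have e1 : D - s = w := by omega
  have e2 : s - 1 = u := by omega
  have e3 : D - 1 = u + w := by omega
  obtain ⟨z, hz⟩ : ∃ z, s = z + l := ⟨s - l, by omega⟩
  rw [e1, e2] at h3
  rw [e2] at h5
  rw [e3] at hM2 ⊢
  have h6 : u + w ≤ u * z := by
    have h7 : M + 1 ≤ u := by omega
    have h8 : M + 1 ≤ z := by omega
    have h9 : (M + 1) * (M + 1) ≤ u * z := Nat.mul_le_mul h7 h8
    omega
  have h10 : s * w + l * u ≤ u * (u + w) := by
    have h12 : u * s = u * z + u * l := by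
      rw [hz, Nat.mul_add]
    have h13 : u * s = u * u + u := by
      rw [hu, Nat.mul_add, Nat.mul_one]
    have h14 : s * w = u * w + w := by
      rw [hu, Nat.add_mul, Nat.one_mul]
    have h15 : u * (u + w) = u * u + u * w := Nat.mul_add _ _ _
    have h16 : l * u = u * l := Nat.mul_comm _ _
    omega
  have hu0 : 0 < u := by omega
  refine le_of_mul_le_mul_left (a := u) ?_ hu0
  calc u * (5000 * x + y + 5000 * l) = 5000 * (u * x) + u * y + 5000 * (l * u) := by ring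
    _ ≤ 5000 * (u * x) + 5000 * (b0 - 1) * y + 5000 * (l * u) := by
        have := Nat.mul_le_mul_right y h5
        omega
    _ = 5000 * (u * x + (b0 - 1) * y) + 5000 * (l * u) := by ring
    _ ≤ 5000 * (s * w) + 5000 * (l * u) := by
        have := Nat.mul_le_mul_left 5000 h3
        omega
    _ ≤ u * (5000 * (u + w)) := by
        have h17 := Nat.mul_le_mul_left 5000 h10
        have h18 : u * (5000 * (u + w)) = 5000 * (u * (u + w)) := by ring
        rw [h18]
        omega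

/-- **Proof.** `s = |f|`: `(s - 1) NN(s) ≤ s (D - s) ≤ (s - 1) (D - 1)`, because
`s (s - 1) ≥ (M + 2) (M + 1) > D - 1`. -/
theorem b3_huge {E : Finset (Finset V)} {D M R l C G b0 K0 : ℕ} (H : Hyp E D)
    (P : Par D M R l C G b0 K0) {f : Finset V} (hf : f ∈ E) (h1 : M + 2 ≤ f.card) :
    NN E f f.card ≤ D - 1 := by
  have hD := a1_card_le H hf
  have hv := a1_count H hf (E.filter fun g => Nb f g ∧ f.card ≤ g.card) f.card fun g hg => by
    rw [mem_filter] at hg
    exact ⟨hg.1, hg.2.1, hg.2.2⟩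
  have hM2 := P.M2
  have hDp := H.D_pos
  change (E.filter fun g => Nb f g ∧ f.card ≤ g.card).card ≤ D - 1
  obtain ⟨x, hx⟩ : ∃ x, x = (E.filter fun g => Nb f g ∧ f.card ≤ g.card).card := ⟨_, rfl⟩
  rw [← hx] at hv ⊢
  obtain ⟨s, hs⟩ : ∃ s, s = f.card := ⟨_, rfl⟩
  rw [← hs] at hv hD h1
  by_contra hc
  have h2 : D ≤ x := by omega
  have h3 : (s - 1) * D ≤ s * (D - s) := (Nat.mul_le_mul_left _ h2).trans hv
  obtain ⟨u, hu⟩ : ∃ u, s = u + 1 := ⟨s - 1, by omega⟩
  obtain ⟨w, hw⟩ : ∃ w, D = s + w := ⟨D - s, by omega⟩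
  have e1 : D - s = w := by omega
  have e2 : s - 1 = u := by omega
  rw [e1, e2, hw] at h3
  have h4 : (M + 1) * (M + 1) ≤ u * s := Nat.mul_le_mul (by omega) (by omega)
  have h5 : u * (s + w) = u * s + u * w := Nat.mul_add _ _ _
  have h6 : s * w = u * w + w := by
    rw [hu, Nat.add_mul, Nat.one_mul]
  omega

end Pool.Agent.Lib.BFE
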