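import Pool.Agent.Lib.Prob48.Basic
import Pool.Agent.Lib.Prob48.LLL
import Pool.Agent.Lib.Prob48.Freedman

/-!
# BFE (Berge-Fueredi for hypergraphs with degrees at most `(1 - eps) D`): general definitions

Plan of the project: `PROOF.md`.
-/

set_option autoImplicit false
set_option linter.unusedSectionVars false

open Finset
open scoped Classical

namespace Pool.Agent.Lib.BFE

open Pool.Agent.Lib.Prob48 (Weights)

/-! ## Partial colourings -/

section Col

variable {ι C : Type}

/-- a partial colouring is proper for the conflict relation `adj` -/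
def Proper (adj : ι → ι → Prop) (χ : ι → Option C) : Prop :=
  ∀ i j, adj i j → χ i ≠ none → χ i ≠ χ j

/-- number of colours saved by `χ` on `A`: coloured elements minus colours used -/
noncomputable def sav (χ : ι → Option C) (A : Finset ι) : ℕ :=
  (A.filter fun i => χ i ≠ none).card - ((A.filter fun i => χ i ≠ none).image χ).card

/-- number of ordered pairs of different non-adjacent elements of `A` -/
noncomputable def n2 (adj : ι → ι → Prop) (A : Finset ι) : ℕ :=
  ((A ×ˢ A).filter fun z => z.1 ≠ z.2 ∧ ¬ adj z.1 z.2).card

end Col

/-! ## Random colourings (module RS): every element picks at most one colour -/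

section Pick

variable {ι C : Type} [Fintype ι] [DecidableEq ι] [Fintype C] [DecidableEq C]

/-- `i` picks the colour `c` with probability `q i c` (and no colour with the remaining one) -/
structure Pick (ι C : Type) [Fintype C] where
  q : ι → C → ℝ
  nonneg : ∀ i c, 0 ≤ q i c
  sum_le : ∀ i, ∑ c, q i c ≤ 1

/-- the product measure on `ι → Option C` -/
noncomputable def Pick.mu (Q : Pick ι C) : Weights (fun _ : ι => Option C) where
  w i o := match o with
    | none => 1 - ∑ c, Q.q i c
    | some c => Q.q i c
  nonneg i o := by
    cases o with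
    | none => simpa using Q.sum_le i
    | some c => exact Q.nonneg i c
  sum_one i := by
    rw [Fintype.sum_option]
    simp

lemma Pick.q_le_one (Q : Pick ι C) (i : ι) (c : C) : Q.q i c ≤ 1 :=
  (single_le_sum (f := fun c => Q.q i c) (fun c _ => Q.nonneg i c) (mem_univ c)).trans (Q.sum_le i)

/-- independent coins with success probabilities `p i` -/
noncomputable def coin {κ : Type} (p : κ → ℝ) (h0 : ∀ i, 0 ≤ p i) (h1 : ∀ i, p i ≤ 1) :
    Weights (fun _ : κ => Bool) where
  w i b := if b then p i else 1 - p i
  nonneg i b := by
    cases b with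
    | false => simpa using h1 i
    | true => simpa using h0 i
  sum_one i := by simp

/-- the coins of the colour `c` -/
noncomputable def Pick.nu (Q : Pick ι C) (c : C) : Weights (fun _ : ι => Bool) :=
  coin (fun i => Q.q i c) (fun i => Q.nonneg i c) (fun i => Q.q_le_one i c)

/-- who picks the colour `c` -/
def ind (c : C) (ω : ι → Option C) : ι → Bool := fun i => decide (ω i = some c)

/-- there is a non-adjacent pair in `A` of which both elements are marked -/
def HasPair (adj : ι → ι → Prop) (A : Finset ι) (x : ι → Bool) : Prop :=
  ∃ i ∈ A, ∃ j ∈ A, i ≠ j ∧ ¬ adj i j ∧ x i = true ∧ x j = true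

/-- there is a non-adjacent pair in `A` of which both elements are marked, and a marked neighbour
of the first of them -/
def HasConf (adj : ι → ι → Prop) (A : Finset ι) (x : ι → Bool) : Prop :=
  ∃ i ∈ A, ∃ j ∈ A, i ≠ j ∧ ¬ adj i j ∧ x i = true ∧ x j = true ∧ ∃ h, adj i h ∧ x h = true

/-- number of colours picked by a non-adjacent pair of `A` -/
noncomputable def XX (adj : ι → ι → Prop) (A : Finset ι) (ω : ι → Option C) : ℕ :=
  (univ.filter fun c : C => HasPair adj A (ind c ω)).card

/-- number of colours picked by a non-adjacent pair of `A` and a neighbour of one of them -/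
noncomputable def YY (adj : ι → ι → Prop) (A : Finset ι) (ω : ι → Option C) : ℕ :=
  (univ.filter fun c : C => HasConf adj A (ind c ω)).card

/-- the weight of the non-adjacent ordered pairs of `A` for the colour `c` -/
noncomputable def Pick.S2c (Q : Pick ι C) (adj : ι → ι → Prop) (A : Finset ι) (c : C) : ℝ :=
  ∑ z ∈ (A ×ˢ A).filter (fun z => z.1 ≠ z.2 ∧ ¬ adj z.1 z.2), Q.q z.1 c * Q.q z.2 c

/-- total weight of the non-adjacent ordered pairs of `A` -/
noncomputable def Pick.S2 (Q : Pick ι C) (adj : ι → ι → Prop) (A : Finset ι) : ℝ :=
  ∑ c, Q.S2c adj A c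

end Pick

end Pool.Agent.Lib.BFE
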