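import Pool.Agent.Lib.BFE.Defs

set_option autoImplicit false
set_option linter.unusedSectionVars false

open Finset
open scoped Classical

namespace Pool.Agent.Lib.BFE

open Pool.Agent.Lib.Prob48 (Weights)

/-!
## Module NT (weighted list nibble for linear hypergraphs with bounded edges)

`ι` is the set of edges, `vt i` the vertex set of the edge `i`. In one round every uncoloured edge `i`
receives every colour `c` with probability `θ * x i c`, independently. It retains a received colour that no
neighbour receives. The weight of a colour is divided by the probability that no neighbour receives it, and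
becomes `0` if a neighbour receives it.
-/

variable {ι V C : Type} [Fintype ι] [DecidableEq ι] [DecidableEq V] [Fintype C] [DecidableEq C]

/-- edges have at most `K` vertices, two edges have at most one common vertex -/
structure LinSys (vt : ι → Finset V) (K : ℕ) : Prop where
  card_le : ∀ i, (vt i).card ≤ K
  lin : ∀ i j, i ≠ j → (vt i ∩ vt j).card ≤ 1

/-- different edges that meet -/
def adjV (vt : ι → Finset V) (i j : ι) : Prop := i ≠ j ∧ ¬ Disjoint (vt i) (vt j)

/-- independent coins with clipped success probabilities -/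
noncomputable def coinc {κ : Type} (p : κ → ℝ) : Weights (fun _ : κ => Bool) :=
  coin (fun i => max 0 (min 1 (p i))) (fun _ => le_max_left _ _)
    (fun _ => max_le zero_le_one (min_le_left _ _))

/-- the coins `(i, c)` of one round -/
noncomputable def muN (θ : ℝ) (x : ι → C → ℝ) : Weights (fun _ : ι × C => Bool) :=
  coinc (fun z => θ * x z.1 z.2)

/-- `i` receives `c` -/
def rcv (x : ι → C → ℝ) (ω : ι × C → Bool) (i : ι) (c : C) : Prop := ω (i, c) = true ∧ 0 < x i c

/-- no neighbour of `i` receives `c` -/
def free (vt : ι → Finset V) (x : ι → C → ℝ) (ω : ι × C → Bool) (i : ι) (c : C) : Prop :=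
  ∀ j, adjV vt i j → ¬ rcv x ω j c

/-- no neighbour of `i` that misses `v` receives `c` -/
def freeOff (vt : ι → Finset V) (x : ι → C → ℝ) (v : V) (ω : ι × C → Bool) (i : ι) (c : C) : Prop :=
  ∀ j, adjV vt i j → v ∉ vt j → ¬ rcv x ω j c

/-- `i` retains `c` -/
def rtn (vt : ι → Finset V) (x : ι → C → ℝ) (ω : ι × C → Bool) (i : ι) (c : C) : Prop :=
  rcv x ω i c ∧ free vt x ω i c

/-- the probability that no neighbour of `i` receives `c` -/
noncomputable def keep (vt : ι → Finset V) (θ : ℝ) (x : ι → C → ℝ) (i : ι) (c : C) : ℝ :=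
  ∏ j ∈ univ.filter (fun j => adjV vt i j), (1 - θ * x j c)

/-- the new weight if no neighbour receives `c` -/
noncomputable def wt (vt : ι → Finset V) (θ : ℝ) (x : ι → C → ℝ) (i : ι) (c : C) : ℝ :=
  x i c / keep vt θ x i c

/-- the weights after the round, before the coloured edges are removed -/
noncomputable def nxt (vt : ι → Finset V) (θ : ℝ) (x : ι → C → ℝ) (ω : ι × C → Bool) (i : ι) (c : C) :
    ℝ := if free vt x ω i c then wt vt θ x i c else 0

/-- the colouring after the round -/
noncomputable def colN (vt : ι → Finset V) (x : ι → C → ℝ) (χ : ι → Option C) (ω : ι × C → Bool)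
    (i : ι) : Option C :=
  if χ i ≠ none then χ i else
    if h : ∃ c, rtn vt x ω i c then some h.choose else none

/-- the weights after the round -/
noncomputable def xN (vt : ι → Finset V) (θ : ℝ) (x : ι → C → ℝ) (χ : ι → Option C)
    (ω : ι × C → Bool) (i : ι) (c : C) : ℝ :=
  if colN vt x χ ω i = none then nxt vt θ x ω i c else 0

/-- first upper bound for the load of `(v, c)`: only the colour `c` is looked at -/
noncomputable def G1 (vt : ι → Finset V) (θ : ℝ) (x : ι → C → ℝ) (v : V) (c : C)
    (ω : ι × C → Bool) : ℝ :=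
  ∑ i ∈ univ.filter (fun i => v ∈ vt i), if freeOff vt x v ω i c then wt vt θ x i c else 0

/-- upper bound for the load of `(v, c)` after the round -/
noncomputable def GG (vt : ι → Finset V) (θ : ℝ) (x : ι → C → ℝ) (v : V) (c : C)
    (ω : ι × C → Bool) : ℝ :=
  ∑ i ∈ univ.filter (fun i => v ∈ vt i),
    if freeOff vt x v ω i c ∧ ∀ d, d ≠ c → ¬ rtn vt x ω i d then wt vt θ x i c else 0

/-- the state of the nibble: `χ` colours some edges from their lists, `x` are weights of the colours still
available at the uncoloured edges, `α` the defect of the total weight, `β` the largest weight, `ρ` the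
largest load of a pair (vertex, colour) -/
structure Inv (vt : ι → Finset V) (L : ι → Finset C) (χ : ι → Option C) (x : ι → C → ℝ)
    (α β ρ : ℝ) : Prop where
  nonneg : ∀ i c, 0 ≤ x i c
  zero : ∀ i c, χ i ≠ none → x i c = 0
  proper : ∀ i j, adjV vt i j → χ i ≠ none → χ i ≠ χ j
  list : ∀ i c, χ i = some c → c ∈ L i
  avail : ∀ i c, 0 < x i c → c ∈ L i ∧ ∀ j, adjV vt i j → χ j ≠ some c
  lo : ∀ i, χ i = none → 1 - α ≤ ∑ c, x i c
  hi : ∀ i, ∑ c, x i c ≤ 1 + α
  cap : ∀ i c, x i c ≤ β
  load : ∀ v c, ∑ i ∈ univ.filter (fun i => v ∈ vt i), x i c ≤ ρ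

/-- the parameters of one round: `B` is an upper bound for `β * |C|` -/
structure RPar (K : ℕ) (θ ε B α β ρ n : ℝ) : Prop where
  K_pos : 1 ≤ K
  eps_pos : 0 < ε
  eps_le : ε ≤ 1
  th_pos : 0 < θ
  th_le : θ * (K + 1) ≤ ε / 16
  B_ge : 1 ≤ B
  al0 : 0 ≤ α
  al : α ≤ ε / 16
  be0 : 0 < β
  be : β ≤ ε / 16
  beB : β * n ≤ B
  rho0 : 0 ≤ ρ
  rho : ρ ≤ 1 - ε

/-- the common tail bound -/
noncomputable def tl (K : ℕ) (B β η : ℝ) : ℝ := Real.exp (-(η ^ 2 / (32 * K ^ 2 * B * β)))

end Pool.Agent.Lib.BFE
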