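import Pool.Agent.Lib.BFE.Defs
import Pool.Agent.Lib.BFE.NDefs

set_option autoImplicit false
set_option linter.unusedSectionVars false

open Finset
open scoped Classical

namespace Pool.Agent.Lib.BFE

open Pool.Agent.Lib.Prob48 (Weights)

variable {ι V C : Type} [Fintype ι] [DecidableEq ι] [DecidableEq V] [Fintype C] [DecidableEq C]

theorem n1_par {K : ℕ} {θ ε B α β ρ n : ℝ} (hP : RPar K θ ε B α β ρ n) :
    0 ≤ β ∧ β ≤ 1 ∧ 0 ≤ θ ∧ θ ≤ 1 ∧ θ * K ≤ 1 / 16 := by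
  have h1 := hP.th_le
  have h2 := hP.eps_le
  have h3 := hP.th_pos
  have h4 := hP.be
  have h5 := hP.be0
  have h6 : (0 : ℝ) ≤ K := Nat.cast_nonneg _
  have h7 : 0 ≤ θ * K := mul_nonneg h3.le h6
  refine ⟨h5.le, by linarith, h3.le, ?_, ?_⟩ <;> nlinarith

/-- Chunk N1 (S/M): elementary bounds for `keep` and `wt`.

**Proof.** For fixed `i`, `c` the neighbours `j` of `i` lie in the union over `v ∈ vt i` of the edges through
`v`, so `∑_{j : adjV vt i j} θ x j c ≤ θ ∑_{v ∈ vt i} ∑_{j ∋ v} x j c ≤ θ K ρ ≤ θ K ≤ 1/16`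
(`Inv.load`, `LinSys.card_le`; `Finset.sum_le_sum_of_subset_of_nonneg` and `sum_biUnion_le`, or
`Finset.sum_comm`). -/
theorem n1_nbr {vt : ι → Finset V} {K : ℕ} (hs : LinSys vt K) {L : ι → Finset C}
    {χ : ι → Option C} {x : ι → C → ℝ} {θ ε B α β ρ : ℝ} (hI : Inv vt L χ x α β ρ)
    (hP : RPar K θ ε B α β ρ (Fintype.card C)) (i : ι) (c : C) :
    ∑ j ∈ univ.filter (fun j => adjV vt i j), x j c ≤ K * ρ := by
  have hx := hI.nonneg
  have h1 : ∑ j ∈ univ.filter (fun j => adjV vt i j), x j c ≤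
      ∑ j ∈ univ.filter (fun j => adjV vt i j), ∑ v ∈ vt i, if v ∈ vt j then x j c else 0 := by
    refine Finset.sum_le_sum fun j hj => ?_
    obtain ⟨_, hd⟩ := (Finset.mem_filter.mp hj).2
    obtain ⟨v, hv, hv'⟩ := Finset.not_disjoint_iff.mp hd
    have h2 : x j c = if v ∈ vt j then x j c else 0 := by rw [if_pos hv']
    calc x j c = if v ∈ vt j then x j c else 0 := h2
      _ ≤ _ := Finset.single_le_sum (f := fun v => if v ∈ vt j then x j c else 0)
          (fun w _ => by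
            split_ifs
            · exact hx j c
            · exact le_rfl) hv
  have h2 : ∑ j ∈ univ.filter (fun j => adjV vt i j), (∑ v ∈ vt i, if v ∈ vt j then x j c else 0) ≤
      ∑ j, ∑ v ∈ vt i, if v ∈ vt j then x j c else 0 := by
    refine Finset.sum_le_sum_of_subset_of_nonneg (Finset.filter_subset _ _) fun j _ _ => ?_
    refine Finset.sum_nonneg fun v _ => ?_
    split_ifs
    · exact hx j c
    · exact le_rfl
  have h3 : ∑ j, ∑ v ∈ vt i, (if v ∈ vt j then x j c else 0) ≤ ∑ v ∈ vt i, ρ := by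
    rw [Finset.sum_comm]
    refine Finset.sum_le_sum fun v _ => ?_
    rw [← Finset.sum_filter]
    exact hI.load v c
  have h4 : ∑ v ∈ vt i, ρ ≤ K * ρ := by
    rw [Finset.sum_const, nsmul_eq_mul]
    refine mul_le_mul_of_nonneg_right ?_ hP.rho0
    exact_mod_cast hs.card_le i
  exact h1.trans (h2.trans (h3.trans h4))

/-- **Proof.** `∏ (1 - y_j) ≥ 1 - ∑ y_j` (`Prob48.one_sub_sum_le_prod_one_sub`; `0 ≤ θ x ≤ θ β ≤ 1`) and
`n1_nbr`, `ρ ≤ 1`; every factor is at most `1`. -/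
theorem n1_keep {vt : ι → Finset V} {K : ℕ} (hs : LinSys vt K) {L : ι → Finset C}
    {χ : ι → Option C} {x : ι → C → ℝ} {θ ε B α β ρ : ℝ} (hI : Inv vt L χ x α β ρ)
    (hP : RPar K θ ε B α β ρ (Fintype.card C)) (i : ι) (c : C) :
    1 - θ * K ≤ keep vt θ x i c ∧ keep vt θ x i c ≤ 1 := by
  obtain ⟨hb0, hb1, ht0, ht1, htK⟩ := n1_par hP
  have hx := hI.nonneg
  have hxc := hI.cap
  have hy0 : ∀ j, 0 ≤ θ * x j c := fun j => mul_nonneg ht0 (hx j c)
  have hy1 : ∀ j, θ * x j c ≤ 1 := fun j => mul_le_one₀ ht1 (hx j c) ((hxc j c).trans hb1)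
  constructor
  · unfold keep
    refine le_trans ?_ (Prob48.one_sub_sum_le_prod_one_sub _ _ (fun j _ => hy0 j) fun j _ => hy1 j)
    rw [← Finset.mul_sum]
    have h1 := n1_nbr hs hI hP i c
    have h2 : (K : ℝ) * ρ ≤ K := by
      have := hP.rho
      have := hP.eps_pos
      exact mul_le_of_le_one_right (Nat.cast_nonneg _) (by linarith)
    have h3 := mul_le_mul_of_nonneg_left (h1.trans h2) ht0
    linarith
  · unfold keep
    refine Finset.prod_le_one (fun j _ => ?_) fun j _ => ?_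
    · have := hy1 j
      linarith
    · have := hy0 j
      linarith

/-- **Proof.** From `n1_keep` with `θ K ≤ 1/16`: `1 / keep ≤ 1 / (1 - θ K) ≤ 1 + 2 θ K ≤ 2`, and
`x ≤ β`. -/
theorem n1_wt {vt : ι → Finset V} {K : ℕ} (hs : LinSys vt K) {L : ι → Finset C}
    {χ : ι → Option C} {x : ι → C → ℝ} {θ ε B α β ρ : ℝ} (hI : Inv vt L χ x α β ρ)
    (hP : RPar K θ ε B α β ρ (Fintype.card C)) (i : ι) (c : C) :
    0 ≤ wt vt θ x i c ∧ wt vt θ x i c ≤ β * (1 + 2 * K * θ) ∧ wt vt θ x i c ≤ 2 * β ∧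
      wt vt θ x i c ≤ 2 * x i c := by
  obtain ⟨hb0, hb1, ht0, ht1, htK⟩ := n1_par hP
  have hx := hI.nonneg i c
  have hxc := hI.cap i c
  obtain ⟨hk1, hk2⟩ := n1_keep hs hI hP i c
  have hk0 : 0 < keep vt θ x i c := by linarith
  have hK0 : 0 ≤ θ * K := mul_nonneg ht0 (Nat.cast_nonneg _)
  have h1 : 1 ≤ (1 + 2 * K * θ) * keep vt θ x i c := by
    have h2 : (1 + 2 * K * θ) * (1 - θ * K) ≤ (1 + 2 * K * θ) * keep vt θ x i c :=
      mul_le_mul_of_nonneg_left hk1 (by nlinarith)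
    have h3 : 1 ≤ (1 + 2 * K * θ) * (1 - θ * K) := by nlinarith
    linarith
  have h5 : 1 + 2 * K * θ ≤ 2 := by linarith
  have h6 : wt vt θ x i c ≤ x i c * (1 + 2 * K * θ) := by
    unfold wt
    rw [div_le_iff₀ hk0, mul_assoc]
    exact le_mul_of_one_le_right hx h1
  have h7 : x i c * (1 + 2 * K * θ) ≤ β * (1 + 2 * K * θ) := mul_le_mul_of_nonneg_right hxc (by nlinarith)
  refine ⟨div_nonneg hx hk0.le, h6.trans h7, h6.trans (h7.trans ?_), h6.trans ?_⟩
  · nlinarith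
  · nlinarith

/-- **Proof.** `0 ≤ θ x i c ≤ 1` (`0 ≤ x ≤ β ≤ 1`, `θ ≤ 1`), so the clipped probability is `θ x i c`. -/
theorem n1_clip {vt : ι → Finset V} {K : ℕ} {L : ι → Finset C}
    {χ : ι → Option C} {x : ι → C → ℝ} {θ ε B α β ρ : ℝ} (hI : Inv vt L χ x α β ρ)
    (hP : RPar K θ ε B α β ρ (Fintype.card C)) (i : ι) (c : C) :
    (muN θ x).w (i, c) true = θ * x i c ∧ (muN θ x).w (i, c) false = 1 - θ * x i c := by
  obtain ⟨hb0, hb1, ht0, ht1, htK⟩ := n1_par hP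
  have hx := hI.nonneg i c
  have hxc := hI.cap i c
  have h0 : 0 ≤ θ * x i c := mul_nonneg ht0 hx
  have h1 : θ * x i c ≤ 1 := mul_le_one₀ ht1 hx (hxc.trans hb1)
  have h2 : max 0 (min 1 (θ * x i c)) = θ * x i c := by
    rw [min_eq_right h1, max_eq_right h0]
  constructor
  · change (if true = true then max 0 (min 1 (θ * x i c)) else 1 - max 0 (min 1 (θ * x i c))) = _
    rw [if_pos rfl, h2]
  · change (if false = true then max 0 (min 1 (θ * x i c)) else 1 - max 0 (min 1 (θ * x i c))) = _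
    rw [if_neg Bool.false_ne_true, h2]

end Pool.Agent.Lib.BFE
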