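import Pool.Agent.Lib.BFE.Defs

set_option autoImplicit false
set_option linter.unusedSectionVars false

open Finset
open scoped Classical

namespace Pool.Agent.Lib.BFE

open Pool.Agent.Lib.Prob48 (Weights)

/-- Chunk RA3 (product formulas, S/M).

**Proof.** (1) `Weights.E` and `Weights.pw` unfolded: `∑ ω, (∏ v, w v (ω v)) * ∏ v, g v (ω v)
= ∑ ω, ∏ v, (w v (ω v) * g v (ω v)) = ∏ v, ∑ a, w v a * g v a` by `Finset.prod_univ_sum`
(`Fintype.piFinset_univ`), as in `Weights.sum_pw`. -/
theorem ra3_E_prod {κ : Type} [Fintype κ] [DecidableEq κ] {α : κ → Type} [∀ v, Fintype (α v)]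
    (μ : Weights α) (g : ∀ v, α v → ℝ) :
    μ.E (fun ω => ∏ v, g v (ω v)) = ∏ v, ∑ a, μ.w v a * g v a := by
  unfold Weights.E Weights.pw
  rw [Finset.prod_univ_sum, Fintype.piFinset_univ]
  refine Finset.sum_congr rfl fun ω _ => ?_
  rw [← Finset.prod_mul_distrib]

/-- **Proof.** Write the indicator as a product over all `v` of `g v (ω v)` with `g v b = if b then 1 else 0`
for `v ∈ S`, `g v b = if b then 0 else 1` for `v ∈ T`, `g v b = 1` otherwise (`S`, `T` disjoint), and use
`ra3_E_prod`; the sums over `Bool` are `p v`, `1 - p v`, `1`. Then split the product over `univ`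
(`prod_ite`, or `prod_subset`). -/
theorem ra3_coin {κ : Type} [Fintype κ] [DecidableEq κ] (p : κ → ℝ) (h0 : ∀ i, 0 ≤ p i)
    (h1 : ∀ i, p i ≤ 1) (S T : Finset κ) (hST : Disjoint S T) :
    (coin p h0 h1).P (fun x => (∀ i ∈ S, x i = true) ∧ ∀ i ∈ T, x i = false)
      = (∏ i ∈ S, p i) * ∏ i ∈ T, (1 - p i) := by
  have hind : ∀ x : κ → Bool, (if (∀ i ∈ S, x i = true) ∧ ∀ i ∈ T, x i = false then (1 : ℝ) else 0) =
      ∏ v, (if v ∈ S then (if x v = true then (1 : ℝ) else 0) else if v ∈ T then
        (if x v = true then (0 : ℝ) else 1) else 1) := by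
    intro x
    by_cases h : (∀ i ∈ S, x i = true) ∧ ∀ i ∈ T, x i = false
    · rw [if_pos h]
      symm
      refine Finset.prod_eq_one fun v _ => ?_
      by_cases hS : v ∈ S
      · rw [if_pos hS, if_pos (h.1 v hS)]
      · rw [if_neg hS]
        by_cases hT : v ∈ T
        · rw [if_pos hT, if_neg (by rw [h.2 v hT]; decide)]
        · rw [if_neg hT]
    · rw [if_neg h]
      symm
      have h' : ∃ v, (v ∈ S ∧ x v ≠ true) ∨ (v ∈ T ∧ x v = true) := by
        by_contra hcon
        push Not at hcon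
        apply h
        refine ⟨fun i hi => ?_, fun i hi => ?_⟩
        · exact (hcon i).1 hi
        · exact Bool.eq_false_iff.mpr ((hcon i).2 hi)
      obtain ⟨v, hv⟩ := h'
      refine Finset.prod_eq_zero (Finset.mem_univ v) ?_
      rcases hv with ⟨hS, hx⟩ | ⟨hT, hx⟩
      · rw [if_pos hS, if_neg hx]
      · have hS : v ∉ S := fun hS => (Finset.disjoint_left.mp hST) hS hT
        rw [if_neg hS, if_pos hT, if_pos hx]
  have e1 : (coin p h0 h1).P (fun x => (∀ i ∈ S, x i = true) ∧ ∀ i ∈ T, x i = false) =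
      (coin p h0 h1).E (fun x => ∏ v, (fun (v : κ) (b : Bool) => (if v ∈ S then (if b = true then (1 : ℝ) else 0)
        else if v ∈ T then (if b = true then (0 : ℝ) else 1) else 1)) v (x v)) := by
    unfold Weights.P
    congr 1
    funext x
    exact (by
      have e := hind x
      refine Eq.trans ?_ e
      congr 1)
  rw [e1, ra3_E_prod (coin p h0 h1) (fun (v : κ) (b : Bool) => (if v ∈ S then (if b = true then (1 : ℝ) else 0)
        else if v ∈ T then (if b = true then (0 : ℝ) else 1) else 1))]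
  have e2 : ∀ v : κ, (∑ a : Bool, (coin p h0 h1).w v a * (if v ∈ S then (if a = true then (1 : ℝ) else 0)
        else if v ∈ T then (if a = true then (0 : ℝ) else 1) else 1)) =
      (if v ∈ S then p v else 1) * (if v ∈ T then 1 - p v else 1) := by
    intro v
    rw [Fintype.sum_bool]
    have w1 : (coin p h0 h1).w v true = p v := by
      unfold coin
      simp
    have w2 : (coin p h0 h1).w v false = 1 - p v := by
      unfold coin
      simp
    rw [w1, w2]
    by_cases hS : v ∈ S
    · have hT : v ∉ T := (Finset.disjoint_left.mp hST) hS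
      rw [if_pos hS, if_pos hS, if_pos hS, if_neg hT]
      simp
    · by_cases hT : v ∈ T
      · rw [if_neg hS, if_neg hS, if_neg hS, if_pos hT, if_pos hT, if_pos hT]
        simp
      · rw [if_neg hS, if_neg hS, if_neg hS, if_neg hT, if_neg hT, if_neg hT]
        ring
  rw [Finset.prod_congr rfl fun v _ => e2 v, Finset.prod_mul_distrib, Finset.prod_ite_mem, Finset.prod_ite_mem,
    Finset.univ_inter, Finset.univ_inter]

/-- **Proof.** Take `T = ∅` in `ra3_coin`. -/
theorem ra3_coin_true {κ : Type} [Fintype κ] [DecidableEq κ] (p : κ → ℝ) (h0 : ∀ i, 0 ≤ p i)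
    (h1 : ∀ i, p i ≤ 1) (S : Finset κ) :
    (coin p h0 h1).P (fun x => ∀ i ∈ S, x i = true) = ∏ i ∈ S, p i := by
  have h := ra3_coin p h0 h1 S ∅ (Finset.disjoint_empty_right S)
  rw [Finset.prod_empty, mul_one] at h
  rw [← h]
  refine Weights.P_congr _ fun x => ?_
  simp

end Pool.Agent.Lib.BFE
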