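import Pool.Agent.Lib.BFE.Defs
import Pool.Agent.Lib.BFE.NDefs
import Pool.Agent.Lib.BFE.N1
import Pool.Agent.Lib.BFE.RA3

set_option autoImplicit false
set_option linter.unusedSectionVars false

open Finset
open scoped Classical

namespace Pool.Agent.Lib.BFE

open Pool.Agent.Lib.Prob48 (Weights)

variable {ι V C : Type} [Fintype ι] [DecidableEq ι] [DecidableEq V] [Fintype C] [DecidableEq C]

/-- The factor of the coin `z`. -/
noncomputable def n2g (vt : ι → Finset V) (x : ι → C → ℝ) (i : ι) (c : C) (z : ι × C) (b : Bool) : ℝ :=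
  if z.2 = c ∧ adjV vt i z.1 ∧ 0 < x z.1 c ∧ b = true then 0 else 1

theorem n2_ind (vt : ι → Finset V) (x : ι → C → ℝ) (ω : ι × C → Bool) (i : ι) (c : C) :
    ∏ z, n2g vt x i c z (ω z) = if free vt x ω i c then 1 else 0 := by
  by_cases h : free vt x ω i c
  · rw [if_pos h]
    refine Finset.prod_eq_one fun z _ => ?_
    obtain ⟨j, d⟩ := z
    unfold n2g
    rw [if_neg]
    rintro ⟨h1, h2, h3, h4⟩
    have h1' : d = c := h1
    subst h1'
    exact h j h2 ⟨h4, h3⟩
  · rw [if_neg h]
    unfold free at h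
    push Not at h
    obtain ⟨j, h1, h2⟩ := h
    refine Finset.prod_eq_zero (Finset.mem_univ (j, c)) ?_
    unfold n2g
    rw [if_pos ⟨rfl, h1, h2.2, h2.1⟩]

/-- Chunk N2 (S/M): the mean of the new weight.

**Proof.** `P (free vt x ω i c) = keep`: `free` says that for every neighbour `j` with `0 < x j c` the coin
`(j, c)` is `false`; write the indicator as a product over all coins `z` of `g z (ω z)` with
`g z b = if z.2 = c ∧ adjV vt i z.1 ∧ 0 < x z.1 c ∧ b = true then 0 else 1`, use `ra3_E_prod`: the factor of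
`z` is `1 - θ x z.1 c` for the neighbours (also when `x = 0`, where it is `1`) and `1` otherwise (`n1_clip`,
weights sum to one). So `E (nxt) = wt * keep = x i c` (`keep > 0` by `n1_keep`). -/
theorem n2_mean {vt : ι → Finset V} {K : ℕ} (hs : LinSys vt K) {L : ι → Finset C}
    {χ : ι → Option C} {x : ι → C → ℝ} {θ ε B α β ρ : ℝ} (hI : Inv vt L χ x α β ρ)
    (hP : RPar K θ ε B α β ρ (Fintype.card C)) (i : ι) (c : C) :
    (muN θ x).E (fun ω => nxt vt θ x ω i c) = x i c := by
  have hk := (n1_keep hs hI hP i c).1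
  have htK := (n1_par hP).2.2.2.2
  have hk0 : keep vt θ x i c ≠ 0 := by
    have h1 : 0 < keep vt θ x i c := by linarith
    exact h1.ne'
  have e1 : (muN θ x).E (fun ω => nxt vt θ x ω i c) =
      (muN θ x).E (fun ω => wt vt θ x i c * ∏ z, (fun (z : ι × C) (b : Bool) => n2g vt x i c z b) z (ω z)) := by
    congr 1
    funext ω
    show nxt vt θ x ω i c = wt vt θ x i c * ∏ z, n2g vt x i c z (ω z)
    rw [n2_ind vt x ω i c]
    unfold nxt
    split_ifs
    · rw [mul_one]
    · rw [mul_zero]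
  rw [e1, Weights.E_mul_left, ra3_E_prod (muN θ x) (fun (z : ι × C) (b : Bool) => n2g vt x i c z b)]
  have e2 : ∀ z : ι × C, (∑ a : Bool, (muN θ x).w z a * n2g vt x i c z a) =
      if z.2 = c ∧ adjV vt i z.1 then 1 - θ * x z.1 c else 1 := by
    intro z
    obtain ⟨j, d⟩ := z
    obtain ⟨w1, w2⟩ := n1_clip hI hP j d
    rw [Fintype.sum_bool, w1, w2]
    unfold n2g
    by_cases h : d = c ∧ adjV vt i j
    · rw [if_pos h]
      by_cases h2 : 0 < x j c
      · rw [if_pos ⟨h.1, h.2, h2, rfl⟩, if_neg (fun h3 => Bool.false_ne_true h3.2.2.2), h.1]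
        ring
      · have h3 : x j c = 0 := le_antisymm (not_lt.1 h2) (hI.nonneg j c)
        rw [if_neg (fun h4 => h2 h4.2.2.1), if_neg (fun h4 => h2 h4.2.2.1), h3, h.1, h3]
        ring
    · rw [if_neg h, if_neg (fun h4 => h ⟨h4.1, h4.2.1⟩), if_neg (fun h4 => h ⟨h4.1, h4.2.1⟩)]
      ring
  have e3 : (∏ z : ι × C, ∑ a : Bool, (muN θ x).w z a * (fun (z : ι × C) (b : Bool) => n2g vt x i c z b) z a) =
      keep vt θ x i c := by
    rw [Finset.prod_congr rfl fun z _ => e2 z, Fintype.prod_prod_type]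
    unfold keep
    rw [Finset.prod_filter]
    refine Finset.prod_congr rfl fun j _ => ?_
    rw [Finset.prod_eq_single c]
    · by_cases h : adjV vt i j
      · rw [if_pos ⟨rfl, h⟩, if_pos h]
      · rw [if_neg (fun h2 => h h2.2), if_neg h]
    · intro d _ hd
      rw [if_neg (fun h2 => hd h2.1)]
    · intro h
      exact absurd (Finset.mem_univ c) h
  rw [e3]
  unfold wt
  exact div_mul_cancel₀ _ hk0

end Pool.Agent.Lib.BFE
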