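import Pool.Agent.Lib.BFE.Defs
import Pool.Agent.Lib.BFE.NDefs
import Pool.Agent.Lib.BFE.N1
import Pool.Agent.Lib.BFE.N2

set_option autoImplicit false
set_option linter.unusedSectionVars false

open Finset
open scoped Classical

namespace Pool.Agent.Lib.BFE

open Pool.Agent.Lib.Prob48 (Weights)

variable {ι V C : Type} [Fintype ι] [DecidableEq ι] [DecidableEq V] [Fintype C] [DecidableEq C]

/-- `nxt` changes only if the coin of a neighbour in this colour changes. -/
theorem n2b_same {vt : ι → Finset V} {θ : ℝ} {x : ι → C → ℝ} (i : ι) (c : C) (z : ι × C) (ω : ι × C → Bool) (a a' : Bool)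
    (h : ¬ (adjV vt i z.1 ∧ c = z.2)) :
    nxt vt θ x (Function.update ω z a) i c = nxt vt θ x (Function.update ω z a') i c := by
  have hfree : free vt x (Function.update ω z a) i c ↔ free vt x (Function.update ω z a') i c := by
    unfold free
    refine forall_congr' fun j => ?_
    by_cases hj : adjV vt i j
    · have hne : (j, c) ≠ z := by
        rintro rfl
        exact h ⟨hj, rfl⟩
      unfold rcv
      rw [Function.update_of_ne hne, Function.update_of_ne hne]
    · exact ⟨fun _ h => absurd h hj, fun _ h => absurd h hj⟩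
  unfold nxt
  by_cases hf : free vt x (Function.update ω z a) i c
  · rw [if_pos hf, if_pos (hfree.1 hf)]
  · rw [if_neg hf, if_neg fun h => hf (hfree.2 h)]

theorem n2b_bd {vt : ι → Finset V} {θ : ℝ} {x : ι → C → ℝ} (i : ι) (c : C) (h : 0 ≤ wt vt θ x i c) (ω : ι × C → Bool) :
    0 ≤ nxt vt θ x ω i c ∧ nxt vt θ x ω i c ≤ wt vt θ x i c := by
  unfold nxt
  split_ifs
  · exact ⟨h, le_rfl⟩
  · exact ⟨le_rfl, h⟩

/-- Chunk N2B (M): the total weight of an edge is concentrated.

**Proof.** `Weights.bernstein_abs` for `f ω = ∑ c, nxt vt θ x ω i c` on the coins `ι × C`, default `false`.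
Changing the coin `(j, c)` changes only the term `c`, and only if `adjV vt i j` and `0 < x j c`:
`cl (j, c) = if adjV vt i j then wt i c else 0`, `q (j, c) = θ x j c` (`= 1 - w false`, `n1_clip`),
`b = 2 β`. `∑ q cl² ≤ ∑ c, (wt i c)² * θ * ∑_{j nbr} x j c ≤ θ K ∑ c, (wt i c)² ≤ θ K * 2 β * ∑ c, 2 x i c
≤ θ K * 2 β * 4 ≤ 8 K β =: W` (`n1_nbr`, `n1_wt`, `Inv.hi`: `∑ x ≤ 2`, `θ ≤ 1`). The exponent is
`min (η² / (32 K β)) (η / (4 β)) ≥ η² / (32 K² B β)` (`K, B ≥ 1`, `η ≤ 1`). The mean is `∑ c, x i c` (`n2_mean`,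
`Weights.E_sum`). -/
theorem n2_tail {vt : ι → Finset V} {K : ℕ} (hs : LinSys vt K) {L : ι → Finset C}
    {χ : ι → Option C} {x : ι → C → ℝ} {θ ε B α β ρ η : ℝ} (hI : Inv vt L χ x α β ρ)
    (hP : RPar K θ ε B α β ρ (Fintype.card C)) (hη : 0 < η) (hη1 : η ≤ 1) (i : ι) :
    (muN θ x).P (fun ω => η ≤ |∑ c, nxt vt θ x ω i c - ∑ c, x i c|) ≤ 2 * tl K B β η := by
  classical
  have hK : (1 : ℝ) ≤ K := by exact_mod_cast hP.K_pos
  have hβ := hP.be0
  have hB := hP.B_ge
  have hθ := hP.th_pos
  have hθ1 : θ ≤ 1 := by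
    have h1 := hP.th_le
    have h2 := hP.eps_le
    nlinarith
  have hα : α ≤ 1 := by
    have h1 := hP.al
    have h2 := hP.eps_le
    linarith
  have hρ1 : ρ ≤ 1 := by
    have h1 := hP.rho
    have h2 := hP.eps_pos
    linarith
  have hE : (muN θ x).E (fun ω => ∑ c, nxt vt θ x ω i c) = ∑ c, x i c := by
    rw [Weights.E_sum]
    exact sum_congr rfl fun c _ => n2_mean hs hI hP i c
  have hw0 : ∀ c, 0 ≤ wt vt θ x i c := fun c => (n1_wt hs hI hP i c).1
  have key := (muN θ x).bernstein_abs (fun ω => ∑ c, nxt vt θ x ω i c)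
    (fun z => if adjV vt i z.1 then wt vt θ x i z.2 else 0) (fun z => θ * x z.1 z.2) (fun _ => false) (2 * β) η (8 * K * β)
    (fun z => by
      show 0 ≤ (if adjV vt i z.1 then wt vt θ x i z.2 else 0)
      split_ifs
      · exact hw0 _
      · exact le_rfl)
    (fun z => by
      show (if adjV vt i z.1 then wt vt θ x i z.2 else 0) ≤ 2 * β
      split_ifs
      · exact (n1_wt hs hI hP i z.2).2.2.1
      · linarith)
    (fun z ω a a' => by
      show ∑ c, nxt vt θ x (Function.update ω z a) i c - ∑ c, nxt vt θ x (Function.update ω z a') i c ≤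
        (if adjV vt i z.1 then wt vt θ x i z.2 else 0)
      rw [← sum_sub_distrib]
      by_cases hadj : adjV vt i z.1
      · rw [if_pos hadj, sum_eq_single z.2]
        · have h1 := (n2b_bd i z.2 (hw0 z.2) (Function.update ω z a)).2
          have h2 := (n2b_bd i z.2 (hw0 z.2) (Function.update ω z a')).1
          linarith
        · intro c _ hc
          rw [n2b_same i c z ω a a' fun h => hc h.2, sub_self]
        · intro h
          exact absurd (mem_univ _) h
      · rw [if_neg hadj]
        refine (sum_eq_zero fun c _ => ?_).le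
        rw [n2b_same i c z ω a a' fun h => hadj h.1, sub_self])
    (fun z => by
      obtain ⟨j, c⟩ := z
      show 1 - (muN θ x).w (j, c) false ≤ θ * x j c
      rw [(n1_clip hI hP j c).2]
      linarith)
    (by linarith) hη.le (by positivity) (by
      rw [Fintype.sum_prod_type_right]
      have h1 : ∀ c, ∑ j, θ * x j c * (if adjV vt i j then wt vt θ x i c else 0) ^ 2 ≤ 4 * θ * K * β * x i c := by
        intro c
        have h2 : ∑ j, θ * x j c * (if adjV vt i j then wt vt θ x i c else 0) ^ 2 =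
            θ * wt vt θ x i c ^ 2 * ∑ j ∈ univ.filter (fun j => adjV vt i j), x j c := by
          rw [mul_sum, sum_filter]
          refine sum_congr rfl fun j _ => ?_
          split_ifs
          · ring
          · ring
        rw [h2]
        have h3 := n1_nbr hs hI hP i c
        have h4 : (K : ℝ) * ρ ≤ K := by nlinarith
        obtain ⟨-, -, h5, h6⟩ := n1_wt hs hI hP i c
        have h7 : wt vt θ x i c ^ 2 ≤ 2 * β * (2 * x i c) := by
          rw [pow_two]
          exact mul_le_mul h5 h6 (hw0 c) (by linarith)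
        calc θ * wt vt θ x i c ^ 2 * ∑ j ∈ univ.filter (fun j => adjV vt i j), x j c
            ≤ θ * wt vt θ x i c ^ 2 * K := mul_le_mul_of_nonneg_left (h3.trans h4) (by positivity)
          _ ≤ θ * (2 * β * (2 * x i c)) * K :=
              mul_le_mul_of_nonneg_right (mul_le_mul_of_nonneg_left h7 hθ.le) (by linarith)
          _ = 4 * θ * K * β * x i c := by ring
      refine (sum_le_sum fun c _ => h1 c).trans ?_
      rw [← mul_sum]
      have h2 := hI.hi i
      have h3 : 4 * θ * K * β * ∑ c, x i c ≤ 4 * θ * K * β * 2 :=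
        mul_le_mul_of_nonneg_left (by linarith) (by positivity)
      have h4 : 4 * θ * K * β * 2 ≤ 8 * K * β := by
        have h5 : (0 : ℝ) ≤ K * β := by positivity
        nlinarith
      exact h3.trans h4)
  rw [hE] at key
  refine key.trans (mul_le_mul_of_nonneg_left ?_ (by norm_num))
  unfold tl
  refine Real.exp_le_exp.2 (neg_le_neg (le_min ?_ ?_))
  · refine div_le_div_of_nonneg_left (sq_nonneg _) (by positivity) ?_
    have h1 : (0 : ℝ) ≤ K * β := by positivity
    have h2 : (1 : ℝ) ≤ K * B := by nlinarith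
    nlinarith
  · rw [div_le_div_iff₀ (by positivity) (by positivity)]
    have h2 : (1 : ℝ) ≤ K ^ 2 * B := by nlinarith
    have h3 : η ^ 2 ≤ η := by nlinarith
    have h4 : η ^ 2 * (2 * (2 * β)) ≤ η * (4 * β) := by nlinarith
    have h5 : (0 : ℝ) ≤ η * β := by positivity
    nlinarith

end Pool.Agent.Lib.BFE
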