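import Pool.Agent.Lib.BFE.Defs
import Pool.Agent.Lib.BFE.NDefs
import Pool.Agent.Lib.BFE.N1
import Pool.Agent.Lib.BFE.RA3

set_option autoImplicit false
set_option linter.unusedSectionVars false

open Finset
open scoped Classical

namespace Pool.Agent.Lib.BFE

open Pool.Agent.Lib.Prob48 (Weights)

variable {ι V C : Type} [Fintype ι] [DecidableEq ι] [DecidableEq V] [Fintype C] [DecidableEq C]

theorem n3_free {L : ι → Finset C}
    {χ : ι → Option C} {vt : ι → Finset V} {K : ℕ} {x : ι → C → ℝ} {θ ε B α β ρ : ℝ} (hI : Inv vt L χ x α β ρ)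
    (hP : RPar K θ ε B α β ρ (Fintype.card C)) (N : Finset ι) (c : C) :
    (muN θ x).P (fun ω => ∀ j ∈ N, ¬ rcv x ω j c) = ∏ j ∈ N, (1 - θ * x j c) := by
  have h1 : (muN θ x).P (fun ω => ∀ j ∈ N, ¬ rcv x ω j c) =
      (muN θ x).E (fun ω => ∏ z : ι × C, if z.2 = c ∧ z.1 ∈ N ∧ 0 < x z.1 c ∧ ω z = true then (0 : ℝ) else 1) := by
    unfold Weights.P
    refine congrArg _ (funext fun ω => ?_)
    by_cases h : ∀ j ∈ N, ¬ rcv x ω j c
    · rw [if_pos h]
      refine (prod_eq_one fun z _ => ?_).symm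
      rw [if_neg]
      rintro ⟨hz, hN, hx, hω⟩
      refine h z.1 hN ⟨?_, hx⟩
      rw [← hω, ← hz]
    · rw [if_neg h]
      push Not at h
      obtain ⟨j, hj, hr1, hr2⟩ := h
      refine (prod_eq_zero (mem_univ (j, c)) ?_).symm
      rw [if_pos ⟨rfl, hj, hr2, hr1⟩]
  rw [h1, ra3_E_prod (muN θ x) (fun z b => if z.2 = c ∧ z.1 ∈ N ∧ 0 < x z.1 c ∧ b = true then (0 : ℝ) else 1)]
  rw [Fintype.prod_prod_type]
  have h2 : ∀ i : ι, (∏ d : C, ∑ b : Bool, (muN θ x).w (i, d) b *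
      (if d = c ∧ i ∈ N ∧ 0 < x i c ∧ b = true then (0 : ℝ) else 1)) = if i ∈ N then 1 - θ * x i c else 1 := by
    intro i
    rw [prod_eq_single c]
    · rw [Fintype.sum_bool, (n1_clip hI hP i c).1, (n1_clip hI hP i c).2]
      by_cases hN : i ∈ N
      · by_cases hx : 0 < x i c
        · simp [hN, hx]
        · have hx0 : x i c = 0 := le_antisymm (not_lt.1 hx) (hI.nonneg i c)
          simp [hN, hx0]
      · simp [hN]
    · intro d _ hd
      rw [Fintype.sum_bool, (n1_clip hI hP i d).1, (n1_clip hI hP i d).2]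
      simp [hd]
    · intro h
      exact absurd (mem_univ c) h
  rw [prod_congr rfl fun i _ => h2 i, prod_ite_mem, univ_inter]

theorem n3_real {t : ℝ} (h0 : 0 ≤ t) (h1 : t ≤ 1 / 2) : 1 / (1 - t) ≤ 1 + t + 2 * t ^ 2 := by
  rw [div_le_iff₀ (by linarith)]
  nlinarith [mul_nonneg (sq_nonneg t) (by linarith : (0 : ℝ) ≤ 1 - 2 * t)]

/-- Chunk N3 (M): the mean of `G1`.

**Proof.** For `v ∈ vt i` the neighbours of `i` split into those through `v` and those that miss `v`. As in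
`n2_mean`, `P (freeOff vt x v ω i c) = ∏_{j nbr, v ∉ vt j} (1 - θ x j c)
= keep / ∏_{j nbr, v ∈ vt j} (1 - θ x j c)`, so the term of `i` has the mean
`x i c / ∏_{j nbr, v ∈ vt j} (1 - θ x j c) ≤ x i c / (1 - θ ρ)`, since the product is at least
`1 - θ ∑_{j ∋ v} x j c ≥ 1 - θ ρ` (`Prob48.one_sub_sum_le_prod_one_sub`, `Inv.load`). Sum over `i`. And
`ρ / (1 - θ ρ) ≤ ρ (1 + θ ρ + 2 (θ ρ)²) ≤ ρ (1 + θ (1 - ε) + 2 θ²)`, because `θ ρ ≤ 1/2`, `ρ ≤ 1 - ε ≤ 1`. -/
theorem n3_mean {vt : ι → Finset V} {K : ℕ} (hs : LinSys vt K) {L : ι → Finset C}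
    {χ : ι → Option C} {x : ι → C → ℝ} {θ ε B α β ρ : ℝ} (hI : Inv vt L χ x α β ρ)
    (hP : RPar K θ ε B α β ρ (Fintype.card C)) (v : V) (c : C) :
    (muN θ x).E (G1 vt θ x v c) ≤ ρ * (1 + θ * (1 - ε) + 2 * θ ^ 2) := by
  have hθ0 : 0 < θ := hP.th_pos
  have hK : (1 : ℝ) ≤ K := by exact_mod_cast hP.K_pos
  have hθ1 : θ ≤ 1 / 16 := by
    have h1 := hP.th_le
    have h2 := hP.eps_le
    nlinarith
  have hρ0 := hP.rho0
  have hρ := hP.rho
  have hε := hP.eps_pos
  have hρ1 : ρ ≤ 1 := by linarith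
  have hθρ : θ * ρ ≤ 1 / 16 := by nlinarith
  have hx0 : ∀ i c, 0 ≤ θ * x i c := fun i c => mul_nonneg hθ0.le (hI.nonneg i c)
  have hβ1 : β ≤ 1 := by
    have h1 := hP.be
    have h2 := hP.eps_le
    linarith
  have hx1 : ∀ i c, θ * x i c < 1 := fun i c => by
    have h1 := hI.cap i c
    have h2 := hI.nonneg i c
    nlinarith
  have hlin : (muN θ x).E (G1 vt θ x v c) = ∑ i ∈ univ.filter (fun i => v ∈ vt i),
      wt vt θ x i c * (muN θ x).P (fun ω => freeOff vt x v ω i c) := by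
    have e : G1 vt θ x v c = fun ω => ∑ i ∈ univ.filter (fun i => v ∈ vt i),
        wt vt θ x i c * (if freeOff vt x v ω i c then (1 : ℝ) else 0) := by
      funext ω
      unfold G1
      refine sum_congr rfl fun i _ => ?_
      split_ifs <;> simp
    rw [e, Weights.E_sum]
    refine sum_congr rfl fun i _ => ?_
    rw [Weights.E_mul_left]
    rfl
  rw [hlin]
  have hterm : ∀ i ∈ univ.filter (fun i => v ∈ vt i),
      wt vt θ x i c * (muN θ x).P (fun ω => freeOff vt x v ω i c) ≤ x i c * (1 / (1 - θ * ρ)) := by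
    intro i _
    have hPf : (muN θ x).P (fun ω => freeOff vt x v ω i c) =
        ∏ j ∈ (univ.filter (fun j => adjV vt i j)).filter (fun j => v ∉ vt j), (1 - θ * x j c) := by
      rw [← n3_free hI hP]
      refine Weights.P_congr _ fun ω => ?_
      constructor
      · intro h j hj
        obtain ⟨h1, h2⟩ := mem_filter.1 hj
        exact h j (mem_filter.1 h1).2 h2
      · intro h j h1 h2
        exact h j (mem_filter.2 ⟨mem_filter.2 ⟨mem_univ j, h1⟩, h2⟩)
    have hkeep : keep vt θ x i c =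
        (∏ j ∈ (univ.filter (fun j => adjV vt i j)).filter (fun j => v ∉ vt j), (1 - θ * x j c)) *
        ∏ j ∈ (univ.filter (fun j => adjV vt i j)).filter (fun j => ¬ v ∉ vt j), (1 - θ * x j c) := by
      unfold keep
      rw [prod_filter_mul_prod_filter_not]
    have hpos : 0 < ∏ j ∈ (univ.filter (fun j => adjV vt i j)).filter (fun j => v ∉ vt j), (1 - θ * x j c) :=
      prod_pos fun j _ => by linarith [hx1 j c]
    have hD : 1 - θ * ρ ≤ ∏ j ∈ (univ.filter (fun j => adjV vt i j)).filter (fun j => ¬ v ∉ vt j), (1 - θ * x j c) := by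
      refine le_trans ?_ (Pool.Agent.Lib.Prob48.one_sub_sum_le_prod_one_sub _ _ (fun j _ => hx0 j c) fun j _ => (hx1 j c).le)
      rw [← mul_sum]
      have h2 : ∑ j ∈ (univ.filter (fun j => adjV vt i j)).filter (fun j => ¬ v ∉ vt j), x j c ≤ ρ := by
        refine le_trans (sum_le_sum_of_subset_of_nonneg ?_ fun j _ _ => hI.nonneg j c) (hI.load v c)
        intro j hj
        exact mem_filter.2 ⟨mem_univ j, not_not.1 (mem_filter.1 hj).2⟩
      have h3 := mul_le_mul_of_nonneg_left h2 hθ0.le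
      linarith
    have hDpos : 0 < ∏ j ∈ (univ.filter (fun j => adjV vt i j)).filter (fun j => ¬ v ∉ vt j), (1 - θ * x j c) := by
      linarith
    unfold wt
    rw [hPf, hkeep, ← div_div, div_mul_eq_mul_div]
    have e : x i c / (∏ j ∈ (univ.filter (fun j => adjV vt i j)).filter (fun j => v ∉ vt j), (1 - θ * x j c)) *
        (∏ j ∈ (univ.filter (fun j => adjV vt i j)).filter (fun j => v ∉ vt j), (1 - θ * x j c)) = x i c :=
      div_mul_cancel₀ _ hpos.ne'
    rw [e, div_eq_mul_one_div]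
    refine mul_le_mul_of_nonneg_left ?_ (hI.nonneg i c)
    exact one_div_le_one_div_of_le (by linarith) hD
  refine (sum_le_sum hterm).trans ?_
  rw [← sum_mul]
  have hr := n3_real (t := θ * ρ) (mul_nonneg hθ0.le hρ0) (by linarith)
  have hinv : 0 ≤ 1 / (1 - θ * ρ) := by
    have : 0 < 1 - θ * ρ := by linarith
    positivity
  have h1 := mul_le_mul_of_nonneg_right (hI.load v c) hinv
  refine h1.trans ?_
  refine mul_le_mul_of_nonneg_left (hr.trans ?_) hρ0
  have h2 : θ * ρ ≤ θ * (1 - ε) := mul_le_mul_of_nonneg_left hρ hθ0.le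
  have h3 : (θ * ρ) ^ 2 ≤ θ ^ 2 := by
    refine pow_le_pow_left₀ (mul_nonneg hθ0.le hρ0) ?_ 2
    nlinarith
  linarith

end Pool.Agent.Lib.BFE
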