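import Pool.Agent.Lib.BFE.Defs
import Pool.Agent.Lib.BFE.NDefs
import Pool.Agent.Lib.BFE.N1
import Pool.Agent.Lib.BFE.N3

set_option autoImplicit false
set_option linter.unusedSectionVars false

open Finset
open scoped Classical

namespace Pool.Agent.Lib.BFE

open Pool.Agent.Lib.Prob48 (Weights)

variable {ι V C : Type} [Fintype ι] [DecidableEq ι] [DecidableEq V] [Fintype C] [DecidableEq C]

/-- the influence of the coin `z` -/
noncomputable def n3b_cl (vt : ι → Finset V) (θ : ℝ) (x : ι → C → ℝ) (v : V) (c : C) (z : ι × C) : ℝ :=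
  if z.2 = c ∧ v ∉ vt z.1 then
    ∑ i ∈ univ.filter (fun i => v ∈ vt i), (if adjV vt i z.1 then wt vt θ x i c else 0) else 0

theorem n3b_card {vt : ι → Finset V} {K : ℕ} (hs : LinSys vt K) (v : V) (j : ι) (hj : v ∉ vt j) :
    ((univ.filter (fun i => v ∈ vt i)).filter (fun i => adjV vt i j)).card ≤ K := by
  have : Nonempty V := ⟨v⟩
  have h : ∀ i ∈ (univ.filter (fun i => v ∈ vt i)).filter (fun i => adjV vt i j),
      ∃ u, u ∈ vt i ∧ u ∈ vt j := by
    intro i hi
    exact Finset.not_disjoint_iff.mp (Finset.mem_filter.mp hi).2.2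
  choose! g hg using h
  refine le_trans ?_ (hs.card_le j)
  refine Finset.card_le_card_of_injOn g (fun i hi => (hg i (Finset.mem_coe.mp hi)).2) ?_
  intro i hi i' hi' e
  by_contra hne
  have hi := Finset.mem_coe.mp hi
  have hi' := Finset.mem_coe.mp hi'
  have h1 := hs.lin i i' hne
  have hv : v ∈ vt i := (Finset.mem_filter.mp (Finset.mem_filter.mp hi).1).2
  have hv' : v ∈ vt i' := (Finset.mem_filter.mp (Finset.mem_filter.mp hi').1).2
  have h2 : ({v, g i} : Finset V) ⊆ vt i ∩ vt i' := by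
    intro u hu
    rw [Finset.mem_insert, Finset.mem_singleton] at hu
    rcases hu with rfl | rfl
    · exact Finset.mem_inter.2 ⟨hv, hv'⟩
    · refine Finset.mem_inter.2 ⟨(hg i hi).1, ?_⟩
      rw [e]
      exact (hg i' hi').1
  have h3 : ({v, g i} : Finset V).card = 2 := by
    refine Finset.card_pair fun e2 => hj ?_
    rw [e2]
    exact (hg i hi).2
  have h4 := Finset.card_le_card h2
  omega

theorem n3b_free {vt : ι → Finset V} {x : ι → C → ℝ} {v : V} {c : C} {z : ι × C} {i : ι}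
    (h : ¬ (z.2 = c ∧ v ∉ vt z.1 ∧ adjV vt i z.1)) (ω : ι × C → Bool) (a a' : Bool)
    (hf : freeOff vt x v (Function.update ω z a) i c) :
    freeOff vt x v (Function.update ω z a') i c := by
  intro j hj hv hr
  have hne : (j, c) ≠ z := by
    rintro rfl
    exact h ⟨rfl, hv, hj⟩
  refine hf j hj hv ?_
  unfold rcv at hr ⊢
  rw [Function.update_of_ne hne] at hr ⊢
  exact hr

theorem n3b_osc {vt : ι → Finset V} {θ : ℝ} {x : ι → C → ℝ} (v : V) (c : C)
    (hw : ∀ i, 0 ≤ wt vt θ x i c) (z : ι × C) (ω : ι × C → Bool) (a a' : Bool) :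
    G1 vt θ x v c (Function.update ω z a) - G1 vt θ x v c (Function.update ω z a') ≤
      n3b_cl vt θ x v c z := by
  unfold G1
  rw [← Finset.sum_sub_distrib]
  unfold n3b_cl
  split_ifs with hz
  · refine Finset.sum_le_sum fun i _ => ?_
    by_cases hadj : adjV vt i z.1
    · rw [if_pos hadj]
      have := hw i
      split_ifs <;> linarith
    · rw [if_neg hadj]
      have h1 : ¬ (z.2 = c ∧ v ∉ vt z.1 ∧ adjV vt i z.1) := fun h => hadj h.2.2
      by_cases h2 : freeOff vt x v (Function.update ω z a) i c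
      · rw [if_pos h2, if_pos (n3b_free h1 ω a a' h2)]
        linarith
      · rw [if_neg h2, if_neg (fun h3 => h2 (n3b_free h1 ω a' a h3))]
        linarith
  · refine (Finset.sum_eq_zero fun i _ => ?_).le
    have h1 : ¬ (z.2 = c ∧ v ∉ vt z.1 ∧ adjV vt i z.1) := fun h => hz ⟨h.1, h.2.1⟩
    by_cases h2 : freeOff vt x v (Function.update ω z a) i c
    · rw [if_pos h2, if_pos (n3b_free h1 ω a a' h2)]
      linarith
    · rw [if_neg h2, if_neg (fun h3 => h2 (n3b_free h1 ω a' a h3))]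
      linarith

theorem n3b_var {vt : ι → Finset V} {K : ℕ} (hs : LinSys vt K) {L : ι → Finset C}
    {χ : ι → Option C} {x : ι → C → ℝ} {θ ε B α β ρ : ℝ} (hI : Inv vt L χ x α β ρ)
    (hP : RPar K θ ε B α β ρ (Fintype.card C)) (v : V) (c : C) :
    ∑ j, x j c * n3b_cl vt θ x v c (j, c) ≤ 2 * K := by
  have hx := hI.nonneg
  have hw : ∀ i, 0 ≤ wt vt θ x i c := fun i => (n1_wt hs hI hP i c).1
  have hρ1 : ρ ≤ 1 := by linarith [hP.rho, hP.eps_pos]
  have hρ0 := hP.rho0
  have hK0 : (0 : ℝ) ≤ K := Nat.cast_nonneg _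
  have h1 : ∀ j, x j c * n3b_cl vt θ x v c (j, c) ≤
      ∑ i ∈ univ.filter (fun i => v ∈ vt i), (if adjV vt i j then x j c * wt vt θ x i c else 0) := by
    intro j
    unfold n3b_cl
    split_ifs with hz
    · rw [Finset.mul_sum]
      refine Finset.sum_le_sum fun i _ => ?_
      split_ifs
      · exact le_rfl
      · rw [mul_zero]
    · rw [mul_zero]
      refine Finset.sum_nonneg fun i _ => ?_
      split_ifs
      · exact mul_nonneg (hx j c) (hw i)
      · exact le_rfl
  refine (Finset.sum_le_sum fun j _ => h1 j).trans ?_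
  rw [Finset.sum_comm]
  have h2 : ∀ i ∈ univ.filter (fun i => v ∈ vt i),
      ∑ j, (if adjV vt i j then x j c * wt vt θ x i c else 0) ≤ K * (2 * x i c) := by
    intro i _
    rw [← Finset.sum_filter, ← Finset.sum_mul]
    have h3 := n1_nbr hs hI hP i c
    have h4 : ∑ j ∈ univ.filter (fun j => adjV vt i j), x j c ≤ K := by nlinarith
    have h5 := (n1_wt hs hI hP i c).2.2.2
    exact mul_le_mul h4 h5 (hw i) hK0
  refine (Finset.sum_le_sum h2).trans ?_
  rw [← Finset.mul_sum, ← Finset.mul_sum]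
  have h3 := hI.load v c
  nlinarith

/-- Chunk N3B (M): `G1` is concentrated.

**Proof.** `Weights.bernstein` on the coins `ι × C`, default `false`. Only coins `(j, c)` with `v ∉ vt j` matter;
changing such a coin changes the terms of those `i ∋ v` with `adjV vt i j`: they are at most `K` many
(for `u ∈ vt j` there is at most one edge `i` through `u` and `v`, `u ≠ v`, and every such `i` meets `vt j`;
`LinSys`), every one by at most `wt i c ≤ 2 β`. So `cl (j, c) = ∑_{i ∋ v, adjV i j} wt i c ≤ 2 K β = b`,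
`q (j, c) = θ x j c`, and `∑ q cl² ≤ 2 K β ∑_j θ x j c ∑_{i ∋ v, adjV i j} wt i c
= 2 K β θ ∑_{i ∋ v} wt i c ∑_{j nbr i} x j c ≤ 2 K β θ * (K ρ) * ∑_{i ∋ v} 2 x i c ≤ 4 K² β =: W`
(`n1_nbr`, `n1_wt`, `Inv.load`, `ρ ≤ 1`, `θ ≤ 1`). The exponent is
`min (η² / (16 K² β)) (η / (4 K β)) ≥ η² / (32 K² B β)`. -/
theorem n3_tail {vt : ι → Finset V} {K : ℕ} (hs : LinSys vt K) {L : ι → Finset C}
    {χ : ι → Option C} {x : ι → C → ℝ} {θ ε B α β ρ η : ℝ} (hI : Inv vt L χ x α β ρ)
    (hP : RPar K θ ε B α β ρ (Fintype.card C)) (hη : 0 < η) (hη1 : η ≤ 1) (v : V) (c : C) :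
    (muN θ x).P (fun ω => (muN θ x).E (G1 vt θ x v c) + η ≤ G1 vt θ x v c ω) ≤ tl K B β η := by
  have hx := hI.nonneg
  have hw : ∀ i, 0 ≤ wt vt θ x i c := fun i => (n1_wt hs hI hP i c).1
  have hβ := hP.be0
  have hK1 : (1 : ℝ) ≤ K := by exact_mod_cast hP.K_pos
  have hK0 : (0 : ℝ) < K := by linarith
  have hB := hP.B_ge
  have hth := hP.th_pos
  have hth1 : θ ≤ 1 := by
    have := hP.th_le
    have := hP.eps_le
    nlinarith
  have hcl0 : ∀ z, 0 ≤ n3b_cl vt θ x v c z := by
    intro z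
    unfold n3b_cl
    split_ifs
    · refine Finset.sum_nonneg fun i _ => ?_
      split_ifs
      · exact hw i
      · exact le_rfl
    · exact le_rfl
  have hclb : ∀ z, n3b_cl vt θ x v c z ≤ 2 * K * β := by
    intro z
    unfold n3b_cl
    split_ifs with hz
    · rw [← Finset.sum_filter]
      refine (Finset.sum_le_card_nsmul _ _ (2 * β) fun i _ => (n1_wt hs hI hP i c).2.2.1).trans ?_
      rw [nsmul_eq_mul]
      have h1 : ((((univ.filter (fun i => v ∈ vt i)).filter (fun i => adjV vt i z.1)).card : ℕ) : ℝ) ≤ K := by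
        exact_mod_cast n3b_card hs v z.1 hz.2
      nlinarith
    · positivity
  have hW : ∑ z : ι × C, (θ * x z.1 z.2) * n3b_cl vt θ x v c z ^ 2 ≤ 4 * K ^ 2 * β := by
    rw [Fintype.sum_prod_type]
    have h1 : ∀ j, ∑ d, (θ * x j d) * n3b_cl vt θ x v c (j, d) ^ 2 =
        (θ * x j c) * n3b_cl vt θ x v c (j, c) ^ 2 := by
      intro j
      refine Finset.sum_eq_single c (fun d _ hd => ?_) (fun h => absurd (Finset.mem_univ c) h)
      have h2 : n3b_cl vt θ x v c (j, d) = 0 := by
        unfold n3b_cl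
        exact if_neg fun h => hd h.1
      rw [h2]
      ring
    rw [Finset.sum_congr rfl fun j _ => h1 j]
    have h2 : ∀ j ∈ (univ : Finset ι), (θ * x j c) * n3b_cl vt θ x v c (j, c) ^ 2 ≤
        2 * K * β * (x j c * n3b_cl vt θ x v c (j, c)) := by
      intro j _
      have h3 := hclb (j, c)
      have h4 := hcl0 (j, c)
      have h5 := hx j c
      have h6 : n3b_cl vt θ x v c (j, c) ^ 2 ≤ 2 * K * β * n3b_cl vt θ x v c (j, c) := by nlinarith
      have h7 : (θ * x j c) * n3b_cl vt θ x v c (j, c) ^ 2 ≤ (1 * x j c) * (2 * K * β * n3b_cl vt θ x v c (j, c)) := by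
        refine mul_le_mul (mul_le_mul_of_nonneg_right hth1 h5) h6 (sq_nonneg _) (by linarith)
      linarith
    refine (Finset.sum_le_sum h2).trans ?_
    rw [← Finset.mul_sum]
    have h3 := n3b_var hs hI hP v c
    have h4 : 2 * K * β * ∑ j, x j c * n3b_cl vt θ x v c (j, c) ≤ 2 * K * β * (2 * K) :=
      mul_le_mul_of_nonneg_left h3 (by positivity)
    linarith
  have hmain := (muN θ x).bernstein (G1 vt θ x v c) (n3b_cl vt θ x v c) (fun z => θ * x z.1 z.2)
    (fun _ => false) (2 * K * β) η (4 * K ^ 2 * β) hcl0 hclb (fun z ω a a' => n3b_osc v c hw z ω a a')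
    (fun z => by
      have := (n1_clip hI hP z.1 z.2).2
      rw [this]
      linarith) (by positivity) hη.le (by positivity) hW
  refine hmain.trans ?_
  unfold tl
  refine Real.exp_le_exp.2 (neg_le_neg (le_min ?_ ?_))
  · refine div_le_div_of_nonneg_left (by positivity) (by positivity) ?_
    have : 0 ≤ K ^ 2 * β * (B - 1) := by
      have : 0 ≤ B - 1 := by linarith
      positivity
    nlinarith
  · rw [div_le_div_iff₀ (by positivity) (by positivity)]
    have h1 : η ^ 2 ≤ η := by nlinarith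
    have h2 : (K : ℝ) ≤ K ^ 2 * B := by nlinarith
    have h3 : η ^ 2 * (2 * (2 * K * β)) ≤ η * (2 * (2 * K * β)) := mul_le_mul_of_nonneg_right h1 (by positivity)
    have h4 : η * (2 * (2 * K * β)) ≤ η * (32 * K ^ 2 * B * β) := by
      refine mul_le_mul_of_nonneg_left ?_ hη.le
      have : (K : ℝ) * β ≤ K ^ 2 * B * β := mul_le_mul_of_nonneg_right h2 hβ.le
      nlinarith
    linarith

end Pool.Agent.Lib.BFE
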