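import Pool.Agent.Lib.BFE.Defs
import Pool.Agent.Lib.BFE.NDefs

set_option autoImplicit false
set_option linter.unusedSectionVars false

open Finset
open scoped Classical

namespace Pool.Agent.Lib.BFE

open Pool.Agent.Lib.Prob48 (Weights)

variable {ι C : Type} [Fintype ι] [DecidableEq ι] [Fintype C] [DecidableEq C]

/-- the same coins, grouped by colours: coordinate `c` is the family of the coins `(i, c)` -/
noncomputable def blk (p : ι × C → ℝ) : Weights (fun _ : C => (ι → Bool)) where
  w c a := (coinc (fun i => p (i, c))).pw a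
  nonneg c a := (coinc (fun i => p (i, c))).pw_nonneg a
  sum_one c := (coinc (fun i => p (i, c))).sum_pw

/-- coins `(i, c)` grouped by colours -/
def n4_e (ι C : Type) : (ι × C → Bool) ≃ (C → ι → Bool) where
  toFun ω c i := ω (i, c)
  invFun ω' z := ω' z.2 z.1
  left_inv ω := by
    funext z
    rfl
  right_inv ω' := by
    funext c i
    rfl

/-- Chunk N4 (S/M): regrouping.

**Proof.** Unfold `E` and `pw`; the sum over `ω : ι × C → Bool` is the sum over `ω' : C → ι → Bool` along the
bijection `ω z = ω' z.2 z.1` (`Fintype.sum_equiv` / `Equiv.sum_comp` with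
`(Equiv.curry ..)` and `Equiv.prodComm`, or write the equivalence by hand), and
`∏ z : ι × C, w z (ω z) = ∏ c, ∏ i, w (i, c) (ω' c i)` (`Fintype.prod_prod_type'`, `prod_comm`). -/
theorem n4_E (p : ι × C → ℝ) (f : (ι × C → Bool) → ℝ) :
    (coinc p).E f = (blk p).E (fun ω' => f (fun z => ω' z.2 z.1)) := by
  unfold Weights.E
  refine Fintype.sum_equiv (n4_e ι C) _ _ fun ω => ?_
  have h1 : (coinc p).pw ω = (blk p).pw (n4_e ι C ω) := by
    unfold Weights.pw
    exact Fintype.prod_prod_type_right' (fun i c => (coinc p).w (i, c) (ω (i, c)))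
  rw [h1]
  rfl

/-- **Proof.** `n4_E` for the indicator. -/
theorem n4_P (p : ι × C → ℝ) (A : (ι × C → Bool) → Prop) :
    (coinc p).P A = (blk p).P (fun ω' => A (fun z => ω' z.2 z.1)) := by
  unfold Weights.P
  rw [n4_E]

/-- Freezing one coordinate. **Proof.** `Weights.E_avg` for the indicator `f` of `A`:
`E f = E (avg c f) = ∑_a w c a * E (fun ω => f (update ω c a))` (`E_sum`, `E_mul_left`), and every
`P (fun ω => A (update ω c a)) ≤ t`, weights sum to one. -/
theorem n4_freeze {κ : Type} [Fintype κ] [DecidableEq κ] {α : κ → Type} [∀ v, Fintype (α v)]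
    (μ : Weights α) (c : κ) (A : (∀ v, α v) → Prop) (t : ℝ)
    (h : ∀ a : α c, μ.P (fun ω => A (Function.update ω c a)) ≤ t) : μ.P A ≤ t := by
  unfold Weights.P at h ⊢
  rw [← μ.E_avg c]
  have h1 : μ.avg c (fun ω => if A ω then (1 : ℝ) else 0) =
      fun ω => ∑ a, μ.w c a * (if A (Function.update ω c a) then (1 : ℝ) else 0) := by
    funext ω
    rfl
  rw [h1, μ.E_sum univ (fun a ω => μ.w c a * (if A (Function.update ω c a) then (1 : ℝ) else 0))]
  have h2 : ∀ a ∈ (univ : Finset (α c)), μ.E (fun ω => μ.w c a * (if A (Function.update ω c a) then (1 : ℝ) else 0))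
      ≤ μ.w c a * t := by
    intro a _
    rw [μ.E_mul_left]
    exact mul_le_mul_of_nonneg_left (h a) (μ.nonneg c a)
  refine (sum_le_sum h2).trans ?_
  rw [← sum_mul, μ.sum_one, one_mul]

end Pool.Agent.Lib.BFE
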