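import Pool.Agent.Lib.BFE.Defs
import Pool.Agent.Lib.BFE.NDefs
import Pool.Agent.Lib.BFE.N1
import Pool.Agent.Lib.BFE.N4
import Pool.Agent.Lib.BFE.RA3

set_option autoImplicit false
set_option linter.unusedSectionVars false

open Finset
open scoped Classical

namespace Pool.Agent.Lib.BFE

open Pool.Agent.Lib.Prob48 (Weights)

variable {ι V C : Type} [Fintype ι] [DecidableEq ι] [DecidableEq V] [Fintype C] [DecidableEq C]

/-- the event that `i` retains `d`, in the block of `d` -/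
def n5_R (vt : ι → Finset V) (x : ι → C → ℝ) (i : ι) (d : C) (a : ι → Bool) : Prop :=
  (a i = true ∧ 0 < x i d) ∧ ∀ j, adjV vt i j → ¬ (a j = true ∧ 0 < x j d)

theorem n5_clip {vt : ι → Finset V} {K : ℕ} {L : ι → Finset C}
    {χ : ι → Option C} {x : ι → C → ℝ} {θ ε B α β ρ : ℝ} (hI : Inv vt L χ x α β ρ)
    (hP : RPar K θ ε B α β ρ (Fintype.card C)) (i : ι) (c : C) :
    max 0 (min 1 (θ * x i c)) = θ * x i c := by
  have h := (n1_clip hI hP i c).1
  simpa [muN, coinc, coin] using h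

theorem n5_block {vt : ι → Finset V} {K : ℕ} (hs : LinSys vt K) {L : ι → Finset C}
    {χ : ι → Option C} {x : ι → C → ℝ} {θ ε B α β ρ : ℝ} (hI : Inv vt L χ x α β ρ)
    (hP : RPar K θ ε B α β ρ (Fintype.card C)) (i : ι) (d : C) :
    θ * x i d * (1 - θ * K) ≤ (coinc (fun j => θ * x j d)).P (n5_R vt x i d) := by
  by_cases hx : 0 < x i d
  · have h1 := ra3_coin (fun j => max 0 (min 1 (θ * x j d))) (fun _ => le_max_left _ _)
      (fun _ => max_le zero_le_one (min_le_left _ _)) {i} (univ.filter (fun j => adjV vt i j)) (by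
        rw [Finset.disjoint_singleton_left, Finset.mem_filter]
        exact fun h => h.2.1 rfl)
    have h2 : (∏ j ∈ ({i} : Finset ι), max 0 (min 1 (θ * x j d))) *
        (∏ j ∈ univ.filter (fun j => adjV vt i j), (1 - max 0 (min 1 (θ * x j d)))) =
        θ * x i d * keep vt θ x i d := by
      rw [Finset.prod_singleton, n5_clip hI hP]
      congr 1
      unfold keep
      exact Finset.prod_congr rfl fun j _ => by rw [n5_clip hI hP]
    rw [h2] at h1
    have h3 : θ * x i d * (1 - θ * K) ≤ θ * x i d * keep vt θ x i d :=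
      mul_le_mul_of_nonneg_left (n1_keep hs hI hP i d).1 (mul_nonneg hP.th_pos.le hx.le)
    refine h3.trans ?_
    rw [← h1]
    refine Weights.P_mono _ fun a ha => ⟨⟨ha.1 i (Finset.mem_singleton_self i), hx⟩, fun j hj h => ?_⟩
    have h4 := ha.2 j (Finset.mem_filter.2 ⟨Finset.mem_univ j, hj⟩)
    rw [h.1] at h4
    exact absurd h4 (by decide)
  · have h0 : x i d = 0 := le_antisymm (not_lt.1 hx) (hI.nonneg i d)
    rw [h0, mul_zero, zero_mul]
    exact Weights.P_nonneg _ _

theorem n5_exp {y : ℝ} (hy : 0 ≤ y) : Real.exp (-y) ≤ 1 - y + y ^ 2 := by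
  have h1 : 1 + y ≤ Real.exp y := by linarith [Real.add_one_le_exp y]
  have h2 : 0 < Real.exp y := Real.exp_pos y
  rw [Real.exp_neg, inv_le_iff_one_le_mul₀ h2]
  have h3 : (0 : ℝ) ≤ 1 - y + y ^ 2 := by nlinarith [sq_nonneg (y - 1 / 2)]
  have h4 := mul_le_mul_of_nonneg_left h1 h3
  nlinarith [pow_nonneg hy 3]

/-- Chunk N5 (M): the probability that `i` retains no colour except possibly `c`.

**Proof.** By `n4_P` work in `blk`; the event is the intersection over `d ≠ c` of events of the block `d`, so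
(`ra3_E_prod` for the indicators) its probability is `∏_{d ≠ c} (1 - r d)` with
`r d = P (rtn i d) = θ x i d * keep i d` (inside the block `d`: `ra3_E_prod` or `ra3_coin`; the event says
that the coin `(i, d)` is `true` and the coins `(j, d)` of the neighbours with `0 < x j d` are `false`;
if `x i d = 0` both sides are `0`). With `1 - y ≤ exp (-y)`, `keep ≥ 1 - θ K` (`n1_keep`) and
`∑_{d ≠ c} x i d ≥ 1 - α - β`:
`P ≤ exp (-y)`, `y = θ (1 - θ K) (1 - α - β) ≥ θ (1 - 3 ε / 16)`, and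
`exp (-y) ≤ exp (-θ (1 - 3ε/16)) ≤ 1 - θ (1 - 3ε/16) + θ²/2 ≤ 1 - θ (1 - ε/4)` (`θ ≤ ε/32`). -/
theorem n5_J {vt : ι → Finset V} {K : ℕ} (hs : LinSys vt K) {L : ι → Finset C}
    {χ : ι → Option C} {x : ι → C → ℝ} {θ ε B α β ρ : ℝ} (hI : Inv vt L χ x α β ρ)
    (hP : RPar K θ ε B α β ρ (Fintype.card C)) (i : ι) (hi : χ i = none) (c : C) :
    (muN θ x).P (fun ω => ∀ d, d ≠ c → ¬ rtn vt x ω i d) ≤ 1 - θ * (1 - ε / 4) := by
  have hth := hP.th_pos
  have hK1 : (1 : ℝ) ≤ K := by exact_mod_cast hP.K_pos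
  have hθK0 : 0 ≤ θ * K := by positivity
  have hθK : θ * K ≤ ε / 16 := by
    have := hP.th_le
    nlinarith
  have hθε : θ ≤ ε / 32 := by
    have := hP.th_le
    nlinarith
  have hε := hP.eps_pos
  have hε1 := hP.eps_le
  have e1 : (muN θ x).P (fun ω => ∀ d, d ≠ c → ¬ rtn vt x ω i d) =
      (blk (fun z : ι × C => θ * x z.1 z.2)).P (fun ω' => ∀ d, d ≠ c → ¬ n5_R vt x i d (ω' d)) := by
    unfold muN
    rw [n4_P]
    rfl
  have e2 : (blk (fun z : ι × C => θ * x z.1 z.2)).P (fun ω' => ∀ d, d ≠ c → ¬ n5_R vt x i d (ω' d)) =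
      ∏ d, ∑ a, (blk (fun z : ι × C => θ * x z.1 z.2)).w d a *
        (if d ≠ c ∧ n5_R vt x i d a then (0 : ℝ) else 1) := by
    rw [← ra3_E_prod (blk (fun z : ι × C => θ * x z.1 z.2))
      (fun (d : C) (a : ι → Bool) => if d ≠ c ∧ n5_R vt x i d a then (0 : ℝ) else 1)]
    unfold Weights.P
    congr 1
    funext ω'
    by_cases h : ∀ d, d ≠ c → ¬ n5_R vt x i d (ω' d)
    · rw [if_pos h]
      symm
      exact Finset.prod_eq_one fun d _ => if_neg fun h2 => h d h2.1 h2.2
    · rw [if_neg h]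
      push Not at h
      obtain ⟨d, h1, h2⟩ := h
      symm
      exact Finset.prod_eq_zero (Finset.mem_univ d) (if_pos ⟨h1, h2⟩)
  have e3 : ∀ d, 0 ≤ ∑ a, (blk (fun z : ι × C => θ * x z.1 z.2)).w d a *
        (if d ≠ c ∧ n5_R vt x i d a then (0 : ℝ) else 1) := by
    intro d
    refine Finset.sum_nonneg fun a _ => mul_nonneg ((blk _).nonneg d a) ?_
    split_ifs <;> norm_num
  have e4 : ∀ d, ∑ a, (blk (fun z : ι × C => θ * x z.1 z.2)).w d a *
        (if d ≠ c ∧ n5_R vt x i d a then (0 : ℝ) else 1) ≤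
      Real.exp (-(θ * (1 - θ * K) * (if d = c then 0 else x i d))) := by
    intro d
    by_cases hd : d = c
    · rw [if_pos hd]
      have : ∀ a, (if d ≠ c ∧ n5_R vt x i d a then (0 : ℝ) else 1) = 1 := fun a => if_neg fun h => h.1 hd
      simp only [this, mul_one, (blk _).sum_one, mul_zero, neg_zero, Real.exp_zero, le_refl]
    · rw [if_neg hd]
      have h1 : ∑ a, (blk (fun z : ι × C => θ * x z.1 z.2)).w d a *
          (if d ≠ c ∧ n5_R vt x i d a then (0 : ℝ) else 1) =
          (coinc (fun j => θ * x j d)).P (fun a => ¬ n5_R vt x i d a) := by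
        unfold Weights.P Weights.E
        refine Finset.sum_congr rfl fun a _ => ?_
        by_cases h : n5_R vt x i d a
        · rw [if_pos ⟨hd, h⟩, mul_zero]
          symm
          exact mul_eq_zero_of_right _ (if_neg (not_not.2 h))
        · rw [if_neg (fun h2 : d ≠ c ∧ n5_R vt x i d a => h h2.2)]
          exact congrArg₂ (· * ·) rfl (if_pos h).symm
      rw [h1, Weights.P_not]
      have h2 := n5_block hs hI hP i d
      have h3 := Real.one_sub_le_exp_neg (θ * (1 - θ * K) * x i d)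
      have h4 : θ * x i d * (1 - θ * K) = θ * (1 - θ * K) * x i d := by ring
      linarith
  rw [e1, e2]
  refine (Finset.prod_le_prod (fun d _ => e3 d) fun d _ => e4 d).trans ?_
  rw [← Real.exp_sum]
  have e5 : ∑ d, (-(θ * (1 - θ * K) * (if d = c then 0 else x i d))) =
      -(θ * (1 - θ * K) * (∑ d, x i d - x i c)) := by
    rw [Finset.sum_neg_distrib, ← Finset.mul_sum]
    congr 2
    rw [← Finset.add_sum_erase _ _ (Finset.mem_univ c), ← Finset.add_sum_erase _ (fun d => x i d) (Finset.mem_univ c)]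
    rw [if_pos rfl, zero_add, add_sub_cancel_left]
    refine Finset.sum_congr rfl fun d hd => if_neg (Finset.ne_of_mem_erase hd)
  rw [e5]
  have h1 := hI.lo i hi
  have h2 := hI.cap i c
  have h3 : 1 - α - β ≤ ∑ d, x i d - x i c := by linarith
  have hal := hP.al
  have hal0 := hP.al0
  have hbe := hP.be
  have hbe0 := hP.be0
  have h4 : 1 - 3 * ε / 16 ≤ (1 - θ * K) * (∑ d, x i d - x i c) := by
    have h5 : (1 - θ * K) * (1 - α - β) ≤ (1 - θ * K) * (∑ d, x i d - x i c) :=
      mul_le_mul_of_nonneg_left h3 (by linarith)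
    nlinarith
  have h5 : θ * (1 - 3 * ε / 16) ≤ θ * (1 - θ * K) * (∑ d, x i d - x i c) := by
    rw [mul_assoc]
    exact mul_le_mul_of_nonneg_left h4 hth.le
  have h6 : Real.exp (-(θ * (1 - θ * K) * (∑ d, x i d - x i c))) ≤ Real.exp (-(θ * (1 - 3 * ε / 16))) :=
    Real.exp_le_exp.2 (by linarith)
  have h7 : 0 ≤ θ * (1 - 3 * ε / 16) := mul_nonneg hth.le (by linarith)
  refine h6.trans ((n5_exp h7).trans ?_)
  have h8 : θ * (1 - 3 * ε / 16) ≤ θ := by nlinarith
  have h9 : (θ * (1 - 3 * ε / 16)) ^ 2 ≤ θ ^ 2 := pow_le_pow_left₀ h7 h8 2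
  nlinarith

end Pool.Agent.Lib.BFE
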