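import Pool.Agent.Lib.BFE.Defs
import Pool.Agent.Lib.BFE.NDefs
import Pool.Agent.Lib.BFE.N1
import Pool.Agent.Lib.BFE.N4
import Pool.Agent.Lib.BFE.N5

set_option autoImplicit false
set_option linter.unusedSectionVars false

open Finset
open scoped Classical

namespace Pool.Agent.Lib.BFE

open Pool.Agent.Lib.Prob48 (Weights)

variable {ι V C : Type} [Fintype ι] [DecidableEq ι] [DecidableEq V] [Fintype C] [DecidableEq C]

/-- retaining `d` only depends on the block `d` -/
theorem n6_rtn {vt : ι → Finset V} {x : ι → C → ℝ} {ω ω' : ι × C → Bool} {i : ι} {d : C}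
    (h : ∀ j, ω (j, d) = ω' (j, d)) : rtn vt x ω i d ↔ rtn vt x ω' i d := by
  unfold rtn free rcv
  simp only [h]

theorem n6_one {vt : ι → Finset V} {x : ι → C → ℝ} {ω : ι × C → Bool} {v : V} {i i' : ι} {d : C}
    (hi : v ∈ vt i) (hi' : v ∈ vt i') (h : rtn vt x ω i d) (h' : rtn vt x ω i' d) : i = i' := by
  by_contra hne
  exact h.2 i' ⟨hne, fun hd => (disjoint_left.1 hd) hi hi'⟩ h'.1

/-- Chunk N6 (M/L): `GG` is at most `(1 - θ (1 - ε/4)) G1` up to a small error. -/
theorem n6_tail {vt : ι → Finset V} {K : ℕ} (hs : LinSys vt K) {L : ι → Finset C}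
    {χ : ι → Option C} {x : ι → C → ℝ} {θ ε B α β ρ η : ℝ} (hI : Inv vt L χ x α β ρ)
    (hP : RPar K θ ε B α β ρ (Fintype.card C)) (hη : 0 < η) (hη1 : η ≤ 1) (v : V) (c : C) :
    (muN θ x).P (fun ω => (1 - θ * (1 - ε / 4)) * G1 vt θ x v c ω + η ≤ GG vt θ x v c ω)
      ≤ tl K B β η := by
  have hbeta := hP.be0
  have hB := hP.B_ge
  have hwt := fun i => n1_wt hs hI hP i c
  set q : ℝ := 1 - θ * (1 - ε / 4) with hq
  set pp : ι × C → ℝ := fun z => θ * x z.1 z.2 with hpp
  set sw : (C → ι → Bool) → (ι × C → Bool) := fun ω' z => ω' z.2 z.1 with hsw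
  have h0 : (muN θ x).P (fun ω => q * G1 vt θ x v c ω + η ≤ GG vt θ x v c ω) =
      (blk pp).P (fun ω' => q * G1 vt θ x v c (sw ω') + η ≤ GG vt θ x v c (sw ω')) := n4_P pp _
  rw [h0]
  refine n4_freeze (blk pp) c _ _ fun a => ?_
  set S : Finset ι := univ.filter fun i => v ∈ vt i ∧ ∀ j, adjV vt i j → v ∉ vt j → ¬ (a j = true ∧ 0 < x j c) with hS
  set J : ι → (C → ι → Bool) → Prop := fun i ω' => ∀ d, d ≠ c → ¬ rtn vt x (sw ω') i d with hJ
  set f : (C → ι → Bool) → ℝ := fun ω' => ∑ i ∈ S, wt vt θ x i c * ((if J i ω' then (1 : ℝ) else 0) - q) with hf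
  -- the block `c` has no influence on `J`
  have hJc : ∀ i ω' b, J i (Function.update ω' c b) ↔ J i ω' := by
    intro i ω' b
    simp only [hJ]
    refine forall_congr' fun d => ?_
    refine imp_congr_right fun hd => not_congr (n6_rtn fun j => ?_)
    simp only [hsw]
    rw [Function.update_of_ne hd]
  -- the inequality in terms of `f`
  have hle : ∀ ω', (q * G1 vt θ x v c (sw (Function.update ω' c a)) + η ≤ GG vt θ x v c (sw (Function.update ω' c a))) →
      η ≤ f ω' := by
    intro ω' h
    have hfo : ∀ i, freeOff vt x v (sw (Function.update ω' c a)) i c ↔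
        ∀ j, adjV vt i j → v ∉ vt j → ¬ (a j = true ∧ 0 < x j c) := by
      intro i
      unfold freeOff rcv
      simp only [hsw, Function.update_self]
    have h1 : G1 vt θ x v c (sw (Function.update ω' c a)) = ∑ i ∈ S, wt vt θ x i c := by
      unfold G1
      rw [hS, ← filter_filter, sum_filter (p := fun i => ∀ j, adjV vt i j → v ∉ vt j → ¬ (a j = true ∧ 0 < x j c))]
      refine sum_congr rfl fun i _ => ?_
      exact if_congr (hfo i) rfl rfl
    have h2 : GG vt θ x v c (sw (Function.update ω' c a)) = ∑ i ∈ S, wt vt θ x i c * (if J i ω' then (1 : ℝ) else 0) := by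
      unfold GG
      rw [hS, ← filter_filter, sum_filter (p := fun i => ∀ j, adjV vt i j → v ∉ vt j → ¬ (a j = true ∧ 0 < x j c))]
      refine sum_congr rfl fun i _ => ?_
      have h3 : (∀ d, d ≠ c → ¬ rtn vt x (sw (Function.update ω' c a)) i d) ↔ J i ω' := hJc i ω' a
      by_cases h4 : ∀ j, adjV vt i j → v ∉ vt j → ¬ (a j = true ∧ 0 < x j c)
      · rw [if_pos h4]
        by_cases h5 : J i ω'
        · rw [if_pos ⟨(hfo i).2 h4, h3.2 h5⟩, if_pos h5, mul_one]
        · rw [if_neg fun h6 => h5 (h3.1 h6.2), if_neg h5, mul_zero]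
      · rw [if_neg h4, if_neg fun h6 => h4 ((hfo i).1 h6.1)]
    rw [h1, h2] at h
    have h6 : f ω' = ∑ i ∈ S, wt vt θ x i c * (if J i ω' then (1 : ℝ) else 0) - q * ∑ i ∈ S, wt vt θ x i c := by
      simp only [hf]
      rw [mul_sum, ← sum_sub_distrib]
      refine sum_congr rfl fun i _ => ?_
      ring
    rw [h6]
    linarith
  -- the mean
  have hE : (blk pp).E f ≤ 0 := by
    have h1 : (blk pp).E f = ∑ i ∈ S, wt vt θ x i c * ((blk pp).P (J i) - q) := by
      simp only [hf]
      rw [(blk pp).E_sum]
      refine sum_congr rfl fun i _ => ?_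
      rw [(blk pp).E_mul_left, (blk pp).E_sub, (blk pp).E_const]
      congr 2
      unfold Weights.P
      congr 1
      funext ω
      by_cases h : J i ω
      · rw [if_pos h]
        exact (if_pos h).symm
      · rw [if_neg h]
        exact (if_neg h).symm
    rw [h1]
    refine sum_nonpos fun i _ => ?_
    by_cases hi : χ i = none
    · have h2 : (blk pp).P (J i) ≤ q := by
        have h3 := n5_J hs hI hP i hi c
        have h4 : (muN θ x).P (fun ω => ∀ d, d ≠ c → ¬ rtn vt x ω i d) = (blk pp).P (J i) := n4_P pp _
        rwa [h4] at h3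
      exact mul_nonpos_of_nonneg_of_nonpos (hwt i).1 (by linarith)
    · have h2 : wt vt θ x i c = 0 := by
        unfold wt
        rw [hI.zero i c hi, zero_div]
      rw [h2, zero_mul]
  -- oscillation
  have hosc : ∀ (d : C) (ω' : C → ι → Bool) (a1 a2 : ι → Bool),
      f (Function.update ω' d a1) - f (Function.update ω' d a2) ≤ 2 * β := by
    intro d ω' a1 a2
    by_cases hd : d = c
    · subst hd
      have h1 : f (Function.update ω' d a1) = f (Function.update ω' d a2) := by
        simp only [hf, hJc]
      rw [h1, sub_self]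
      linarith
    · have h1 : f (Function.update ω' d a1) - f (Function.update ω' d a2) ≤
          ∑ i ∈ S, if rtn vt x (sw (Function.update ω' d a2)) i d then wt vt θ x i c else 0 := by
        simp only [hf]
        rw [← sum_sub_distrib]
        refine sum_le_sum fun i _ => ?_
        have h2 := (hwt i).1
        by_cases j1 : J i (Function.update ω' d a1)
        · by_cases j2 : J i (Function.update ω' d a2)
          · rw [if_pos j1, if_pos j2, sub_self]
            split_ifs
            · exact h2
            · exact le_refl _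
          · have h3 : rtn vt x (sw (Function.update ω' d a2)) i d := by
              simp only [hJ] at j1 j2
              push Not at j2
              obtain ⟨d', hd', h4⟩ := j2
              by_cases h5 : d' = d
              · rwa [h5] at h4
              · exfalso
                refine j1 d' hd' ((n6_rtn fun j => ?_).1 h4)
                simp only [hsw]
                rw [Function.update_of_ne h5, Function.update_of_ne h5]
            rw [if_pos j1, if_neg j2, if_pos h3]
            exact le_of_eq (by ring)
        · rw [if_neg j1]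
          have h6 : 0 ≤ (if J i (Function.update ω' d a2) then (1 : ℝ) else 0) := by split_ifs <;> norm_num
          have h7 : 0 ≤ (if rtn vt x (sw (Function.update ω' d a2)) i d then wt vt θ x i c else 0) := by
            split_ifs
            · exact h2
            · exact le_refl _
          nlinarith [mul_nonneg h2 h6]
      refine h1.trans ?_
      rw [← sum_filter]
      have hcard : (S.filter fun i => rtn vt x (sw (Function.update ω' d a2)) i d).card ≤ 1 := by
        rw [card_le_one]
        intro i hi i' hi'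
        rw [mem_filter, hS, mem_filter] at hi hi'
        exact n6_one hi.1.2.1 hi'.1.2.1 hi.2 hi'.2
      calc ∑ i ∈ S.filter (fun i => rtn vt x (sw (Function.update ω' d a2)) i d), wt vt θ x i c
          ≤ ∑ i ∈ S.filter (fun i => rtn vt x (sw (Function.update ω' d a2)) i d), 2 * β :=
            sum_le_sum fun i _ => (hwt i).2.2.1
        _ = (S.filter fun i => rtn vt x (sw (Function.update ω' d a2)) i d).card * (2 * β) := by
            rw [sum_const, nsmul_eq_mul]
        _ ≤ 1 * (2 * β) := by
            refine mul_le_mul_of_nonneg_right ?_ (by linarith)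
            exact_mod_cast hcard
        _ = 2 * β := one_mul _
  have hbern := (blk pp).bernstein f (fun _ => 2 * β) (fun _ => 1) (fun _ _ => false) (2 * β) η (4 * B * β)
    (fun _ => by linarith) (fun _ => le_refl _) hosc (fun d => by
      have := (blk pp).nonneg d (fun _ => false)
      linarith) (by linarith) hη.le (by positivity) (by
      rw [sum_const, nsmul_eq_mul, card_univ]
      have h1 := hP.beB
      nlinarith [mul_le_mul_of_nonneg_left h1 (by linarith : (0 : ℝ) ≤ 4 * β)])
  refine ((blk pp).P_mono (B := fun ω' => (blk pp).E f + η ≤ f ω') fun ω' hω' => ?_).trans (hbern.trans ?_)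
  · have := hle ω' hω'
    show (blk pp).E f + η ≤ f ω'
    linarith
  · unfold tl
    refine Real.exp_le_exp.2 (neg_le_neg ?_)
    have hK1 : (1 : ℝ) ≤ K := by exact_mod_cast hP.K_pos
    have hK2 : (1 : ℝ) ≤ (K : ℝ) ^ 2 := one_le_pow₀ hK1
    refine le_min ?_ ?_
    · rw [div_le_div_iff₀ (by positivity) (by positivity)]
      have : 0 ≤ η ^ 2 * (B * β) := by positivity
      nlinarith
    · rw [div_le_div_iff₀ (by positivity) (by positivity)]
      have h1 : η ^ 2 * (2 * (2 * β)) ≤ η * (2 * (2 * β)) := by
        have : η ^ 2 ≤ η := by nlinarith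
        exact mul_le_mul_of_nonneg_right this (by positivity)
      have h2 : (1 : ℝ) ≤ K ^ 2 * B := by nlinarith
      have h3 : 0 ≤ η * β := by positivity
      nlinarith [mul_le_mul_of_nonneg_left h2 h3]

end Pool.Agent.Lib.BFE
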