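import Pool.Agent.Lib.BFE.Defs
import Pool.Agent.Lib.BFE.NDefs
import Pool.Agent.Lib.BFE.N1

set_option autoImplicit false
set_option linter.unusedSectionVars false

open Finset
open scoped Classical

namespace Pool.Agent.Lib.BFE

open Pool.Agent.Lib.Prob48 (Weights)

variable {ι V C : Type} [Fintype ι] [DecidableEq ι] [DecidableEq V] [Fintype C] [DecidableEq C]

/-- Chunk N7 (S/M): the load after the round is at most `GG`.

**Proof.** All terms are non-negative (`n1_wt`). If some `e ∋ v` receives `c` (`rcv x ω e c`), then every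
`i ∋ v`, `i ≠ e`, has the neighbour `e` receiving `c`, so `nxt i c = 0`; and `xN e c = 0`: if `free e c` then `e`
retains `c`, so `colN e ≠ none`; otherwise `nxt e c = 0`. The left side is `0`. If no `e ∋ v` receives `c`: for
`i ∋ v` with `colN i = none` we have `χ i = none` and `i` retains no colour, so the second condition in `GG`
holds, and `free i c ↔ freeOff v i c`, so the terms agree; for `colN i ≠ none` the left term is `0`. -/
theorem n7_load {vt : ι → Finset V} {K : ℕ} (hs : LinSys vt K) {L : ι → Finset C}
    {χ : ι → Option C} {x : ι → C → ℝ} {θ ε B α β ρ : ℝ} (hI : Inv vt L χ x α β ρ)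
    (hP : RPar K θ ε B α β ρ (Fintype.card C)) (ω : ι × C → Bool) (v : V) (c : C) :
    ∑ i ∈ univ.filter (fun i => v ∈ vt i), xN vt θ x χ ω i c ≤ GG vt θ x v c ω := by
  unfold GG
  refine sum_le_sum fun i _ => ?_
  have hw := (n1_wt hs hI hP i c).1
  have h0 : 0 ≤ (if freeOff vt x v ω i c ∧ ∀ d, d ≠ c → ¬ rtn vt x ω i d then wt vt θ x i c else 0) := by
    split_ifs
    · exact hw
    · exact le_rfl
  unfold xN
  by_cases hcol : colN vt x χ ω i = none
  · rw [if_pos hcol]
    unfold nxt
    by_cases hfree : free vt x ω i c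
    · rw [if_pos hfree, if_pos]
      refine ⟨fun j hj _ => hfree j hj, fun d _ hd => ?_⟩
      unfold colN at hcol
      by_cases hχ : χ i ≠ none
      · rw [if_pos hχ] at hcol
        exact hχ hcol
      · rw [if_neg hχ, dif_pos ⟨d, hd⟩] at hcol
        exact absurd hcol (by simp)
    · rw [if_neg hfree]
      exact h0
  · rw [if_neg hcol]
    exact h0

end Pool.Agent.Lib.BFE
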