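import Pool.Agent.Lib.BFE.Defs
import Pool.Agent.Lib.BFE.NDefs
import Pool.Agent.Lib.BFE.N1

set_option autoImplicit false
set_option linter.unusedSectionVars false

open Finset
open scoped Classical

namespace Pool.Agent.Lib.BFE

open Pool.Agent.Lib.Prob48 (Weights)

variable {ι V C : Type} [Fintype ι] [DecidableEq ι] [DecidableEq V] [Fintype C] [DecidableEq C]

theorem n7b_symm {vt : ι → Finset V} {i j : ι} (h : adjV vt i j) : adjV vt j i :=
  ⟨h.1.symm, fun h' => h.2 h'.symm⟩

theorem n7b_col {vt : ι → Finset V} {χ : ι → Option C} {x : ι → C → ℝ} {ω : ι × C → Bool} {i : ι} {c : C}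
    (h : colN vt x χ ω i = some c) : χ i = some c ∨ (χ i = none ∧ rtn vt x ω i c) := by
  unfold colN at h
  by_cases h1 : χ i ≠ none
  · rw [if_pos h1] at h
    exact Or.inl h
  · rw [if_neg h1] at h
    right
    refine ⟨not_not.1 h1, ?_⟩
    by_cases h2 : ∃ c, rtn vt x ω i c
    · rw [dif_pos h2] at h
      have h3 := h2.choose_spec
      rw [Option.some.inj h] at h3
      exact h3
    · rw [dif_neg h2] at h
      exact absurd h (by simp)

/-- Chunk N7B (S/M): the deterministic part of the new invariant.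

**Proof.** `nonneg`, `zero`, `cap`: definitions and `n1_wt`. `proper`: let `adjV i j`, `colN i ≠ none`. If `χ i` and
`χ j` are both not `none`: `Inv.proper`. If `χ i = none`, `colN i = some c` with `rtn i c` (choose_spec): if
`χ j ≠ none` then `χ j ≠ some c` by `Inv.avail` (`0 < x i c`); if `χ j = none` and `colN j = some c` then
`rcv j c`, contradiction with `free i c`. Symmetric if `χ j = none`, `χ i = some c`: `colN j = some c` gives
`0 < x j c`, `Inv.avail j c` says `χ i ≠ some c`. `list`: `rtn i c` gives `0 < x i c`, `Inv.avail`. `avail`: if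
`0 < xN i c` then `free i c`, `0 < x i c` (`wt > 0`), and a neighbour `j` with `colN j = some c` has `χ j = some c`
(excluded by `Inv.avail`) or receives `c` (excluded by `free`). -/
theorem n7_det {vt : ι → Finset V} {K : ℕ} (hs : LinSys vt K) {L : ι → Finset C}
    {χ : ι → Option C} {x : ι → C → ℝ} {θ ε B α β ρ : ℝ} (hI : Inv vt L χ x α β ρ)
    (hP : RPar K θ ε B α β ρ (Fintype.card C)) (ω : ι × C → Bool) :
    (∀ i c, 0 ≤ xN vt θ x χ ω i c) ∧
    (∀ i c, colN vt x χ ω i ≠ none → xN vt θ x χ ω i c = 0) ∧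
    (∀ i j, adjV vt i j → colN vt x χ ω i ≠ none → colN vt x χ ω i ≠ colN vt x χ ω j) ∧
    (∀ i c, colN vt x χ ω i = some c → c ∈ L i) ∧
    (∀ i c, 0 < xN vt θ x χ ω i c → c ∈ L i ∧ ∀ j, adjV vt i j → colN vt x χ ω j ≠ some c) ∧
    (∀ i c, xN vt θ x χ ω i c ≤ β * (1 + 2 * K * θ)) := by
  refine ⟨?_, ?_, ?_, ?_, ?_, ?_⟩
  · intro i c
    unfold xN nxt
    split_ifs
    · exact (n1_wt hs hI hP i c).1
    · exact le_refl _
    · exact le_refl _
  · intro i c h
    unfold xN
    rw [if_neg h]
  · intro i j hij hne heq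
    obtain ⟨c, hc⟩ := Option.ne_none_iff_exists'.1 hne
    have hc' : colN vt x χ ω j = some c := by rw [← heq, hc]
    rcases n7b_col hc with h1 | ⟨h1, h1'⟩ <;> rcases n7b_col hc' with h2 | ⟨h2, h2'⟩
    · exact hI.proper i j hij (by rw [h1]; simp) (by rw [h1, h2])
    · exact (hI.avail j c h2'.1.2).2 i (n7b_symm hij) h1
    · exact (hI.avail i c h1'.1.2).2 j hij h2
    · exact h1'.2 j hij h2'.1
  · intro i c h
    rcases n7b_col h with h1 | ⟨h1, h1'⟩
    · exact hI.list i c h1
    · exact (hI.avail i c h1'.1.2).1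
  · intro i c h
    unfold xN nxt at h
    split_ifs at h with h1 h2
    · have h3 : 0 < x i c := by
        refine lt_of_le_of_ne (hI.nonneg i c) fun h4 => ?_
        unfold wt at h
        rw [← h4, zero_div] at h
        exact lt_irrefl _ h
      refine ⟨(hI.avail i c h3).1, fun j hij hc => ?_⟩
      rcases n7b_col hc with h4 | ⟨h4, h4'⟩
      · exact (hI.avail i c h3).2 j hij h4
      · exact h2 j hij h4'.1
    · exact absurd h (lt_irrefl _)
    · exact absurd h (lt_irrefl _)
  · intro i c
    have h0 : 0 ≤ β * (1 + 2 * K * θ) := by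
      have h1 := hP.be0
      have h2 := hP.th_pos
      positivity
    unfold xN nxt
    split_ifs
    · exact (n1_wt hs hI hP i c).2.1
    · exact h0
    · exact h0

end Pool.Agent.Lib.BFE
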