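import Pool.Agent.Lib.BFE.Defs
import Pool.Agent.Lib.BFE.N2B
import Pool.Agent.Lib.BFE.N3B
import Pool.Agent.Lib.BFE.N6
import Pool.Agent.Lib.BFE.N7
import Pool.Agent.Lib.BFE.N7B

set_option autoImplicit false
set_option linter.unusedSectionVars false

open Finset
open scoped Classical

namespace Pool.Agent.Lib.BFE

open Pool.Agent.Lib.Prob48 (Weights)

variable {ι V C : Type} [Fintype ι] [DecidableEq ι] [DecidableEq V] [Fintype C] [DecidableEq C]

/-- Chunk N8 (S/M): few uncoloured edges at a vertex.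

**Proof.** `∑_{i ∋ v, χ i = none} ∑ c, x i c ≤ ∑ c, ρ ≤ |C|` (`Inv.load`), and `∑ c, x i c ≥ 1 - α ≥ 1/2`. -/
theorem n8_deg {vt : ι → Finset V} {K : ℕ} {L : ι → Finset C}
    {χ : ι → Option C} {x : ι → C → ℝ} {θ ε B α β ρ : ℝ} (hI : Inv vt L χ x α β ρ)
    (hP : RPar K θ ε B α β ρ (Fintype.card C)) (v : V) :
    (univ.filter fun i => v ∈ vt i ∧ χ i = none).card ≤ 2 * Fintype.card C := by
  have hα : α ≤ 1 / 2 := by
    have h1 := hP.al
    have h2 := hP.eps_le
    linarith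
  have hρ1 : ρ ≤ 1 := by
    have h1 := hP.rho
    have h2 := hP.eps_pos
    linarith
  have h1 : ((univ.filter fun i => v ∈ vt i ∧ χ i = none).card : ℝ) * (1 / 2) ≤
      ∑ i ∈ univ.filter (fun i => v ∈ vt i ∧ χ i = none), ∑ c, x i c := by
    rw [← nsmul_eq_mul, ← sum_const]
    refine sum_le_sum fun i hi => ?_
    have h2 := hI.lo i (mem_filter.1 hi).2.2
    linarith
  have h2 : ∑ i ∈ univ.filter (fun i => v ∈ vt i ∧ χ i = none), ∑ c, x i c ≤ Fintype.card C := by
    rw [sum_comm]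
    have h3 : ∀ c ∈ (univ : Finset C), ∑ i ∈ univ.filter (fun i => v ∈ vt i ∧ χ i = none), x i c ≤ 1 := by
      intro c _
      refine le_trans (sum_le_sum_of_subset_of_nonneg ?_ fun i _ _ => hI.nonneg i c) ((hI.load v c).trans hρ1)
      intro i hi
      exact mem_filter.2 ⟨mem_univ _, (mem_filter.1 hi).2.1⟩
    refine (sum_le_sum h3).trans (le_of_eq ?_)
    rw [sum_const, card_univ, nsmul_eq_mul, mul_one]
  have h3 : ((univ.filter fun i => v ∈ vt i ∧ χ i = none).card : ℝ) ≤ ((2 * Fintype.card C : ℕ) : ℝ) := by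
    push_cast
    linarith
  exact_mod_cast h3

/-- the uncoloured neighbours -/
noncomputable def n8_N (vt : ι → Finset V) (χ : ι → Option C) (i : ι) : Finset ι :=
  univ.filter fun j => χ j = none ∧ adjV vt i j

/-- the uncoloured edges at a vertex -/
noncomputable def n8_U (vt : ι → Finset V) (χ : ι → Option C) (v : V) : Finset ι :=
  univ.filter fun i => v ∈ vt i ∧ χ i = none

/-- the uncoloured edges at a vertex and their uncoloured neighbours -/
noncomputable def n8_W (vt : ι → Finset V) (χ : ι → Option C) (v : V) : Finset ι :=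
  n8_U vt χ v ∪ (n8_U vt χ v).biUnion (n8_N vt χ)

/-- the index type of the local lemma -/
abbrev N8J (ι C : Type) {V : Type} [Fintype ι] [DecidableEq V] (vt : ι → Finset V) : Type :=
  ι ⊕ ({v // v ∈ univ.biUnion vt} × C)

/-- the edges on which an event depends -/
noncomputable def n8_T (vt : ι → Finset V) (χ : ι → Option C) (b : N8J ι C vt) : Finset ι :=
  match b with
  | Sum.inl i => if χ i = none then n8_N vt χ i else ∅
  | Sum.inr z => n8_W vt χ z.1.1

theorem n8_symm {vt : ι → Finset V} {i j : ι} (h : adjV vt i j) : adjV vt j i :=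
  ⟨h.1.symm, fun h' => h.2 h'.symm⟩

theorem n8_Ncard {vt : ι → Finset V} {K : ℕ} (hs : LinSys vt K) {L : ι → Finset C}
    {χ : ι → Option C} {x : ι → C → ℝ} {θ ε B α β ρ : ℝ} (hI : Inv vt L χ x α β ρ)
    (hP : RPar K θ ε B α β ρ (Fintype.card C)) (i : ι) :
    (n8_N vt χ i).card ≤ K * (2 * Fintype.card C) := by
  have h1 : n8_N vt χ i ⊆ (vt i).biUnion (n8_U vt χ) := by
    intro j hj
    obtain ⟨h2, h3, h4⟩ := (mem_filter.1 hj).2
    rw [Finset.not_disjoint_iff] at h4
    obtain ⟨v, h5, h6⟩ := h4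
    exact mem_biUnion.2 ⟨v, h5, mem_filter.2 ⟨mem_univ _, h6, h2⟩⟩
  refine (card_le_card h1).trans ((card_biUnion_le_card_mul _ _ (2 * Fintype.card C) fun v _ => n8_deg hI hP v).trans ?_)
  exact Nat.mul_le_mul_right _ (hs.card_le i)

theorem n8_Wcard {vt : ι → Finset V} {K : ℕ} (hs : LinSys vt K) {L : ι → Finset C}
    {χ : ι → Option C} {x : ι → C → ℝ} {θ ε B α β ρ : ℝ} (hI : Inv vt L χ x α β ρ)
    (hP : RPar K θ ε B α β ρ (Fintype.card C)) (hC : 1 ≤ Fintype.card C) (hK : 1 ≤ K) (v : V) :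
    (n8_W vt χ v).card ≤ 6 * K * Fintype.card C ^ 2 := by
  have h1 := n8_deg hI hP v
  have h2 : ((n8_U vt χ v).biUnion (n8_N vt χ)).card ≤ (n8_U vt χ v).card * (K * (2 * Fintype.card C)) :=
    card_biUnion_le_card_mul _ _ _ fun i _ => n8_Ncard hs hI hP i
  have h3 : (n8_U vt χ v).card ≤ 2 * Fintype.card C := h1
  have h4 : (n8_U vt χ v).card * (K * (2 * Fintype.card C)) ≤ 2 * Fintype.card C * (K * (2 * Fintype.card C)) :=
    Nat.mul_le_mul_right _ h3
  refine (card_union_le _ _).trans ?_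
  have h5 : 2 * Fintype.card C ≤ 2 * (K * Fintype.card C ^ 2) := by
    refine Nat.mul_le_mul_left _ ?_
    calc Fintype.card C = 1 * (Fintype.card C * 1) := by ring
      _ ≤ K * (Fintype.card C * Fintype.card C) := Nat.mul_le_mul hK (Nat.mul_le_mul_left _ hC)
      _ = K * Fintype.card C ^ 2 := by ring
  calc (n8_U vt χ v).card + ((n8_U vt χ v).biUnion (n8_N vt χ)).card
      ≤ 2 * (K * Fintype.card C ^ 2) + 2 * Fintype.card C * (K * (2 * Fintype.card C)) :=
        add_le_add (h3.trans h5) (h2.trans h4)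
    _ = 6 * K * Fintype.card C ^ 2 := by ring

theorem n8_Tcard {vt : ι → Finset V} {K : ℕ} (hs : LinSys vt K) {L : ι → Finset C}
    {χ : ι → Option C} {x : ι → C → ℝ} {θ ε B α β ρ : ℝ} (hI : Inv vt L χ x α β ρ)
    (hP : RPar K θ ε B α β ρ (Fintype.card C)) (hC : 1 ≤ Fintype.card C) (hK : 1 ≤ K) (b : N8J ι C vt) :
    (n8_T vt χ b).card ≤ 6 * K * Fintype.card C ^ 2 := by
  rcases b with i | z
  · show (if χ i = none then n8_N vt χ i else ∅ : Finset ι).card ≤ _
    split_ifs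
    · refine (n8_Ncard hs hI hP i).trans ?_
      calc K * (2 * Fintype.card C) = 2 * K * (Fintype.card C * 1) := by ring
        _ ≤ 6 * K * (Fintype.card C * Fintype.card C) :=
          Nat.mul_le_mul (Nat.mul_le_mul_right _ (by norm_num)) (Nat.mul_le_mul_left _ hC)
        _ = 6 * K * Fintype.card C ^ 2 := by ring
    · rw [card_empty]
      exact Nat.zero_le _
  · exact n8_Wcard hs hI hP hC hK z.1.1

/-- an edge is relevant for few events -/
theorem n8_Bcard {vt : ι → Finset V} {K : ℕ} (hs : LinSys vt K) {L : ι → Finset C}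
    {χ : ι → Option C} {x : ι → C → ℝ} {θ ε B α β ρ : ℝ} (hI : Inv vt L χ x α β ρ)
    (hP : RPar K θ ε B α β ρ (Fintype.card C)) (hC : 1 ≤ Fintype.card C) (hK : 1 ≤ K) (j : ι) :
    ((univ : Finset (N8J ι C vt)).filter fun b => j ∈ n8_T vt χ b).card ≤ 5 * K ^ 2 * Fintype.card C ^ 2 := by
  have hN := n8_Ncard hs hI hP j
  have h1 : ((univ : Finset (N8J ι C vt)).filter fun b => j ∈ n8_T vt χ b).card ≤
      ((n8_N vt χ j).disjSum ((vt j ∪ (n8_N vt χ j).biUnion vt) ×ˢ (univ : Finset C))).card := by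
    refine card_le_card_of_injOn (Sum.map id (Prod.map Subtype.val id)) ?_ ?_
    · intro b hb
      have hb' := (mem_filter.1 hb).2
      rcases b with i | z
      · have hb2 : j ∈ (if χ i = none then n8_N vt χ i else ∅ : Finset ι) := hb'
        split_ifs at hb2 with h
        · have h2 := (mem_filter.1 hb2).2
          exact Finset.inl_mem_disjSum.2 (mem_filter.2 ⟨mem_univ _, h, n8_symm h2.2⟩)
        · exact absurd hb2 (notMem_empty _)
      · have hb2 : j ∈ n8_U vt χ z.1.1 ∪ (n8_U vt χ z.1.1).biUnion (n8_N vt χ) := hb'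
        refine Finset.inr_mem_disjSum.2 (mem_product.2 ⟨?_, mem_univ _⟩)
        show z.1.1 ∈ vt j ∪ (n8_N vt χ j).biUnion vt
        rcases mem_union.1 hb2 with h | h
        · exact mem_union_left _ (mem_filter.1 h).2.1
        · obtain ⟨i, h3, h4⟩ := mem_biUnion.1 h
          refine mem_union_right _ (mem_biUnion.2 ⟨i, mem_filter.2 ⟨mem_univ _, (mem_filter.1 h3).2.2, ?_⟩,
            (mem_filter.1 h3).2.1⟩)
          exact n8_symm (mem_filter.1 h4).2.2
    · refine Function.Injective.injOn ?_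
      exact Function.Injective.sumMap Function.injective_id (Subtype.val_injective.prodMap Function.injective_id)
  refine h1.trans ?_
  rw [card_disjSum, card_product, card_univ]
  have h2 : (vt j ∪ (n8_N vt χ j).biUnion vt).card ≤ K + (K * (2 * Fintype.card C)) * K := by
    refine (card_union_le _ _).trans (add_le_add (hs.card_le j) ?_)
    exact (card_biUnion_le_card_mul _ _ K fun i _ => hs.card_le i).trans (Nat.mul_le_mul_right _ hN)
  have h3 : K * Fintype.card C ≤ K ^ 2 * Fintype.card C ^ 2 := by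
    calc K * Fintype.card C = (K * Fintype.card C) * 1 := by ring
      _ ≤ (K * Fintype.card C) * (K * Fintype.card C) := Nat.mul_le_mul_left _ (Nat.mul_pos hK hC)
      _ = K ^ 2 * Fintype.card C ^ 2 := by ring
  calc (n8_N vt χ j).card + (vt j ∪ (n8_N vt χ j).biUnion vt).card * Fintype.card C
      ≤ K * (2 * Fintype.card C) + (K + (K * (2 * Fintype.card C)) * K) * Fintype.card C :=
        add_le_add hN (Nat.mul_le_mul_right _ h2)
    _ = 3 * (K * Fintype.card C) + 2 * (K ^ 2 * Fintype.card C ^ 2) := by ring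
    _ ≤ 3 * (K ^ 2 * Fintype.card C ^ 2) + 2 * (K ^ 2 * Fintype.card C ^ 2) :=
        Nat.add_le_add_right (Nat.mul_le_mul_left _ h3) _
    _ = 5 * K ^ 2 * Fintype.card C ^ 2 := by ring

/-- the reception of a colour by a neighbour depends only on the coins of the uncoloured neighbours -/
theorem n8_rcv {vt : ι → Finset V} {L : ι → Finset C} {χ : ι → Option C} {x : ι → C → ℝ} {α β ρ : ℝ}
    (hI : Inv vt L χ x α β ρ) (S : Finset ι) (ω ω' : ι × C → Bool)
    (h : ∀ z ∈ ((S ×ˢ (univ : Finset C) : Finset (ι × C)) : Set (ι × C)), ω z = ω' z) (j : ι) (c : C)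
    (hj : χ j = none → j ∈ S) : rcv x ω j c ↔ rcv x ω' j c := by
  unfold rcv
  by_cases hn : χ j = none
  · rw [h (j, c) (by rw [mem_coe, mem_product]; exact ⟨hj hn, mem_univ _⟩)]
  · rw [hI.zero j c hn]
    constructor
    · rintro ⟨_, h1⟩
      exact absurd h1 (lt_irrefl _)
    · rintro ⟨_, h1⟩
      exact absurd h1 (lt_irrefl _)

/-- the arithmetic of the bound for `GG` -/
theorem n8_arith (ρ θ ε η g E G : ℝ) (h0 : 0 ≤ ρ) (hη : 0 ≤ η) (ht : 0 < θ) (he : 0 < ε) (he1 : ε ≤ 1) (hte : θ ≤ ε / 8)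
    (hE : E ≤ ρ * (1 + θ * (1 - ε) + 2 * θ ^ 2)) (hg : g < E + η) (hG : G < (1 - θ * (1 - ε / 4)) * g + η) :
    G ≤ ρ * (1 - ε * θ / 2) + 2 * η := by
  have h1 : 0 ≤ 1 - θ * (1 - ε / 4) := by nlinarith
  have h2 : 1 - θ * (1 - ε / 4) ≤ 1 := by nlinarith
  have h3 : (1 - θ * (1 - ε / 4)) * g ≤ (1 - θ * (1 - ε / 4)) * (ρ * (1 + θ * (1 - ε) + 2 * θ ^ 2) + η) :=
    mul_le_mul_of_nonneg_left (by linarith) h1
  have h4 : (1 - θ * (1 - ε / 4)) * (1 + θ * (1 - ε) + 2 * θ ^ 2) ≤ 1 - ε * θ / 2 := by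
    have h5 : 0 ≤ θ ^ 2 * ((1 - ε / 4) * (1 - ε)) := mul_nonneg (sq_nonneg _) (mul_nonneg (by linarith) (by linarith))
    have h6 : 0 ≤ θ ^ 3 * (1 - ε / 4) := mul_nonneg (by positivity) (by linarith)
    have h7 : θ * θ ≤ θ * (ε / 8) := mul_le_mul_of_nonneg_left hte ht.le
    nlinarith
  have h5 : ρ * ((1 - θ * (1 - ε / 4)) * (1 + θ * (1 - ε) + 2 * θ ^ 2)) ≤ ρ * (1 - ε * θ / 2) :=
    mul_le_mul_of_nonneg_left h4 h0
  have h6 : (1 - θ * (1 - ε / 4)) * η ≤ η := by nlinarith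
  nlinarith

/-- Chunk N8, main part (M/L): one round by the local lemma.

**Proof.** `Weights.lll_symm` for `muN θ x`, index type `ι ⊕ ({v // v ∈ univ.biUnion vt} × C)`, `D = |C|`:
* `i : ι`: `χ i = none ∧ η ≤ |∑ c, nxt - ∑ c, x i c|`, coordinates
  `{(j, d) : χ j = none, j = i ∨ adjV i j}` (if `χ i ≠ none`: the empty set), probability `≤ 2 tl` (`n2_tail`);
* `(v, c)`: `ρ (1 - ε θ / 2) + 2 η ≤ GG v c ω`, coordinates
  `{(j, d) : χ j = none, v ∈ vt j ∨ ∃ i, χ i = none ∧ v ∈ vt i ∧ adjV i j}`, probability `≤ 2 tl`: otherwise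
  `G1 < E G1 + η ≤ ρ (1 + θ (1 - ε) + 2 θ²) + η` (`n3_tail`, `n3_mean`) and
  `GG < (1 - θ (1 - ε/4)) G1 + η`, which is `≤ ρ (1 - ε θ / 2) + 2 η`, since
  `(1 - θ (1 - ε/4)) (1 + θ (1 - ε) + 2 θ²) ≤ 1 - (3/4) ε θ + 2 θ² ≤ 1 - ε θ / 2` (`θ ≤ ε / 8`).
Dependence: coins `(j, d)` with `χ j ≠ none` have `x j d = 0` (`Inv.zero`) and are irrelevant for `rcv`; terms of
`GG` with `χ i ≠ none` vanish (`wt = 0`).
Counting (`n8_deg`): at most `2 D` uncoloured edges at a vertex, so at most `2 K D` uncoloured neighbours;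
the sets have at most `D (1 + 2 K D) ≤ 6 K D³` resp. `D (2 D + 2 D * 2 K D) ≤ 6 K D³` elements; a coordinate
`(j, d)` (`χ j = none`) lies in the sets of at most `1 + 2 K D` indices `i` and at most
`(K + 2 K D * K) D` indices `(v, c)` (`v ∈ vt j` or `v ∈ vt i` for an uncoloured neighbour `i` of `j`), together
at most `6 K² D²`. So every set meets at most `36 K³ D⁵` others, and `4 * 2 tl * 36 K³ D⁵ ≤ 1` by `hsmall`. -/
theorem n8_lll {vt : ι → Finset V} {K : ℕ} (hs : LinSys vt K) {L : ι → Finset C}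
    {χ : ι → Option C} {x : ι → C → ℝ} {θ ε B α β ρ η : ℝ} (hI : Inv vt L χ x α β ρ)
    (hP : RPar K θ ε B α β ρ (Fintype.card C)) (hη : 0 < η) (hη1 : η ≤ 1)
    (hC : 1 ≤ Fintype.card C)
    (hsmall : 1000 * (K : ℝ) ^ 3 * (Fintype.card C : ℝ) ^ 5 * tl K B β η ≤ 1) :
    ∃ ω : ι × C → Bool,
      (∀ i, χ i = none → |∑ c, nxt vt θ x ω i c - ∑ c, x i c| ≤ η) ∧
      (∀ v c, GG vt θ x v c ω ≤ ρ * (1 - ε * θ / 2) + 2 * η) := by
  have hK1 : 1 ≤ K := by exact_mod_cast hP.K_pos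
  have hK : (1 : ℝ) ≤ K := by exact_mod_cast hP.K_pos
  have hCr : (1 : ℝ) ≤ (Fintype.card C : ℝ) := by exact_mod_cast hC
  have hθ := hP.th_pos
  have he := hP.eps_pos
  have he1 := hP.eps_le
  have hθ8 : θ ≤ ε / 8 := by
    have h1 := hP.th_le
    nlinarith
  have htl0 : 0 < tl K B β η := Real.exp_pos _
  have hKC3 : (1 : ℝ) ≤ (K : ℝ) ^ 3 := one_le_pow₀ hK
  have hC4 : (1 : ℝ) ≤ (Fintype.card C : ℝ) ^ 4 := one_le_pow₀ hCr
  have hKC : (1 : ℝ) ≤ (K : ℝ) ^ 3 * (Fintype.card C : ℝ) ^ 4 := one_le_mul_of_one_le_of_one_le hKC3 hC4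
  have hs4 : 1000 * ((K : ℝ) ^ 3 * (Fintype.card C : ℝ) ^ 4) * tl K B β η ≤ 1 := by
    refine le_trans ?_ hsmall
    refine mul_le_mul_of_nonneg_right ?_ htl0.le
    have h1 : (Fintype.card C : ℝ) ^ 4 ≤ (Fintype.card C : ℝ) ^ 5 := pow_le_pow_right₀ hCr (by norm_num)
    have h2 : (K : ℝ) ^ 3 * (Fintype.card C : ℝ) ^ 4 ≤ (K : ℝ) ^ 3 * (Fintype.card C : ℝ) ^ 5 :=
      mul_le_mul_of_nonneg_left h1 (by positivity)
    linarith
  have htl : tl K B β η ≤ 1 / 1000 := by
    have h1 : 1000 * 1 * tl K B β η ≤ 1000 * ((K : ℝ) ^ 3 * (Fintype.card C : ℝ) ^ 4) * tl K B β η :=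
      mul_le_mul_of_nonneg_right (mul_le_mul_of_nonneg_left hKC (by norm_num)) htl0.le
    linarith
  obtain ⟨A, hAdef⟩ : ∃ A : N8J ι C vt → (ι × C → Bool) → Prop, ∀ b ω, A b ω ↔ (match b with
    | Sum.inl i => χ i = none ∧ η < |∑ c, nxt vt θ x ω i c - ∑ c, x i c|
    | Sum.inr z => ρ * (1 - ε * θ / 2) + 2 * η < GG vt θ x z.1.1 z.2 ω) := ⟨_, fun _ _ => Iff.rfl⟩
  have hAl : ∀ i ω, A (Sum.inl i) ω ↔ (χ i = none ∧ η < |∑ c, nxt vt θ x ω i c - ∑ c, x i c|) :=
    fun i ω => hAdef (Sum.inl i) ω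
  have hAr : ∀ z ω, A (Sum.inr z) ω ↔ (ρ * (1 - ε * θ / 2) + 2 * η < GG vt θ x z.1.1 z.2 ω) :=
    fun z ω => hAdef (Sum.inr z) ω
  -- dependence
  have hdep : ∀ b, DependsOn (A b) ((n8_T vt χ b ×ˢ (univ : Finset C) : Finset (ι × C)) : Set (ι × C)) := by
    intro b ω ω' h
    refine propext ?_
    rcases b with i | z
    · rw [hAl, hAl]
      by_cases hi : χ i = none
      · have hT : n8_T vt χ (Sum.inl i : N8J ι C vt) = n8_N vt χ i := if_pos hi
        rw [hT] at h
        have hn : ∀ c, nxt vt θ x ω i c = nxt vt θ x ω' i c := by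
          intro c
          have hf : free vt x ω i c ↔ free vt x ω' i c := by
            unfold free
            refine forall_congr' fun j => forall_congr' fun hj => not_congr ?_
            exact n8_rcv hI (n8_N vt χ i) ω ω' h j c fun hn => mem_filter.2 ⟨mem_univ _, hn, hj⟩
          unfold nxt
          by_cases h1 : free vt x ω i c
          · rw [if_pos h1, if_pos (hf.1 h1)]
          · rw [if_neg h1, if_neg fun h2 => h1 (hf.2 h2)]
        rw [sum_congr rfl fun c _ => hn c]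
      · constructor
        · rintro ⟨h1, _⟩
          exact absurd h1 hi
        · rintro ⟨h1, _⟩
          exact absurd h1 hi
    · rw [hAr, hAr]
      have hT : n8_T vt χ (Sum.inr z : N8J ι C vt) = n8_W vt χ z.1.1 := rfl
      rw [hT] at h
      have hG : GG vt θ x z.1.1 z.2 ω = GG vt θ x z.1.1 z.2 ω' := by
        unfold GG
        refine sum_congr rfl fun i hi => ?_
        have hv := (mem_filter.1 hi).2
        by_cases hn : χ i = none
        · have hiU : i ∈ n8_U vt χ z.1.1 := mem_filter.2 ⟨mem_univ _, hv, hn⟩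
          have hNW : ∀ j, adjV vt i j → ∀ d, (rcv x ω j d ↔ rcv x ω' j d) := by
            intro j hj d
            exact n8_rcv hI (n8_W vt χ z.1.1) ω ω' h j d fun hjn =>
              mem_union_right _ (mem_biUnion.2 ⟨i, hiU, mem_filter.2 ⟨mem_univ _, hjn, hj⟩⟩)
          have hi' : ∀ d, (rcv x ω i d ↔ rcv x ω' i d) := by
            intro d
            exact n8_rcv hI (n8_W vt χ z.1.1) ω ω' h i d fun _ => mem_union_left _ hiU
          have h1 : freeOff vt x z.1.1 ω i z.2 ↔ freeOff vt x z.1.1 ω' i z.2 := by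
            unfold freeOff
            refine forall_congr' fun j => forall_congr' fun hj => forall_congr' fun _ => not_congr ?_
            exact hNW j hj z.2
          have h2 : ∀ d, (rtn vt x ω i d ↔ rtn vt x ω' i d) := by
            intro d
            unfold rtn free
            refine and_congr (hi' d) ?_
            exact forall_congr' fun j => forall_congr' fun hj => not_congr (hNW j hj d)
          have h3 : (freeOff vt x z.1.1 ω i z.2 ∧ ∀ d, d ≠ z.2 → ¬ rtn vt x ω i d) ↔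
              (freeOff vt x z.1.1 ω' i z.2 ∧ ∀ d, d ≠ z.2 → ¬ rtn vt x ω' i d) :=
            and_congr h1 (forall_congr' fun d => forall_congr' fun _ => not_congr (h2 d))
          by_cases h4 : freeOff vt x z.1.1 ω i z.2 ∧ ∀ d, d ≠ z.2 → ¬ rtn vt x ω i d
          · rw [if_pos h4, if_pos (h3.1 h4)]
          · rw [if_neg h4, if_neg fun h5 => h4 (h3.2 h5)]
        · have hw : wt vt θ x i z.2 = 0 := by
            unfold wt
            rw [hI.zero i z.2 hn, zero_div]
          rw [hw, ite_self, ite_self]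
      rw [hG]
  -- probabilities
  have hprob : ∀ b, (muN θ x).P (A b) ≤ 2 * tl K B β η := by
    intro b
    rcases b with i | z
    · refine le_trans (Weights.P_mono _ fun ω hω => ?_) (n2_tail hs hI hP hη hη1 i)
      exact ((hAl i ω).1 hω).2.le
    · have h1 : (muN θ x).P (A (Sum.inr z)) ≤ (muN θ x).P (fun ω =>
          ((muN θ x).E (G1 vt θ x z.1.1 z.2) + η ≤ G1 vt θ x z.1.1 z.2 ω) ∨
          ((1 - θ * (1 - ε / 4)) * G1 vt θ x z.1.1 z.2 ω + η ≤ GG vt θ x z.1.1 z.2 ω)) := by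
        refine Weights.P_mono _ fun ω hω => ?_
        rw [hAr] at hω
        by_contra hcon
        push Not at hcon
        have h2 := n8_arith ρ θ ε η _ _ _ hP.rho0 hη.le hθ he he1 hθ8 (n3_mean hs hI hP z.1.1 z.2) hcon.1 hcon.2
        linarith
      refine h1.trans ((Weights.P_or_le _ _ _).trans ?_)
      have h2 := n3_tail hs hI hP hη hη1 z.1.1 z.2
      have h3 := n6_tail hs hI hP hη hη1 z.1.1 z.2
      linarith
  -- the number of dependent events
  have hcard : ∀ b, {b' : N8J ι C vt | b' ≠ b ∧ ¬ Disjoint (n8_T vt χ b ×ˢ (univ : Finset C))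
      (n8_T vt χ b' ×ˢ (univ : Finset C))}.ncard ≤ 30 * K ^ 3 * Fintype.card C ^ 4 := by
    intro b
    have h1 : {b' : N8J ι C vt | b' ≠ b ∧ ¬ Disjoint (n8_T vt χ b ×ˢ (univ : Finset C))
        (n8_T vt χ b' ×ˢ (univ : Finset C))} ⊆
        (((n8_T vt χ b).biUnion fun j => (univ : Finset (N8J ι C vt)).filter fun b' => j ∈ n8_T vt χ b' :
          Finset (N8J ι C vt)) : Set (N8J ι C vt)) := by
      rintro b' ⟨_, h2⟩
      rw [Finset.not_disjoint_iff] at h2
      obtain ⟨z, h3, h4⟩ := h2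
      rw [mem_coe, mem_biUnion]
      exact ⟨z.1, (mem_product.1 h3).1, mem_filter.2 ⟨mem_univ _, (mem_product.1 h4).1⟩⟩
    refine (Set.ncard_le_ncard h1 (Finset.finite_toSet _)).trans ?_
    rw [Set.ncard_coe_finset]
    refine (card_biUnion_le_card_mul _ _ _ fun j _ => n8_Bcard hs hI hP hC hK1 j).trans ?_
    refine (Nat.mul_le_mul_right _ (n8_Tcard hs hI hP hC hK1 b)).trans (le_of_eq ?_)
    ring
  obtain ⟨ω, hω⟩ := (muN θ x).lll_symm A (fun b => n8_T vt χ b ×ˢ (univ : Finset C)) hdep (2 * tl K B β η)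
    (30 * K ^ 3 * Fintype.card C ^ 4) hprob (by linarith) (by
      push_cast
      have h1 : 4 * (2 * tl K B β η) * (30 * (K : ℝ) ^ 3 * (Fintype.card C : ℝ) ^ 4) =
        240 * (((K : ℝ) ^ 3 * (Fintype.card C : ℝ) ^ 4) * tl K B β η) := by ring
      rw [h1]
      have h2 : 0 ≤ ((K : ℝ) ^ 3 * (Fintype.card C : ℝ) ^ 4) * tl K B β η := by positivity
      linarith) hcard
  refine ⟨ω, fun i hi => ?_, fun v c => ?_⟩
  · have h1 := hω (Sum.inl i)
    rw [hAl] at h1
    by_contra h2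
    push Not at h2
    exact h1 ⟨hi, h2⟩
  · by_cases hv : v ∈ univ.biUnion vt
    · have h1 := hω (Sum.inr (⟨v, hv⟩, c))
      rw [hAr] at h1
      push Not at h1
      exact h1
    · have h1 : GG vt θ x v c ω = 0 := by
        unfold GG
        refine sum_eq_zero fun i hi => ?_
        exact absurd (mem_biUnion.2 ⟨i, mem_univ _, (mem_filter.1 hi).2⟩) hv
      rw [h1]
      have h2 : 0 ≤ 1 - ε * θ / 2 := by nlinarith
      have h3 := mul_nonneg hP.rho0 h2
      linarith

end Pool.Agent.Lib.BFE
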