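import Pool.Agent.Lib.BFE.Defs
import Pool.Agent.Lib.BFE.N8

set_option autoImplicit false
set_option linter.unusedSectionVars false

open Finset
open scoped Classical

namespace Pool.Agent.Lib.BFE

open Pool.Agent.Lib.Prob48 (Weights)

variable {ι V C : Type} [Fintype ι] [DecidableEq ι] [DecidableEq V] [Fintype C] [DecidableEq C]

/-- Chunk N9 (S): one round.

**Proof.** Take `ω` from `n8_lll`, `χ' = colN`, `x' = xN`: `n7_det` and `n7_load`. `lo`, `hi`: if `colN i = none`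
then `χ i = none`, `xN i c = nxt i c` and `|∑ nxt - ∑ x| ≤ η`; if `colN i ≠ none` then `∑ xN = 0 ≤ 1 + α + η`. -/
theorem n9_round {vt : ι → Finset V} {K : ℕ} (hs : LinSys vt K) {L : ι → Finset C}
    {χ : ι → Option C} {x : ι → C → ℝ} {θ ε B α β ρ η : ℝ} (hI : Inv vt L χ x α β ρ)
    (hP : RPar K θ ε B α β ρ (Fintype.card C)) (hη : 0 < η) (hη1 : η ≤ 1)
    (hC : 1 ≤ Fintype.card C)
    (hsmall : 1000 * (K : ℝ) ^ 3 * (Fintype.card C : ℝ) ^ 5 * tl K B β η ≤ 1) :
    ∃ (χ' : ι → Option C) (x' : ι → C → ℝ),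
      Inv vt L χ' x' (α + η) (β * (1 + 2 * K * θ)) (ρ * (1 - ε * θ / 2) + 2 * η) := by
  obtain ⟨ω, hω1, hω2⟩ := n8_lll hs hI hP hη hη1 hC hsmall
  obtain ⟨h1, h2, h3, h4, h5, h6⟩ := n7_det hs hI hP ω
  have hnone : ∀ i, colN vt x χ ω i = none → χ i = none := by
    intro i hi
    by_contra hne
    unfold colN at hi
    rw [if_pos hne] at hi
    exact hne hi
  have hsum : ∀ i, colN vt x χ ω i = none →
      ∑ c, xN vt θ x χ ω i c = ∑ c, nxt vt θ x ω i c := by
    intro i hi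
    refine Finset.sum_congr rfl fun c _ => ?_
    unfold xN
    rw [if_pos hi]
  refine ⟨colN vt x χ ω, xN vt θ x χ ω, ⟨h1, h2, h3, h4, h5, ?_, ?_, h6, ?_⟩⟩
  · intro i hi
    rw [hsum i hi]
    have h7 := (abs_le.1 (hω1 i (hnone i hi))).1
    have h8 := hI.lo i (hnone i hi)
    linarith
  · intro i
    by_cases hi : colN vt x χ ω i = none
    · rw [hsum i hi]
      have h7 := (abs_le.1 (hω1 i (hnone i hi))).2
      have h8 := hI.hi i
      linarith
    · have h9 : ∑ c, xN vt θ x χ ω i c = 0 := Finset.sum_eq_zero fun c _ => h2 i c hi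
      have h10 := hP.al0
      rw [h9]
      linarith
  · intro v c
    exact (n7_load hs hI hP ω v c).trans (hω2 v c)

end Pool.Agent.Lib.BFE
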