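import Pool.Agent.Lib.BFE.Defs
import Pool.Agent.Lib.BFE.N9

set_option autoImplicit false
set_option linter.unusedSectionVars false

open Finset
open scoped Classical

namespace Pool.Agent.Lib.BFE

open Pool.Agent.Lib.Prob48 (Weights)

variable {ι V C : Type} [Fintype ι] [DecidableEq ι] [DecidableEq V] [Fintype C] [DecidableEq C]

theorem n10_tl {K : ℕ} {B β β' η : ℝ} (hK : 1 ≤ K) (hB : 1 ≤ B) (hβ : 0 < β) (h : β ≤ β') :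
    tl K B β η ≤ tl K B β' η := by
  unfold tl
  apply Real.exp_le_exp.2
  have hK' : (1 : ℝ) ≤ K := by exact_mod_cast hK
  have h1 : (0 : ℝ) < 32 * (K : ℝ) ^ 2 * B := by positivity
  have h2 : η ^ 2 / (32 * (K : ℝ) ^ 2 * B * β') ≤ η ^ 2 / (32 * (K : ℝ) ^ 2 * B * β) :=
    div_le_div_of_nonneg_left (sq_nonneg η) (mul_pos h1 hβ) (mul_le_mul_of_nonneg_left h h1.le)
  linarith

theorem n10_step {vt : ι → Finset V} {K : ℕ} (hs : LinSys vt K) {L : ι → Finset C}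
    {χ : ι → Option C} {x : ι → C → ℝ} {θ ε B β₀ ρ₀ η : ℝ} (T : ℕ)
    (hI : Inv vt L χ x 0 β₀ ρ₀) (hK : 1 ≤ K) (hε : 0 < ε) (hε1 : ε ≤ 1) (hθ : 0 < θ)
    (hθ1 : θ * (K + 1) ≤ ε / 16) (hB : 1 ≤ B) (hβ : 0 < β₀)
    (hβ1 : β₀ * (1 + 2 * K * θ) ^ T ≤ ε / 16)
    (hβ2 : β₀ * (1 + 2 * K * θ) ^ T * Fintype.card C ≤ B)
    (hρ0 : 0 ≤ ρ₀) (hρ : ρ₀ ≤ 1 - 2 * ε) (hη : 0 < η) (hη1 : T * η ≤ ε / 16)
    (hη2 : η ≤ 1) (hC : 1 ≤ Fintype.card C)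
    (hsmall : 1000 * (K : ℝ) ^ 3 * (Fintype.card C : ℝ) ^ 5
      * tl K B (β₀ * (1 + 2 * K * θ) ^ T) η ≤ 1) :
    ∀ t : ℕ, t ≤ T → ∃ (χ' : ι → Option C) (x' : ι → C → ℝ) (ρ' : ℝ),
      Inv vt L χ' x' (t * η) (β₀ * (1 + 2 * K * θ) ^ t) ρ' ∧ 0 ≤ ρ' ∧
        ρ' ≤ 1 - 2 * ε + 2 * t * η ∧ ρ' ≤ (1 - ε * θ / 2) ^ t + 2 * t * η := by
  have hK' : (1 : ℝ) ≤ K := by exact_mod_cast hK
  have hs1 : (1 : ℝ) ≤ 1 + 2 * K * θ := by nlinarith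
  have hθ2 : θ ≤ 1 / 32 := by nlinarith
  have hx0 : 0 ≤ 1 - ε * θ / 2 := by nlinarith
  have hx1 : 1 - ε * θ / 2 ≤ 1 := by nlinarith
  intro t
  induction t with
  | zero =>
    intro _
    refine ⟨χ, x, ρ₀, by simpa using hI, hρ0, by simpa using hρ, ?_⟩
    simp only [pow_zero, Nat.cast_zero, mul_zero, zero_mul, add_zero]
    linarith
  | succ t ih =>
    intro ht
    obtain ⟨χ', x', ρ', hI', h0, h1, h2⟩ := ih (by omega)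
    have htT : (t : ℝ) ≤ T := by exact_mod_cast (by omega : t ≤ T)
    have ht0 : (0 : ℝ) ≤ t := Nat.cast_nonneg t
    have hpow : (1 + 2 * (K : ℝ) * θ) ^ t ≤ (1 + 2 * K * θ) ^ T := pow_le_pow_right₀ hs1 (by omega)
    have hpos : (0 : ℝ) < (1 + 2 * K * θ) ^ t := by positivity
    have hb : β₀ * (1 + 2 * K * θ) ^ t ≤ β₀ * (1 + 2 * K * θ) ^ T := mul_le_mul_of_nonneg_left hpow hβ.le
    have htη : (t : ℝ) * η ≤ T * η := mul_le_mul_of_nonneg_right htT hη.le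
    have hn : (0 : ℝ) ≤ (Fintype.card C : ℝ) := Nat.cast_nonneg _
    have hP : RPar K θ ε B (t * η) (β₀ * (1 + 2 * K * θ) ^ t) ρ' (Fintype.card C) :=
      { K_pos := hK
        eps_pos := hε
        eps_le := hε1
        th_pos := hθ
        th_le := hθ1
        B_ge := hB
        al0 := mul_nonneg ht0 hη.le
        al := htη.trans hη1
        be0 := mul_pos hβ hpos
        be := hb.trans hβ1
        beB := (mul_le_mul_of_nonneg_right hb hn).trans hβ2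
        rho0 := h0
        rho := by linarith }
    have hsm : 1000 * (K : ℝ) ^ 3 * (Fintype.card C : ℝ) ^ 5
        * tl K B (β₀ * (1 + 2 * K * θ) ^ t) η ≤ 1 :=
      (mul_le_mul_of_nonneg_left (n10_tl hK hB (mul_pos hβ hpos) hb) (by positivity)).trans hsmall
    obtain ⟨χ'', x'', hI''⟩ := n9_round hs hI' hP hη hη2 hC hsm
    refine ⟨χ'', x'', ρ' * (1 - ε * θ / 2) + 2 * η, ?_, ?_, ?_, ?_⟩
    · have e1 : ((t + 1 : ℕ) : ℝ) * η = t * η + η := by push_cast; ring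
      have e2 : β₀ * (1 + 2 * (K : ℝ) * θ) ^ (t + 1) = β₀ * (1 + 2 * K * θ) ^ t * (1 + 2 * K * θ) := by
        ring
      rw [e1, e2]
      exact hI''
    · have := mul_nonneg h0 hx0
      linarith
    · have := mul_le_of_le_one_right h0 hx1
      push_cast
      linarith
    · have h3 : ρ' * (1 - ε * θ / 2) ≤ ((1 - ε * θ / 2) ^ t + 2 * t * η) * (1 - ε * θ / 2) :=
        mul_le_mul_of_nonneg_right h2 hx0
      have h4 : 2 * t * η * (1 - ε * θ / 2) ≤ 2 * t * η :=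
        mul_le_of_le_one_right (by positivity) hx1
      have h5 : ((1 - ε * θ / 2) ^ t + 2 * t * η) * (1 - ε * θ / 2) =
          (1 - ε * θ / 2) ^ (t + 1) + 2 * t * η * (1 - ε * θ / 2) := by ring
      push_cast
      linarith

/-- Chunk N10 (M): `T` rounds.

**Proof.** Induction over `t ≤ T`: there are `χ', x'` with
`Inv vt L χ' x' (t η) (β₀ (1 + 2 K θ)^t) (ρ_t)` for some `ρ_t` with `0 ≤ ρ_t ≤ 1 - 2 ε + 2 t η` and
`ρ_t ≤ (1 - ε θ / 2)^t + 2 t η` (`Inv` is monotone in `α`, `β`, `ρ`). Step: `n9_round` with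
`B = β₀ (1 + 2 K θ)^T |C|` replaced by the given `B`; `RPar` from the hypotheses:
`t η ≤ ε / 16`, `β₀ (1 + 2 K θ)^t ≤ β₀ (1 + 2 K θ)^T ≤ ε / 16`, `≤ B / |C|`, `ρ_t ≤ 1 - 2 ε + 2 T η ≤ 1 - ε`;
`tl` is increasing in `β`, so `hsmall` for `β₀ (1 + 2 K θ)^T` gives it for all `t`. -/
theorem n10_rounds {vt : ι → Finset V} {K : ℕ} (hs : LinSys vt K) {L : ι → Finset C}
    {χ : ι → Option C} {x : ι → C → ℝ} {θ ε B β₀ ρ₀ η : ℝ} (T : ℕ)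
    (hI : Inv vt L χ x 0 β₀ ρ₀) (hK : 1 ≤ K) (hε : 0 < ε) (hε1 : ε ≤ 1) (hθ : 0 < θ)
    (hθ1 : θ * (K + 1) ≤ ε / 16) (hB : 1 ≤ B) (hβ : 0 < β₀)
    (hβ1 : β₀ * (1 + 2 * K * θ) ^ T ≤ ε / 16)
    (hβ2 : β₀ * (1 + 2 * K * θ) ^ T * Fintype.card C ≤ B)
    (hρ0 : 0 ≤ ρ₀) (hρ : ρ₀ ≤ 1 - 2 * ε) (hη : 0 < η) (hη1 : T * η ≤ ε / 16)
    (hη2 : η ≤ 1) (hC : 1 ≤ Fintype.card C)
    (hsmall : 1000 * (K : ℝ) ^ 3 * (Fintype.card C : ℝ) ^ 5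
      * tl K B (β₀ * (1 + 2 * K * θ) ^ T) η ≤ 1) :
    ∃ (χ' : ι → Option C) (x' : ι → C → ℝ),
      Inv vt L χ' x' (T * η) (β₀ * (1 + 2 * K * θ) ^ T) ((1 - ε * θ / 2) ^ T + 2 * T * η) := by
  obtain ⟨χ', x', ρ', hI', _, _, h2⟩ := n10_step hs T hI hK hε hε1 hθ hθ1 hB hβ hβ1 hβ2 hρ0 hρ hη
    hη1 hη2 hC hsmall T le_rfl
  exact ⟨χ', x', ⟨hI'.nonneg, hI'.zero, hI'.proper, hI'.list, hI'.avail, hI'.lo, hI'.hi, hI'.cap,
    fun v c => (hI'.load v c).trans h2⟩⟩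

end Pool.Agent.Lib.BFE
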