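import Pool.Agent.Lib.BFE.Defs
import Pool.Agent.Lib.BFE.NDefs

set_option autoImplicit false
set_option linter.unusedSectionVars false

open Finset
open scoped Classical

namespace Pool.Agent.Lib.BFE

open Pool.Agent.Lib.Prob48 (Weights)

variable {ι V C : Type} [Fintype ι] [DecidableEq ι] [DecidableEq V] [Fintype C] [DecidableEq C]

theorem n11_symm {vt : ι → Finset V} {i j : ι} (h : adjV vt i j) : adjV vt j i :=
  ⟨h.1.symm, fun hd => h.2 hd.symm⟩

theorem n11_bu {β γ : Type} [DecidableEq γ] (s : Finset β) (t : β → Finset γ) (f : γ → ℝ) (hf : ∀ a, 0 ≤ f a) :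
    ∑ a ∈ s.biUnion t, f a ≤ ∑ b ∈ s, ∑ a ∈ t b, f a := by
  induction s using Finset.induction_on with
  | empty => simp
  | insert b s hb ih =>
    rw [biUnion_insert, sum_insert hb]
    have h := sum_union_inter (s₁ := t b) (s₂ := s.biUnion t) (f := f)
    have h2 : 0 ≤ ∑ a ∈ t b ∩ s.biUnion t, f a := sum_nonneg fun a _ => hf a
    linarith

theorem n11_nbr {vt : ι → Finset V} {K : ℕ} (hs : LinSys vt K) {L : ι → Finset C}
    {χ : ι → Option C} {x : ι → C → ℝ} {α β ρ : ℝ} (hI : Inv vt L χ x α β ρ) (hρ0 : 0 ≤ ρ) (i : ι) (c : C) :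
    ∑ j ∈ univ.filter (fun j => adjV vt i j), x j c ≤ K * ρ := by
  calc ∑ j ∈ univ.filter (fun j => adjV vt i j), x j c
      ≤ ∑ j ∈ (vt i).biUnion (fun v => univ.filter (fun j => v ∈ vt j)), x j c := by
        refine sum_le_sum_of_subset_of_nonneg ?_ fun j _ _ => hI.nonneg j c
        intro j hj
        rw [mem_filter] at hj
        obtain ⟨v, hv1, hv2⟩ := not_disjoint_iff.1 hj.2.2
        rw [mem_biUnion]
        exact ⟨v, hv1, mem_filter.2 ⟨mem_univ _, hv2⟩⟩
    _ ≤ ∑ v ∈ vt i, ∑ j ∈ univ.filter (fun j => v ∈ vt j), x j c :=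
        n11_bu _ _ _ (fun j => hI.nonneg j c)
    _ ≤ ∑ v ∈ vt i, ρ := sum_le_sum fun v _ => hI.load v c
    _ = (vt i).card * ρ := by rw [sum_const, nsmul_eq_mul]
    _ ≤ K * ρ := mul_le_mul_of_nonneg_right (by exact_mod_cast hs.card_le i) hρ0

/-- probability of an event of one coordinate -/
theorem n11_single {κ : Type} [Fintype κ] [DecidableEq κ] {α : κ → Type} [∀ v, Fintype (α v)] (μ : Weights α) (v : κ)
    (B : α v → Prop) : μ.P (fun ω => B (ω v)) = ∑ a, if B a then μ.w v a else 0 := by
  unfold Weights.P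
  rw [← μ.E_avg v, ← μ.E_const (∑ a, if B a then μ.w v a else 0)]
  congr 1
  funext ω
  unfold Weights.avg
  refine sum_congr rfl fun a _ => ?_
  simp only [Function.update_self]
  split_ifs <;> simp

/-- the weights -/
noncomputable def n11_mu (χ : ι → Option C) (x : ι → C → ℝ) (h0 : ∀ i c, 0 ≤ x i c) (hs : ∀ i, χ i = none → 0 < ∑ c, x i c) :
    Weights (fun _ : ι => Option C) where
  w i o := if χ i = none then (match o with
    | none => 0
    | some c => x i c / ∑ d, x i d) else (match o with
    | none => 1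
    | some _ => 0)
  nonneg i o := by
    split_ifs with h
    · cases o with
      | none => exact le_refl _
      | some c => exact div_nonneg (h0 i c) (hs i h).le
    · cases o with
      | none => exact zero_le_one
      | some c => exact le_refl _
  sum_one i := by
    by_cases h : χ i = none
    · simp only [h, if_true]
      rw [Fintype.sum_option]
      simp only [zero_add]
      rw [← sum_div]
      exact div_self (hs i h).ne'
    · simp only [h, if_false]
      rw [Fintype.sum_option]
      simp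

/-- Chunk N11 (M/L): finishing by the asymmetric local lemma. -/
theorem n11_finish {vt : ι → Finset V} {K : ℕ} (hs : LinSys vt K) {L : ι → Finset C}
    {χ : ι → Option C} {x : ι → C → ℝ} {α β ρ : ℝ} (hI : Inv vt L χ x α β ρ) (hK : 1 ≤ K)
    (hα : α ≤ 1 / 4) (hρ0 : 0 ≤ ρ) (hρ : 40 * K * ρ ≤ 1) :
    ∃ φ : ι → C, (∀ i, φ i ∈ L i) ∧ ∀ i j, adjV vt i j → φ i ≠ φ j := by
  have hnb := n11_nbr hs hI hρ0
  have hlo : ∀ i, χ i = none → 3 / 4 ≤ ∑ c, x i c := fun i hi => by linarith [hI.lo i hi]
  have hhi : ∀ i, ∑ c, x i c ≤ 5 / 4 := fun i => by linarith [hI.hi i]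
  have hx1 : ∀ i c, x i c ≤ 5 / 4 := fun i c =>
    (single_le_sum (f := fun c => x i c) (fun d _ => hI.nonneg i d) (mem_univ c)).trans (hhi i)
  have hx2 : ∀ i j c, adjV vt i j → x j c ≤ K * ρ := fun i j c h =>
    (single_le_sum (f := fun j => x j c) (fun d _ => hI.nonneg d c) (mem_filter.2 ⟨mem_univ j, h⟩)).trans (hnb i c)
  set μ := n11_mu χ x hI.nonneg (fun i hi => by linarith [hlo i hi]) with hμ
  have hw : ∀ i c, χ i = none → μ.w i (some c) ≤ 4 / 3 * x i c := by
    intro i c hi
    show (if χ i = none then x i c / ∑ d, x i d else 0) ≤ _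
    rw [if_pos hi, div_le_iff₀ (by linarith [hlo i hi])]
    nlinarith [hI.nonneg i c, hlo i hi]
  set A : (ι × ι × C) ⊕ ι → (ι → Option C) → Prop := fun e ω => match e with
    | Sum.inl (i, j, c) => (adjV vt i j ∧ χ i = none ∧ χ j = none) ∧ (ω i = some c ∧ ω j = some c)
    | Sum.inr i => ¬ 0 < μ.w i (ω i) with hA
  set S : (ι × ι × C) ⊕ ι → Finset ι := fun e => match e with
    | Sum.inl (i, j, _) => {i, j}
    | Sum.inr i => {i} with hS
  set p : (ι × ι × C) ⊕ ι → ℝ := fun e => match e with
    | Sum.inl (i, j, c) => if adjV vt i j then 2 * (x i c * x j c) else 0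
    | Sum.inr _ => 0 with hp
  have hp0 : ∀ e, 0 ≤ p e := by
    rintro (⟨i, j, c⟩ | i)
    · simp only [hp]
      split_ifs
      · exact mul_nonneg zero_le_two (mul_nonneg (hI.nonneg i c) (hI.nonneg j c))
      · exact le_refl _
    · exact le_refl _
  have hsum1 : ∀ k : ι, ∑ j : ι, ∑ c : C, p (Sum.inl (k, j, c)) ≤ 5 / 2 * (K * ρ) := by
    intro k
    rw [sum_comm]
    calc ∑ c : C, ∑ j : ι, p (Sum.inl (k, j, c)) = ∑ c : C, 2 * x k c * ∑ j ∈ univ.filter (fun j => adjV vt k j), x j c := by
          refine sum_congr rfl fun c _ => ?_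
          rw [mul_sum, sum_filter]
          refine sum_congr rfl fun j _ => ?_
          simp only [hp]
          split_ifs
          · ring
          · rfl
      _ ≤ ∑ c : C, 2 * x k c * (K * ρ) := sum_le_sum fun c _ =>
          mul_le_mul_of_nonneg_left (hnb k c) (mul_nonneg zero_le_two (hI.nonneg k c))
      _ = 2 * (∑ c : C, x k c) * (K * ρ) := by rw [← sum_mul, ← mul_sum]
      _ ≤ 2 * (5 / 4) * (K * ρ) := by
          refine mul_le_mul_of_nonneg_right ?_ (mul_nonneg (Nat.cast_nonneg _) hρ0)
          linarith [hhi k]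
      _ = 5 / 2 * (K * ρ) := by ring
  have hsum2 : ∀ k : ι, ∑ i : ι, ∑ c : C, p (Sum.inl (i, k, c)) ≤ 5 / 2 * (K * ρ) := by
    intro k
    refine le_trans (le_of_eq ?_) (hsum1 k)
    refine sum_congr rfl fun i _ => sum_congr rfl fun c _ => ?_
    simp only [hp]
    by_cases h : adjV vt i k
    · rw [if_pos h, if_pos (n11_symm h)]
      ring
    · rw [if_neg h, if_neg fun h' => h (n11_symm h')]
  have hsum3 : ∀ k : ι, ∑ e ∈ univ.filter (fun e => k ∈ S e), p e ≤ 5 * (K * ρ) := by
    intro k
    rw [sum_filter, Fintype.sum_sum_type]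
    have h2 : ∑ i : ι, (if k ∈ S (Sum.inr i) then p (Sum.inr i) else 0) = 0 :=
      sum_eq_zero fun i _ => by simp [hp]
    rw [h2, add_zero]
    have h3 : ∀ q : ι × ι × C, (if k ∈ S (Sum.inl q) then p (Sum.inl q) else 0) ≤
        (if q.1 = k then p (Sum.inl q) else 0) + (if q.2.1 = k then p (Sum.inl q) else 0) := by
      rintro ⟨i, j, c⟩
      have hpp := hp0 (Sum.inl (i, j, c))
      by_cases h : k ∈ S (Sum.inl (i, j, c))
      · rw [if_pos h]
        simp only [hS, mem_insert, mem_singleton] at h
        rcases h with h | h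
        · rw [if_pos h.symm]
          have : 0 ≤ (if j = k then p (Sum.inl (i, j, c)) else 0) := by split_ifs; exacts [hpp, le_refl _]
          linarith
        · rw [if_pos (show (i, j, c).2.1 = k from h.symm)]
          have : 0 ≤ (if i = k then p (Sum.inl (i, j, c)) else 0) := by split_ifs; exacts [hpp, le_refl _]
          linarith
      · rw [if_neg h]
        refine add_nonneg ?_ ?_ <;> · split_ifs; exacts [hpp, le_refl _]
    calc ∑ q : ι × ι × C, (if k ∈ S (Sum.inl q) then p (Sum.inl q) else 0)
        ≤ ∑ q : ι × ι × C, ((if q.1 = k then p (Sum.inl q) else 0) + (if q.2.1 = k then p (Sum.inl q) else 0)) :=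
          sum_le_sum fun q _ => h3 q
      _ = ∑ q : ι × ι × C, (if q.1 = k then p (Sum.inl q) else 0) + ∑ q : ι × ι × C, (if q.2.1 = k then p (Sum.inl q) else 0) :=
          sum_add_distrib
      _ = ∑ j : ι, ∑ c : C, p (Sum.inl (k, j, c)) + ∑ i : ι, ∑ c : C, p (Sum.inl (i, k, c)) := by
          congr 1
          · simp only [Fintype.sum_prod_type]
            rw [sum_eq_single k]
            · simp
            · intro b _ hb
              refine sum_eq_zero fun j _ => sum_eq_zero fun c _ => ?_
              rw [if_neg hb]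
            · intro h; exact absurd (mem_univ _) h
          · simp only [Fintype.sum_prod_type]
            refine sum_congr rfl fun i _ => ?_
            rw [sum_eq_single k]
            · simp
            · intro b _ hb
              refine sum_eq_zero fun c _ => ?_
              rw [if_neg hb]
            · intro h; exact absurd (mem_univ _) h
      _ ≤ 5 / 2 * (K * ρ) + 5 / 2 * (K * ρ) := add_le_add (hsum1 k) (hsum2 k)
      _ = 5 * (K * ρ) := by ring
  have hcardS : ∀ e, (S e).card ≤ 2 := by
    rintro (⟨i, j, c⟩ | i)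
    · exact card_le_two
    · simp [hS]
  have hKρ : 0 ≤ K * ρ := mul_nonneg (Nat.cast_nonneg _) hρ0
  have gdep : ∀ e, DependsOn (A e) (S e : Set ι) := by
    rintro (⟨i, j, c⟩ | i)
    · intro ω ω' h
      have h1 : ω i = ω' i := h i (by simp [hS])
      have h2 : ω j = ω' j := h j (by simp [hS])
      simp only [hA, h1, h2]
    · intro ω ω' h
      have h1 : ω i = ω' i := h i (by simp [hS])
      simp only [hA, h1]
  have gpr : ∀ e, μ.P (A e) ≤ p e := by
    rintro (⟨i, j, c⟩ | i)
    · by_cases h : adjV vt i j ∧ χ i = none ∧ χ j = none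
      · have h1 : μ.P (A (Sum.inl (i, j, c))) ≤ μ.P (fun ω => ω i = some c ∧ ω j = some c) :=
          μ.P_mono fun ω hω => hω.2
        have h2 : μ.P (fun ω => ω i = some c ∧ ω j = some c) = μ.P (fun ω => ω i = some c) * μ.P (fun ω => ω j = some c) :=
          μ.P_and_of_dependsOn {i} {j} (by
            intro v hv hv'
            rw [mem_singleton] at hv
            rw [Set.mem_singleton_iff] at hv'
            exact h.1.1 (hv.symm.trans hv'))
            (fun ω ω' hh => by
              have : ω i = ω' i := hh i (by simp)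
              simp only [this])
            (fun ω ω' hh => by
              have : ω j = ω' j := hh j (by simp)
              simp only [this])
        have h3 : ∀ k, μ.P (fun ω => ω k = some c) = μ.w k (some c) := by
          intro k
          rw [n11_single μ k (fun a => a = some c)]
          rw [sum_eq_single (some c)]
          · rw [if_pos rfl]
          · intro b _ hb
            rw [if_neg hb]
          · intro h; exact absurd (mem_univ _) h
        have h4 := hw i c h.2.1
        have h5 := hw j c h.2.2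
        have h6 := μ.nonneg j (some c)
        have h7 := hI.nonneg i c
        have h8 := hI.nonneg j c
        rw [h2, h3, h3] at h1
        have h9 : p (Sum.inl (i, j, c)) = 2 * (x i c * x j c) := by
          simp only [hp]
          rw [if_pos h.1]
        rw [h9]
        have h10 : μ.w i (some c) * μ.w j (some c) ≤ (4 / 3 * x i c) * (4 / 3 * x j c) :=
          mul_le_mul h4 h5 h6 (by positivity)
        have h11 : 0 ≤ x i c * x j c := mul_nonneg h7 h8
        nlinarith
      · have h1 : μ.P (A (Sum.inl (i, j, c))) ≤ μ.P (fun _ => False) := μ.P_mono fun ω hω => h hω.1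
        rw [μ.P_false] at h1
        exact h1.trans (hp0 (Sum.inl (i, j, c)))
    · have h1 : μ.P (A (Sum.inr i)) ≤ μ.P (fun _ => False) := by
        refine μ.P_mono' fun ω hpos hAω => hAω ?_
        rcases (μ.nonneg i (ω i)).eq_or_lt with h | h
        · exfalso
          have h2 : μ.pw ω = 0 := prod_eq_zero (mem_univ i) h.symm
          rw [h2] at hpos
          exact lt_irrefl _ hpos
        · exact h
      rw [μ.P_false] at h1
      exact h1.trans (hp0 (Sum.inr i))
  have gp2 : ∀ e, p e < 1 / 2 := by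
    rintro (⟨i, j, c⟩ | i)
    · simp only [hp]
      split_ifs with h
      · have h1 := hx1 i c
        have h2 := hx2 i j c h
        have h3 := hI.nonneg i c
        have h4 := hI.nonneg j c
        have h5 : x i c * x j c ≤ 5 / 4 * (K * ρ) := mul_le_mul h1 h2 h4 (by norm_num)
        nlinarith
      · norm_num
    · norm_num [hp]
  have gsm : ∀ e, ∑ f ∈ univ.filter (fun f => ¬ Disjoint (S e) (S f)), p f ≤ 1 / 4 := by
    intro e
    calc ∑ f ∈ univ.filter (fun f => ¬ Disjoint (S e) (S f)), p f
        ≤ ∑ f ∈ (S e).biUnion (fun k => univ.filter (fun f => k ∈ S f)), p f := by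
          refine sum_le_sum_of_subset_of_nonneg ?_ fun f _ _ => hp0 f
          intro f hf
          rw [mem_filter] at hf
          obtain ⟨v, hv1, hv2⟩ := not_disjoint_iff.1 hf.2
          rw [mem_biUnion]
          exact ⟨v, hv1, mem_filter.2 ⟨mem_univ _, hv2⟩⟩
      _ ≤ ∑ k ∈ S e, ∑ f ∈ univ.filter (fun f => k ∈ S f), p f := n11_bu _ _ _ hp0
      _ ≤ ∑ k ∈ S e, 5 * (K * ρ) := sum_le_sum fun k _ => hsum3 k
      _ = (S e).card * (5 * (K * ρ)) := by rw [sum_const, nsmul_eq_mul]
      _ ≤ 2 * (5 * (K * ρ)) := by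
          refine mul_le_mul_of_nonneg_right ?_ (by linarith)
          exact_mod_cast hcardS e
      _ ≤ 1 / 4 := by linarith
  obtain ⟨ω, hω⟩ := μ.lll_sum A S gdep (fun e => univ.filter fun f => ¬ Disjoint (S e) (S f))
    (fun e f _ h => mem_filter.2 ⟨mem_univ _, h⟩) p gpr gp2 gsm
  have h1 : ∀ i, χ i = none → ∃ c, ω i = some c ∧ 0 < x i c := by
    intro i hi
    have h2 : 0 < μ.w i (ω i) := not_not.1 (hω (Sum.inr i))
    cases ho : ω i with
    | none =>
      rw [ho] at h2
      have h3 : μ.w i none = 0 := by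
        show (if χ i = none then (0 : ℝ) else 1) = 0
        rw [if_pos hi]
      linarith
    | some c =>
      refine ⟨c, rfl, ?_⟩
      rw [ho] at h2
      have h3 := hw i c hi
      linarith
  have h4 : ∀ i, ∃ c, (χ i = some c) ∨ (χ i = none ∧ ω i = some c ∧ 0 < x i c) := by
    intro i
    by_cases hi : χ i = none
    · obtain ⟨c, hc⟩ := h1 i hi
      exact ⟨c, Or.inr ⟨hi, hc⟩⟩
    · obtain ⟨c, hc⟩ := Option.ne_none_iff_exists'.1 hi
      exact ⟨c, Or.inl hc⟩
  choose φ hφ using h4
  refine ⟨φ, fun i => ?_, fun i j hij heq => ?_⟩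
  · rcases hφ i with h | ⟨_, _, h⟩
    · exact hI.list i _ h
    · exact (hI.avail i _ h).1
  · rcases hφ i with h | ⟨hi, h, hx⟩
    · rcases hφ j with h' | ⟨hj, h', hx'⟩
      · refine hI.proper i j hij (by rw [h]; simp) ?_
        rw [h, h', heq]
      · refine (hI.avail j _ hx').2 i (n11_symm hij) ?_
        rw [h, heq]
    · rcases hφ j with h' | ⟨hj, h', hx'⟩
      · refine (hI.avail i _ hx).2 j hij ?_
        rw [h', heq]
      · refine hω (Sum.inl (i, j, φ i)) ⟨⟨hij, hi, hj⟩, h, ?_⟩
        rw [h', heq]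

end Pool.Agent.Lib.BFE
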