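import Pool.Agent.Lib.BFE.Defs
import Pool.Agent.Lib.BFE.NDefs

set_option autoImplicit false
set_option linter.unusedSectionVars false

open Finset
open scoped Classical

namespace Pool.Agent.Lib.BFE

open Pool.Agent.Lib.Prob48 (Weights)

/-- Chunk N12 (M): choice of the parameters for large `n = |C|`.

**Proof.** Put `θ = ε / (16 (K + 1))`, `T` with `(1 - ε θ / 2)^T ≤ 1 / (160 K)` (`exists_pow_lt_of_lt_one`),
`B = max 1 ((1 + 2 K θ)^T / λ)`, `β₀ = 1 / (λ n)`, `η = (1/n)^(1/4)` or better `η` fixed: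
`η = min (ε / (16 (T + 1))) (1 / (320 K (T + 1)))` (a constant!), so that `T η ≤ ε / 16`,
`2 T η ≤ 1 / (160 K)`, `η ≤ 1`. Then only two conditions depend on `n`:
`β₀ (1 + 2 K θ)^T = const / n ≤ ε / 16` and `1000 K³ n⁵ exp (- c n) ≤ 1` with the constant
`c = η² λ / (32 K² B (1 + 2 K θ)^T) > 0`; both hold for large `n` (`Real.tendsto_pow_mul_exp_neg_atTop_nhds_zero`
or `tendsto` of `x^5 exp(-c x)`, `Filter.eventually_atTop`). Finally
`(1 - ε θ/2)^T + 2 T η ≤ 1/(80 K)`, that is `40 K (...) ≤ 1`, and `T η ≤ 1/4`. -/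
theorem n12_params (K : ℕ) (ε lam : ℝ) (hK : 1 ≤ K) (hε : 0 < ε) (hε1 : ε ≤ 1) (hl : 0 < lam) :
    ∃ (θ B η : ℝ) (T N : ℕ), 0 < θ ∧ θ * (K + 1) ≤ ε / 16 ∧ 1 ≤ B ∧ 0 < η ∧ η ≤ 1 ∧
      T * η ≤ ε / 16 ∧ 1 ≤ N ∧
      40 * K * ((1 - ε * θ / 2) ^ T + 2 * T * η) ≤ 1 ∧
      ∀ n : ℕ, N ≤ n →
        1 / (lam * n) * (1 + 2 * K * θ) ^ T ≤ ε / 16 ∧
        1 / (lam * n) * (1 + 2 * K * θ) ^ T * n ≤ B ∧
        1000 * (K : ℝ) ^ 3 * (n : ℝ) ^ 5 * tl K B (1 / (lam * n) * (1 + 2 * K * θ) ^ T) η ≤ 1 := by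
  have hK0 : (0 : ℝ) < K := by exact_mod_cast hK
  have hK1 : (1 : ℝ) ≤ K := by exact_mod_cast hK
  obtain ⟨θ, hθ⟩ : ∃ θ : ℝ, θ = ε / (16 * (K + 1)) := ⟨_, rfl⟩
  have hθ0 : 0 < θ := by
    rw [hθ]
    positivity
  have hθ1 : θ * (K + 1) = ε / 16 := by
    rw [hθ]
    field_simp
  have hθ2 : θ ≤ 1 / 16 := by nlinarith
  have ha1 : 1 - ε * θ / 2 < 1 := by nlinarith
  have ha0 : 0 ≤ 1 - ε * θ / 2 := by nlinarith
  obtain ⟨T, hT⟩ := exists_pow_lt_of_lt_one (show (0 : ℝ) < 1 / (160 * K) by positivity) ha1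
  obtain ⟨P, hP⟩ : ∃ P : ℝ, P = (1 + 2 * K * θ) ^ T := ⟨_, rfl⟩
  have hP0 : 0 < P := by
    rw [hP]
    positivity
  obtain ⟨B, hB⟩ : ∃ B : ℝ, B = max 1 (P / lam) := ⟨_, rfl⟩
  have hB1 : 1 ≤ B := by
    rw [hB]
    exact le_max_left _ _
  have hB2 : P / lam ≤ B := by
    rw [hB]
    exact le_max_right _ _
  have hB0 : 0 < B := by linarith
  have hT0 : (0 : ℝ) ≤ T := Nat.cast_nonneg _
  obtain ⟨η, hη⟩ : ∃ η : ℝ, η = min (ε / (16 * (T + 1))) (1 / (320 * K * (T + 1))) := ⟨_, rfl⟩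
  have hη0 : 0 < η := by
    rw [hη]
    exact lt_min (by positivity) (by positivity)
  have hη1 : η ≤ ε / (16 * (T + 1)) := by
    rw [hη]
    exact min_le_left _ _
  have hη2 : η ≤ 1 / (320 * K * (T + 1)) := by
    rw [hη]
    exact min_le_right _ _
  have hη3 : η * (16 * (T + 1)) ≤ ε := (le_div_iff₀ (by positivity)).mp hη1
  have hη4 : η * (320 * K * (T + 1)) ≤ 1 := (le_div_iff₀ (by positivity)).mp hη2
  obtain ⟨c, hc⟩ : ∃ c : ℝ, c = η ^ 2 * lam / (32 * K ^ 2 * B * P) := ⟨_, rfl⟩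
  have hc0 : 0 < c := by
    rw [hc]
    positivity
  have hlim := Real.tendsto_pow_mul_exp_neg_atTop_nhds_zero 5
  have hev : ∀ᶠ x : ℝ in Filter.atTop, x ^ 5 * Real.exp (-x) < c ^ 5 / (1000 * (K : ℝ) ^ 3) :=
    hlim.eventually_lt_const (by positivity)
  obtain ⟨X0, hX0⟩ := Filter.eventually_atTop.mp hev
  obtain ⟨N1, hN1⟩ := exists_nat_ge (16 * P / (lam * ε))
  obtain ⟨N2, hN2⟩ := exists_nat_ge (X0 / c)
  refine ⟨θ, B, η, T, max 1 (max N1 N2), hθ0, hθ1.le, hB1, hη0, ?_, ?_, le_max_left _ _, ?_, ?_⟩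
  · nlinarith
  · nlinarith
  · have e1 : 40 * (K : ℝ) * (1 - ε * θ / 2) ^ T ≤ 1 / 4 := by
      have e2 : 40 * (K : ℝ) * (1 - ε * θ / 2) ^ T ≤ 40 * K * (1 / (160 * K)) :=
        mul_le_mul_of_nonneg_left hT.le (by positivity)
      have e3 : 40 * (K : ℝ) * (1 / (160 * K)) = 1 / 4 := by
        field_simp
        norm_num
      linarith
    have e4 : 320 * ((K : ℝ) * (T * η)) ≤ 1 := by
      have e5 : 0 ≤ (K : ℝ) * η := by positivity
      nlinarith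
    nlinarith
  · intro n hn
    have hn1 : 1 ≤ n := (le_max_left _ _).trans hn
    have hnN1 : N1 ≤ n := (le_max_left _ _).trans ((le_max_right _ _).trans hn)
    have hnN2 : N2 ≤ n := (le_max_right _ _).trans ((le_max_right _ _).trans hn)
    have hn0 : (0 : ℝ) < n := by exact_mod_cast hn1
    have hnN1' : (N1 : ℝ) ≤ n := by exact_mod_cast hnN1
    have hnN2' : (N2 : ℝ) ≤ n := by exact_mod_cast hnN2
    rw [← hP]
    have f1 : 16 * P ≤ n * (lam * ε) := (div_le_iff₀ (by positivity)).mp (hN1.trans hnN1')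
    have f2 : X0 ≤ n * c := (div_le_iff₀ hc0).mp (hN2.trans hnN2')
    have f3 : 1 / (lam * n) * P = P / (lam * n) := by ring
    refine ⟨?_, ?_, ?_⟩
    · rw [f3, div_le_div_iff₀ (by positivity) (by norm_num)]
      nlinarith
    · have e1 : 1 / (lam * n) * P * n = P / lam := by
        field_simp
      rw [e1]
      exact hB2
    · have e1 : tl K B (1 / (lam * n) * P) η = Real.exp (-(n * c)) := by
        unfold tl
        congr 2
        rw [hc]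
        field_simp
      rw [e1]
      have e2 := (hX0 (n * c) f2).le
      have e3 : ((n : ℝ) * c) ^ 5 * Real.exp (-(n * c)) = c ^ 5 * ((n : ℝ) ^ 5 * Real.exp (-(n * c))) := by ring
      rw [e3, le_div_iff₀ (by positivity)] at e2
      have hc5 : 0 < c ^ 5 := by positivity
      have e4 : c ^ 5 * (1000 * (K : ℝ) ^ 3 * (n : ℝ) ^ 5 * Real.exp (-(n * c))) ≤ c ^ 5 * 1 := by
        calc c ^ 5 * (1000 * (K : ℝ) ^ 3 * (n : ℝ) ^ 5 * Real.exp (-(n * c)))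
            = c ^ 5 * ((n : ℝ) ^ 5 * Real.exp (-(n * c))) * (1000 * (K : ℝ) ^ 3) := by ring
          _ ≤ c ^ 5 := e2
          _ = c ^ 5 * 1 := by ring
      exact le_of_mul_le_mul_left e4 hc5

end Pool.Agent.Lib.BFE
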