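import Pool.Agent.Lib.BFE.Defs
import Pool.Agent.Lib.BFE.N12
import Pool.Agent.Lib.BFE.N10
import Pool.Agent.Lib.BFE.N11

set_option autoImplicit false
set_option linter.unusedSectionVars false

open Finset
open scoped Classical

namespace Pool.Agent.Lib.BFE

open Pool.Agent.Lib.Prob48 (Weights)

/-- Chunk N12B (M): **the nibble theorem** (list edge-colouring of linear systems with bounded
edges; weights `1 / |L i|` with load at most `1 - ε`).

**Proof.** `n12_params` with `ε / 2` in place of `ε` (so `1 - ε = 1 - 2 (ε/2)`). Initial state: `χ = none`,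
`x i c = if c ∈ L i then 1 / |L i| else 0`, `α = 0`, `β₀ = 1 / (lam n)`, `ρ₀ = 1 - ε` (`n = |C|`): `Inv` holds
(`∑ c, x i c = 1` since `|L i| ≥ lam n > 0`; `cap`: `1 / |L i| ≤ 1 / (lam n)`; `load`: `∑_{i ∋ v} x i c
≤ ∑_{i ∋ v} 1 / |L i| ≤ 1 - ε`; if `1 - ε < 0` is excluded by `ε ≤ 1`). `n10_rounds`, then `n11_finish`
(`T η ≤ ε/32 ≤ 1/4`; its `ρ = (1 - ε θ/2)^T + 2 T η ≥ 0`). -/
theorem n12_nibble (K : ℕ) (ε lam : ℝ) (hK : 1 ≤ K) (hε : 0 < ε) (hε1 : ε ≤ 1) (hl : 0 < lam) :
    ∃ N : ℕ, 1 ≤ N ∧ ∀ (ι V C : Type) [Fintype ι] [DecidableEq ι] [DecidableEq V] [Fintype C]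
      [DecidableEq C] (vt : ι → Finset V) (L : ι → Finset C), N ≤ Fintype.card C →
      LinSys vt K → (∀ i, lam * Fintype.card C ≤ ((L i).card : ℝ)) →
      (∀ v, ∑ i ∈ univ.filter (fun i => v ∈ vt i), 1 / ((L i).card : ℝ) ≤ 1 - ε) →
      ∃ φ : ι → C, (∀ i, φ i ∈ L i) ∧ ∀ i j, adjV vt i j → φ i ≠ φ j := by
  classical
  obtain ⟨θ, B, η, T, N, hθ, hθ1, hB, hη, hη1, hTη, hN, hfin, hbig⟩ :=
    n12_params K (ε / 2) lam hK (by positivity) (by linarith) hl
  refine ⟨N, hN, ?_⟩
  intro ι V C _ _ _ _ _ vt L hC hs hL hload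
  obtain ⟨h1, h2, h3⟩ := hbig (Fintype.card C) hC
  have hC1 : 1 ≤ Fintype.card C := hN.trans hC
  have hC1r : (1 : ℝ) ≤ Fintype.card C := by exact_mod_cast hC1
  have hln : 0 < lam * (Fintype.card C : ℝ) := by positivity
  have hLpos : ∀ i, (0 : ℝ) < ((L i).card : ℝ) := fun i => lt_of_lt_of_le hln (hL i)
  have hsumx : ∀ i, ∑ c, (if c ∈ L i then 1 / ((L i).card : ℝ) else 0) = 1 := by
    intro i
    rw [← Finset.sum_filter, Finset.sum_const, nsmul_eq_mul]
    have hf : (univ.filter fun c => c ∈ L i) = L i := by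
      ext c
      simp
    rw [hf, mul_one_div, div_self (hLpos i).ne']
  have hI : Inv vt L (fun _ => (none : Option C)) (fun i c => if c ∈ L i then 1 / ((L i).card : ℝ) else 0)
      0 (1 / (lam * (Fintype.card C : ℝ))) (1 - ε) := by
    refine ⟨?_, ?_, ?_, ?_, ?_, ?_, ?_, ?_, ?_⟩
    · intro i c
      split_ifs
      · exact (one_div_pos.2 (hLpos i)).le
      · exact le_refl _
    · intro i c h
      exact absurd rfl h
    · intro i j _ h
      exact absurd rfl h
    · intro i c h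
      exact absurd h (by simp)
    · intro i c h
      refine ⟨?_, fun j _ => by simp⟩
      by_contra hc
      rw [if_neg hc] at h
      exact lt_irrefl _ h
    · intro i _
      rw [hsumx i]
      norm_num
    · intro i
      rw [hsumx i]
      norm_num
    · intro i c
      split_ifs
      · exact one_div_le_one_div_of_le hln (hL i)
      · positivity
    · intro v c
      refine le_trans (Finset.sum_le_sum (fun i _ => ?_)) (hload v)
      split_ifs
      · exact le_refl _
      · exact (one_div_pos.2 (hLpos i)).le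
  obtain ⟨χ', x', hI'⟩ := n10_rounds hs T hI hK (by positivity : 0 < ε / 2) (by linarith) hθ hθ1 hB
    (by positivity) h1 h2 (by linarith) (by linarith) hη hTη hη1 hC1 h3
  have hT0 : (0 : ℝ) ≤ T := Nat.cast_nonneg _
  have hK1 : (1 : ℝ) ≤ K := by exact_mod_cast hK
  have hθle : θ ≤ 1 := by nlinarith
  have hbase : 0 ≤ 1 - ε / 2 * θ / 2 := by nlinarith
  refine n11_finish hs hI' hK ?_ ?_ hfin
  · linarith
  · have := pow_nonneg hbase T
    positivity

end Pool.Agent.Lib.BFE
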