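import Pool.Agent.Lib.BFE.Defs

set_option autoImplicit false
set_option linter.unusedSectionVars false

open Finset
open scoped Classical

namespace Pool.Agent.Lib.BFE

open Pool.Agent.Lib.Prob48 (Weights)

theorem ra1_erase {C : Type} [DecidableEq C] (a x : C → ℝ) (s : Finset C) (d : C) (hd : d ∉ s) :
    ∑ c ∈ insert d s, x c * ∏ e ∈ (insert d s).erase c, a e =
      x d * ∏ e ∈ s, a e + a d * ∑ c ∈ s, x c * ∏ e ∈ s.erase c, a e := by
  rw [Finset.sum_insert hd, Finset.erase_insert hd, Finset.mul_sum]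
  congr 1
  refine Finset.sum_congr rfl fun c hc => ?_
  have h1 : (insert d s).erase c = insert d (s.erase c) := by
    rw [Finset.erase_insert_of_ne]
    rintro rfl
    exact hd hc
  rw [h1, Finset.prod_insert (fun h => hd (Finset.mem_of_mem_erase h))]
  ring

theorem ra1_ind {C : Type} [DecidableEq C] (a x : C → ℝ) (ha : ∀ c, 0 ≤ a c) (hax : ∀ c, 0 ≤ a c + x c)
    (h : (∀ c, 0 ≤ x c) ∨ (∀ c, x c ≤ 0)) (s : Finset C) :
    ∏ c ∈ s, a c + ∑ c ∈ s, x c * ∏ e ∈ s.erase c, a e ≤ ∏ c ∈ s, (a c + x c) := by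
  induction s using Finset.induction_on with
  | empty => simp
  | insert d s hd ih =>
    rw [ra1_erase a x s d hd, Finset.prod_insert hd, Finset.prod_insert hd]
    have h1 : 0 ≤ x d * ∑ c ∈ s, x c * ∏ e ∈ s.erase c, a e := by
      have hp : ∀ c, 0 ≤ ∏ e ∈ s.erase c, a e := fun c => Finset.prod_nonneg fun e _ => ha e
      rcases h with h | h
      · exact mul_nonneg (h d) (Finset.sum_nonneg fun c _ => mul_nonneg (h c) (hp c))
      · exact mul_nonneg_of_nonpos_of_nonpos (h d)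
          (Finset.sum_nonpos fun c _ => mul_nonpos_of_nonpos_of_nonneg (h c) (hp c))
    have h2 := mul_le_mul_of_nonneg_left ih (hax d)
    nlinarith [h1, h2]

/-- Chunk RA1 (algebra, S/M).

**Proof.** Write `x c = q c * (b c - a c)`. Left side: `∏ a + ∑ c, x c * ∏_{c' ≠ c} a c'` (expand
`(1 - ∑ q c) * ∏ a` and use `a c * ∏_{c' ≠ c} a c' = ∏ a`). Right side: `∏ (a c + x c)`.
Induction over the finite set `s` of colours (statement for `∑_{c ∈ s}`, `∏_{c ∈ s}`; the hypothesis
`∑ q ≤ 1` is only used in the form `q c ≤ 1` for every `c`, so that `0 ≤ a c + x c`, indeed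
`a c + x c = (1 - q c) * a c + q c * b c`): with `P = ∏_{s} a`, `S = ∑_{c ∈ s} x c ∏_{s \ c} a`,
`R = ∏_s (a + x) ≥ P + S` (induction hypothesis) the claim for `insert d s` is
`a d * P + x d * P + a d * S ≤ (a d + x d) * R`. We have `(a d + x d) * R ≥ (a d + x d) * (P + S)` and
the difference `(a d + x d)(P + S) - (a d * P + x d * P + a d * S) = x d * S`, which is `≥ 0`, because
all `x` have the same sign (case `a ≤ b`: all `x ≥ 0`, so `S ≥ 0`; case `b ≤ a`: all `x ≤ 0`, so
`S ≤ 0`). -/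
theorem ra1_one_step {C : Type} [Fintype C] [DecidableEq C] (a b q : C → ℝ)
    (ha : ∀ c, 0 ≤ a c) (hb : ∀ c, 0 ≤ b c) (hq : ∀ c, 0 ≤ q c) (hs : ∑ c, q c ≤ 1)
    (h : (∀ c, a c ≤ b c) ∨ (∀ c, b c ≤ a c)) :
    (1 - ∑ c, q c) * ∏ c, a c + ∑ c, q c * (b c * ∏ d ∈ univ.erase c, a d)
      ≤ ∏ c, ((1 - q c) * a c + q c * b c) := by
  have hq1 : ∀ c, q c ≤ 1 := fun c => (Finset.single_le_sum (fun d _ => hq d) (Finset.mem_univ c)).trans hs
  have h1 : ∀ c, (1 - q c) * a c + q c * b c = a c + q c * (b c - a c) := fun c => by ring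
  have h2 : (1 - ∑ c, q c) * ∏ c, a c + ∑ c, q c * (b c * ∏ d ∈ univ.erase c, a d) =
      ∏ c, a c + ∑ c, q c * (b c - a c) * ∏ e ∈ univ.erase c, a e := by
    have h3 : ∀ c, q c * (b c * ∏ d ∈ univ.erase c, a d) =
        q c * (b c - a c) * ∏ e ∈ univ.erase c, a e + q c * ∏ c, a c := by
      intro c
      rw [← Finset.mul_prod_erase univ a (Finset.mem_univ c)]
      ring
    rw [Finset.sum_congr rfl fun c _ => h3 c, Finset.sum_add_distrib, ← Finset.sum_mul]
    ring
  rw [h2, Finset.prod_congr rfl fun c _ => h1 c]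
  refine ra1_ind a (fun c => q c * (b c - a c)) ha (fun c => ?_) ?_ univ
  · have h4 : a c + q c * (b c - a c) = (1 - q c) * a c + q c * b c := by ring
    rw [h4]
    exact add_nonneg (mul_nonneg (by linarith [hq1 c]) (ha c)) (mul_nonneg (hq c) (hb c))
  · rcases h with h | h
    · exact Or.inl fun c => mul_nonneg (hq c) (by linarith [h c])
    · exact Or.inr fun c => mul_nonpos_of_nonneg_of_nonpos (hq c) (by linarith [h c])

end Pool.Agent.Lib.BFE
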