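import Pool.Agent.Lib.BFE.Defs
import Pool.Agent.Lib.BFE.RA1

set_option autoImplicit false
set_option linter.unusedSectionVars false

open Finset
open scoped Classical

namespace Pool.Agent.Lib.BFE

open Pool.Agent.Lib.Prob48 (Weights)

variable {ι C : Type} [Fintype ι] [DecidableEq ι] [Fintype C] [DecidableEq C]

private theorem ra2_ind_none (c : C) (ω : ι → Option C) (v : ι) :
    ind c (Function.update ω v none) = Function.update (ind c ω) v false := by
  funext i
  by_cases h : i = v
  · subst h
    show decide (Function.update ω i none i = some c) = _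
    rw [Function.update_self, Function.update_self]
    exact decide_eq_false (by simp)
  · show decide (Function.update ω v none i = some c) = _
    rw [Function.update_of_ne h, Function.update_of_ne h]
    rfl

private theorem ra2_ind_some (c d : C) (ω : ι → Option C) (v : ι) :
    ind c (Function.update ω v (some d)) = Function.update (ind c ω) v (decide (d = c)) := by
  funext i
  by_cases h : i = v
  · subst h
    show decide (Function.update ω i (some d) i = some c) = _
    rw [Function.update_self, Function.update_self]
    by_cases hdc : d = c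
    · rw [decide_eq_true (by rw [hdc]), decide_eq_true hdc]
    · rw [decide_eq_false (fun h => hdc (Option.some.inj h)), decide_eq_false hdc]
  · show decide (Function.update ω v (some d) i = some c) = _
    rw [Function.update_of_ne h, Function.update_of_ne h]
    rfl

private theorem ra2_avg (Q : Pick ι C) (c : C) (v : ι) (f : (ι → Bool) → ℝ) (x : ι → Bool) :
    (Q.nu c).avg v f x = (1 - Q.q v c) * f (Function.update x v false) + Q.q v c * f (Function.update x v true) := by
  unfold Weights.avg
  rw [Fintype.sum_bool, add_comm]
  rfl

private theorem ra2_upd (v : ι) (x y : ι → Bool) (h : x ≤ y) (a : Bool) : Function.update x v a ≤ Function.update y v a := by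
  intro i
  by_cases hi : i = v
  · subst hi
    rw [Function.update_self, Function.update_self]
  · rw [Function.update_of_ne hi, Function.update_of_ne hi]
    exact h i

private theorem ra2_ft (v : ι) (x : ι → Bool) : Function.update x v false ≤ Function.update x v true := by
  intro i
  by_cases hi : i = v
  · subst hi
    rw [Function.update_self, Function.update_self]
    exact Bool.false_le true
  · rw [Function.update_of_ne hi, Function.update_of_ne hi]

private theorem ra2_nonneg (μ : Weights (fun _ : ι => Bool)) (f : (ι → Bool) → ℝ) (hf : ∀ x, 0 ≤ f x) (l : List ι) :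
    ∀ x, 0 ≤ μ.cond l f x := by
  induction l with
  | nil => exact hf
  | cons v l ih =>
    intro x
    rw [μ.cond_cons]
    exact sum_nonneg fun a _ => mul_nonneg (μ.nonneg v a) (ih _)

private theorem ra2_mono (μ : Weights (fun _ : ι => Bool)) (f : (ι → Bool) → ℝ) (hf : Monotone f) (l : List ι) :
    Monotone (μ.cond l f) := by
  induction l with
  | nil => exact hf
  | cons v l ih =>
    intro x y hxy
    rw [μ.cond_cons]
    exact sum_le_sum fun a _ => mul_le_mul_of_nonneg_left (ih (ra2_upd v x y hxy a)) (μ.nonneg v a)

private theorem ra2_anti (μ : Weights (fun _ : ι => Bool)) (f : (ι → Bool) → ℝ) (hf : Antitone f) (l : List ι) :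
    Antitone (μ.cond l f) := by
  induction l with
  | nil => exact hf
  | cons v l ih =>
    intro x y hxy
    rw [μ.cond_cons]
    exact sum_le_sum fun a _ => mul_le_mul_of_nonneg_left (ih (ra2_upd v x y hxy a)) (μ.nonneg v a)

private theorem ra2_step (Q : Pick ι C) (Φ : C → (ι → Bool) → ℝ) (h0 : ∀ c x, 0 ≤ Φ c x)
    (hm : (∀ c, Monotone (Φ c)) ∨ (∀ c, Antitone (Φ c))) (v : ι) (ω : ι → Option C) :
    Q.mu.avg v (fun ω' => ∏ c, Φ c (ind c ω')) ω ≤ ∏ c, (Q.nu c).avg v (Φ c) (ind c ω) := by
  have e1 : Q.mu.avg v (fun ω' => ∏ c, Φ c (ind c ω')) ω =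
      (1 - ∑ c, Q.q v c) * ∏ c, Φ c (Function.update (ind c ω) v false) +
        ∑ d, Q.q v d * (Φ d (Function.update (ind d ω) v true) *
          ∏ c ∈ univ.erase d, Φ c (Function.update (ind c ω) v false)) := by
    unfold Weights.avg
    rw [Fintype.sum_option]
    congr 1
    · show (1 - ∑ c, Q.q v c) * ∏ c, Φ c (ind c (Function.update ω v none)) = _
      simp only [ra2_ind_none]
    · refine sum_congr rfl fun d _ => ?_
      show Q.q v d * ∏ c, Φ c (ind c (Function.update ω v (some d))) = _
      simp only [ra2_ind_some]
      rw [← mul_prod_erase univ _ (mem_univ d)]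
      congr 2
      · rw [decide_eq_true rfl]
      · refine prod_congr rfl fun c hc => ?_
        rw [decide_eq_false fun h => (ne_of_mem_erase hc) h.symm]
  rw [e1]
  refine (ra1_one_step (fun c => Φ c (Function.update (ind c ω) v false)) (fun c => Φ c (Function.update (ind c ω) v true))
    (fun c => Q.q v c) (fun c => h0 c _) (fun c => h0 c _) (fun c => Q.nonneg v c) (Q.sum_le v) ?_).trans (le_of_eq ?_)
  · rcases hm with h | h
    · exact Or.inl fun c => h c (ra2_ft v _)
    · exact Or.inr fun c => h c (ra2_ft v _)
  · exact prod_congr rfl fun c _ => (ra2_avg Q c v (Φ c) (ind c ω)).symm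

/-- Chunk RA2 (domination, M). The picks of different elements are independent, but an element picks
at most one colour; for monotone (antitone) non-negative `φ c` the expectation of the product over the
colours is at most the product of the expectations for independent coins.

**Proof.** `Weights.cond l f` (Lib/Prob48/Freedman) is iterated resampling (`cond_cons`, `cond_univ`:
for `l = univ.toList` it is the expectation). Show by induction on the list `l` of elements, for all `ω`:
`Q.mu.cond l (fun ω => ∏ c, φ c (ind c ω)) ω ≤ ∏ c, (Q.nu c).cond l (φ c) (ind c ω)`.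
`l = []`: equality. `v :: l`: the left side is `Q.mu.avg v (Q.mu.cond l F) ω`, by `avg_mono` at most
`Q.mu.avg v (fun ω' => ∏ c, Φ c (ind c ω')) ω` with `Φ c = (Q.nu c).cond l (φ c)`. Expand the average over
`Option C` (`Fintype.sum_option`, definition of `Pick.mu`): with `x c = ind c ω`,
`ind c (update ω v none) = update (x c) v false`,
`ind c (update ω v (some d)) = update (x c) v (decide (d = c))`,
it is `(1 - ∑ q) ∏ c, a c + ∑ d, q d * (b d * ∏_{c ≠ d} a c)` with `a c = Φ c (update (x c) v false)`,
`b c = Φ c (update (x c) v true)`, `q c = Q.q v c`. By `ra1_one_step` it is at most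
`∏ c ((1 - q c) a c + q c b c) = ∏ c, (Q.nu c).avg v (Φ c) (x c)` (expand `avg` over `Bool`).
Also prove along the induction: every `(Q.nu c).cond l (φ c)` is non-negative and monotone (antitone):
`avg` keeps non-negativity and monotonicity (`update` is monotone in the function). Finally take
`l = univ.toList` and use `Weights.cond_univ` on both sides (any `ω`; for instance `fun _ => none`). -/
theorem ra2_domination (Q : Pick ι C) (φ : C → (ι → Bool) → ℝ) (h0 : ∀ c x, 0 ≤ φ c x)
    (hm : (∀ c, Monotone (φ c)) ∨ (∀ c, Antitone (φ c))) :
    Q.mu.E (fun ω => ∏ c, φ c (ind c ω)) ≤ ∏ c, (Q.nu c).E (φ c) := by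
  have main : ∀ (l : List ι) (ω : ι → Option C), Q.mu.cond l (fun ω => ∏ c, φ c (ind c ω)) ω ≤
      ∏ c, (Q.nu c).cond l (φ c) (ind c ω) := by
    intro l
    induction l with
    | nil => intro ω; exact le_rfl
    | cons v l ih =>
      intro ω
      rw [Q.mu.cond_cons]
      refine (Q.mu.avg_mono v ih ω).trans ?_
      refine ra2_step Q (fun c => (Q.nu c).cond l (φ c)) (fun c => ra2_nonneg (Q.nu c) (φ c) (h0 c) l) ?_ v ω
      rcases hm with h | h
      · exact Or.inl fun c => ra2_mono (Q.nu c) (φ c) (h c) l
      · exact Or.inr fun c => ra2_anti (Q.nu c) (φ c) (h c) l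
  have h := main (univ : Finset ι).toList (fun _ => none)
  simp only [Weights.cond_univ] at h
  exact h

end Pool.Agent.Lib.BFE
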