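import Pool.Agent.Lib.BFE.Defs
import Pool.Agent.Lib.BFE.RA3

set_option autoImplicit false
set_option linter.unusedSectionVars false

open Finset
open scoped Classical

namespace Pool.Agent.Lib.BFE

open Pool.Agent.Lib.Prob48 (Weights)

variable {ι C : Type} [Fintype ι] [DecidableEq ι] [Fintype C] [DecidableEq C]

open Pool.Agent.Lib.Prob48 (one_sub_sum_le_prod_one_sub)

/-- the event that exactly `z.1`, `z.2` are marked in `A` -/
def rb1_Ev (A : Finset ι) (z : ι × ι) (x : ι → Bool) : Prop :=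
  (∀ i ∈ ({z.1, z.2} : Finset ι), x i = true) ∧ ∀ i ∈ A \ {z.1, z.2}, x i = false

lemma rb1_point (adj : ι → ι → Prop) (A : Finset ι) (x : ι → Bool) :
    ∑ z ∈ (A ×ˢ A).filter (fun z => z.1 ≠ z.2 ∧ ¬ adj z.1 z.2),
      (if rb1_Ev A z x then (1 : ℝ) else 0) ≤ 2 * (if HasPair adj A x then (1 : ℝ) else 0) := by
  by_cases h : ∃ z ∈ (A ×ˢ A).filter (fun z => z.1 ≠ z.2 ∧ ¬ adj z.1 z.2), rb1_Ev A z x
  · obtain ⟨z, hz, hE⟩ := h
    have hz' := mem_filter.1 hz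
    have hz1 := mem_product.1 hz'.1
    have hP : HasPair adj A x :=
      ⟨z.1, hz1.1, z.2, hz1.2, hz'.2.1, hz'.2.2, hE.1 z.1 (by simp), hE.1 z.2 (by simp)⟩
    rw [if_pos hP, ← sum_filter, sum_const, nsmul_eq_mul, mul_one, mul_one]
    have hsub : (((A ×ˢ A).filter (fun z => z.1 ≠ z.2 ∧ ¬ adj z.1 z.2)).filter
        (fun z => rb1_Ev A z x)) ⊆ {z, (z.2, z.1)} := by
      intro w hw
      obtain ⟨hw1, hw2⟩ := mem_filter.1 hw
      obtain ⟨hw3, hw4, -⟩ := mem_filter.1 hw1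
      have hw5 := mem_product.1 hw3
      have key : ∀ i ∈ A, x i = true → i = z.1 ∨ i = z.2 := by
        intro i hi hx
        by_contra hne
        have h1 := hE.2 i (by
          rw [mem_sdiff]
          refine ⟨hi, ?_⟩
          simpa using hne)
        rw [h1] at hx
        exact Bool.false_ne_true hx
      have ha := key w.1 hw5.1 (hw2.1 w.1 (by simp))
      have hb := key w.2 hw5.2 (hw2.1 w.2 (by simp))
      rw [mem_insert, mem_singleton]
      rcases ha with ha | ha <;> rcases hb with hb | hb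
      · exact absurd (ha.trans hb.symm) hw4
      · exact Or.inl (Prod.ext ha hb)
      · exact Or.inr (Prod.ext ha hb)
      · exact absurd (ha.trans hb.symm) hw4
    have hc := (card_le_card hsub).trans (card_le_two)
    exact_mod_cast hc
  · have h0 : ∑ z ∈ (A ×ˢ A).filter (fun z => z.1 ≠ z.2 ∧ ¬ adj z.1 z.2),
        (if rb1_Ev A z x then (1 : ℝ) else 0) = 0 := by
      refine sum_eq_zero fun z hz => ?_
      rw [if_neg]
      exact fun h1 => h ⟨z, hz, h1⟩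
    rw [h0]
    split_ifs <;> norm_num

lemma rb1_prob (Q : Pick ι C) (A : Finset ι) (c : C) (hA : ∑ i ∈ A, Q.q i c ≤ 1 / 20)
    (z : ι × ι) (hz : z.1 ≠ z.2) :
    (19 / 20 : ℝ) * (Q.q z.1 c * Q.q z.2 c) ≤ (Q.nu c).P (fun x => rb1_Ev A z x) := by
  have h := ra3_coin (fun i => Q.q i c) (fun i => Q.nonneg i c) (fun i => Q.q_le_one i c)
    ({z.1, z.2} : Finset ι) (A \ {z.1, z.2}) disjoint_sdiff
  have h' : (Q.nu c).P (fun x => rb1_Ev A z x)
      = (∏ i ∈ ({z.1, z.2} : Finset ι), Q.q i c) * ∏ i ∈ A \ {z.1, z.2}, (1 - Q.q i c) := h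
  rw [h', prod_pair hz, mul_comm (19 / 20 : ℝ)]
  refine mul_le_mul_of_nonneg_left ?_ (mul_nonneg (Q.nonneg _ _) (Q.nonneg _ _))
  have h1 := one_sub_sum_le_prod_one_sub (A \ {z.1, z.2}) (fun i => Q.q i c) (fun j _ => Q.nonneg j c)
    (fun j _ => Q.q_le_one j c)
  have h2 : ∑ i ∈ A \ {z.1, z.2}, Q.q i c ≤ ∑ i ∈ A, Q.q i c :=
    sum_le_sum_of_subset_of_nonneg sdiff_subset (fun i _ _ => Q.nonneg i c)
  have h3 : 1 - ∑ i ∈ A \ {z.1, z.2}, Q.q i c ≤ ∏ i ∈ A \ {z.1, z.2}, (1 - Q.q i c) := h1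
  linarith

/-- Chunk RB1 (M): the probability of a marked non-adjacent pair from below.

**Proof.** Put `W = (A ×ˢ A).filter (z.1 ≠ z.2 ∧ ¬ adj z.1 z.2)` and for `z ∈ W` let `E_z` be the event
`x z.1 = true ∧ x z.2 = true ∧ ∀ i ∈ A \ {z.1, z.2}, x i = false`. Pointwise
`∑ z ∈ W, 1[E_z] ≤ 2 * 1[HasPair adj A x]`: if some `E_z` holds then `HasPair` holds, and
`{i ∈ A : x i = true} = {z.1, z.2}`, so that every `z' ∈ W` with `E_{z'}` is `z` or its swap `(z.2, z.1)`.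
Take expectations (`Weights.E_mono`, `E_sum`): `∑ z ∈ W, P (E_z) ≤ 2 * P (HasPair)`. By `ra3_coin` with
`S = {z.1, z.2}`, `T = A \ S`: `P (E_z) = q z.1 * q z.2 * ∏_{i ∈ T} (1 - q i)
≥ q z.1 * q z.2 * (1 - ∑_{i ∈ A} q i)` (`Prob48.one_sub_sum_le_prod_one_sub` and
`∑_T q ≤ ∑_A q`) `≥ (19/20) q z.1 q z.2`. Sum over `z`. -/
theorem rb1_pair (Q : Pick ι C) (adj : ι → ι → Prop) (A : Finset ι) (c : C)
    (hA : ∑ i ∈ A, Q.q i c ≤ 1 / 20) :
    (19 / 40 : ℝ) * Q.S2c adj A c ≤ (Q.nu c).P (fun x => HasPair adj A x) := by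
  have h1 : (Q.nu c).E (fun x => ∑ z ∈ (A ×ˢ A).filter (fun z => z.1 ≠ z.2 ∧ ¬ adj z.1 z.2),
      (if rb1_Ev A z x then (1 : ℝ) else 0))
      ≤ (Q.nu c).E (fun x => 2 * (if HasPair adj A x then (1 : ℝ) else 0)) :=
    (Q.nu c).E_mono fun x => rb1_point adj A x
  rw [Weights.E_sum, Weights.E_mul_left] at h1
  have h2 : (Q.nu c).P (fun x => HasPair adj A x)
      = (Q.nu c).E (fun x => if HasPair adj A x then (1 : ℝ) else 0) := by
    unfold Weights.P
    congr 1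
  have h3 : ∑ z ∈ (A ×ˢ A).filter (fun z => z.1 ≠ z.2 ∧ ¬ adj z.1 z.2),
      (19 / 20 : ℝ) * (Q.q z.1 c * Q.q z.2 c)
      ≤ ∑ z ∈ (A ×ˢ A).filter (fun z => z.1 ≠ z.2 ∧ ¬ adj z.1 z.2),
        (Q.nu c).E (fun x => if rb1_Ev A z x then (1 : ℝ) else 0) := by
    refine sum_le_sum fun z hz => ?_
    have h4 := rb1_prob Q A c hA z (mem_filter.1 hz).2.1
    have h5 : (Q.nu c).P (fun x => rb1_Ev A z x)
        = (Q.nu c).E (fun x => if rb1_Ev A z x then (1 : ℝ) else 0) := by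
      unfold Weights.P
      congr 1
    rw [← h5]
    exact h4
  rw [← mul_sum] at h3
  rw [h2]
  unfold Pick.S2c
  linarith

/-- **Proof.** The function is `1 - (1/2) * 1[HasPair]`, so its expectation is `1 - P / 2` with
`P ≥ (19/40) S2c ≥ 0` (`rb1_pair`), and `1 - P / 2 ≤ exp (- P / 2) ≤ exp (- (19/80) S2c) ≤ exp (- S2c / 5)`
(`S2c ≥ 0`). -/
theorem rb1_exp (Q : Pick ι C) (adj : ι → ι → Prop) (A : Finset ι) (c : C)
    (hA : ∑ i ∈ A, Q.q i c ≤ 1 / 20) :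
    (Q.nu c).E (fun x => if HasPair adj A x then (1 / 2 : ℝ) else 1)
      ≤ Real.exp (-(Q.S2c adj A c) / 5) := by
  have h1 : (Q.nu c).E (fun x => if HasPair adj A x then (1 / 2 : ℝ) else 1)
      = 1 - (1 / 2) * (Q.nu c).P (fun x => HasPair adj A x) := by
    have e : (fun x => if HasPair adj A x then (1 / 2 : ℝ) else 1)
        = fun x => 1 - (1 / 2) * (if HasPair adj A x then (1 : ℝ) else 0) := by
      funext x
      split_ifs <;> norm_num
    rw [e, Weights.E_sub, Weights.E_const, Weights.E_mul_left]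
    rfl
  rw [h1]
  have h2 := rb1_pair Q adj A c hA
  have h3 : 0 ≤ Q.S2c adj A c := by
    unfold Pick.S2c
    exact sum_nonneg fun z _ => mul_nonneg (Q.nonneg _ _) (Q.nonneg _ _)
  have h4 := Real.add_one_le_exp (-(Q.S2c adj A c) / 5)
  have h5 : 1 - (1 / 2) * (Q.nu c).P (fun x => HasPair adj A x) ≤ -(Q.S2c adj A c) / 5 + 1 := by
    linarith
  exact h5.trans h4

end Pool.Agent.Lib.BFE
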