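import Pool.Agent.Lib.BFE.Defs
import Pool.Agent.Lib.BFE.RA3

set_option autoImplicit false
set_option linter.unusedSectionVars false

open Finset
open scoped Classical

namespace Pool.Agent.Lib.BFE

open Pool.Agent.Lib.Prob48 (Weights)

variable {ι C : Type} [Fintype ι] [DecidableEq ι] [Fintype C] [DecidableEq C]

theorem rb2_triple (Q : Pick ι C) (c : C) (i j h : ι) (hij : i ≠ j) (hh : h ≠ i) (hj : h ≠ j) :
    (Q.nu c).P (fun x => x i = true ∧ x j = true ∧ x h = true) = Q.q i c * Q.q j c * Q.q h c := by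
  have e := ra3_coin_true (fun i => Q.q i c) (fun i => Q.nonneg i c) (fun i => Q.q_le_one i c) ({i, j, h} : Finset ι)
  have e2 : (Q.nu c).P (fun x => x i = true ∧ x j = true ∧ x h = true) =
      (coin (fun i => Q.q i c) (fun i => Q.nonneg i c) (fun i => Q.q_le_one i c)).P
        (fun x => ∀ l ∈ ({i, j, h} : Finset ι), x l = true) := by
    refine Weights.P_congr _ fun x => ?_
    simp only [mem_insert, mem_singleton, forall_eq_or_imp, forall_eq]
  rw [e2, e, prod_insert, prod_insert, prod_singleton, mul_assoc]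
  · rw [mem_singleton]
    exact fun h' => hj h'.symm
  · rw [mem_insert, mem_singleton]
    rintro (h' | h')
    · exact hij h'
    · exact hh h'.symm

/-- Chunk RB2 (M): the probability of a marked non-adjacent pair with a marked neighbour from above.

**Proof.** Union bound (`Weights.P_exists_le` over the finite set of triples `(z, h)` with
`z ∈ W = (A ×ˢ A).filter (z.1 ≠ z.2 ∧ ¬ adj z.1 z.2)` and `adj z.1 h`): if `HasConf adj A x` then for such a
triple `x z.1 = x z.2 = x h = true`; here `h ≠ z.1` (`adj` is irreflexive) and `h ≠ z.2` (`z.1`, `z.2` are not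
adjacent). The probability of the triple event is `q z.1 * q z.2 * q h` (`ra3_coin_true` with the set
`{z.1, z.2, h}`). Sum over `h`: `∑_{h : adj z.1 h} q h ≤ 1/1000`. So `P ≤ S2c / 1000`. -/
theorem rb2_conf (Q : Pick ι C) (adj : ι → ι → Prop) (hirr : ∀ i, ¬ adj i i) (A : Finset ι) (c : C)
    (hN : ∀ i, ∑ h ∈ univ.filter (fun h => adj i h), Q.q h c ≤ 1 / 1000) :
    (Q.nu c).P (fun x => HasConf adj A x) ≤ Q.S2c adj A c / 1000 := by
  have h1 : (Q.nu c).P (fun x => HasConf adj A x) ≤ (Q.nu c).P (fun x =>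
      ∃ z ∈ (A ×ˢ A).filter (fun z => z.1 ≠ z.2 ∧ ¬ adj z.1 z.2),
        ∃ h ∈ univ.filter (fun h => adj z.1 h), (x z.1 = true ∧ x z.2 = true ∧ x h = true)) := by
    refine Weights.P_mono _ fun x hx => ?_
    obtain ⟨i, hi, j, hj, hij, hadj, hxi, hxj, h, hih, hxh⟩ := hx
    exact ⟨(i, j), mem_filter.2 ⟨mem_product.2 ⟨hi, hj⟩, hij, hadj⟩, h, mem_filter.2 ⟨mem_univ h, hih⟩, hxi, hxj, hxh⟩
  refine h1.trans ?_
  refine (Weights.P_exists_le _ _ _).trans ?_
  unfold Pick.S2c
  rw [sum_div]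
  refine sum_le_sum fun z hz => ?_
  obtain ⟨-, hz1, hz2⟩ := mem_filter.1 hz
  refine (Weights.P_exists_le _ _ _).trans ?_
  have h2 : ∑ h ∈ univ.filter (fun h => adj z.1 h), (Q.nu c).P (fun x => x z.1 = true ∧ x z.2 = true ∧ x h = true) =
      ∑ h ∈ univ.filter (fun h => adj z.1 h), Q.q z.1 c * Q.q z.2 c * Q.q h c := by
    refine sum_congr rfl fun h hh => ?_
    have hadj := (mem_filter.1 hh).2
    refine rb2_triple Q c z.1 z.2 h hz1 ?_ ?_
    · intro h'
      rw [h'] at hadj
      exact hirr _ hadj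
    · intro h'
      rw [h'] at hadj
      exact hz2 hadj
  rw [h2, ← mul_sum]
  have h3 := mul_le_mul_of_nonneg_left (hN z.1) (mul_nonneg (Q.nonneg z.1 c) (Q.nonneg z.2 c))
  linarith

/-- **Proof.** The function is `1 + 1[HasConf]`; its expectation is `1 + P ≤ 1 + S2c / 1000 ≤ exp (S2c / 1000)`
(`rb2_conf`, `Real.add_one_le_exp`). -/
theorem rb2_exp (Q : Pick ι C) (adj : ι → ι → Prop) (hirr : ∀ i, ¬ adj i i) (A : Finset ι) (c : C)
    (hN : ∀ i, ∑ h ∈ univ.filter (fun h => adj i h), Q.q h c ≤ 1 / 1000) :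
    (Q.nu c).E (fun x => if HasConf adj A x then (2 : ℝ) else 1)
      ≤ Real.exp (Q.S2c adj A c / 1000) := by
  have h1 : (Q.nu c).E (fun x => if HasConf adj A x then (2 : ℝ) else 1) = 1 + (Q.nu c).P (fun x => HasConf adj A x) := by
    have e : (fun x : ι → Bool => if HasConf adj A x then (2 : ℝ) else 1) =
        fun x => 1 + (if HasConf adj A x then (1 : ℝ) else 0) := by
      funext x
      split_ifs <;> norm_num
    rw [e, Weights.E_add, Weights.E_const]
    rfl
  rw [h1]
  have h2 := rb2_conf Q adj hirr A c hN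
  have h3 := Real.add_one_le_exp (Q.S2c adj A c / 1000)
  linarith

end Pool.Agent.Lib.BFE
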