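import Pool.Agent.Lib.BFE.Defs
import Pool.Agent.Lib.BFE.RA2
import Pool.Agent.Lib.BFE.RB1

set_option autoImplicit false
set_option linter.unusedSectionVars false

open Finset
open scoped Classical

namespace Pool.Agent.Lib.BFE

open Pool.Agent.Lib.Prob48 (Weights)

variable {ι C : Type} [Fintype ι] [DecidableEq ι] [Fintype C] [DecidableEq C]

lemma rc1_nonneg (adj : ι → ι → Prop) (A : Finset ι) (x : ι → Bool) :
    0 ≤ (if HasPair adj A x then (1 / 2 : ℝ) else 1) := by
  split_ifs <;> norm_num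

lemma rc1_anti (adj : ι → ι → Prop) (A : Finset ι) :
    Antitone (fun x : ι → Bool => if HasPair adj A x then (1 / 2 : ℝ) else 1) := by
  intro x y hxy
  show (if HasPair adj A y then (1 / 2 : ℝ) else 1) ≤ (if HasPair adj A x then (1 / 2 : ℝ) else 1)
  by_cases hx : HasPair adj A x
  · have hy : HasPair adj A y := by
      obtain ⟨i, hi, j, hj, h1, h2, h3, h4⟩ := hx
      refine ⟨i, hi, j, hj, h1, h2, ?_, ?_⟩
      · have h := hxy i
        rw [h3] at h
        exact top_unique h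
      · have h := hxy j
        rw [h4] at h
        exact top_unique h
    rw [if_pos hx, if_pos hy]
  · rw [if_neg hx]
    split_ifs <;> norm_num

/-- Chunk RC1 (M): the lower tail of `XX`.

**Proof.** `(1/2) ^ XX adj A ω = ∏ c, (if HasPair adj A (ind c ω) then 1/2 else 1)` (`prod_ite`, `prod_const`).
The functions `φ c x = if HasPair adj A x then 1/2 else 1` are non-negative and antitone (`HasPair` is
monotone in `x`), so by `ra2_domination` and `rb1_exp`
`E [(1/2) ^ XX] ≤ ∏ c, exp (- S2c / 5) = exp (- S2 / 5)`. Markov (`Weights.P_le_of_le` with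
`f ω = (1/2) ^ XX` and the constant `(1/2) ^ (S2 / 10)` (real power; `XX ≤ S2 / 10` gives
`(1/2) ^ (S2/10) ≤ (1/2) ^ XX`)): `P ≤ exp (- S2 / 5) * 2 ^ (S2 / 10) = exp (- S2 / 5 + (log 2) S2 / 10)
≤ exp (- S2 / 10)` because `log 2 ≤ 1` and `S2 ≥ 0`. -/
theorem rc1_X (Q : Pick ι C) (adj : ι → ι → Prop) (A : Finset ι)
    (hA : ∀ c, ∑ i ∈ A, Q.q i c ≤ 1 / 20) :
    Q.mu.P (fun ω => (XX adj A ω : ℝ) ≤ Q.S2 adj A / 10) ≤ Real.exp (-(Q.S2 adj A) / 10) := by
  have hS : 0 ≤ Q.S2 adj A := by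
    unfold Pick.S2 Pick.S2c
    exact sum_nonneg fun c _ => sum_nonneg fun z _ => mul_nonneg (Q.nonneg _ _) (Q.nonneg _ _)
  have hE : Q.mu.E (fun ω => ∏ c, (if HasPair adj A (ind c ω) then (1 / 2 : ℝ) else 1)) ≤
      Real.exp (-(Q.S2 adj A) / 5) := by
    refine (ra2_domination Q (fun _ x => if HasPair adj A x then (1 / 2 : ℝ) else 1)
      (fun c x => rc1_nonneg adj A x) (Or.inr fun c => rc1_anti adj A)).trans ?_
    have e : -(Q.S2 adj A) / 5 = ∑ c, (-(Q.S2c adj A c) / 5) := by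
      unfold Pick.S2
      rw [← sum_div, sum_neg_distrib]
    rw [e, Real.exp_sum]
    refine prod_le_prod (fun c _ => ?_) (fun c _ => rb1_exp Q adj A c (hA c))
    exact (Q.nu c).E_nonneg fun x => rc1_nonneg adj A x
  refine (Q.mu.P_le_of_le (A := fun ω => (XX adj A ω : ℝ) ≤ Q.S2 adj A / 10)
    (f := fun ω => ∏ c, (if HasPair adj A (ind c ω) then (1 / 2 : ℝ) else 1))
    (Real.exp (-(Real.log 2) * (Q.S2 adj A / 10))) (Real.exp_pos _)
    (fun ω => prod_nonneg fun c _ => rc1_nonneg adj A _) (fun ω hω => ?_)).trans ?_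
  · have e : ∏ c, (if HasPair adj A (ind c ω) then (1 / 2 : ℝ) else 1) =
        Real.exp (-(Real.log 2) * (XX adj A ω : ℝ)) := by
      rw [prod_ite, prod_const, prod_const_one, mul_one]
      unfold XX
      rw [mul_comm, Real.exp_nat_mul, Real.exp_neg, Real.exp_log (by norm_num : (0 : ℝ) < 2), one_div]
    rw [e]
    refine Real.exp_le_exp.2 ?_
    have hl : 0 < Real.log 2 := Real.log_pos (by norm_num)
    have := mul_le_mul_of_nonneg_left hω hl.le
    linarith
  · rw [div_le_iff₀ (Real.exp_pos _), ← Real.exp_add]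
    refine hE.trans (Real.exp_le_exp.2 ?_)
    have hl : Real.log 2 ≤ 1 := by
      have := Real.log_le_sub_one_of_pos (by norm_num : (0 : ℝ) < 2)
      linarith
    have := mul_le_mul_of_nonneg_right hl (by linarith : 0 ≤ Q.S2 adj A / 10)
    linarith

end Pool.Agent.Lib.BFE
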