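import Pool.Agent.Lib.BFE.Defs
import Pool.Agent.Lib.BFE.RA2
import Pool.Agent.Lib.BFE.RB2

set_option autoImplicit false
set_option linter.unusedSectionVars false

open Finset
open scoped Classical

namespace Pool.Agent.Lib.BFE

open Pool.Agent.Lib.Prob48 (Weights)

variable {ι C : Type} [Fintype ι] [DecidableEq ι] [Fintype C] [DecidableEq C]

theorem rc2_mono (adj : ι → ι → Prop) (A : Finset ι) :
    Monotone (fun x : ι → Bool => if HasConf adj A x then (2 : ℝ) else 1) := by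
  intro x y hxy
  dsimp only
  have hb : ∀ i, x i = true → y i = true := by
    intro i hi
    have h := hxy i
    rw [hi] at h
    exact top_le_iff.mp h
  by_cases h : HasConf adj A x
  · have h' : HasConf adj A y := by
      obtain ⟨i, hi, j, hj, hij, hadj, hxi, hxj, k, hk, hxk⟩ := h
      exact ⟨i, hi, j, hj, hij, hadj, hb i hxi, hb j hxj, k, hk, hb k hxk⟩
    rw [if_pos h, if_pos h']
  · rw [if_neg h]
    split_ifs
    · norm_num
    · exact le_rfl

theorem rc2_prod (adj : ι → ι → Prop) (A : Finset ι) (ω : ι → Option C) :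
    ∏ c, (if HasConf adj A (ind c ω) then (2 : ℝ) else 1) = 2 ^ YY adj A ω := by
  unfold YY
  rw [Finset.prod_ite, Finset.prod_const, Finset.prod_const_one, mul_one]

theorem rc2_S2 (Q : Pick ι C) (adj : ι → ι → Prop) (A : Finset ι) : 0 ≤ Q.S2 adj A :=
  Finset.sum_nonneg fun _ _ => Finset.sum_nonneg fun _ _ => mul_nonneg (Q.nonneg _ _) (Q.nonneg _ _)

/-- Chunk RC2 (M): the upper tail of `YY`.

**Proof.** `2 ^ YY adj A ω = ∏ c, (if HasConf adj A (ind c ω) then 2 else 1)`; the functions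
`φ c x = if HasConf adj A x then 2 else 1` are non-negative and monotone, so by `ra2_domination` and
`rb2_exp` `E [2 ^ YY] ≤ exp (S2 / 1000)`. Markov with the constant `2 ^ (S2 / 20)` (real power):
`P ≤ exp (S2 / 1000 - (log 2) S2 / 20) ≤ exp (- S2 / 40)` because `log 2 > 0.69` (`Real.log_two_gt_d9`):
`0.69 / 20 - 0.001 = 0.0335 ≥ 0.025`. -/
theorem rc1_Y (Q : Pick ι C) (adj : ι → ι → Prop) (hirr : ∀ i, ¬ adj i i) (A : Finset ι)
    (hN : ∀ c i, ∑ h ∈ univ.filter (fun h => adj i h), Q.q h c ≤ 1 / 1000) :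
    Q.mu.P (fun ω => Q.S2 adj A / 20 ≤ (YY adj A ω : ℝ)) ≤ Real.exp (-(Q.S2 adj A) / 40) := by
  have h0 : ∀ (c : C) (x : ι → Bool), 0 ≤ (if HasConf adj A x then (2 : ℝ) else 1) := by
    intro c x
    split_ifs <;> norm_num
  have h1 := ra2_domination Q (fun _ x => if HasConf adj A x then (2 : ℝ) else 1) h0
    (Or.inl fun c => rc2_mono adj A)
  have h2 : ∏ c, (Q.nu c).E (fun x => if HasConf adj A x then (2 : ℝ) else 1) ≤ Real.exp (Q.S2 adj A / 1000) := by
    have h3 : Real.exp (Q.S2 adj A / 1000) = ∏ c, Real.exp (Q.S2c adj A c / 1000) := by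
      rw [← Real.exp_sum, ← Finset.sum_div]
      rfl
    rw [h3]
    exact Finset.prod_le_prod (fun c _ => (Q.nu c).E_nonneg (h0 c)) fun c _ => rb2_exp Q adj hirr A c (hN c)
  have hS := rc2_S2 Q adj A
  have h4 : ∀ ω : ι → Option C, Q.S2 adj A / 20 ≤ (YY adj A ω : ℝ) → (2 : ℝ) ^ (Q.S2 adj A / 20) ≤
      ∏ c, (if HasConf adj A (ind c ω) then (2 : ℝ) else 1) := by
    intro ω hω
    rw [rc2_prod, ← Real.rpow_natCast]
    exact Real.rpow_le_rpow_of_exponent_le one_le_two hω
  refine (Q.mu.P_le_of_le _ (Real.rpow_pos_of_pos two_pos _)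
    (fun ω => Finset.prod_nonneg fun c _ => h0 c _) h4).trans ?_
  rw [div_le_iff₀ (Real.rpow_pos_of_pos two_pos _)]
  refine (h1.trans h2).trans ?_
  rw [Real.rpow_def_of_pos two_pos, ← Real.exp_add]
  refine Real.exp_le_exp.mpr ?_
  have h5 := Real.log_two_gt_d9
  nlinarith

end Pool.Agent.Lib.BFE
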