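import Pool.Agent.Lib.BFE.Defs
import Pool.Agent.Lib.BFE.RA3

set_option autoImplicit false
set_option linter.unusedSectionVars false

open Finset
open scoped Classical

namespace Pool.Agent.Lib.BFE

open Pool.Agent.Lib.Prob48 (Weights)

variable {ι C : Type} [Fintype ι] [DecidableEq ι] [Fintype C] [DecidableEq C]

private theorem rc3_E (Q : Pick ι C) (B : Finset ι) (p : ℝ) (hp : 0 ≤ p) (hq : ∀ i, ∑ c, Q.q i c ≤ p) :
    Q.mu.E (fun ω => ∏ i, if i ∈ B ∧ ω i ≠ none then (2 : ℝ) else 1) ≤ Real.exp (p * B.card) := by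
  rw [ra3_E_prod Q.mu (fun i (o : Option C) => if i ∈ B ∧ o ≠ none then (2 : ℝ) else 1)]
  have h1 : ∀ i, ∑ o, Q.mu.w i o * (if i ∈ B ∧ o ≠ none then (2 : ℝ) else 1) ≤ if i ∈ B then Real.exp p else 1 := by
    intro i
    rw [Fintype.sum_option]
    have e0 : Q.mu.w i none = 1 - ∑ c, Q.q i c := rfl
    have e1 : ∀ c, Q.mu.w i (some c) = Q.q i c := fun _ => rfl
    rw [e0, if_neg (fun h => h.2 rfl), mul_one]
    by_cases hi : i ∈ B
    · rw [if_pos hi]
      have e2 : ∑ c, Q.mu.w i (some c) * (if i ∈ B ∧ (some c : Option C) ≠ none then (2 : ℝ) else 1) = (∑ c, Q.q i c) * 2 := by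
        rw [sum_mul]
        refine sum_congr rfl fun c _ => ?_
        rw [e1, if_pos ⟨hi, by simp⟩]
      rw [e2]
      have h2 := hq i
      have h3 := Real.add_one_le_exp p
      linarith
    · rw [if_neg hi]
      have e2 : ∑ c, Q.mu.w i (some c) * (if i ∈ B ∧ (some c : Option C) ≠ none then (2 : ℝ) else 1) = ∑ c, Q.q i c := by
        refine sum_congr rfl fun c _ => ?_
        rw [e1, if_neg (fun h => hi h.1), mul_one]
      rw [e2]
      linarith
  refine (prod_le_prod (fun i _ => sum_nonneg fun o _ => mul_nonneg (Q.mu.nonneg i o) ?_) fun i _ => h1 i).trans (le_of_eq ?_)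
  · split_ifs <;> norm_num
  · rw [prod_ite, prod_const_one, mul_one, prod_const, filter_mem_eq_inter, univ_inter, ← Real.exp_nat_mul, mul_comm]

/-- Chunk RC3 (S/M): upper tail of the number of elements of `B` that pick a colour.

**Proof.** `2 ^ #{i ∈ B : ω i ≠ none} = ∏ i, g i (ω i)` with `g i o = if i ∈ B ∧ o ≠ none then 2 else 1`. By
`ra3_E_prod` the expectation is `∏_{i ∈ B} (1 + ∑ c, q i c) ≤ (1 + p) ^ |B| ≤ exp (p |B|)`
(the sum over `Option C` of `w i o * g i o` is `(1 - ∑ q) + 2 ∑ q = 1 + ∑ q` for `i ∈ B` and `1` for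
`i ∉ B`). Markov (`Weights.P_le_of_le`) with the constant `2 ^ (2 p |B| + l)` (real power):
`P ≤ exp (p |B|) * 2 ^ (- 2 p |B|) * 2 ^ (- l) ≤ (1/2) ^ l`, because `2 ^ 2 = 4 ≥ e`, that is
`exp (p |B|) ≤ 2 ^ (2 p |B|)` (`Real.log_two_gt_d9`: `2 log 2 ≥ 1`). -/
theorem rc3_load (Q : Pick ι C) (B : Finset ι) (p : ℝ) (hp : 0 ≤ p) (hq : ∀ i, ∑ c, Q.q i c ≤ p)
    (l : ℕ) :
    Q.mu.P (fun ω => 2 * p * B.card + l ≤ ((B.filter fun i => ω i ≠ none).card : ℝ))
      ≤ (1 / 2 : ℝ) ^ l := by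
  have hf : ∀ ω : ι → Option C, (∏ i, if i ∈ B ∧ ω i ≠ none then (2 : ℝ) else 1) = 2 ^ (B.filter fun i => ω i ≠ none).card := by
    intro ω
    rw [prod_ite, prod_const_one, mul_one, prod_const]
    congr 2
    ext i
    simp
  have h2 : (0 : ℝ) < (2 : ℝ) ^ (2 * p * B.card + l) := Real.rpow_pos_of_pos (by norm_num) _
  refine (Q.mu.P_le_of_le (f := fun ω => ∏ i, if i ∈ B ∧ ω i ≠ none then (2 : ℝ) else 1) ((2 : ℝ) ^ (2 * p * B.card + l)) h2
    (fun ω => ?_) fun ω hω => ?_).trans ?_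
  · rw [hf]
    positivity
  · rw [hf, ← Real.rpow_natCast]
    exact Real.rpow_le_rpow_of_exponent_le (by norm_num) hω
  · rw [div_le_iff₀ h2]
    refine (rc3_E Q B p hp hq).trans ?_
    have e1 : (1 / 2 : ℝ) ^ l * (2 : ℝ) ^ (2 * p * B.card + l) = (2 : ℝ) ^ (2 * p * B.card) := by
      rw [Real.rpow_add (by norm_num), Real.rpow_natCast, one_div, inv_pow, mul_comm, mul_assoc,
        mul_inv_cancel₀ (by positivity), mul_one]
    rw [e1, Real.rpow_def_of_pos (by norm_num)]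
    refine Real.exp_le_exp.2 ?_
    have h3 := Real.log_two_gt_d9
    have h4 : 0 ≤ p * B.card := by positivity
    nlinarith

end Pool.Agent.Lib.BFE
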