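import Pool.Agent.Lib.BFE.Defs

set_option autoImplicit false
set_option linter.unusedSectionVars false

open Finset
open scoped Classical

namespace Pool.Agent.Lib.BFE

open Pool.Agent.Lib.Prob48 (Weights)

variable {ι C : Type} [Fintype ι] [DecidableEq ι] [Fintype C] [DecidableEq C]

/-- keep the picks that no neighbour has picked -/
noncomputable def ret (adj : ι → ι → Prop) (ω : ι → Option C) : ι → Option C :=
  fun i => if ∀ h, adj i h → ω h ≠ ω i then ω i else none

/-- Chunk RD1 (S/M).

**Proof.** If `ret adj ω i ≠ none` and `adj i j` then `ret adj ω i = ω i` and `ω j ≠ ω i` (the condition of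
the `if` for `i`), and `ret adj ω j` is `ω j` or `none`, in both cases different from `ω i ≠ none`. -/
theorem rd1_proper (adj : ι → ι → Prop) (ω : ι → Option C) : Proper adj (ret adj ω) := by
  intro i j hij hi
  unfold ret at hi ⊢
  by_cases h1 : ∀ h, adj i h → ω h ≠ ω i
  · rw [if_pos h1] at hi ⊢
    by_cases h2 : ∀ h, adj j h → ω h ≠ ω j
    · rw [if_pos h2]
      exact (h1 j hij).symm
    · rw [if_neg h2]
      exact hi
  · rw [if_neg h1] at hi
    exact absurd rfl hi

theorem rd1_fib {ι γ : Type} (dec : DecidableEq γ) (S : Finset ι) (f : ι → γ) (T : Finset γ)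
    (hT : ∀ c ∈ T, ∃ i ∈ S, ∃ j ∈ S, i ≠ j ∧ f i = c ∧ f j = c) : (S.image f).card + T.card ≤ S.card := by
  have h1 : T ⊆ S.image f := by
    intro c hc
    obtain ⟨i, hi, j, hj, hij, h1, h2⟩ := hT c hc
    exact mem_image.2 ⟨i, hi, h1⟩
  have h2 : T.card = ∑ b ∈ S.image f, if b ∈ T then 1 else 0 := by
    rw [Finset.sum_ite_mem, inter_eq_right.2 h1, card_eq_sum_ones]
  have h3 : (S.image f).card + T.card = ∑ b ∈ S.image f, (1 + if b ∈ T then 1 else 0) := by
    rw [sum_add_distrib, ← h2, ← card_eq_sum_ones]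
  rw [h3, Finset.card_eq_sum_card_image f S]
  refine sum_le_sum fun b hb => ?_
  by_cases hbT : b ∈ T
  · rw [if_pos hbT]
    obtain ⟨i, hi, j, hj, hij, h4, h5⟩ := hT b hbT
    exact Finset.one_lt_card.2 ⟨i, mem_filter.2 ⟨hi, h4⟩, j, mem_filter.2 ⟨hj, h5⟩, hij⟩
  · rw [if_neg hbT, add_zero]
    obtain ⟨i, hi, h4⟩ := mem_image.1 hb
    exact Finset.card_pos.2 ⟨i, mem_filter.2 ⟨hi, h4⟩⟩

/-- Chunk RD1, second part (M).

**Proof.** Let `A' = {i ∈ A : ret adj ω i ≠ none}`. `sav = |A'| - |image|`, and `|A'| = ∑` over the colours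
(`image`) of the fibre sizes (`card_eq_sum_card_image`), so `sav ≥ #{c : some c is the colour of at least
two elements of A'}`. Every colour `c` with `HasPair adj A (ind c ω)` and not `HasConf adj A (ind c ω)` is
such a colour: let `i, j` be the pair; `ω i = ω j = some c`. No neighbour `h` of `i` has `ω h = some c`
(otherwise `HasConf` with `(i, j, h)`), and no neighbour `h` of `j` (otherwise `HasConf` with `(j, i, h)`,
`adj` is symmetric), so `ret adj ω i = ret adj ω j = some c`. Hence
`XX ≤ #{such c} + YY ≤ sav + YY`. (The number of colours with at least two elements is at most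
`∑_{c ∈ image} (fibre c - 1) = |A'| - |image|`.) -/
theorem rd1_sav (adj : ι → ι → Prop) (hsym : ∀ i j, adj i j → adj j i) (A : Finset ι)
    (ω : ι → Option C) : XX adj A ω ≤ sav (ret adj ω) A + YY adj A ω := by
  obtain ⟨T, hT⟩ : ∃ T : Finset C, T = univ.filter fun c : C => HasPair adj A (ind c ω) ∧ ¬ HasConf adj A (ind c ω) := ⟨_, rfl⟩
  have h1 : XX adj A ω ≤ T.card + YY adj A ω := by
    unfold XX YY
    refine (card_le_card ?_).trans (card_union_le _ _)
    intro c hc
    rw [mem_union, hT, mem_filter, mem_filter]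
    have h2 := (mem_filter.1 hc).2
    by_cases h3 : HasConf adj A (ind c ω)
    · exact Or.inr ⟨mem_univ _, h3⟩
    · exact Or.inl ⟨mem_univ _, h2, h3⟩
  have h3 : (T.image some).card = T.card := card_image_of_injective _ (Option.some_injective C)
  have h2 : (T.image some).card ≤ sav (ret adj ω) A := by
    unfold sav
    refine Nat.le_sub_of_add_le ?_
    rw [add_comm]
    refine rd1_fib _ _ _ _ fun o ho => ?_
    obtain ⟨c, hc, rfl⟩ := mem_image.1 ho
    rw [hT, mem_filter] at hc
    obtain ⟨-, ⟨i, hi, j, hj, hij, hadj, hxi, hxj⟩, hconf⟩ := hc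
    have ei : ω i = some c := of_decide_eq_true hxi
    have ej : ω j = some c := of_decide_eq_true hxj
    have ri : ret adj ω i = some c := by
      unfold ret
      rw [if_pos, ei]
      intro h hh he
      refine hconf ⟨i, hi, j, hj, hij, hadj, hxi, hxj, h, hh, ?_⟩
      exact decide_eq_true (he.trans ei)
    have rj : ret adj ω j = some c := by
      unfold ret
      rw [if_pos, ej]
      intro h hh he
      refine hconf ⟨j, hj, i, hi, hij.symm, fun h3 => hadj (hsym _ _ h3), hxj, hxi, h, hh, ?_⟩
      exact decide_eq_true (he.trans ej)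
    refine ⟨i, mem_filter.2 ⟨hi, ?_⟩, j, mem_filter.2 ⟨hj, ?_⟩, hij, ri, rj⟩
    · rw [ri]
      exact Option.some_ne_none c
    · rw [rj]
      exact Option.some_ne_none c
  omega

end Pool.Agent.Lib.BFE
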