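import Pool.Agent.Lib.BFE.Defs

set_option autoImplicit false
set_option linter.unusedSectionVars false

open Finset
open scoped Classical

namespace Pool.Agent.Lib.BFE

open Pool.Agent.Lib.Prob48 (Weights)

variable {ι C : Type} [Fintype ι] [DecidableEq ι] [Fintype C] [DecidableEq C]

/-- the picking probabilities of lists: `i` picks every colour of its list with probability
`10 ^ (-4) / |L i|` -/
noncomputable def listPick (L : ι → Finset C) : Pick ι C where
  q i c := if c ∈ L i then (1 / 10000 : ℝ) / (L i).card else 0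
  nonneg i c := by
    split_ifs
    · positivity
    · exact le_rfl
  sum_le i := by
    rw [sum_ite_mem, univ_inter, sum_const, nsmul_eq_mul]
    rcases Nat.eq_zero_or_pos (L i).card with h | h
    · simp [h]
    · rw [mul_div_cancel₀]
      · norm_num
      · positivity

private theorem re1_q (L : ι → Finset C) (hC : 1 ≤ Fintype.card C)
    (hL : ∀ i, 4 * Fintype.card C ≤ 5 * (L i).card) (i : ι) (c : C) :
    (listPick L).q i c ≤ (5 / 40000 : ℝ) / Fintype.card C := by
  have hD : (1 : ℝ) ≤ Fintype.card C := by exact_mod_cast hC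
  show (if c ∈ L i then (1 / 10000 : ℝ) / (L i).card else 0) ≤ _
  split_ifs with h
  · have h1 : (4 : ℝ) * Fintype.card C ≤ 5 * (L i).card := by exact_mod_cast hL i
    have h2 : (0 : ℝ) < (L i).card := by linarith
    rw [div_le_div_iff₀ h2 (by linarith)]
    linarith
  · positivity

private theorem re1_tot (L : ι → Finset C) (hC : 1 ≤ Fintype.card C)
    (hL : ∀ i, 4 * Fintype.card C ≤ 5 * (L i).card) (A : Finset ι) (m : ℕ)
    (hA : A.card ≤ m * Fintype.card C) (c : C) : ∑ i ∈ A, (listPick L).q i c ≤ m * (5 / 40000) := by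
  have hD : (1 : ℝ) ≤ Fintype.card C := by exact_mod_cast hC
  refine (sum_le_card_nsmul A _ ((5 / 40000 : ℝ) / Fintype.card C) fun i _ => re1_q L hC hL i c).trans ?_
  rw [nsmul_eq_mul, mul_div_assoc', div_le_iff₀ (by linarith)]
  have h1 : (A.card : ℝ) ≤ m * Fintype.card C := by exact_mod_cast hA
  nlinarith

/-- Chunk RE1 (S/M). **Proof.** `sum_ite_mem`, `|L i| * (10^(-4) / |L i|) ≤ 10^(-4)`. -/
theorem re1_sum (L : ι → Finset C) (i : ι) : ∑ c, (listPick L).q i c ≤ 1 / 10000 := by
  show ∑ c, (if c ∈ L i then (1 / 10000 : ℝ) / (L i).card else 0) ≤ _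
  rw [sum_ite_mem, univ_inter, sum_const, nsmul_eq_mul]
  rcases Nat.eq_zero_or_pos (L i).card with h | h
  · simp [h]
  · rw [mul_div_cancel₀]
    positivity

/-- **Proof.** With `D = |C| ≥ 1` and `4 D ≤ 5 |L i|` every `q i c ≤ 10^(-4) / (4 D / 5)`, and a set of at
most `2 D` elements has total at most `2.5 * 10^(-4) ≤ 1/20`. -/
theorem re1_A (L : ι → Finset C) (hC : 1 ≤ Fintype.card C)
    (hL : ∀ i, 4 * Fintype.card C ≤ 5 * (L i).card) (A : Finset ι)
    (hA : A.card ≤ 2 * Fintype.card C) (c : C) : ∑ i ∈ A, (listPick L).q i c ≤ 1 / 20 := by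
  refine (re1_tot L hC hL A 2 hA c).trans ?_
  norm_num

/-- **Proof.** As `re1_A`: at most `8 D` terms, each at most `10^(-4) / (4 D / 5)`, total at most
`10^(-3)`. -/
theorem re1_N (L : ι → Finset C) (hC : 1 ≤ Fintype.card C)
    (hL : ∀ i, 4 * Fintype.card C ≤ 5 * (L i).card) (A : Finset ι)
    (hA : A.card ≤ 8 * Fintype.card C) (c : C) : ∑ i ∈ A, (listPick L).q i c ≤ 1 / 1000 := by
  refine (re1_tot L hC hL A 8 hA c).trans ?_
  norm_num

/-- Chunk RE1, main part (M): the weight of the non-adjacent pairs from below.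

**Proof.** With `D = |C|`, `p = 10^(-4)`: exchange the sums, `S2 = ∑ z ∈ W, ∑ c, q z.1 c * q z.2 c` with
`W` the set of ordered non-adjacent pairs, `|W| = n2 adj A`. For one pair
`∑ c, q z.1 c * q z.2 c = p^2 |L ∩ L'| / (|L| |L'|)`, `|L ∩ L'| ≥ |L| + |L'| - D ≥ (3/5) D`
(`card_union_add_card_inter`, `|L ∪ L'| ≤ D`), `|L| |L'| ≤ D^2`. So every pair contributes at least
`(3/5) p^2 / D = 6 * 10^(-9) / D`. -/
theorem re1_S2 (L : ι → Finset C) (hC : 1 ≤ Fintype.card C)
    (hL : ∀ i, 4 * Fintype.card C ≤ 5 * (L i).card) (adj : ι → ι → Prop) (A : Finset ι) :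
    (6 / 1000000000 : ℝ) * n2 adj A / Fintype.card C ≤ (listPick L).S2 adj A := by
  have hD : (1 : ℝ) ≤ Fintype.card C := by exact_mod_cast hC
  have hD0 : (0 : ℝ) < Fintype.card C := by linarith
  unfold Pick.S2 Pick.S2c n2
  rw [sum_comm]
  have key : ∀ z : ι × ι, (6 / 1000000000 : ℝ) / Fintype.card C ≤ ∑ c, (listPick L).q z.1 c * (listPick L).q z.2 c := by
    intro z
    have e1 : ∑ c, (listPick L).q z.1 c * (listPick L).q z.2 c =
        ((L z.1 ∩ L z.2).card : ℝ) * ((1 / 10000 : ℝ) / (L z.1).card * ((1 / 10000 : ℝ) / (L z.2).card)) := by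
      have e2 : ∀ c, (listPick L).q z.1 c * (listPick L).q z.2 c =
          if c ∈ L z.1 ∩ L z.2 then ((1 / 10000 : ℝ) / (L z.1).card * ((1 / 10000 : ℝ) / (L z.2).card)) else 0 := by
        intro c
        show (if c ∈ L z.1 then (1 / 10000 : ℝ) / (L z.1).card else 0) * (if c ∈ L z.2 then (1 / 10000 : ℝ) / (L z.2).card else 0) = _
        by_cases h1 : c ∈ L z.1
        · by_cases h2 : c ∈ L z.2
          · rw [if_pos h1, if_pos h2, if_pos (mem_inter.2 ⟨h1, h2⟩)]
          · rw [if_neg h2, mul_zero, if_neg fun h => h2 (mem_inter.1 h).2]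
        · rw [if_neg h1, zero_mul, if_neg fun h => h1 (mem_inter.1 h).1]
      rw [sum_congr rfl fun c _ => e2 c, sum_ite_mem, univ_inter, sum_const, nsmul_eq_mul]
    rw [e1]
    have hx : (4 : ℝ) * Fintype.card C ≤ 5 * (L z.1).card := by exact_mod_cast hL z.1
    have hy : (4 : ℝ) * Fintype.card C ≤ 5 * (L z.2).card := by exact_mod_cast hL z.2
    have hx1 : ((L z.1).card : ℝ) ≤ Fintype.card C := by exact_mod_cast card_le_univ (L z.1)
    have hy1 : ((L z.2).card : ℝ) ≤ Fintype.card C := by exact_mod_cast card_le_univ (L z.2)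
    have hk : (3 / 5 : ℝ) * Fintype.card C ≤ ((L z.1 ∩ L z.2).card : ℝ) := by
      have h1 := card_union_add_card_inter (L z.1) (L z.2)
      have h2 := card_le_univ (L z.1 ∪ L z.2)
      have h3 : (((L z.1 ∪ L z.2).card : ℝ)) + (L z.1 ∩ L z.2).card = (L z.1).card + (L z.2).card := by exact_mod_cast h1
      have h4 : ((L z.1 ∪ L z.2).card : ℝ) ≤ Fintype.card C := by exact_mod_cast h2
      linarith
    have ha : (1 / 10000 : ℝ) / Fintype.card C ≤ (1 / 10000 : ℝ) / (L z.1).card :=
      div_le_div_of_nonneg_left (by norm_num) (by linarith) hx1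
    have hb : (1 / 10000 : ℝ) / Fintype.card C ≤ (1 / 10000 : ℝ) / (L z.2).card :=
      div_le_div_of_nonneg_left (by norm_num) (by linarith) hy1
    calc (6 / 1000000000 : ℝ) / Fintype.card C = (3 / 5 * Fintype.card C) * ((1 / 10000 : ℝ) / Fintype.card C *
          ((1 / 10000 : ℝ) / Fintype.card C)) := by
          field_simp
          norm_num
      _ ≤ _ := mul_le_mul hk (mul_le_mul ha hb (by positivity) (by positivity)) (by positivity) (by positivity)
  refine le_trans (le_of_eq ?_) (card_nsmul_le_sum _ _ ((6 / 1000000000 : ℝ) / Fintype.card C) fun z _ => key z)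
  rw [nsmul_eq_mul, mul_div_right_comm, mul_comm]
  congr

end Pool.Agent.Lib.BFE
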