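import Pool.Agent.Lib.BFE.Defs
import Pool.Agent.Lib.BFE.RC1
import Pool.Agent.Lib.BFE.RC2
import Pool.Agent.Lib.BFE.RC3
import Pool.Agent.Lib.BFE.RD1
import Pool.Agent.Lib.BFE.RE1

set_option autoImplicit false
set_option linter.unusedSectionVars false

open Finset
open scoped Classical

namespace Pool.Agent.Lib.BFE

open Pool.Agent.Lib.Prob48 (Weights)

variable {ι C : Type} [Fintype ι] [DecidableEq ι] [Fintype C] [DecidableEq C]

/-- Chunk RF1 (S/M): probability of too few savings.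

**Proof.** `p = 10^(-4)`, `D = |C|`. If the savings are too small, `4 * 10^9 * D * sav < n2`, then
`sav < n2 / (4 * 10^9 D) < S2 / 20` (`re1_S2`: `S2 / 20 ≥ 3 * 10^(-10) n2 / D`, and
`1 / (4 * 10^9) = 2.5 * 10^(-10)`), so by `rd1_sav` `XX ≤ sav + YY`: either `YY ≥ S2 / 20` or
`XX < S2 / 10`. By `rc1_X` (with `re1_A`) and `rc1_Y` (with `re1_N`, the neighbours of `i` are at most `8 D`)
the probability is at most `exp (- S2 / 10) + exp (- S2 / 40)`, and
`S2 ≥ 6 * 10^(-9) n2 / D ≥ 60 l` because `10^10 l D ≤ n2`. So it is at most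
`2 exp (- (3/2) l) ≤ 2 * (1/2) ^ l` (`log 2 ≤ 3/2`). -/
theorem rf1_sav (adj : ι → ι → Prop) (hsym : ∀ i j, adj i j → adj j i) (hirr : ∀ i, ¬ adj i i)
    (L : ι → Finset C) (hC : 1 ≤ Fintype.card C) (hL : ∀ i, 4 * Fintype.card C ≤ 5 * (L i).card)
    (hdeg : ∀ i, (univ.filter fun h => adj i h).card ≤ 8 * Fintype.card C) (l : ℕ)
    (A : Finset ι) (hA : A.card ≤ 2 * Fintype.card C)
    (hn : 10 ^ 10 * l * Fintype.card C ≤ n2 adj A) :
    (listPick L).mu.P (fun ω => 4 * 10 ^ 9 * Fintype.card C * sav (ret adj ω) A < n2 adj A)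
      ≤ 2 * (1 / 2 : ℝ) ^ l := by
  set D := Fintype.card C with hD
  set S := (listPick L).S2 adj A with hS
  have hDpos : (0 : ℝ) < (D : ℝ) := by exact_mod_cast hC
  have hS2 : (6 / 1000000000 : ℝ) * n2 adj A / D ≤ S := re1_S2 L hC hL adj A
  have hX : (listPick L).mu.P (fun ω => (XX adj A ω : ℝ) ≤ S / 10) ≤ Real.exp (-S / 10) :=
    rc1_X (listPick L) adj A (fun c => re1_A L hC hL A hA c)
  have hY : (listPick L).mu.P (fun ω => S / 20 ≤ (YY adj A ω : ℝ)) ≤ Real.exp (-S / 40) :=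
    rc1_Y (listPick L) adj hirr A (fun c i => re1_N L hC hL _ (hdeg i) c)
  have hn' : (10 ^ 10 : ℝ) * l * D ≤ (n2 adj A : ℝ) := by exact_mod_cast hn
  have hl : 60 * (l : ℝ) ≤ S := by
    refine le_trans ?_ hS2
    rw [le_div_iff₀ hDpos]
    linarith
  have hS0 : 0 ≤ S := le_trans (by positivity) hl
  have hsub : (listPick L).mu.P (fun ω => 4 * 10 ^ 9 * D * sav (ret adj ω) A < n2 adj A)
      ≤ (listPick L).mu.P (fun ω => (XX adj A ω : ℝ) ≤ S / 10 ∨ S / 20 ≤ (YY adj A ω : ℝ)) := by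
    refine Weights.P_mono _ fun ω hω => ?_
    by_contra hcon
    push Not at hcon
    obtain ⟨h1, h2⟩ := hcon
    have h3 : (XX adj A ω : ℝ) ≤ sav (ret adj ω) A + YY adj A ω := by
      exact_mod_cast rd1_sav adj hsym A ω
    have h4 : (4 * 10 ^ 9 : ℝ) * D * sav (ret adj ω) A < (n2 adj A : ℝ) := by exact_mod_cast hω
    have h5 : (sav (ret adj ω) A : ℝ) ≤ S / 20 := by
      have h6 : (6 / 1000000000 : ℝ) * (4 * 10 ^ 9 * D * sav (ret adj ω) A) / D
          ≤ (6 / 1000000000 : ℝ) * n2 adj A / D := by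
        refine div_le_div_of_nonneg_right ?_ hDpos.le
        exact mul_le_mul_of_nonneg_left h4.le (by norm_num)
      have h7 : (6 / 1000000000 : ℝ) * (4 * 10 ^ 9 * D * sav (ret adj ω) A) / D
          = 24 * sav (ret adj ω) A := by
        field_simp
        ring
      rw [h7] at h6
      have h8 : (0 : ℝ) ≤ sav (ret adj ω) A := Nat.cast_nonneg _
      linarith
    linarith
  have hexp1 : Real.exp (-S / 10) ≤ Real.exp (-S / 40) := by
    apply Real.exp_le_exp.2
    linarith
  have hexp2 : Real.exp (-S / 40) ≤ (1 / 2 : ℝ) ^ l := by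
    have h1 : Real.exp (-S / 40) ≤ Real.exp (-(l : ℝ)) := by
      apply Real.exp_le_exp.2
      have : (0 : ℝ) ≤ (l : ℝ) := Nat.cast_nonneg _
      linarith
    have h2 : Real.exp (-(l : ℝ)) = (Real.exp (-1)) ^ l := by
      rw [← Real.exp_nat_mul]
      congr 1
      ring
    have h3 : Real.exp (-1) ≤ 1 / 2 := by
      rw [Real.exp_neg, one_div]
      refine inv_anti₀ (by norm_num) ?_
      have := Real.add_one_le_exp (1 : ℝ)
      linarith
    rw [h2] at h1
    exact h1.trans (pow_le_pow_left₀ (Real.exp_pos _).le h3 l)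
  have hor := Weights.P_or_le (listPick L).mu (fun ω => (XX adj A ω : ℝ) ≤ S / 10)
    (fun ω => S / 20 ≤ (YY adj A ω : ℝ))
  linarith

/-- **Proof.** The number of coloured elements of `B` is at most the number of elements that pick a colour
(`ret adj ω i ≠ none` gives `ω i ≠ none`). If `|B| + 5000 l < 5000 #{…}` then
`2 p |B| + l ≤ #{i ∈ B : ω i ≠ none}` with `p = 10^(-4)`; use `rc3_load` with `re1_sum`. -/
theorem rf1_load (adj : ι → ι → Prop) (L : ι → Finset C) (l : ℕ) (B : Finset ι) :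
    (listPick L).mu.P (fun ω => B.card + 5000 * l
        < 5000 * (B.filter fun i => ret adj ω i ≠ none).card) ≤ (1 / 2 : ℝ) ^ l := by
  have h := rc3_load (listPick L) B (1 / 10000) (by norm_num) (fun i => re1_sum L i) l
  refine le_trans (Weights.P_mono _ fun ω hω => ?_) h
  have h1 : (B.filter fun i => ret adj ω i ≠ none).card ≤ (B.filter fun i => ω i ≠ none).card := by
    refine card_le_card fun i hi => ?_
    obtain ⟨hi1, hi2⟩ := mem_filter.1 hi
    refine mem_filter.2 ⟨hi1, ?_⟩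
    intro h0
    apply hi2
    unfold ret
    split_ifs
    · exact h0
    · rfl
  have h2 : (B.card : ℝ) + 5000 * l < 5000 * ((B.filter fun i => ret adj ω i ≠ none).card : ℝ) := by
    exact_mod_cast hω
  have h3 : ((B.filter fun i => ret adj ω i ≠ none).card : ℝ)
      ≤ ((B.filter fun i => ω i ≠ none).card : ℝ) := by exact_mod_cast h1
  linarith

end Pool.Agent.Lib.BFE
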