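import Pool.Agent.Lib.BFE.Defs
import Pool.Agent.Lib.BFE.RF1

set_option autoImplicit false
set_option linter.unusedSectionVars false

open Finset
open scoped Classical

namespace Pool.Agent.Lib.BFE

open Pool.Agent.Lib.Prob48 (Weights)

variable {ι C : Type} [Fintype ι] [DecidableEq ι] [Fintype C] [DecidableEq C]

/-- a set of elements with all neighbours -/
noncomputable def rf2_cl (adj : ι → ι → Prop) (F : Finset ι) : Finset ι :=
  F ∪ univ.filter fun h => ∃ i ∈ F, adj i h

theorem rf2_cl_card (adj : ι → ι → Prop) (d : ℕ) (hdeg : ∀ i, (univ.filter fun h => adj i h).card ≤ d)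
    (F : Finset ι) : (rf2_cl adj F).card ≤ F.card * (1 + d) := by
  have h1 : (univ.filter fun h => ∃ i ∈ F, adj i h) ⊆ F.biUnion fun i => univ.filter fun h => adj i h := by
    intro h hh
    rw [mem_filter] at hh
    obtain ⟨i, hi, hih⟩ := hh.2
    exact mem_biUnion.2 ⟨i, hi, mem_filter.2 ⟨mem_univ _, hih⟩⟩
  calc (rf2_cl adj F).card ≤ F.card + (univ.filter fun h => ∃ i ∈ F, adj i h).card := card_union_le _ _
    _ ≤ F.card + F.card * d := by
        refine Nat.add_le_add_left ((card_le_card h1).trans ?_) _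
        exact card_biUnion_le_card_mul _ _ _ fun i _ => hdeg i
    _ = F.card * (1 + d) := by ring

theorem rf2_cl_mem (adj : ι → ι → Prop) (F : Finset ι) {i : ι} (hi : i ∈ F) : i ∈ rf2_cl adj F :=
  mem_union_left _ hi

theorem rf2_cl_mem' (adj : ι → ι → Prop) (F : Finset ι) {i h : ι} (hi : i ∈ F) (hih : adj i h) :
    h ∈ rf2_cl adj F :=
  mem_union_right _ (mem_filter.2 ⟨mem_univ _, i, hi, hih⟩)

/-- the retained colours depend only on the neighbourhood -/
theorem rf2_ret (adj : ι → ι → Prop) (F : Finset ι) (ω ω' : ι → Option C)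
    (h : ∀ v ∈ rf2_cl adj F, ω v = ω' v) : ∀ i ∈ F, ret adj ω i = ret adj ω' i := by
  intro i hi
  unfold ret
  have h1 : ω i = ω' i := h i (rf2_cl_mem adj F hi)
  have h2 : (∀ g, adj i g → ω g ≠ ω i) ↔ (∀ g, adj i g → ω' g ≠ ω' i) := by
    refine forall_congr' fun g => forall_congr' fun hg => ?_
    rw [h1, h g (rf2_cl_mem' adj F hi hg)]
  by_cases hc : ∀ g, adj i g → ω g ≠ ω i
  · rw [if_pos hc, if_pos (h2.1 hc), h1]
  · rw [if_neg hc, if_neg (fun h3 => hc (h2.2 h3))]

theorem rf2_filter (F : Finset ι) (χ χ' : ι → Option C) (h : ∀ i ∈ F, χ i = χ' i) :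
    (F.filter fun i => χ i ≠ none) = F.filter fun i => χ' i ≠ none :=
  filter_congr fun i hi => by rw [h i hi]

theorem rf2_sav (F : Finset ι) (χ χ' : ι → Option C) (h : ∀ i ∈ F, χ i = χ' i) : sav χ F = sav χ' F := by
  unfold sav
  rw [rf2_filter F χ χ' h]
  refine congrArg₂ HSub.hSub rfl (congrArg card ?_)
  ext x
  simp only [mem_image, mem_filter]
  refine exists_congr fun i => and_congr_right fun hi => ?_
  rw [h i hi.1]

/-- the colours picked belong to the lists -/
theorem rf2_list (L : ι → Finset C) (i : ι) :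
    (listPick L).mu.P (fun ω => ∃ c, ω i = some c ∧ c ∉ L i) = 0 := by
  refine le_antisymm ?_ (Weights.P_nonneg _ _)
  rw [← (listPick L).mu.P_false]
  refine Weights.P_mono' _ fun ω hω hc => ?_
  obtain ⟨c, h1, h2⟩ := hc
  unfold Weights.pw at hω
  have h3 : (listPick L).mu.w i (ω i) = 0 := by
    rw [h1]
    show (listPick L).q i c = 0
    unfold listPick
    simp only
    rw [if_neg h2]
  rw [prod_eq_zero (mem_univ i) h3] at hω
  exact lt_irrefl _ hω

/-- number of the sets whose closure contains a given element -/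
theorem rf2_count (adj : ι → ι → Prop) (hsym : ∀ i j, adj i j → adj j i) (d m : ℕ)
    (hdeg : ∀ i, (univ.filter fun h => adj i h).card ≤ d) {J : Type} [Fintype J] (A : J → Finset ι)
    (hAd : ∀ i, (univ.filter fun j => i ∈ A j).card ≤ m) (h : ι) :
    (univ.filter fun j => h ∈ rf2_cl adj (A j)).card ≤ (1 + d) * m := by
  have h1 : (univ.filter fun j => h ∈ rf2_cl adj (A j)) ⊆
      (univ.filter fun j => h ∈ A j) ∪ (univ.filter fun i => adj h i).biUnion fun i => univ.filter fun j => i ∈ A j := by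
    intro j hj
    rw [mem_filter] at hj
    have hj2 := hj.2
    unfold rf2_cl at hj2
    rw [mem_union, mem_filter] at hj2
    rcases hj2 with hj2 | ⟨-, i, hi, hih⟩
    · exact mem_union_left _ (mem_filter.2 ⟨mem_univ _, hj2⟩)
    · exact mem_union_right _ (mem_biUnion.2 ⟨i, mem_filter.2 ⟨mem_univ _, hsym _ _ hih⟩,
        mem_filter.2 ⟨mem_univ _, hi⟩⟩)
  calc (univ.filter fun j => h ∈ rf2_cl adj (A j)).card ≤ _ := card_le_card h1
    _ ≤ (univ.filter fun j => h ∈ A j).card +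
        ((univ.filter fun i => adj h i).biUnion fun i => univ.filter fun j => i ∈ A j).card := card_union_le _ _
    _ ≤ m + (univ.filter fun i => adj h i).card * m := by
        refine Nat.add_le_add (hAd h) ?_
        exact card_biUnion_le_card_mul _ _ _ fun i _ => hAd i
    _ ≤ m + d * m := Nat.add_le_add_left (Nat.mul_le_mul_right _ (hdeg h)) _
    _ = (1 + d) * m := by ring

/-- Chunk RF2 (M/L): **the random step** (local lemma).

**Proof.** Let `D = |C|`, `μ = (listPick L).mu`. Apply `Weights.lll_symm` (Lib/Prob48/LLL) to the index type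
`J ⊕ K ⊕ ι` and the events
* `j : J`: `10^10 l D ≤ n2 adj (A j)` and `4 * 10^9 D sav (ret adj ω) (A j) < n2 adj (A j)`;
  coordinates `S j = A j ∪ {h : ∃ i ∈ A j, adj i h}`, probability at most `2 (1/2)^l` (`rf1_sav`; if the
  first condition fails the event is empty);
* `k : K`: `|B k| + 5000 l < 5000 #{i ∈ B k : ret adj ω i ≠ none}`; coordinates
  `S k = B k ∪ {h : ∃ i ∈ B k, adj i h}`, probability at most `(1/2)^l` (`rf1_load`);
* `i : ι`: `ω i = some c` for some `c ∉ L i`; coordinates `{i}`, probability `0` (`Weights.P_mono'`: outcomes of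
  positive weight have `0 < w i (ω i) = q i c`, so `c ∈ L i`; or: the event is contained in a finite union of
  events of probability `0`).
Dependence: `ret adj ω i` depends only on the coordinates `i` and the neighbours of `i`; `sav` and the
numbers depend only on `ret adj ω` on `A j`, `B k`.
Counting, all `≤ D^17`: `|S x| ≤ D^3 (1 + 8 D) ≤ D^5`; a coordinate `h` lies in `S x` for at most
`D^5 + 8 D * D^5` indices of `J` (`h ∈ A j` or a neighbour `i` of `h` in `A j`), the same for `K`, and one of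
`ι`: at most `2 (1 + 8 D) D^5 + 1 ≤ D^8`. So every `S x` meets at most `D^5 * D^8 = D^13` of the others
(`D ≥ 100`). `4 * 2 (1/2)^l * D^13 ≤ 1` from `D^20 ≤ 2^l`; and `2 (1/2)^l ≤ 1/4`.
The outcome `ω` avoiding all events gives `χ = ret adj ω` (`rd1_proper`; `χ i = some c` implies
`ω i = some c`, so `c ∈ L i`). -/
theorem rf2_random_step (adj : ι → ι → Prop) (hsym : ∀ i j, adj i j → adj j i)
    (hirr : ∀ i, ¬ adj i i) (L : ι → Finset C) (D l : ℕ) (hD : D = Fintype.card C)
    (hD1 : 100 ≤ D) (hl : D ^ 20 ≤ 2 ^ l) (hL : ∀ i, 4 * D ≤ 5 * (L i).card)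
    (hdeg : ∀ i, (univ.filter fun h => adj i h).card ≤ 8 * D)
    {J K : Type} [Fintype J] [Fintype K]
    (A : J → Finset ι) (hA : ∀ j, (A j).card ≤ 2 * D)
    (hAd : ∀ i, (univ.filter fun j => i ∈ A j).card ≤ D ^ 5)
    (B : K → Finset ι) (hB : ∀ k, (B k).card ≤ D ^ 3)
    (hBd : ∀ i, (univ.filter fun k => i ∈ B k).card ≤ D ^ 5) :
    ∃ χ : ι → Option C, (∀ i c, χ i = some c → c ∈ L i) ∧ Proper adj χ ∧
      (∀ j, 10 ^ 10 * l * D ≤ n2 adj (A j) → n2 adj (A j) ≤ 4 * 10 ^ 9 * D * sav χ (A j)) ∧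
      (∀ k, 5000 * ((B k).filter fun i => χ i ≠ none).card ≤ (B k).card + 5000 * l) := by
  subst hD
  obtain ⟨D, hD⟩ : ∃ D : ℕ, D = Fintype.card C := ⟨_, rfl⟩
  have hC1 : 1 ≤ Fintype.card C := by omega
  have hDD : 1 + 8 * D ≤ D ^ 2 := by nlinarith
  -- the events
  obtain ⟨Ev, hEv⟩ : ∃ Ev : J ⊕ (K ⊕ ι) → (ι → Option C) → Prop, Ev = fun x ω => match x with
    | Sum.inl j => 10 ^ 10 * l * Fintype.card C ≤ n2 adj (A j) ∧
        4 * 10 ^ 9 * Fintype.card C * sav (ret adj ω) (A j) < n2 adj (A j)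
    | Sum.inr (Sum.inl k) => (B k).card + 5000 * l < 5000 * ((B k).filter fun i => ret adj ω i ≠ none).card
    | Sum.inr (Sum.inr i) => ∃ c, ω i = some c ∧ c ∉ L i := ⟨_, rfl⟩
  obtain ⟨S, hS⟩ : ∃ S : J ⊕ (K ⊕ ι) → Finset ι, S = fun x => match x with
    | Sum.inl j => rf2_cl adj (A j)
    | Sum.inr (Sum.inl k) => rf2_cl adj (B k)
    | Sum.inr (Sum.inr i) => {i} := ⟨_, rfl⟩
  have hdep : ∀ x, DependsOn (Ev x) (S x : Set ι) := by
    intro x ω ω' hω
    rw [hS] at hω
    rw [hEv]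
    rcases x with j | k | i
    · have h1 := rf2_sav (A j) _ _ (rf2_ret adj (A j) ω ω' fun v hv => hω v (mem_coe.2 hv))
      simp only
      rw [h1]
    · have h1 := rf2_filter (B k) _ _ (rf2_ret adj (B k) ω ω' fun v hv => hω v (mem_coe.2 hv))
      simp only
      rw [h1]
    · have h1 : ω i = ω' i := hω i (mem_coe.2 (mem_singleton_self i))
      simp only
      rw [h1]
  have hl2 : (D : ℝ) ^ 20 * (1 / 2 : ℝ) ^ l ≤ 1 := by
    rw [one_div, inv_pow, ← div_eq_mul_inv, div_le_one (by positivity), hD]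
    exact_mod_cast hl
  have hpl : 0 < (1 / 2 : ℝ) ^ l := by positivity
  have hDr : (100 : ℝ) ≤ D := by rw [hD]; exact_mod_cast hD1
  have hprob : ∀ x, (listPick L).mu.P (Ev x) ≤ 2 * (1 / 2 : ℝ) ^ l := by
    intro x
    rw [hEv]
    rcases x with j | k | i
    · by_cases hn : 10 ^ 10 * l * Fintype.card C ≤ n2 adj (A j)
      · refine le_trans (Weights.P_mono _ fun ω h => h.2) ?_
        exact rf1_sav adj hsym hirr L hC1 hL hdeg l (A j) (hA j) hn
      · refine le_trans (Weights.P_mono (B := fun _ => False) _ fun ω h => hn h.1) ?_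
        rw [Weights.P_false]
        positivity
    · refine le_trans (rf1_load adj L l (B k)) ?_
      linarith
    · refine le_trans (le_of_eq (rf2_list L i)) ?_
      positivity
  have hS5 : ∀ x, (S x).card ≤ D ^ 5 := by
    intro x
    rw [hS]
    rcases x with j | k | i
    · calc (rf2_cl adj (A j)).card ≤ (A j).card * (1 + 8 * Fintype.card C) := rf2_cl_card adj _ hdeg _
        _ ≤ D ^ 3 * D ^ 2 := by
            refine Nat.mul_le_mul ((hA j).trans ?_) (by rw [← hD]; exact hDD)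
            rw [← hD] at hD1 ⊢
            nlinarith [Nat.mul_le_mul hD1 hD1, Nat.mul_le_mul (Nat.mul_le_mul hD1 hD1) (le_refl D), pow_succ D 2, pow_succ D 1]
        _ = D ^ 5 := by ring
    · calc (rf2_cl adj (B k)).card ≤ (B k).card * (1 + 8 * Fintype.card C) := rf2_cl_card adj _ hdeg _
        _ ≤ D ^ 3 * D ^ 2 := Nat.mul_le_mul (by rw [hD]; exact hB k) (by rw [← hD]; exact hDD)
        _ = D ^ 5 := by ring
    · simp only [card_singleton]
      exact Nat.one_le_pow _ _ (by omega)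
  have hS8 : ∀ h : ι, (univ.filter fun x => h ∈ S x).card ≤ D ^ 8 := by
    intro h
    have h1 : (univ.filter fun x => h ∈ S x) ⊆
        ((univ.filter fun j => h ∈ rf2_cl adj (A j)).image Sum.inl ∪
          (univ.filter fun k => h ∈ rf2_cl adj (B k)).image fun k => Sum.inr (Sum.inl k)) ∪
        {Sum.inr (Sum.inr h)} := by
      intro x hx
      rw [mem_filter, hS] at hx
      rcases x with j | k | i
      · exact mem_union_left _ (mem_union_left _ (mem_image.2 ⟨j, mem_filter.2 ⟨mem_univ _, hx.2⟩, rfl⟩))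
      · exact mem_union_left _ (mem_union_right _ (mem_image.2 ⟨k, mem_filter.2 ⟨mem_univ _, hx.2⟩, rfl⟩))
      · have h2 : h = i := mem_singleton.1 hx.2
        rw [h2]
        exact mem_union_right _ (mem_singleton_self _)
    have h2 := rf2_count adj hsym _ _ hdeg A hAd h
    have h3 := rf2_count adj hsym _ _ hdeg B hBd h
    rw [← hD] at h2 h3
    calc (univ.filter fun x => h ∈ S x).card ≤ _ := card_le_card h1
      _ ≤ (((univ.filter fun j => h ∈ rf2_cl adj (A j)).image (Sum.inl : J → J ⊕ (K ⊕ ι))).card +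
          ((univ.filter fun k => h ∈ rf2_cl adj (B k)).image
            fun k => (Sum.inr (Sum.inl k) : J ⊕ (K ⊕ ι))).card) + 1 := by
          refine (card_union_le _ _).trans ?_
          rw [card_singleton]
          exact Nat.add_le_add_right (card_union_le _ _) _
      _ ≤ ((1 + 8 * D) * D ^ 5 + (1 + 8 * D) * D ^ 5) + 1 := by
          refine Nat.add_le_add_right (Nat.add_le_add (card_image_le.trans h2) (card_image_le.trans h3)) _
      _ ≤ D ^ 8 := by
          have h4 : (1 + 8 * D) * D ^ 5 ≤ D ^ 2 * D ^ 5 := Nat.mul_le_mul_right _ hDD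
          have h5 : D ^ 2 * D ^ 5 = D ^ 7 := by ring
          have h6 : D ^ 8 = D * D ^ 7 := by ring
          have h7 : 1 ≤ D ^ 7 := Nat.one_le_pow _ _ (by omega)
          have h8 : 100 * D ^ 7 ≤ D * D ^ 7 := Nat.mul_le_mul_right _ (by omega)
          omega
  have hcard : ∀ x, {y | y ≠ x ∧ ¬ Disjoint (S x) (S y)}.ncard ≤ D ^ 13 := by
    intro x
    have h1 : {y | y ≠ x ∧ ¬ Disjoint (S x) (S y)} ⊆
        (((S x).biUnion fun h => univ.filter fun y => h ∈ S y : Finset (J ⊕ (K ⊕ ι))) : Set (J ⊕ (K ⊕ ι))) := by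
      rintro y ⟨-, hy⟩
      obtain ⟨v, hv1, hv2⟩ := not_disjoint_iff.1 hy
      exact mem_coe.2 (mem_biUnion.2 ⟨v, hv1, mem_filter.2 ⟨mem_univ _, hv2⟩⟩)
    calc {y | y ≠ x ∧ ¬ Disjoint (S x) (S y)}.ncard ≤ _ := Set.ncard_le_ncard h1 (finite_toSet _)
      _ = ((S x).biUnion fun h => univ.filter fun y => h ∈ S y).card := Set.ncard_coe_finset _
      _ ≤ (S x).card * D ^ 8 := card_biUnion_le_card_mul _ _ _ fun h _ => hS8 h
      _ ≤ D ^ 5 * D ^ 8 := Nat.mul_le_mul_right _ (hS5 x)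
      _ = D ^ 13 := by ring
  have hp13 : 4 * (2 * (1 / 2 : ℝ) ^ l) * ((D ^ 13 : ℕ) : ℝ) ≤ 1 := by
    have h1 : (8 : ℝ) ≤ (D : ℝ) ^ 7 := by
      calc (8 : ℝ) ≤ (100 : ℝ) ^ 7 := by norm_num
        _ ≤ (D : ℝ) ^ 7 := by gcongr
    push_cast
    calc 4 * (2 * (1 / 2 : ℝ) ^ l) * (D : ℝ) ^ 13 = 8 * ((D : ℝ) ^ 13 * (1 / 2 : ℝ) ^ l) := by ring
      _ ≤ (D : ℝ) ^ 7 * ((D : ℝ) ^ 13 * (1 / 2 : ℝ) ^ l) := by gcongr
      _ = (D : ℝ) ^ 20 * (1 / 2 : ℝ) ^ l := by ring
      _ ≤ 1 := hl2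
  have hp4 : 2 * (1 / 2 : ℝ) ^ l ≤ 1 / 4 := by
    have h1 : (8 : ℝ) ≤ (D : ℝ) ^ 20 := by
      calc (8 : ℝ) ≤ (100 : ℝ) ^ 20 := by norm_num
        _ ≤ (D : ℝ) ^ 20 := by gcongr
    have h2 : 8 * (1 / 2 : ℝ) ^ l ≤ (D : ℝ) ^ 20 * (1 / 2 : ℝ) ^ l := by gcongr
    linarith
  obtain ⟨ω, hω⟩ := (listPick L).mu.lll_symm Ev S hdep (2 * (1 / 2 : ℝ) ^ l) (D ^ 13) hprob hp4 hp13 hcard
  rw [hEv] at hω
  refine ⟨ret adj ω, fun i c hc => ?_, rd1_proper adj ω, fun j hj => ?_, fun k => ?_⟩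
  · have h1 := hω (Sum.inr (Sum.inr i))
    simp only at h1
    push Not at h1
    refine h1 c ?_
    unfold ret at hc
    split_ifs at hc with h2
    · exact hc
  · have h1 := hω (Sum.inl j)
    simp only at h1
    push Not at h1
    exact h1 hj
  · have h1 := hω (Sum.inr (Sum.inl k))
    simp only at h1
    push Not at h1
    exact h1

end Pool.Agent.Lib.BFE
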