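import Pool.Agent.Lib.BFE.Defs
import Pool.Agent.Lib.BFE.MDefs
import Pool.Agent.Lib.BFE.A1
import Pool.Agent.Lib.BFE.A3
import Pool.Agent.Lib.BFE.RF2

set_option autoImplicit false
set_option linter.unusedSectionVars false

open Finset
open scoped Classical

namespace Pool.Agent.Lib.BFE

variable {V : Type} [DecidableEq V]

/-- Chunk S1 (M): number of neighbours in a window, sizes of the observer sets.

**Proof.** `a1_count` with `u = a` for the neighbours of `e` in `Pp` (all sizes `≥ a`):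
`(a - 1) n ≤ |e| (D - |e|) ≤ |e| D`.
(1) `|e| < b ≤ 4 a + 3`: `n ≤ (4 a + 2) D / (a - 1) ≤ 8 D` (`a ≥ 100`).
(2) `e ∈ E`, `|e| ≤ s`: let `s' = max s a`; all members have size `≥ s'`, `|e| ≤ s'`:
`(s' - 1) n ≤ s' D ≤ 2 (s' - 1) D`.
(3) all neighbours (`u = 2`): `n ≤ |e| (D - |e|) ≤ D²`. -/
theorem s1_counts {E : Finset (Finset V)} {D : ℕ} (H : Hyp E D) (Pp : Finset (Finset V))
    (hPE : Pp ⊆ E) (a b : ℕ) (ha : 100 ≤ a) (hab : b ≤ 4 * a + 3)
    (hsz : ∀ g ∈ Pp, a ≤ g.card ∧ g.card < b) {e : Finset V} (he : e ∈ E) :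
    (e.card < b → (Pp.filter fun g => Nb e g).card ≤ 8 * D) ∧
    (∀ s, e.card ≤ s → (Pp.filter fun g => Nb e g ∧ s ≤ g.card).card ≤ 2 * D) ∧
    (E.filter fun g => Nb e g).card ≤ D ^ 2 := by
  refine ⟨fun heb => ?_, fun s hs => ?_, ?_⟩
  · have h1 := a1_count H he (Pp.filter fun g => Nb e g) a (fun g hg => by
      rw [mem_filter] at hg
      exact ⟨hPE hg.1, hg.2, (hsz g hg.1).1⟩)
    obtain ⟨n, hn⟩ : ∃ n, n = (Pp.filter fun g => Nb e g).card := ⟨_, rfl⟩
    rw [← hn] at h1 ⊢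
    have h2 : e.card * (D - e.card) ≤ (4 * a + 2) * D := Nat.mul_le_mul (by omega) (Nat.sub_le _ _)
    obtain ⟨c, rfl⟩ : ∃ c, a = c + 100 := ⟨a - 100, by omega⟩
    have h3 : (c + 100 - 1) * n = (c + 99) * n := by
      congr 1
    rw [h3] at h1
    by_contra hcon
    push Not at hcon
    have h4 : (c + 99) * (8 * D + 1) ≤ (c + 99) * n := Nat.mul_le_mul_left _ hcon
    nlinarith
  · obtain ⟨s', hs'⟩ : ∃ s', s' = max s a := ⟨_, rfl⟩
    have hs1 : s ≤ s' := by rw [hs']; exact le_max_left _ _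
    have hs2 : a ≤ s' := by rw [hs']; exact le_max_right _ _
    have h1 := a1_count H he (Pp.filter fun g => Nb e g ∧ s ≤ g.card) s' (fun g hg => by
      rw [mem_filter] at hg
      refine ⟨hPE hg.1, hg.2.1, ?_⟩
      rw [hs']
      exact max_le hg.2.2 (hsz g hg.1).1)
    obtain ⟨n, hn⟩ : ∃ n, n = (Pp.filter fun g => Nb e g ∧ s ≤ g.card).card := ⟨_, rfl⟩
    rw [← hn] at h1 ⊢
    have h2 : e.card * (D - e.card) ≤ (2 * (s' - 1)) * D := Nat.mul_le_mul (by omega) (Nat.sub_le _ _)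
    have h3 : (s' - 1) * n ≤ (s' - 1) * (2 * D) := by
      refine (h1.trans h2).trans (le_of_eq ?_)
      ring
    exact Nat.le_of_mul_le_mul_left h3 (by omega)
  · have h1 := a1_count H he (E.filter fun g => Nb e g) 2 (fun g hg => by
      rw [mem_filter] at hg
      exact ⟨hg.1, hg.2, H.size g hg.1⟩)
    have h2 : e.card * (D - e.card) ≤ D * D := Nat.mul_le_mul (a1_card_le H he) (Nat.sub_le _ _)
    rw [show (2 - 1 : ℕ) = 1 from rfl, Nat.one_mul] at h1
    rw [sq]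
    exact h1.trans h2

end Pool.Agent.Lib.BFE
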