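import Pool.Agent.Lib.BFE.Defs
import Pool.Agent.Lib.BFE.MDefs
import Pool.Agent.Lib.BFE.A1
import Pool.Agent.Lib.BFE.A5

set_option autoImplicit false
set_option linter.unusedSectionVars false

open Finset
open scoped Classical

namespace Pool.Agent.Lib.BFE

variable {V : Type} [DecidableEq V]

theorem s10_vol {E : Finset (Finset V)} {D : ℕ} (H : Hyp E D) {e : Finset V} (he : e ∈ E) (b u T : ℕ)
    (hb : 1 ≤ b) (hbu : b ≤ u) (huT : u ≤ T) :
    (u - 1) * NN E e u + (T - u) * NN E e T + (b - 1) * BB E e b u ≤ e.card * (D - e.card) := by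
  have h1 := a1_vol H he (E.filter fun g => Nb e g ∧ b ≤ g.card)
    (fun g hg => ⟨(mem_filter.1 hg).1, (mem_filter.1 hg).2.1⟩)
  refine le_trans ?_ h1
  unfold NN BB
  rw [card_eq_sum_ones, card_eq_sum_ones, card_eq_sum_ones, mul_sum, mul_sum, mul_sum, sum_filter, sum_filter,
    sum_filter, sum_filter, ← sum_add_distrib, ← sum_add_distrib]
  refine sum_le_sum fun g _ => ?_
  by_cases hn : Nb e g
  · by_cases c1 : u ≤ g.card
    · by_cases c2 : T ≤ g.card
      · rw [if_pos ⟨hn, c1⟩, if_pos ⟨hn, c2⟩, if_neg (by omega), if_pos ⟨hn, by omega⟩]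
        omega
      · rw [if_pos ⟨hn, c1⟩, if_neg (by tauto), if_neg (by omega), if_pos ⟨hn, by omega⟩]
        omega
    · by_cases c2 : b ≤ g.card
      · rw [if_neg (by tauto), if_neg (by omega), if_pos ⟨hn, c2, by omega⟩, if_pos ⟨hn, c2⟩]
        omega
      · rw [if_neg (by tauto), if_neg (by omega), if_neg (by tauto), if_neg (by tauto)]
        omega
  · rw [if_neg (by tauto), if_neg (by tauto), if_neg (by tauto), if_neg (by tauto)]
    omega

theorem s10_arith {b G C T D l N N1 n β t : ℕ} (hC : 1000 ≤ C) (hG : G = 20 * C + 40) (hb : 1000 * G ≤ b)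
    (hT : 4 * b ≤ T) (hl : 1000 * l ≤ D) (ht : t < b + G + C)
    (h1 : (b + G - 1) * N + (T + G - (b + G)) * N1 + (b - 1) * β ≤ t * (D - t)) (h2 : D < 20 * N1)
    (h3 : 5000 * n ≤ β + 5000 * l) : 10 * (N + n) ≤ 9 * D := by
  obtain ⟨T', rfl⟩ := Nat.exists_eq_add_of_le hT
  have e1 : 4 * b + T' + G - (b + G) = 3 * b + T' := by omega
  rw [e1] at h1
  obtain ⟨b', rfl⟩ : ∃ b', b = b' + 1 := ⟨b - 1, by omega⟩
  have e2 : b' + 1 + G - 1 = b' + G := by omega
  have e3 : b' + 1 - 1 = b' := by omega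
  rw [e2, e3] at h1
  have h4 : t * (D - t) ≤ (b' + 1 + G + C) * D := Nat.mul_le_mul ht.le (Nat.sub_le _ _)
  have h5 : (3 * (b' + 1)) * D ≤ 20 * ((3 * (b' + 1) + T') * N1) := by
    calc (3 * (b' + 1)) * D ≤ (3 * (b' + 1) + T') * (20 * N1) := Nat.mul_le_mul (by omega) h2.le
      _ = 20 * ((3 * (b' + 1) + T') * N1) := by ring
  have h6 : (b' + G) * (5000 * n) ≤ (b' + G) * (β + 5000 * l) := Nat.mul_le_mul_left _ h3
  have h7 : (b' + G) * β ≤ 5000 * (b' * β) := by
    calc (b' + G) * β ≤ (5000 * b') * β := Nat.mul_le_mul_right _ (by omega)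
      _ = 5000 * (b' * β) := by ring
  have h8 : (b' + G) * (1000 * l) ≤ (b' + G) * D := Nat.mul_le_mul_left _ hl
  have h9 : 10 * (b' + G) * (N + n) ≤ 9 * (b' + G) * D := by
    have h10 : 20000 * (C * D) ≤ (b' + 1) * D := by
      rw [← mul_assoc]
      exact Nat.mul_le_mul_right _ (by omega)
    have h11 : 1000 * (G * D) ≤ (b' + 1) * D := by
      rw [← mul_assoc]
      exact Nat.mul_le_mul_right _ (by omega)
    have h12 : 1000 * D ≤ (b' + 1) * D := Nat.mul_le_mul_right _ (by omega)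
    nlinarith [h1, h4, h5, h6, h7, h8, h10, h11, h12]
  have h13 : (b' + G) * (10 * (N + n)) ≤ (b' + G) * (9 * D) := by
    calc (b' + G) * (10 * (N + n)) = 10 * (b' + G) * (N + n) := by ring
      _ ≤ 9 * (b' + G) * D := h9
      _ = (b' + G) * (9 * D) := by ring
  exact Nat.le_of_mul_le_mul_left h13 (by omega)

/-- Chunk S10 (M): lists of the small edges, second case (uncoloured, at least `b + G` vertices).

**Proof.** `b = bs b0 (i+1)`, `T = bs b0 i ≥ 4 b`, `u = b + G`, `t = |e| ≥ u`. `key e < u` (otherwise coloured,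
`State.s1`), so `e` is lazy and `t < u + C < T`, and the index in `Lazy` is `i` (`a5_uniq`):
`D < 20 N₁`, `N₁ = NN E e (T + G)`. The coloured neighbours have size `≥ u` (number `≤ N = NN E e u`) or in
`[b, u)` (number `n`, `5000 n ≤ β + 5000 l`, `β = BB E e b u`). Volume (`a1_vol`):
`(u - 1) N + (T + G - u) N₁ + (b - 1) β ≤ t (D - t) ≤ (u + C) D`, `T + G - u = T - b ≥ 3 b`. So
`(u - 1) N + (b - 1) β ≤ (u - 1) D + (C + 1) D - 3 b D / 20 ≤ (u - 1) D - (u - 1) D / 8`
(`u ≤ 1.01 b`, `C + 1 ≤ b / 1000`). As `5000 (b - 1) ≥ u - 1`: `N + n ≤ (7/8) D + l ≤ (9/10) D`. -/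
theorem s10_lazy {E : Finset (Finset V)} {D M R l C G b0 K0 : ℕ} (H : Hyp E D)
    (P : Par D M R l C G b0 K0) (i : ℕ) (hK : K0 ≤ bs b0 (i + 1)) (χ : Finset V → Option (Fin D))
    (hS : State E D l C G b0 (bs b0 (i + 1)) χ) {e : Finset V} (he : e ∈ E) (he0 : χ e = none)
    (h : bs b0 (i + 1) + G ≤ e.card) :
    e.card < bs b0 (i + 1) + G + C ∧
    10 * (E.filter fun g => Nb e g ∧ χ g ≠ none).card ≤ 9 * D := by
  have hMD : M + 1 ≤ D := by
    have h1 := P.M1
    have h2 := H.D_pos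
    have h3 := P.R1
    have h4 := P.big
    have h5 : 1 ≤ R := by nlinarith
    have h6 : 1 ≤ M := by nlinarith
    have h7 : M ≤ M * M := by nlinarith
    omega
  have hRM : R ≤ M := by
    have h1 := P.R1
    have h2 := P.big
    have h3 : 1 ≤ R := by nlinarith
    nlinarith
  have hl : 1000 * l ≤ D := by
    have h2 := P.big
    nlinarith [Nat.zero_le l, Nat.zero_le G]
  have hG := P.G1
  have hC := P.C1
  have hK2 := P.K2
  have hK1 := P.K1
  have hT := (a5_div b0 i).1
  have hkey : key E D C G b0 e < bs b0 (i + 1) + G := by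
    by_contra hlt
    exact hS.s1 e he (not_lt.1 hlt) he0
  have hL : Lazy E D G b0 e := by
    by_contra hL
    unfold key at hkey
    rw [if_neg hL] at hkey
    omega
  have ht : e.card < bs b0 (i + 1) + G + C := by
    unfold key at hkey
    rw [if_pos hL] at hkey
    omega
  refine ⟨ht, ?_⟩
  obtain ⟨j, hj1, hj2, hj3⟩ := hL
  have hij : j = i := a5_uniq b0 j i e.card hj1 hj2 (by omega) (by omega)
  subst hij
  have hvol := s10_vol H he (bs b0 (j + 1)) (bs b0 (j + 1) + G) (bs b0 j + G) (by omega) (by omega) (by omega)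
  have hn : (E.filter fun g => Nb e g ∧ χ g ≠ none).card ≤ NN E e (bs b0 (j + 1) + G) +
      (E.filter fun g => Nb e g ∧ χ g ≠ none ∧ key E D C G b0 g < bs b0 (j + 1) + G).card := by
    unfold NN
    rw [← card_union_add_card_inter]
    refine le_trans (card_le_card ?_) (Nat.le_add_right _ _)
    intro g hg
    obtain ⟨h1, h2, h3⟩ := mem_filter.1 hg
    rw [mem_union, mem_filter, mem_filter]
    by_cases h4 : bs b0 (j + 1) + G ≤ g.card
    · exact Or.inl ⟨h1, h2, h4⟩
    · refine Or.inr ⟨h1, h2, h3, ?_⟩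
      have := (a5_key_le E D C G b0 g).1
      omega
  have h3 := hS.s3 e he (bs b0 (j + 1) + G) (le_refl _)
  have := s10_arith hC hG (by omega) hT hl ht hvol hj3 h3
  omega

/-- **Proof.** Coloured edges have at least `b` vertices: `key g ≥ b + G` gives `|g| ≥ b + G` (`a5_key_le`),
otherwise `State.s2`. `a1_count` with `u = b`. -/
theorem s10_count {E : Finset (Finset V)} {D l C G b0 : ℕ} (H : Hyp E D) (b : ℕ)
    (χ : Finset V → Option (Fin D)) (hS : State E D l C G b0 b χ) {e : Finset V} (he : e ∈ E) :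
    (b - 1) * (E.filter fun g => Nb e g ∧ χ g ≠ none).card ≤ e.card * (D - e.card) := by
  refine a1_count H he _ b fun g hg => ?_
  obtain ⟨h1, h2, h3⟩ := mem_filter.1 hg
  refine ⟨h1, h2, ?_⟩
  rcases Nat.lt_or_ge (key E D C G b0 g) (b + G) with h4 | h4
  · exact (hS.s2 g h3 h4).1
  · have := (a5_key_le E D C G b0 g).1
    omega

end Pool.Agent.Lib.BFE
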