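import Pool.Agent.Lib.BFE.Defs
import Pool.Agent.Lib.BFE.S1

set_option autoImplicit false
set_option linter.unusedSectionVars false

open Finset
open scoped Classical

namespace Pool.Agent.Lib.BFE

variable {V : Type} [DecidableEq V]

theorem s2_symm {e f : Finset V} (h : Nb e f) : Nb f e := ⟨h.1.symm, fun h1 => h.2 h1.symm⟩

/-- transport of the number of non-adjacent pairs -/
theorem s2_n2 {ι α : Type} (v : ι ↪ α) (adj : α → α → Prop) (F : Finset ι) :
    n2 adj (F.map v) = n2 (fun i j => adj (v i) (v j)) F := by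
  unfold n2
  symm
  refine card_bij (fun z _ => (v z.1, v z.2)) ?_ ?_ ?_
  · intro z hz
    rw [mem_filter, mem_product] at hz ⊢
    exact ⟨⟨mem_map_of_mem v hz.1.1, mem_map_of_mem v hz.1.2⟩, fun h => hz.2.1 (v.injective h), hz.2.2⟩
  · intro z _ z' _ h
    rw [Prod.mk.injEq] at h
    exact Prod.ext (v.injective h.1) (v.injective h.2)
  · intro z hz
    rw [mem_filter, mem_product] at hz
    obtain ⟨x, hx, hx'⟩ := mem_map.1 hz.1.1
    obtain ⟨y, hy, hy'⟩ := mem_map.1 hz.1.2
    refine ⟨(x, y), ?_, ?_⟩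
    · rw [mem_filter, mem_product]
      refine ⟨⟨hx, hy⟩, fun h => hz.2.1 ?_, ?_⟩
      · rw [← hx', ← hy']
        exact congrArg v h
      · simp only
        rw [hx', hy']
        exact hz.2.2
    · exact Prod.ext hx' hy'

/-- transport of the savings -/
theorem s2_sav {ι α C : Type} (v : ι ↪ α) (χ : α → Option C) (ψ : ι → Option C) (h : ∀ i, χ (v i) = ψ i)
    (F : Finset ι) : sav χ (F.map v) = sav ψ F := by
  unfold sav
  have h1 : (F.map v).filter (fun i => χ i ≠ none) = (F.filter fun i => ψ i ≠ none).map v := by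
    ext x
    simp only [mem_filter, mem_map]
    constructor
    · rintro ⟨⟨y, hy, rfl⟩, hx⟩
      exact ⟨y, ⟨hy, by rw [← h]; exact hx⟩, rfl⟩
    · rintro ⟨y, ⟨hy, hy2⟩, rfl⟩
      exact ⟨⟨y, hy, rfl⟩, by rw [h]; exact hy2⟩
  rw [h1, card_map]
  refine congrArg₂ HSub.hSub rfl (congrArg card ?_)
  ext c
  simp only [mem_image, mem_map, mem_filter]
  constructor
  · rintro ⟨x, ⟨y, hy, rfl⟩, hc⟩
    exact ⟨y, hy, by rw [← h]; exact hc⟩
  · rintro ⟨y, hy, hc⟩
    exact ⟨v y, ⟨y, hy, rfl⟩, by rw [h]; exact hc⟩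

/-- subsets of the participants -/
theorem s2_eq {α : Type} (P T : Finset α) (F : Finset {g // g ∈ P}) (v : {g // g ∈ P} ↪ α) (hv : ∀ i, v i = i.1)
    (h1 : ∀ i : {g // g ∈ P}, i ∈ F ↔ i.1 ∈ T) (h2 : ∀ x ∈ T, x ∈ P) : T = F.map v := by
  ext x
  rw [mem_map]
  constructor
  · intro hx
    exact ⟨⟨x, h2 x hx⟩, (h1 _).2 hx, hv _⟩
  · rintro ⟨i, hi, rfl⟩
    rw [hv]
    exact (h1 i).1 hi

/-- the lists are long -/
theorem s2_list {E : Finset (Finset V)} {D : ℕ} (χ : Finset V → Option (Fin D)) (hdom : ∀ g, χ g ≠ none → g ∈ E)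
    (g : Finset V) (h : 5 * (E.filter fun h => Nb g h ∧ χ h ≠ none).card ≤ D) :
    4 * D ≤ 5 * ((univ : Finset (Fin D)).filter fun c => ∀ h, Nb g h → χ h ≠ some c).card := by
  have h1 := card_filter_add_card_filter_not (s := (univ : Finset (Fin D))) (fun c => ∀ h, Nb g h → χ h ≠ some c)
  rw [card_univ, Fintype.card_fin] at h1
  have h2 : ((univ : Finset (Fin D)).filter fun c => ¬ ∀ h, Nb g h → χ h ≠ some c).card ≤
      (E.filter fun h => Nb g h ∧ χ h ≠ none).card := by
    have h3 : ((univ : Finset (Fin D)).filter fun c => ¬ ∀ h, Nb g h → χ h ≠ some c).image some ⊆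
        (E.filter fun h => Nb g h ∧ χ h ≠ none).image χ := by
      intro o ho
      obtain ⟨c, hc, rfl⟩ := mem_image.1 ho
      have hc2 := (mem_filter.1 hc).2
      push Not at hc2
      obtain ⟨h, hh1, hh2⟩ := hc2
      have hne : χ h ≠ none := by rw [hh2]; exact Option.some_ne_none c
      exact mem_image.2 ⟨h, mem_filter.2 ⟨hdom h hne, hh1, hne⟩, hh2⟩
    rw [← card_image_of_injective _ (Option.some_injective (Fin D))]
    exact (card_le_card h3).trans card_image_le
  omega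

/-- Chunk S2 (L): **the random step for a window**: `rf2_random_step` applied to the participants `Pp`.

**Proof.** `ι = {g // g ∈ Pp}`, `C = Fin D`, `adj i j = Nb i.1 j.1`, `L i = {c : ∀ h, Nb i.1 h → χ h ≠ some c}`
(all colours not used by coloured neighbours; `|L i| ≥ D - #{h ∈ E : Nb i.1 h, χ h ≠ none} ≥ (4/5) D` by
`hlist`). Degree: `s1_counts` (1). Observers: `J = {e // e ∈ E} × Fin (b + 1)`,
`A (e, s) = if |e| ≤ s then {i : Nb e i.1, s ≤ |i.1| < s + Cc} else ∅`, at most `2 D` elements by `s1_counts` (2);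
`i` lies in at most `D² (b + 1) ≤ D^5` of them (`e` is a neighbour of `i`: `s1_counts` (3), `Nb` symmetric).
`K = {f // f ∈ E} × Fin (b + 1)`, `B (f, u) = {i : Nb f i.1, |i.1| < u}`, at most `D² ≤ D³` elements, `i` in at
most `D² (b + 1)` of them. Get `ψ : ι → Option (Fin D)`. Define `χ1 g = if χ g ≠ none then χ g else
if h : g ∈ Pp then ψ ⟨g, h⟩ else none`. Proper: coloured by `χ` vs coloured by `ψ`: lists (`Nb` symmetric).
`n2`, `sav`, the numbers for `Pp.filter ..` and for the subsets of `ι` agree (map along `Subtype.val`, an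
embedding; `χ = none` on `Pp`). For `s > b` or `u > b` use: all members of `Pp` have size `< b`; the family for
`s ≥ b` is empty (`n2 = 0`, nothing to show), and for `u ≥ b` equals the one for `b`. -/
theorem s2_random {E : Finset (Finset V)} {D : ℕ} (H : Hyp E D) (hD : 1000 ≤ D) (l Cc : ℕ)
    (hl : D ^ 20 ≤ 2 ^ l) (χ : Finset V → Option (Fin D)) (hχ : Proper Nb χ)
    (hdom : ∀ g, χ g ≠ none → g ∈ E) (Pp : Finset (Finset V)) (hPE : Pp ⊆ E)
    (hP0 : ∀ g ∈ Pp, χ g = none) (a b : ℕ) (ha : 100 ≤ a) (hab : b ≤ 4 * a + 3) (hbD : b ≤ D)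
    (hsz : ∀ g ∈ Pp, a ≤ g.card ∧ g.card < b)
    (hlist : ∀ g ∈ Pp, 5 * (E.filter fun h => Nb g h ∧ χ h ≠ none).card ≤ D) :
    ∃ χ1 : Finset V → Option (Fin D), Proper Nb χ1 ∧ (∀ g, χ g ≠ none → χ1 g = χ g) ∧
      (∀ g, χ1 g ≠ none → χ g ≠ none ∨ g ∈ Pp) ∧
      (∀ f ∈ E, ∀ u, 5000 * (Pp.filter fun g => Nb f g ∧ χ1 g ≠ none ∧ g.card < u).card
        ≤ (Pp.filter fun g => Nb f g ∧ g.card < u).card + 5000 * l) ∧
      (∀ e ∈ E, ∀ s, e.card ≤ s →
        10 ^ 10 * l * D ≤ n2 Nb (Pp.filter fun g => Nb e g ∧ s ≤ g.card ∧ g.card < s + Cc) →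
        n2 Nb (Pp.filter fun g => Nb e g ∧ s ≤ g.card ∧ g.card < s + Cc) ≤ 4 * 10 ^ 9 * D *
          sav χ1 (Pp.filter fun g => Nb e g ∧ s ≤ g.card ∧ g.card < s + Cc)) := by
  obtain ⟨v, hv⟩ : ∃ v : {g // g ∈ Pp} ↪ Finset V, v = ⟨Subtype.val, Subtype.val_injective⟩ := ⟨_, rfl⟩
  have hv1 : ∀ i : {g // g ∈ Pp}, v i = i.1 := fun i => by rw [hv]; rfl
  have hDD : D ^ 2 * (b + 1) ≤ D ^ 5 := by
    have h1 : b + 1 ≤ D ^ 2 := by nlinarith
    calc D ^ 2 * (b + 1) ≤ D ^ 2 * D ^ 2 := Nat.mul_le_mul_left _ h1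
      _ = D ^ 4 := by ring
      _ ≤ D ^ 5 := Nat.pow_le_pow_right (by omega) (by omega)
  -- the number of pairs (edge, bound)
  have hcnt : ∀ (i : {g // g ∈ Pp}) (T : Finset ({e // e ∈ E} × Fin (b + 1))),
      (∀ z ∈ T, Nb z.1.1 i.1) → T.card ≤ D ^ 5 := by
    intro i T hT
    have h1 : T.image (fun z => (z.1.1, z.2)) ⊆ (E.filter fun h => Nb i.1 h) ×ˢ (univ : Finset (Fin (b + 1))) := by
      intro z hz
      obtain ⟨x, hx, rfl⟩ := mem_image.1 hz
      exact mem_product.2 ⟨mem_filter.2 ⟨x.1.2, s2_symm (hT x hx)⟩, mem_univ _⟩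
    have h2 : (T.image (fun z => (z.1.1, z.2))).card = T.card := by
      refine card_image_of_injective _ fun x y h => ?_
      rw [Prod.mk.injEq] at h
      exact Prod.ext (Subtype.ext h.1) h.2
    rw [← h2]
    refine (card_le_card h1).trans ?_
    rw [card_product, card_univ, Fintype.card_fin]
    refine le_trans (Nat.mul_le_mul_right _ ?_) hDD
    exact (s1_counts H Pp hPE a b ha hab hsz (hPE i.2)).2.2
  obtain ⟨ψ, q1, q2, q3, q4⟩ := rf2_random_step (ι := {g // g ∈ Pp}) (C := Fin D)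
    (fun i j => Nb i.1 j.1) (fun i j h => s2_symm h) (fun i h => h.1 rfl)
    (fun i => (univ : Finset (Fin D)).filter fun c => ∀ h, Nb i.1 h → χ h ≠ some c) D l
    (Fintype.card_fin D).symm (by omega) hl (fun i => s2_list χ hdom i.1 (hlist i.1 i.2))
    (by
      intro i
      have h1 := (s1_counts H Pp hPE a b ha hab hsz (hPE i.2)).1 (hsz i.1 i.2).2
      rw [s2_eq Pp _ ((univ : Finset {g // g ∈ Pp}).filter fun h => Nb i.1 h.1) v hv1
        (fun h => by simp only [mem_filter, mem_univ, true_and, h.2]) (fun x hx => (mem_filter.1 hx).1), card_map] at h1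
      exact h1)
    (J := {e // e ∈ E} × Fin (b + 1)) (K := {e // e ∈ E} × Fin (b + 1))
    (fun z => if z.1.1.card ≤ z.2.1 then (univ : Finset {g // g ∈ Pp}).filter
      (fun i => Nb z.1.1 i.1 ∧ z.2.1 ≤ i.1.card ∧ i.1.card < z.2.1 + Cc) else ∅)
    (by
      intro z
      split_ifs with hz
      · have h1 := (s1_counts H Pp hPE a b ha hab hsz z.1.2).2.1 z.2.1 hz
        rw [← card_map v]
        refine le_trans (card_le_card ?_) h1
        intro x hx
        obtain ⟨i, hi, rfl⟩ := mem_map.1 hx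
        rw [hv1]
        have hi2 := (mem_filter.1 hi).2
        exact mem_filter.2 ⟨i.2, hi2.1, hi2.2.1⟩
      · rw [card_empty]
        exact Nat.zero_le _)
    (by
      intro i
      refine hcnt i _ fun z hz => ?_
      have hz2 := (mem_filter.1 hz).2
      split_ifs at hz2 with h3
      · exact (mem_filter.1 hz2).2.1
      · exact absurd hz2 (notMem_empty _))
    (fun z => (univ : Finset {g // g ∈ Pp}).filter (fun i => Nb z.1.1 i.1 ∧ i.1.card < z.2.1))
    (by
      intro z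
      have h1 := (s1_counts H Pp hPE a b ha hab hsz z.1.2).2.2
      have h2 : ((univ : Finset {g // g ∈ Pp}).filter (fun i => Nb z.1.1 i.1 ∧ i.1.card < z.2.1)).card ≤
          (E.filter fun g => Nb z.1.1 g).card := by
        rw [← card_map v]
        refine card_le_card fun x hx => ?_
        obtain ⟨i, hi, rfl⟩ := mem_map.1 hx
        rw [hv1]
        exact mem_filter.2 ⟨hPE i.2, (mem_filter.1 hi).2.1⟩
      refine (h2.trans h1).trans (Nat.pow_le_pow_right (by omega) (by omega)))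
    (by
      intro i
      exact hcnt i _ fun z hz => (mem_filter.1 (mem_filter.1 hz).2).2.1)
  obtain ⟨χ1, hχ1⟩ : ∃ χ1 : Finset V → Option (Fin D),
      χ1 = fun g => if χ g ≠ none then χ g else if h : g ∈ Pp then ψ ⟨g, h⟩ else none := ⟨_, rfl⟩
  have e1 : ∀ g, χ g ≠ none → χ1 g = χ g := by
    intro g hg
    rw [hχ1]
    exact if_pos hg
  have e2 : ∀ i : {g // g ∈ Pp}, χ1 i.1 = ψ i := by
    intro i
    rw [hχ1]
    simp only
    rw [if_neg (not_not.2 (hP0 i.1 i.2)), dif_pos i.2]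
  have e3 : ∀ g, χ g = none → g ∉ Pp → χ1 g = none := by
    intro g hg hg2
    rw [hχ1]
    simp only
    rw [if_neg (not_not.2 hg), dif_neg hg2]
  have q1' : ∀ i : {g // g ∈ Pp}, ∀ h, Nb i.1 h → χ h ≠ none → ψ i ≠ χ h := by
    intro i h hih hne heq
    obtain ⟨c, hc⟩ := Option.ne_none_iff_exists'.1 hne
    exact (mem_filter.1 (q1 i c (heq.trans hc))).2 h hih hc
  refine ⟨χ1, ?_, e1, ?_, ?_, ?_⟩
  · intro g h hgh hne
    by_cases h1 : χ g = none
    · by_cases h2 : g ∈ Pp
      · have e4 := e2 ⟨g, h2⟩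
        simp only at e4
        by_cases h3 : χ h = none
        · by_cases h4 : h ∈ Pp
          · have e5 := e2 ⟨h, h4⟩
            simp only at e5
            rw [e4, e5]
            exact q2 ⟨g, h2⟩ ⟨h, h4⟩ hgh (by rw [← e4]; exact hne)
          · rw [e3 h h3 h4]
            exact hne
        · rw [e1 h h3, e4]
          exact q1' ⟨g, h2⟩ h hgh h3
      · exact absurd (e3 g h1 h2) hne
    · rw [e1 g h1]
      by_cases h3 : χ h = none
      · by_cases h4 : h ∈ Pp
        · have e5 := e2 ⟨h, h4⟩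
          simp only at e5
          rw [e5]
          exact fun h5 => q1' ⟨h, h4⟩ g (s2_symm hgh) h1 h5.symm
        · rw [e3 h h3 h4]
          exact h1
      · rw [e1 h h3]
        exact hχ g h hgh h1
  · intro g hg
    by_contra hc
    push Not at hc
    exact hg (e3 g hc.1 hc.2)
  · intro f hf u
    have h1 := q4 (⟨f, hf⟩, ⟨min u b, by omega⟩)
    simp only at h1
    have e5 : (Pp.filter fun g => Nb f g ∧ χ1 g ≠ none ∧ g.card < u) =
        (((univ : Finset {g // g ∈ Pp}).filter (fun i => Nb f i.1 ∧ i.1.card < min u b)).filter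
          fun i => ψ i ≠ none).map v := by
      refine s2_eq Pp _ _ v hv1 (fun i => ?_) (fun x hx => (mem_filter.1 hx).1)
      rw [mem_filter, mem_filter, mem_filter, e2 i]
      have := (hsz i.1 i.2).2
      constructor
      · rintro ⟨⟨-, a1, a3⟩, a2⟩
        exact ⟨i.2, a1, a2, by omega⟩
      · rintro ⟨-, a1, a2, a3⟩
        exact ⟨⟨mem_univ _, a1, by omega⟩, a2⟩
    have e6 : (Pp.filter fun g => Nb f g ∧ g.card < u) =
        ((univ : Finset {g // g ∈ Pp}).filter (fun i => Nb f i.1 ∧ i.1.card < min u b)).map v := by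
      refine s2_eq Pp _ _ v hv1 (fun i => ?_) (fun x hx => (mem_filter.1 hx).1)
      rw [mem_filter, mem_filter]
      have := (hsz i.1 i.2).2
      constructor
      · rintro ⟨-, a1, a3⟩
        exact ⟨i.2, a1, by omega⟩
      · rintro ⟨-, a1, a3⟩
        exact ⟨mem_univ _, a1, by omega⟩
    rw [e5, e6, card_map, card_map]
    exact h1
  · intro e he s hs
    by_cases hsb : s ≤ b
    · have h1 := q3 (⟨e, he⟩, ⟨s, by omega⟩)
      simp only at h1
      rw [if_pos hs] at h1
      have e5 : (Pp.filter fun g => Nb e g ∧ s ≤ g.card ∧ g.card < s + Cc) =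
          ((univ : Finset {g // g ∈ Pp}).filter (fun i => Nb e i.1 ∧ s ≤ i.1.card ∧ i.1.card < s + Cc)).map v := by
        refine s2_eq Pp _ _ v hv1 (fun i => ?_) (fun x hx => (mem_filter.1 hx).1)
        rw [mem_filter, mem_filter]
        exact ⟨fun h => ⟨i.2, h.2⟩, fun h => ⟨mem_univ _, h.2⟩⟩
      rw [e5, s2_n2, s2_sav v χ1 ψ (fun i => by rw [hv1]; exact e2 i)]
      have e6 : (fun i j => Nb (v i) (v j)) = fun i j : {g // g ∈ Pp} => Nb i.1 j.1 := by
        funext i j
        rw [hv1, hv1]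
      rw [e6]
      exact h1
    · have e5 : (Pp.filter fun g => Nb e g ∧ s ≤ g.card ∧ g.card < s + Cc) = ∅ := by
        refine filter_eq_empty_iff.2 fun g hg h => ?_
        have := (hsz g hg).2
        omega
      intro _
      rw [e5]
      unfold n2
      rw [empty_product, filter_empty, card_empty]
      exact Nat.zero_le _

end Pool.Agent.Lib.BFE
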