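import Pool.Agent.Lib.BFE.Defs
import Pool.Agent.Lib.BFE.MDefs
import Pool.Agent.Lib.BFE.A1
import Pool.Agent.Lib.BFE.A4
import Pool.Agent.Lib.BFE.B3

set_option autoImplicit false
set_option linter.unusedSectionVars false

open Finset
open scoped Classical

namespace Pool.Agent.Lib.BFE

variable {V : Type} [DecidableEq V]

theorem s3_M {D M R l C G b0 K0 : ℕ} (P : Par D M R l C G b0 K0) : 1 ≤ M := by
  have h1 := P.big
  have h2 := P.R1
  have h3 : 1 ≤ R := by nlinarith
  nlinarith

/-- Chunk S3 (S/M): the huge edges are coloured greedily.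

**Proof.** `a4_greedy` with `χ = fun _ => none`, `T = {g ∈ E : 4000 M ≤ |g|}`, key `= card`: the first family is
empty, the second is contained in `{g : Nb f g, |f| ≤ |g|}`, at most `NN E f |f| ≤ D - 1` (`b3_huge`). -/
theorem s3_huge {E : Finset (Finset V)} {D M R l C G b0 K0 : ℕ} (H : Hyp E D)
    (P : Par D M R l C G b0 K0) :
    ∃ χ : Finset V → Option (Fin D), Proper Nb χ ∧
      ∀ g, χ g ≠ none ↔ (g ∈ E ∧ 4000 * M ≤ g.card) := by
  have hM := s3_M P
  obtain ⟨χ, h1, _, h3⟩ := a4_greedy (ι := Finset V) Nb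
    (fun i j hij => ⟨Ne.symm hij.1, fun hd => hij.2 hd.symm⟩) (fun i hi => hi.1 rfl) D E (fun _ => none)
    (fun i j _ hi => absurd rfl hi) (fun i hi => absurd rfl hi) (fun g => g.card)
    (E.filter fun g => 4000 * M ≤ g.card) (filter_subset _ _) (fun _ _ => rfl) (by
      intro f hf
      obtain ⟨hfE, hfc⟩ := mem_filter.1 hf
      have e1 : (E.filter fun j => Nb f j ∧ (none : Option (Fin D)) ≠ none) = ∅ := by
        rw [filter_eq_empty_iff]
        intro j _ hj
        exact hj.2 rfl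
      have e2 : ((E.filter fun g => 4000 * M ≤ g.card).filter fun j => Nb f j ∧ f.card ≤ j.card).card
          ≤ NN E f f.card := by
        unfold NN
        refine card_le_card fun j hj => ?_
        obtain ⟨hj1, hj2⟩ := mem_filter.1 hj
        exact mem_filter.2 ⟨(mem_filter.1 hj1).1, hj2⟩
      have e3 := b3_huge H P hfE (by omega)
      have e4 := H.D_pos
      have e5 : (E.filter fun j => Nb f j ∧ (none : Option (Fin D)) ≠ none).card = 0 := by
        rw [e1, card_empty]
      rw [e5]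
      omega)
  refine ⟨χ, h1, fun g => ?_⟩
  rw [h3 g, mem_filter]
  constructor
  · rintro (h | h)
    · exact absurd rfl h
    · exact h
  · intro h
    exact Or.inr h

/-- **Proof.** `a1_count` with `u = 4000 M`: `(4000 M - 1) n ≤ |g| D ≤ 2 M D`, so `5 n ≤ D`. -/
theorem s3_list {E : Finset (Finset V)} {D M R l C G b0 K0 : ℕ} (H : Hyp E D)
    (P : Par D M R l C G b0 K0) {g : Finset V} (hg : g ∈ E) (h : g.card ≤ 2 * M) :
    5 * (E.filter fun h => Nb g h ∧ 4000 * M ≤ h.card).card ≤ D := by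
  have hM := s3_M P
  obtain ⟨n, hn⟩ : ∃ n, n = (E.filter fun h => Nb g h ∧ 4000 * M ≤ h.card).card := ⟨_, rfl⟩
  have h1 := a1_count H hg (E.filter fun h => Nb g h ∧ 4000 * M ≤ h.card) (4000 * M) (fun k hk => by
    obtain ⟨hk1, hk2, hk3⟩ := mem_filter.1 hk
    exact ⟨hk1, hk2, hk3⟩)
  rw [← hn] at h1 ⊢
  have h2 : g.card * (D - g.card) ≤ (2 * M) * D := Nat.mul_le_mul h (Nat.sub_le _ _)
  have h3 : 3999 * M ≤ 4000 * M - 1 := by omega
  have h4 : 3999 * M * n ≤ 2 * M * D := (Nat.mul_le_mul_right n h3).trans (h1.trans h2)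
  have h5 : M * (3999 * n) ≤ M * (2 * D) := by nlinarith
  have h6 := Nat.le_of_mul_le_mul_left h5 (by omega)
  omega

end Pool.Agent.Lib.BFE
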