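import Pool.Agent.Lib.BFE.Defs
import Pool.Agent.Lib.BFE.MDefs

set_option autoImplicit false
set_option linter.unusedSectionVars false

open Finset
open scoped Classical

namespace Pool.Agent.Lib.BFE

variable {V : Type} [DecidableEq V]

/-- Chunk T1 (M/L, arithmetic): the exact regime near `√D`.

**Proof.** `m = s - 1`, `q = (D - 1) / m`, `r = (D - 1) % m`, `F = ∑ F w`, `β = ∑ β w`. From `hv`:
`m (F w + 1) ≤ D - 1`, so `F w + 1 ≤ q`; `δ w = q - 1 - F w`, `Δ = ∑ δ w`, `F + Δ = s (q - 1)`; and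
`X w + (b0 - 1) β w ≤ (D - 1) - m (F w + 1) = r + m δ w`.
Sizes: `M - R ≤ b0 ≤ s ≤ M + l + 1`, so `|s - M| ≤ R + …`, `s - b0 ≤ 2 R`,
`q ≤ (M² + 2M)/(M - R) ≤ M + R + 4`, `q - s - 1 ≤ 3 R`.
Identity: `s (q - 1) = m q + q - s = D - 1 - r + q - s`.
(A) `2 r ≥ b0 - 1` is impossible: `β ≤ (s r + m Δ)/(b0 - 1) ≤ 2 (r + Δ)`, `P' ≤ β/5000 + l`, so
`F + P' ≤ D + (q - s - 1) - r - Δ + (r + Δ)/2500 + l ≤ D + 3 R + l - r/2 < D` (`r ≥ (b0-1)/2 ≥ M/3`),
against `hD`.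
(B) So `2 r < b0 - 1`. If `β w ≤ δ w` for all `w` then `P' ≤ β ≤ Δ`. Otherwise `(b0 - 1) (δ w + 1) ≤ r + m δ w`
for some `w`, so `(b0 - 1)/2 ≤ (s - b0) δ w ≤ 2 R δ w`, `Δ ≥ δ w ≥ M / (5 R) ≥ R / 6`; and always
`β w ≤ 2 δ w` (`δ w = 0`: `(b0 - 1) β w ≤ r < b0 - 1`; `δ w ≥ 1`: `β w ≤ 1/2 + 1.01 δ w`), so `β ≤ 2 Δ` and
`P' ≤ 2 Δ / 5000 + l ≤ Δ` (`l ≤ R / 10^12`). In all cases `P' ≤ Δ`, so `D ≤ F + P' ≤ s (q - 1)
= D + (q - s - 1 - r)`, hence `q ≥ s + 1 + r`; put `ρ = q - s - 1 - r`; `F + Δ = D + ρ`.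
`Δ ≤ ρ + P' ≤ ρ + 2 Δ / 5000 + l` gives `100 Δ ≤ 101 (ρ + l)`.
`X`: `∑ X ≤ s r + m Δ - (b0 - 1) β` and `β ≥ P' ≥ D - F = Δ - ρ`, so
`∑ X ≤ s r + m Δ - (b0 - 1) (Δ - ρ) ≤ s (r + ρ) + (s - b0) Δ ≤ 1.01 M (r + ρ) + 2 R Δ`
(if `Δ < ρ`: `∑ X ≤ s r + m Δ ≤ s (r + ρ)`). -/
theorem t1_exact {D M R l C G b0 K0 : ℕ} (P : Par D M R l C G b0 K0) (s : ℕ) (h1 : b0 + G ≤ s)
    (h2 : s < M + l + 2) (W : Finset V) (hW : W.card = s) (F β X : V → ℕ)
    (hv : ∀ w ∈ W, (s - 1) * F w + X w + (b0 - 1) * β w + s ≤ D) (P' : ℕ)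
    (hP1 : P' ≤ ∑ w ∈ W, β w) (hP2 : 5000 * P' ≤ ∑ w ∈ W, β w + 5000 * l)
    (hD : D ≤ ∑ w ∈ W, F w + P') :
    ∃ ρ r Δ : ℕ, ∑ w ∈ W, F w + Δ = D + ρ ∧ P' ≤ Δ ∧ 100 * Δ ≤ 101 * (ρ + l) ∧
      D - 1 = (s - 1) * (s + 1 + r + ρ) + r ∧ r ≤ 3 * R ∧ ρ ≤ 3 * R ∧
      100 * ∑ w ∈ W, X w ≤ 101 * M * (r + ρ) + 300 * R * Δ := by
  classical
  have hG : 20040 ≤ G := by
    have h := P.G1
    have h' := P.C1
    omega
  have hbig := P.big
  have hR1 : 10 ^ 16 ≤ R := by omega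
  have hM : 10 ^ 16 * R ≤ M := le_trans (Nat.mul_le_mul_right R hR1) P.R1
  have hRR := P.R1
  have hz2 := P.z2
  have hlR : 10 ^ 12 * l ≤ R := by omega
  have hm1 : 1 ≤ s := by omega
  obtain ⟨m, rfl⟩ : ∃ m, s = m + 1 := ⟨s - 1, by omega⟩
  obtain ⟨b, hb⟩ : ∃ b, b0 = b + 1 := ⟨b0 - 1, by omega⟩
  have hMM := P.M1
  have hMM2 := P.M2
  have hMpos : 1 ≤ M * M := Nat.mul_pos (by omega) (by omega)
  have hD1 : 1 ≤ D := by omega
  obtain ⟨d, hd⟩ : ∃ d, D = d + 1 := ⟨D - 1, by omega⟩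
  have hd' : D - 1 = d := by omega
  have hb' : b0 - 1 = b := by omega
  rw [hd'] at hMM hMM2
  rw [hd']
  have hmpos : 0 < m := by omega
  have hbpos : 0 < b := by omega
  set q := d / m with hq
  set r := d % m with hr
  have hqr : m * q + r = d := Nat.div_add_mod d m
  have hrm : r < m := Nat.mod_lt _ hmpos
  have hv' : ∀ w ∈ W, m * F w + X w + b * β w + m ≤ d := by
    intro w hw
    have h := hv w hw
    rw [hb', Nat.add_sub_cancel] at h
    omega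
  have hF : ∀ w ∈ W, F w + 1 ≤ q := by
    intro w hw
    have h := hv' w hw
    rw [hq, Nat.le_div_iff_mul_le hmpos]
    have h' : (F w + 1) * m = m * F w + m := by ring
    rw [h']
    omega
  set δ : V → ℕ := fun w => q - 1 - F w with hδ
  have hFδ : ∀ w ∈ W, F w + δ w + 1 = q := by
    intro w hw
    have h := hF w hw
    have h' : δ w = q - 1 - F w := rfl
    omega
  have hXβ : ∀ w ∈ W, X w + b * β w ≤ r + m * δ w := by
    intro w hw
    have h := hv' w hw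
    have h' := hFδ w hw
    rw [← hqr, ← h'] at h
    have h2 : m * (F w + δ w + 1) = m * F w + m * δ w + m := by ring
    omega
  obtain ⟨SF, hSF⟩ : ∃ x, x = ∑ w ∈ W, F w := ⟨_, rfl⟩
  obtain ⟨SX, hSX⟩ : ∃ x, x = ∑ w ∈ W, X w := ⟨_, rfl⟩
  obtain ⟨SB, hSB⟩ : ∃ x, x = ∑ w ∈ W, β w := ⟨_, rfl⟩
  obtain ⟨Δ, hΔ⟩ : ∃ x, x = ∑ w ∈ W, δ w := ⟨_, rfl⟩
  rw [← hSF, ← hSX]
  rw [← hSB] at hP1 hP2
  rw [← hSF] at hD
  have e1 : SF + Δ + (m + 1) = (m + 1) * q := by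
    have h : ∑ w ∈ W, (F w + δ w + 1) = ∑ _w ∈ W, q := Finset.sum_congr rfl hFδ
    rw [Finset.sum_add_distrib, Finset.sum_add_distrib, Finset.sum_const, Finset.sum_const, hW, smul_eq_mul,
      smul_eq_mul, mul_one, ← hSF, ← hΔ] at h
    exact h
  have e2 : SX + b * SB ≤ (m + 1) * r + m * Δ := by
    have h : ∑ w ∈ W, (X w + b * β w) ≤ ∑ w ∈ W, (r + m * δ w) := Finset.sum_le_sum hXβ
    rw [Finset.sum_add_distrib, Finset.sum_add_distrib, Finset.sum_const, hW, smul_eq_mul,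
      ← Finset.mul_sum, ← Finset.mul_sum, ← hSX, ← hSB, ← hΔ] at h
    exact h
  have e3 : SF + Δ + (m + 1) + r = d + q := by
    have h : (m + 1) * q = m * q + q := by ring
    rw [e1, h]
    omega
  have e4 : Δ + m + 2 + r ≤ q + P' := by omega
  have hq1 : q ≤ M + R + 4 := by
    by_contra hcon
    have h3 : M + R + 5 ≤ q := by omega
    have h4 : M - R ≤ m := by omega
    have h5 : (M - R) * (M + R + 5) ≤ m * q := Nat.mul_le_mul h4 h3
    have h6 : R ≤ M := by omega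
    zify [h6] at h5 hMM2 hRR hqr hM
    have h7 : ((M : ℤ) - R) * (M + R + 5) = M * M - R * R + 5 * M - 5 * R := by ring
    have h8 : ((M : ℤ) + 1) * (M + 1) = M * M + 2 * M + 1 := by ring
    rw [h7] at h5
    rw [h8] at hMM2
    have h9 : (0 : ℤ) ≤ r := by positivity
    linarith
  have hqs : q ≤ m + 2 + 3 * R := by omega
  have hs2 : m + 1 ≤ M + l + 1 := by omega
  have hb2 : M ≤ b + 1 + R := by omega
  have h2b : m + 1 ≤ 2 * b := by omega
  by_cases hA : b ≤ 2 * r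
  · exfalso
    have h3 : b * SB ≤ b * (2 * (r + Δ)) := by
      calc b * SB ≤ (m + 1) * r + m * Δ := by omega
        _ ≤ (m + 1) * (r + Δ) := by
          have h5 : (m + 1) * (r + Δ) = (m + 1) * r + m * Δ + Δ := by ring
          omega
        _ ≤ (2 * b) * (r + Δ) := Nat.mul_le_mul_right _ h2b
        _ = b * (2 * (r + Δ)) := by ring
    have h4 : SB ≤ 2 * (r + Δ) := Nat.le_of_mul_le_mul_left h3 hbpos
    omega
  · have hB : 2 * r < b := by omega
    have h3b : 2 * m ≤ 3 * b := by omega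
    have hβ2 : ∀ w ∈ W, β w ≤ 2 * δ w := by
      intro w hw
      have h := hXβ w hw
      by_contra hcon
      have h4 : 2 * δ w + 1 ≤ β w := by omega
      have h5 : b * (2 * δ w + 1) ≤ b * β w := Nat.mul_le_mul_left b h4
      have h6 : 2 * m * δ w ≤ 3 * b * δ w := Nat.mul_le_mul_right _ h3b
      have h7 : b * (2 * δ w + 1) = 2 * (b * δ w) + b := by ring
      have h8 : 2 * m * δ w = 2 * (m * δ w) := by ring
      have h9 : 3 * b * δ w = 3 * (b * δ w) := by ring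
      omega
    have hSB2 : SB ≤ 2 * Δ := by
      rw [hSB, hΔ, Finset.mul_sum]
      exact Finset.sum_le_sum hβ2
    have hPΔ : P' ≤ Δ := by
      by_cases hall : ∀ w ∈ W, β w ≤ δ w
      · have h : SB ≤ Δ := by
          rw [hSB, hΔ]
          exact Finset.sum_le_sum hall
        omega
      · push Not at hall
        obtain ⟨w, hw, hlt⟩ := hall
        have h := hXβ w hw
        have h5 : b * (δ w + 1) ≤ b * β w := Nat.mul_le_mul_left b hlt
        have hmb : m ≤ b + 2 * R := by omega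
        have h6 : m * δ w ≤ (b + 2 * R) * δ w := Nat.mul_le_mul_right _ hmb
        have h7 : b < 4 * (R * δ w) := by
          have h71 : b * (δ w + 1) = b * δ w + b := by ring
          have h72 : (b + 2 * R) * δ w = b * δ w + 2 * (R * δ w) := by ring
          omega
        have h8 : R < 6 * δ w := by
          by_contra hcon
          have h9 : 6 * δ w ≤ R := by omega
          have h10 : R * (6 * δ w) ≤ R * R := Nat.mul_le_mul_left R h9
          have h11 : 10 ^ 16 * R ≤ R * R := Nat.mul_le_mul_right R hR1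
          have h12 : R * (6 * δ w) = 6 * (R * δ w) := by ring
          omega
        have h12 : δ w ≤ Δ := by
          rw [hΔ]
          exact Finset.single_le_sum (f := δ) (fun _ _ => Nat.zero_le _) hw
        omega
    have hmq : m + 2 + r ≤ q := by omega
    obtain ⟨ρ, hρ⟩ : ∃ ρ, q = m + 2 + r + ρ := ⟨q - (m + 2 + r), by omega⟩
    refine ⟨ρ, r, Δ, by omega, hPΔ, by omega, ?_, by omega, by omega, ?_⟩
    · rw [← hqr, hρ, Nat.add_sub_cancel]
    · have h3 : Δ ≤ SB + ρ := by omega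
      have h4 : b * Δ ≤ b * (SB + ρ) := Nat.mul_le_mul_left b h3
      have hmb : m ≤ b + 2 * R := by omega
      have h6 : m * Δ ≤ (b + 2 * R) * Δ := Nat.mul_le_mul_right _ hmb
      have h7 : SX ≤ (m + 1) * r + 2 * (R * Δ) + b * ρ := by
        have h71 : b * (SB + ρ) = b * SB + b * ρ := by ring
        have h72 : (b + 2 * R) * Δ = b * Δ + 2 * (R * Δ) := by ring
        omega
      have h8 : 100 * (m + 1) ≤ 101 * M := by omega
      have h9 : 100 * b ≤ 101 * M := by omega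
      have h10 : 100 * (m + 1) * r ≤ 101 * M * r := Nat.mul_le_mul_right _ h8
      have h11 : 100 * b * ρ ≤ 101 * M * ρ := Nat.mul_le_mul_right _ h9
      have h12 : 100 * (m + 1) * r = 100 * ((m + 1) * r) := by ring
      have h13 : 100 * b * ρ = 100 * (b * ρ) := by ring
      have h14 : 101 * M * (r + ρ) = 101 * M * r + 101 * M * ρ := by ring
      have h15 : 300 * R * Δ = 300 * (R * Δ) := by ring
      omega

end Pool.Agent.Lib.BFE
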