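import Pool.Agent.Lib.BFE.Defs
import Pool.Agent.Lib.BFE.MDefs

set_option autoImplicit false
set_option linter.unusedSectionVars false

open Finset
open scoped Classical

namespace Pool.Agent.Lib.BFE

/-- Chunk T2 (M, arithmetic): the number of non-adjacent pairs in the exact regime.

**Proof.** With `m = s - 1`, `D + ρ = s (s + r + ρ)` (from `hq`: `D = m (s + 1 + r + ρ) + r + 1`). `n = F - h`,
`F = D + ρ - Δ`, `C h ≤ X`, `C ≥ 1000`. From `hp` (with `a = s + r + ρ`, `vol ≤ m n + X`):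
`N2 ≥ n (n - a - m²) - m X`, and
`n - a - m² = s (s + r + ρ) - (s + r + ρ) - m² - Δ - h = m (s + r + ρ) - m² - Δ - h = m (1 + r + ρ) - Δ - h`.
`Δ ≤ 1.01 (ρ + l)`, `h ≤ X / 1000 ≤ (1.01 M (r + ρ) + 3 R Δ)/1000`; so with `k = 1 + r + ρ ≥ 1`, `M - R - 1 ≤ m`,
`m k - Δ - h ≥ 0.98 M k` (`l ≤ R / 10^12`, `R² ≤ M`, `R ≥ 10^12`). `n ≥ 0.99 D` (`Δ + h ≤ 0.002 M k + …`,
`k ≤ 7 R`). `m X ≤ 1.01 M (1.01 M k + 3 R (1.01) (ρ + l)) ≤ 2 M² k + 4 M R k l ≤ D M k / 100`. So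
`N2 ≥ 0.97 D M k - 0.01 D M k ≥ D M (ρ + 1) / 2`. (All with natural numbers: write everything in `ℤ` or `ℝ` and
use `nlinarith` step by step.) -/
theorem t2_pairs {D M R l C G b0 K0 : ℕ} (P : Par D M R l C G b0 K0) (s : ℕ) (h1 : b0 + G ≤ s)
    (h2 : s < M + l + 2) (ρ r Δ F n h X N2 vol : ℕ) (hF : F + Δ = D + ρ)
    (hΔ : 100 * Δ ≤ 101 * (ρ + l)) (hq : D - 1 = (s - 1) * (s + 1 + r + ρ) + r)
    (hr : r ≤ 3 * R) (hρ : ρ ≤ 3 * R) (hX : 100 * X ≤ 101 * M * (r + ρ) + 300 * R * Δ)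
    (hn : n + h = F) (hh : C * h ≤ X) (hvol : vol ≤ (s - 1) * n + X)
    (hp : n * n ≤ N2 + (s + r + ρ) * n + (s - 1) * vol) :
    D * M * (ρ + 1) ≤ 2 * N2 := by
  have hM1 := P.M1
  have hR1 := P.R1
  have hbig := P.big
  have hC1 := P.C1
  have hz2 := P.z2
  have hG1 := P.G1
  obtain ⟨m, rfl⟩ : ∃ m, s = m + 1 := ⟨s - 1, by omega⟩
  have hRn : 10 ^ 12 ≤ R := by
    have : 10 ^ 12 * 1 ≤ 10 ^ 12 * (l + G + 1) := Nat.mul_le_mul_left _ (by omega)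
    omega
  have hRl : 10 ^ 12 * l ≤ R := by
    have : 10 ^ 12 * l ≤ 10 ^ 12 * (l + G + 1) := Nat.mul_le_mul_left _ (by omega)
    omega
  have hMn : 1 ≤ M := by
    have : 1 * 1 ≤ R * R := Nat.mul_le_mul (by omega) (by omega)
    omega
  have hDn : 1 ≤ D := by
    by_contra hcon
    have h0 : D = 0 := by omega
    rw [h0] at hM1
    have h3 : 1 * 1 ≤ M * M := Nat.mul_le_mul hMn hMn
    omega
  obtain ⟨D', rfl⟩ : ∃ D', D = D' + 1 := ⟨D - 1, by omega⟩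
  have hm1n : M ≤ m + R := by omega
  have hm2n : m ≤ M + l := by omega
  simp only [Nat.add_sub_cancel] at hM1 hq hvol hp
  -- real versions
  have r1 : (10 : ℝ) ^ 12 ≤ R := by exact_mod_cast hRn
  have r2 : (10 : ℝ) ^ 12 * l ≤ R := by exact_mod_cast hRl
  have r3 : (R : ℝ) * R ≤ M := by exact_mod_cast hR1
  have r4 : (M : ℝ) * M ≤ D' := by exact_mod_cast hM1
  have r5 : (M : ℝ) ≤ m + R := by exact_mod_cast hm1n
  have r6 : (m : ℝ) ≤ M + l := by exact_mod_cast hm2n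
  have r7 : (F : ℝ) + Δ = D' + 1 + ρ := by exact_mod_cast hF
  have r8 : (100 : ℝ) * Δ ≤ 101 * (ρ + l) := by exact_mod_cast hΔ
  have r9 : (D' : ℝ) = m * (m + 1 + 1 + r + ρ) + r := by exact_mod_cast hq
  have r10 : (r : ℝ) ≤ 3 * R := by exact_mod_cast hr
  have r11 : (ρ : ℝ) ≤ 3 * R := by exact_mod_cast hρ
  have r12 : (100 : ℝ) * X ≤ 101 * M * (r + ρ) + 300 * R * Δ := by exact_mod_cast hX
  have r13 : (n : ℝ) + h = F := by exact_mod_cast hn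
  have r14 : (C : ℝ) * h ≤ X := by exact_mod_cast hh
  have r15 : (vol : ℝ) ≤ m * n + X := by exact_mod_cast hvol
  have r16 : (n : ℝ) * n ≤ N2 + (m + 1 + r + ρ) * n + m * vol := by exact_mod_cast hp
  have r17 : (1000 : ℝ) ≤ C := by exact_mod_cast hC1
  have p1 : (0 : ℝ) ≤ l := Nat.cast_nonneg _
  have p2 : (0 : ℝ) ≤ r := Nat.cast_nonneg _
  have p3 : (0 : ℝ) ≤ ρ := Nat.cast_nonneg _
  have p5 : (0 : ℝ) ≤ h := Nat.cast_nonneg _
  have p6 : (0 : ℝ) ≤ X := Nat.cast_nonneg _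
  have p7 : (0 : ℝ) ≤ m := Nat.cast_nonneg _
  have p8 : (0 : ℝ) ≤ n := Nat.cast_nonneg _
  have D0 : (0 : ℝ) ≤ D' := Nat.cast_nonneg _
  suffices hgoal : ((D' : ℝ) + 1) * M * (ρ + 1) ≤ 2 * N2 by exact_mod_cast hgoal
  clear hM1 hR1 hbig hC1 hz2 hG1 hRn hRl hMn hDn hm1n hm2n hF hΔ hq hr hρ hX hn hh hvol hp h1 h2 P
  obtain ⟨k, hk⟩ : ∃ k : ℝ, k = 1 + r + ρ := ⟨_, rfl⟩
  have k1 : 1 ≤ k := by linarith
  have k2 : (ρ : ℝ) + 1 ≤ k := by linarith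
  have k0 : 0 ≤ k := by linarith
  have R0 : (0 : ℝ) < R := by linarith
  have M12 : (10 : ℝ) ^ 12 * R ≤ M := (mul_le_mul_of_nonneg_right r1 R0.le).trans r3
  have M24 : (10 : ℝ) ^ 24 ≤ M := by
    have h3 : (10 : ℝ) ^ 12 * 10 ^ 12 ≤ 10 ^ 12 * R := mul_le_mul_of_nonneg_left r1 (by positivity)
    have h4 : (10 : ℝ) ^ 12 * 10 ^ 12 = 10 ^ 24 := by norm_num
    linarith
  have M0 : (0 : ℝ) < M := by linarith
  obtain ⟨Y, hY⟩ : ∃ Y : ℝ, Y = M * k := ⟨_, rfl⟩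
  have YM : (M : ℝ) ≤ Y := by
    rw [hY]
    exact le_mul_of_one_le_right M0.le k1
  have Y0 : 0 < Y := by linarith
  have hRk : (10 : ℝ) ^ 12 * (R * k) ≤ Y := by
    rw [hY, ← mul_assoc]
    exact mul_le_mul_of_nonneg_right M12 k0
  have hkY : (10 : ℝ) ^ 24 * k ≤ Y := by
    rw [hY]
    exact mul_le_mul_of_nonneg_right M24 k0
  have hRl2 : (10 : ℝ) ^ 12 * (R * l) ≤ Y := by
    have h3 : (R : ℝ) * (10 ^ 12 * l) ≤ R * R := mul_le_mul_of_nonneg_left r2 R0.le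
    linarith
  have e1 : (10 : ℝ) ^ 9 * Δ ≤ Y := by linarith
  have e2 : (10 : ℝ) ^ 9 * (R * Δ) ≤ Y := by
    have h3 : (R : ℝ) * (100 * Δ) ≤ R * (101 * (ρ + l)) := mul_le_mul_of_nonneg_left r8 R0.le
    have h4 : (R : ℝ) * ρ ≤ R * k := mul_le_mul_of_nonneg_left (by linarith) R0.le
    linarith
  have e3 : 100 * (X : ℝ) ≤ 102 * Y := by
    have h3 : (M : ℝ) * (r + ρ) ≤ Y := by
      rw [hY]
      exact mul_le_mul_of_nonneg_left (by linarith) M0.le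
    linarith
  have e4 : 1000 * (h : ℝ) ≤ X := (mul_le_mul_of_nonneg_right r17 p5).trans r14
  have e5 : (M : ℝ) * k ≤ (m + R) * k := mul_le_mul_of_nonneg_right r5 k0
  have e6 : (99 : ℝ) * Y ≤ 100 * (m * k - Δ - h) := by
    rw [← hY] at e5
    linarith
  have e7 : (n : ℝ) = D' + 1 + ρ - Δ - h := by linarith
  have hk7 : k ≤ 7 * R := by linarith
  have e8 : (10 : ℝ) ^ 11 * Y ≤ D' := by
    have h3 : Y ≤ M * (7 * R) := by
      rw [hY]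
      exact mul_le_mul_of_nonneg_left hk7 M0.le
    have h4 : (M : ℝ) * (10 ^ 12 * R) ≤ M * M := mul_le_mul_of_nonneg_left M12 M0.le
    linarith
  have e9 : (99 : ℝ) * (D' + 1) ≤ 100 * n := by
    rw [e7]
    linarith
  have e10 : (m : ℝ) * X ≤ (2 * M) * (102 / 100 * Y) := by
    have h3 : (m : ℝ) ≤ 2 * M := by linarith
    exact mul_le_mul h3 (by linarith) p6 (by linarith)
  have e11 : 100 * ((m : ℝ) * X) ≤ (D' + 1) * Y := by
    have h3 : (M : ℝ) * (10 ^ 24) ≤ M * M := mul_le_mul_of_nonneg_left M24 M0.le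
    have h4 : 204 * (M : ℝ) ≤ D' + 1 := by linarith
    have h5 : 204 * (M : ℝ) * Y ≤ (D' + 1) * Y := mul_le_mul_of_nonneg_right h4 Y0.le
    linarith
  have e12 : (n : ℝ) * (m * k - Δ - h) - m * X ≤ N2 := by
    have h3 : (m : ℝ) * vol ≤ m * (m * n + X) := mul_le_mul_of_nonneg_left r15 p7
    have h4 : (n : ℝ) - (m + 1 + r + ρ) - m * m = m * k - Δ - h := by
      rw [e7, hk, r9]
      ring
    have h5 : (n : ℝ) * (m * k - Δ - h) = n * n - (m + 1 + r + ρ) * n - m * (m * n) := by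
      rw [← h4]
      ring
    rw [h5]
    linarith
  have e13 : (99 / 100 * ((D' : ℝ) + 1)) * (99 / 100 * Y) ≤ n * (m * k - Δ - h) :=
    mul_le_mul (by linarith) (by linarith) (by positivity) p8
  have e14 : ((D' : ℝ) + 1) * M * (ρ + 1) ≤ (D' + 1) * Y := by
    rw [hY, mul_assoc]
    exact mul_le_mul_of_nonneg_left (mul_le_mul_of_nonneg_left k2 M0.le) (by linarith)
  have e15 : 0 ≤ ((D' : ℝ) + 1) * Y := by positivity
  have e16 : (99 / 100 * ((D' : ℝ) + 1)) * (99 / 100 * Y) = 9801 / 10000 * ((D' + 1) * Y) := by ring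
  linarith

end Pool.Agent.Lib.BFE
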