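import Pool.Agent.Lib.BFE.Defs
import Pool.Agent.Lib.BFE.MDefs
import Pool.Agent.Lib.BFE.A1
import Pool.Agent.Lib.BFE.A2
import Pool.Agent.Lib.BFE.T1
import Pool.Agent.Lib.BFE.T2

set_option autoImplicit false
set_option linter.unusedSectionVars false

open Finset
open scoped Classical

namespace Pool.Agent.Lib.BFE

variable {V : Type} [DecidableEq V]

/-- Chunk T3 (M): the exact regime, combinatorial part.

**Proof.** If `NN + P' + 1 ≤ D` nothing is to be shown. Otherwise `D ≤ NN + P'`. With `s = |f|`, `W = f`,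
`F w = #{g ∋ w, g ≠ f, |g| ≥ s}`, `β w = #{g ∋ w, b0 ≤ |g| < s}`, `X w = ∑_{g ∋ w, g ≠ f, |g| ≥ s} (|g| - s)`
(`g ∈ E`) the inequality `hv` of `t1_exact` is `a1_vert`, and `∑ F w = NN`, `∑ β w = BB`,
`∑ X w = ∑_{Nb f g, |g| ≥ s} (|g| - s)` by `a1_sum`. So `t1_exact` applies. Let
`A = {g : Nb f g, s ≤ |g| < s + C}`, `n = |A|`, `h = #{g : Nb f g, |g| ≥ s + C}`, so `n + h = NN`, `C h ≤ ∑ X`,
`vol = ∑_A (|g| - 1) ≤ (s - 1) n + ∑ X`; at most `s + r + ρ` members of `A` contain a given `w ∈ f`, since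
`F w + 1 ≤ (D - 1)/(s - 1) = s + 1 + r + ρ` (as `r < s - 1`: `Nat.div_eq_of_lt_le`, or directly from `hv`:
`(s-1)(F w + 1) ≤ D - 1 = (s-1)(s+1+r+ρ) + r`). `a2_pairs` and `t2_pairs`: `D M (ρ + 1) ≤ 2 n2 Nb A`. So
`n2 ≥ 10^10 l D` (`M ≥ 2 * 10^10 l`) and by `hσ` `D M (ρ + 1) ≤ 8 * 10^9 D σ`, hence `σ ≥ ρ + 1`
(`M ≥ 8 * 10^9`). `NN + P' ≤ NN + Δ = D + ρ`. -/
theorem t3_exact {E : Finset (Finset V)} {D M R l C G b0 K0 : ℕ} (H : Hyp E D)
    (P : Par D M R l C G b0 K0) {f : Finset V} (hf : f ∈ E) (h1 : b0 + G ≤ f.card)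
    (h2 : f.card < M + l + 2) (P' σ : ℕ) (hP1 : P' ≤ BB E f b0 f.card)
    (hP2 : 5000 * P' ≤ BB E f b0 f.card + 5000 * l)
    (hσ : 10 ^ 10 * l * D ≤ n2 Nb (E.filter fun g => Nb f g ∧ f.card ≤ g.card ∧
        g.card < f.card + C) →
      n2 Nb (E.filter fun g => Nb f g ∧ f.card ≤ g.card ∧ g.card < f.card + C)
        ≤ 4 * 10 ^ 9 * D * σ) :
    NN E f f.card + P' + 1 ≤ D + σ := by
  by_contra hcon
  have hDle : D ≤ NN E f f.card + P' := by omega
  have hs2 := H.size f hf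
  have hD1 := H.D_pos
  have hbig := P.big
  have hR1 := P.R1
  have hz2 := P.z2
  have hR : 10 ^ 12 ≤ R := by nlinarith
  have hRM : 10 ^ 12 * R ≤ M := (Nat.mul_le_mul_right R hR).trans hR1
  obtain ⟨s, hs⟩ : ∃ s, s = f.card := ⟨_, rfl⟩
  obtain ⟨A1, hA1⟩ : ∃ A1, A1 = E.filter (fun g => Nb f g ∧ s ≤ g.card) := ⟨_, rfl⟩
  obtain ⟨B1, hB1⟩ : ∃ B1, B1 = E.filter (fun g => Nb f g ∧ b0 ≤ g.card ∧ g.card < s) := ⟨_, rfl⟩
  have hA1m : ∀ g ∈ A1, g ∈ E ∧ Nb f g ∧ s ≤ g.card := fun g hg => by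
    rw [hA1] at hg
    obtain ⟨a, b, c⟩ := mem_filter.1 hg
    exact ⟨a, b, c⟩
  have hB1m : ∀ g ∈ B1, g ∈ E ∧ Nb f g ∧ b0 ≤ g.card ∧ g.card < s := fun g hg => by
    rw [hB1] at hg
    obtain ⟨a, b, c, d⟩ := mem_filter.1 hg
    exact ⟨a, b, c, d⟩
  have hNN : NN E f f.card = A1.card := by
    unfold NN
    rw [hA1, hs]
  have hBB : BB E f b0 f.card = B1.card := by
    unfold BB
    rw [hB1, hs]
  -- sums over the vertices of `f`
  have sF : ∑ w ∈ f, ∑ _g ∈ A1.filter (fun g => w ∈ g), 1 = A1.card := by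
    rw [a1_sum H hf A1 (fun g hg => ⟨(hA1m g hg).1, (hA1m g hg).2.1⟩) (fun _ => 1)]
    simp
  have sB : ∑ w ∈ f, ∑ _g ∈ B1.filter (fun g => w ∈ g), 1 = B1.card := by
    rw [a1_sum H hf B1 (fun g hg => ⟨(hB1m g hg).1, (hB1m g hg).2.1⟩) (fun _ => 1)]
    simp
  have sX : ∑ w ∈ f, ∑ g ∈ A1.filter (fun g => w ∈ g), (g.card - s) = ∑ g ∈ A1, (g.card - s) :=
    a1_sum H hf A1 (fun g hg => ⟨(hA1m g hg).1, (hA1m g hg).2.1⟩) (fun g => g.card - s)
  have hv : ∀ w ∈ f, (s - 1) * (∑ _g ∈ A1.filter (fun g => w ∈ g), 1)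
      + (∑ g ∈ A1.filter (fun g => w ∈ g), (g.card - s))
      + (b0 - 1) * (∑ _g ∈ B1.filter (fun g => w ∈ g), 1) + s ≤ D := by
    intro w hw
    have v1 := a1_vert H hf hw
    have v2 : (s - 1) * (∑ _g ∈ A1.filter (fun g => w ∈ g), 1)
        + (∑ g ∈ A1.filter (fun g => w ∈ g), (g.card - s))
        ≤ ∑ g ∈ A1.filter (fun g => w ∈ g), (g.card - 1) := by
      rw [mul_sum, ← sum_add_distrib]
      refine sum_le_sum fun g hg => ?_
      have := (hA1m g (mem_filter.1 hg).1).2.2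
      omega
    have v3 : (b0 - 1) * (∑ _g ∈ B1.filter (fun g => w ∈ g), 1)
        ≤ ∑ g ∈ B1.filter (fun g => w ∈ g), (g.card - 1) := by
      rw [mul_sum]
      refine sum_le_sum fun g hg => ?_
      have := (hB1m g (mem_filter.1 hg).1).2.2.1
      omega
    have hdis : Disjoint (A1.filter (fun g => w ∈ g)) (B1.filter (fun g => w ∈ g)) := by
      rw [Finset.disjoint_left]
      intro g hg hg'
      have a := (hA1m g (mem_filter.1 hg).1).2.2
      have b := (hB1m g (mem_filter.1 hg').1).2.2.2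
      omega
    have v4 : ∑ g ∈ A1.filter (fun g => w ∈ g), (g.card - 1) + ∑ g ∈ B1.filter (fun g => w ∈ g), (g.card - 1)
        ≤ ∑ g ∈ E.filter (fun g => w ∈ g ∧ g ≠ f), (g.card - 1) := by
      rw [← sum_union hdis]
      refine sum_le_sum_of_subset fun g hg => ?_
      rw [mem_union] at hg
      rcases hg with hg | hg
      · obtain ⟨x1, x2⟩ := mem_filter.1 hg
        obtain ⟨y1, y2, _⟩ := hA1m g x1
        exact mem_filter.2 ⟨y1, x2, Ne.symm y2.1⟩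
      · obtain ⟨x1, x2⟩ := mem_filter.1 hg
        obtain ⟨y1, y2, _⟩ := hB1m g x1
        exact mem_filter.2 ⟨y1, x2, Ne.symm y2.1⟩
    omega
  obtain ⟨ρ, r, Δ, e1, e2, e3, e4, e5, e6, e7⟩ := t1_exact P s (by omega) (by omega) f hs.symm
    (fun w => ∑ _g ∈ A1.filter (fun g => w ∈ g), 1) (fun w => ∑ _g ∈ B1.filter (fun g => w ∈ g), 1)
    (fun w => ∑ g ∈ A1.filter (fun g => w ∈ g), (g.card - s)) hv P'
    (by rw [sB, ← hBB]; exact hP1) (by rw [sB, ← hBB]; exact hP2) (by rw [sF, ← hNN]; exact hDle)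
  rw [sF] at e1
  rw [sX] at e7
  -- the class `A`
  obtain ⟨A, hA⟩ : ∃ A, A = E.filter (fun g => Nb f g ∧ f.card ≤ g.card ∧ g.card < f.card + C) := ⟨_, rfl⟩
  rw [← hA] at hσ
  have hAA : A = A1.filter (fun g => g.card < s + C) := by
    rw [hA, hA1, filter_filter]
    refine filter_congr fun g _ => ?_
    rw [hs, and_assoc]
  have hnh : A.card + (A1.filter (fun g => ¬ g.card < s + C)).card = A1.card := by
    rw [hAA]
    exact card_filter_add_card_filter_not _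
  have hCh : C * (A1.filter (fun g => ¬ g.card < s + C)).card ≤ ∑ g ∈ A1, (g.card - s) := by
    calc C * (A1.filter (fun g => ¬ g.card < s + C)).card
        = ∑ _g ∈ A1.filter (fun g => ¬ g.card < s + C), C := by
          rw [sum_const, smul_eq_mul, mul_comm]
      _ ≤ ∑ g ∈ A1.filter (fun g => ¬ g.card < s + C), (g.card - s) := by
          refine sum_le_sum fun g hg => ?_
          have := (mem_filter.1 hg).2
          omega
      _ ≤ ∑ g ∈ A1, (g.card - s) := sum_le_sum_of_subset (filter_subset _ _)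
  have hvol : ∑ g ∈ A, (g.card - 1) ≤ (s - 1) * A.card + ∑ g ∈ A1, (g.card - s) := by
    calc ∑ g ∈ A, (g.card - 1) ≤ ∑ g ∈ A, ((s - 1) + (g.card - s)) := by
          refine sum_le_sum fun g _ => ?_
          omega
      _ = (s - 1) * A.card + ∑ g ∈ A, (g.card - s) := by
          rw [sum_add_distrib, sum_const, smul_eq_mul, mul_comm]
      _ ≤ (s - 1) * A.card + ∑ g ∈ A1, (g.card - s) := by
          have : ∑ g ∈ A, (g.card - s) ≤ ∑ g ∈ A1, (g.card - s) := by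
            rw [hAA]
            exact sum_le_sum_of_subset (filter_subset _ _)
          omega
  have hAE : ∀ g ∈ A, g ∈ E ∧ Nb f g := fun g hg => by
    rw [hA] at hg
    obtain ⟨a, b, _⟩ := mem_filter.1 hg
    exact ⟨a, b⟩
  have hrs : r < s - 1 := by omega
  have ha : ∀ w ∈ f, (A.filter fun g => w ∈ g).card ≤ s + r + ρ := by
    intro w hw
    have a1 := hv w hw
    have a2 : (A.filter fun g => w ∈ g).card ≤ ∑ _g ∈ A1.filter (fun g => w ∈ g), 1 := by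
      rw [← card_eq_sum_ones]
      refine card_le_card fun g hg => ?_
      obtain ⟨x1, x2⟩ := mem_filter.1 hg
      rw [hAA] at x1
      exact mem_filter.2 ⟨(mem_filter.1 x1).1, x2⟩
    obtain ⟨Fw, hFw⟩ : ∃ Fw, Fw = ∑ _g ∈ A1.filter (fun g => w ∈ g), 1 := ⟨_, rfl⟩
    rw [← hFw] at a1 a2
    have a3 : (s - 1) * (Fw + 1) < (s - 1) * (s + 2 + r + ρ) := by
      have a4 : (s - 1) * (Fw + 1) = (s - 1) * Fw + (s - 1) := by ring
      have a5 : (s - 1) * (s + 2 + r + ρ) = (s - 1) * (s + 1 + r + ρ) + (s - 1) := by ring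
      rw [a4, a5]
      omega
    have a6 := Nat.lt_of_mul_lt_mul_left a3
    omega
  have hp := a2_pairs H hf A hAE (s + r + ρ) ha
  rw [← hs] at hp
  have hT2 := t2_pairs P s (by omega) (by omega) ρ r Δ A1.card A.card _ _ (n2 Nb A) _ e1 e3 e4 e5 e6 e7 hnh hCh
    hvol hp
  have hM12 : 10 ^ 12 * (l + G + 1) ≤ M := by nlinarith
  have hMl : 2 * 10 ^ 10 * l ≤ M := by omega
  have hDM : D * M ≤ 2 * n2 Nb A := by
    have : D * M * 1 ≤ D * M * (ρ + 1) := Nat.mul_le_mul_left _ (by omega)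
    omega
  have hσ' := hσ (by
    have : D * (2 * 10 ^ 10 * l) ≤ D * M := Nat.mul_le_mul_left _ hMl
    nlinarith)
  have hfin : D * (M * (ρ + 1)) ≤ D * (8 * 10 ^ 9 * σ) := by nlinarith
  have hfin2 := Nat.le_of_mul_le_mul_left hfin hD1
  have hM9 : 8 * 10 ^ 9 ≤ M := by omega
  have hfin3 : 8 * 10 ^ 9 * (ρ + 1) ≤ 8 * 10 ^ 9 * σ := (Nat.mul_le_mul_right _ hM9).trans hfin2
  rw [hNN] at hcon
  omega

end Pool.Agent.Lib.BFE
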