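import Pool.Agent.Lib.BFE.Defs
import Pool.Agent.Lib.BFE.S2
import Pool.Agent.Lib.BFE.S3
import Pool.Agent.Lib.BFE.T3
import Pool.Agent.Lib.BFE.B3
import Pool.Agent.Lib.BFE.A4
import Pool.Agent.Lib.BFE.A5

set_option autoImplicit false
set_option linter.unusedSectionVars false

open Finset
open scoped Classical

namespace Pool.Agent.Lib.BFE

variable {V : Type} [DecidableEq V]

theorem s4_num {D M R l C G b0 K0 : ℕ} (P : Par D M R l C G b0 K0) :
    10 ^ 12 ≤ R ∧ l + G + 1 ≤ R ∧ 10 ^ 12 * R ≤ M ∧ 1000 ≤ C ∧ G = 20 * C + 40 ∧ b0 ≤ M ∧ M ≤ b0 + R ∧ 2 * M + 1 ≤ D := by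
  have h1 := P.big
  have h2 : 10 ^ 12 ≤ R := by
    have : 10 ^ 12 * 1 ≤ 10 ^ 12 * (l + G + 1) := Nat.mul_le_mul_left _ (by omega)
    omega
  have h3 : 10 ^ 12 * R ≤ M := (Nat.mul_le_mul_right R h2).trans P.R1
  have h4 := P.M1
  have h5 : 2 * M ≤ M * M := Nat.mul_le_mul_right M (by omega)
  have h6 := P.z1
  have h7 := P.z2
  have h8 := P.C1
  have h9 := P.G1
  refine ⟨h2, by omega, h3, h8, h9, by omega, h7, by omega⟩

/-- Chunk S4 (M): the state at `b0`.

**Proof.** `χ0` from `s3_huge`; `Pp = {g ∈ E : b0 ≤ |g| ≤ 2 M}`, `a = b0`, `b = 2 M + 1` (`≤ 4 b0 + 3`, as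
`b0 ≥ M - R`; `2 M + 1 ≤ D`), lists: `s3_list`; `s2_random` with `Cc = C` gives `χ1`. Then `a4_greedy` with
`T = {f ∈ E : χ1 f = none, b0 + G ≤ |f|}`, key `= card`. Let `f ∈ T`, `s = |f| < 4000 M`. Put
`P' = #{g ∈ Pp : Nb f g, χ1 g ≠ none, |g| < s}` (all coloured neighbours of `f` with fewer than `s` vertices are of
this kind, since `χ0` colours only sizes `≥ 4000 M > s`); `P' ≤ BB E f b0 s`, `5000 P' ≤ BB E f b0 s + 5000 l`.
The two families in `a4_greedy` have together at most `NN E f s + P'` members (a coloured one is not in `T`).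
If `s ≥ M + l + 2`: `b3_top` gives `5000 (NN + P') ≤ 5000 (D - 1)`. Otherwise `t3_exact` with
`σ = sav χ1 {g ∈ E : Nb f g, χ1 g ≠ none}`: the family in `hσ` is
`Pp.filter (Nb f g ∧ s ≤ |g| ∧ |g| < s + C)` (`s + C ≤ 2 M`, `s ≥ b0`), and its savings are at most `σ`
(`a3_mono`). Result `χ`. `State … b0 b0 χ`: for `|g| ≥ b0` the key is `|g|` (`a5_lazy_lt`), for `|g| < b0` it is
`< b0`. `s1`: `b0 + G ≤ key f` means `b0 + G ≤ |f|`; such `f` is huge, coloured by `χ1`, or in `T`. `s2`: `f`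
coloured with `key f < b0 + G` is coloured by `χ1` and not huge (`4000 M ≥ b0 + G`), so in `Pp`: `b0 ≤ |f|`, and
not lazy. `s3`: the coloured `g` with `key g < u ≤ b0 + G` are in `Pp`, coloured by `χ1`, `|g| = key g < u`: the
fourth claim of `s2_random` (`{g ∈ Pp : Nb f g, |g| < u} ⊆` the family of `BB E f b0 u`). `s4`: vacuous
(`b < b0` is false). -/
theorem s4_start {E : Finset (Finset V)} {D M R l C G b0 K0 : ℕ} (H : Hyp E D)
    (P : Par D M R l C G b0 K0) :
    ∃ χ : Finset V → Option (Fin D), State E D l C G b0 b0 χ := by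
  obtain ⟨n1, n2', n3, n4, n5, n6, n7, n8⟩ := s4_num P
  obtain ⟨χ0, hp0, h0⟩ := s3_huge H P
  have hM0 : 0 < M := by omega
  -- the participants
  obtain ⟨Pp, hPp⟩ : ∃ Pp : Finset (Finset V), ∀ g, g ∈ Pp ↔ g ∈ E ∧ b0 ≤ g.card ∧ g.card ≤ 2 * M :=
    ⟨E.filter fun g => b0 ≤ g.card ∧ g.card ≤ 2 * M, fun g => mem_filter⟩
  obtain ⟨χ1, hp1, hext1, hdom1, h4, h5⟩ := s2_random H (by omega) l C P.ell χ0 hp0 (fun g hg => ((h0 g).1 hg).1) Pp
    (fun g hg => ((hPp g).1 hg).1) (fun g hg => by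
      by_contra hc
      have h1 := ((h0 g).1 hc).2
      have h2 := ((hPp g).1 hg).2.2
      omega) b0 (2 * M + 1) (by omega) (by omega) n8 (fun g hg => by
      have h2 := (hPp g).1 hg
      exact ⟨h2.2.1, by omega⟩) (fun g hg => by
      have h2 := (hPp g).1 hg
      refine le_trans (Nat.mul_le_mul_left 5 (card_le_card ?_)) (s3_list H P h2.1 h2.2.2)
      intro x hx
      obtain ⟨hx1, hx2, hx3⟩ := mem_filter.1 hx
      exact mem_filter.2 ⟨hx1, hx2, ((h0 x).1 hx3).2⟩)
  have hdom1' : ∀ g, χ1 g ≠ none → (g ∈ E ∧ b0 ≤ g.card) ∧ (g.card < 4000 * M → g ∈ Pp) := by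
    intro g hg
    rcases hdom1 g hg with h | h
    · have h1 := (h0 g).1 h
      exact ⟨⟨h1.1, by omega⟩, fun h2 => by omega⟩
    · have h1 := (hPp g).1 h
      exact ⟨⟨h1.1, h1.2.1⟩, fun _ => h⟩
  obtain ⟨T, hT⟩ : ∃ T : Finset (Finset V), ∀ f, f ∈ T ↔ f ∈ E ∧ χ1 f = none ∧ b0 + G ≤ f.card :=
    ⟨E.filter fun f => χ1 f = none ∧ b0 + G ≤ f.card, fun g => mem_filter⟩
  have hsmall : ∀ f ∈ T, f.card < 4000 * M := by
    intro f hf
    obtain ⟨h1, h2, -⟩ := (hT f).1 hf
    by_contra hc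
    have h3 : χ0 f ≠ none := (h0 f).2 ⟨h1, by omega⟩
    rw [hext1 f h3] at h2
    exact h3 h2
  have hBB : ∀ f u, (Pp.filter fun g => Nb f g ∧ g.card < u).card ≤ BB E f b0 u := by
    intro f u
    refine card_le_card fun g hg => ?_
    obtain ⟨h1, h2, h3⟩ := mem_filter.1 hg
    have h6 := (hPp g).1 h1
    exact mem_filter.2 ⟨h6.1, h2, h6.2.1, h3⟩
  obtain ⟨χ, hp, hext, hdom⟩ := a4_greedy (Nb : Finset V → Finset V → Prop) (fun i j h => ⟨h.1.symm, fun h2 => h.2 h2.symm⟩)
    (fun i h => h.1 rfl) D E χ1 hp1 (fun g hg => (hdom1' g hg).1.1) Finset.card T (fun f hf => ((hT f).1 hf).1)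
    (fun f hf => ((hT f).1 hf).2.1) (by
      intro f hf
      obtain ⟨f1, f2, f3⟩ := (hT f).1 hf
      have f4 := hsmall f hf
      obtain ⟨P', hP'⟩ : ∃ P', P' = (Pp.filter fun g => Nb f g ∧ χ1 g ≠ none ∧ g.card < f.card).card := ⟨_, rfl⟩
      have c1 : (E.filter fun j => Nb f j ∧ χ1 j ≠ none).card + (T.filter fun j => Nb f j ∧ f.card ≤ j.card).card ≤
          NN E f f.card + P' := by
        rw [hP']
        unfold NN
        have hdis : Disjoint (E.filter fun j => Nb f j ∧ χ1 j ≠ none) (T.filter fun j => Nb f j ∧ f.card ≤ j.card) := by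
          rw [disjoint_left]
          intro g hg hg2
          exact (mem_filter.1 hg).2.2 ((hT g).1 (mem_filter.1 hg2).1).2.1
        rw [← card_union_of_disjoint hdis]
        refine le_trans (card_le_card ?_) (card_union_le _ _)
        intro g hg
        rcases mem_union.1 hg with h | h
        · obtain ⟨g1, g2, g3⟩ := mem_filter.1 h
          by_cases hs : f.card ≤ g.card
          · exact mem_union_left _ (mem_filter.2 ⟨g1, g2, hs⟩)
          · refine mem_union_right _ (mem_filter.2 ⟨(hdom1' g g3).2 (by omega), g2, g3, by omega⟩)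
        · obtain ⟨g1, g2, g3⟩ := mem_filter.1 h
          exact mem_union_left _ (mem_filter.2 ⟨((hT g).1 g1).1, g2, g3⟩)
      have c2 : P' ≤ BB E f b0 f.card := by
        rw [hP']
        refine le_trans (card_le_card ?_) (hBB f f.card)
        intro g hg
        obtain ⟨g1, g2, g3, g4⟩ := mem_filter.1 hg
        exact mem_filter.2 ⟨g1, g2, g4⟩
      have c3 : 5000 * P' ≤ BB E f b0 f.card + 5000 * l := by
        rw [hP']
        exact (h4 f f1 f.card).trans (Nat.add_le_add_right (hBB f f.card) _)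
      by_cases hs : M + l + 2 ≤ f.card
      · have c4 := b3_top H P f1 hs f4.le
        have c5 := H.D_pos
        omega
      · have c4 := t3_exact H P f1 f3 (by omega) P' (sav χ1 (E.filter fun j => Nb f j ∧ χ1 j ≠ none)) c2 c3 (by
          have hEP : (E.filter fun g => Nb f g ∧ f.card ≤ g.card ∧ g.card < f.card + C) =
              Pp.filter fun g => Nb f g ∧ f.card ≤ g.card ∧ g.card < f.card + C := by
            ext g
            rw [mem_filter, mem_filter, hPp]
            constructor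
            · rintro ⟨g1, g2, g3, g4⟩
              exact ⟨⟨g1, by omega, by omega⟩, g2, g3, g4⟩
            · rintro ⟨⟨g1, -⟩, g2, g3, g4⟩
              exact ⟨g1, g2, g3, g4⟩
          rw [hEP]
          intro hn
          refine (h5 f f1 f.card le_rfl hn).trans (Nat.mul_le_mul_left _ (a3_mono χ1 ?_))
          intro g hg hg2
          obtain ⟨g1, g2, g3, g4⟩ := mem_filter.1 hg
          exact mem_filter.2 ⟨((hPp g).1 g1).1, g2, hg2⟩)
        omega)
  have hcol : ∀ g, χ g ≠ none → g ∈ E ∧ b0 ≤ g.card := by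
    intro g hg
    rcases (hdom g).1 hg with h | h
    · exact (hdom1' g h).1
    · have h1 := (hT g).1 h
      exact ⟨h1.1, by omega⟩
  have hnl : ∀ g : Finset V, b0 ≤ g.card → ¬ Lazy E D G b0 g := by
    intro g hg h
    have := a5_lazy_lt h
    omega
  refine ⟨χ, fun f hf => (hcol f hf).1, hp, ?_, ?_, ?_, fun h => absurd h (lt_irrefl _)⟩
  · intro f hf hk
    have h1 := (a5_key_le E D C G b0 f).1
    rw [hdom]
    by_cases hc : χ1 f = none
    · exact Or.inr ((hT f).2 ⟨hf, hc, by omega⟩)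
    · exact Or.inl hc
  · intro f hf _
    exact ⟨(hcol f hf).2, hnl f (hcol f hf).2⟩
  · intro f hf u hu
    refine le_trans ?_ ((h4 f hf u).trans (Nat.add_le_add_right (hBB f u) _))
    refine Nat.mul_le_mul_left _ (card_le_card fun g hg => ?_)
    obtain ⟨g1, g2, g3, g4⟩ := mem_filter.1 hg
    have g5 : key E D C G b0 g = g.card := by
      unfold key
      rw [if_neg (hnl g (hcol g g3).2)]
    rw [g5] at g4
    have g6 : χ1 g ≠ none := by
      rcases (hdom g).1 g3 with h | h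
      · exact h
      · have h1 := ((hT g).1 h).2.2
        omega
    exact mem_filter.2 ⟨(hdom1' g g6).2 (by omega), g2, g6, g4⟩

end Pool.Agent.Lib.BFE
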