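import Pool.Agent.Lib.BFE.Defs
import Pool.Agent.Lib.BFE.MDefs
import Pool.Agent.Lib.BFE.A1
import Pool.Agent.Lib.BFE.A5

set_option autoImplicit false
set_option linter.unusedSectionVars false

open Finset
open scoped Classical

namespace Pool.Agent.Lib.BFE

variable {V : Type} [DecidableEq V]

/-- Chunk S5 (M): the lists of the participants of a window.

**Proof.** A coloured neighbour `h` of `g` has `key h ≥ b + G`, so `|h| ≥ b + G` (`a5_key_le`): at most
`NN E g (b + G) ≤ D / 20` many (`a5_not_lazy`); or `key h < b + G`: by `State.s3` with `u = b + G` their number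
`n` satisfies `5000 n ≤ BB E g b (b + G) + 5000 l`, and `(b - 1) BB ≤ |g| D ≤ b D` (`a1_count`, `|g| < b`), so
`BB ≤ 2 D`, `n ≤ D/2500 + l`. Total at most `D/20 + D/2500 + l ≤ D/5` (`l ≤ D / 1000`: `Par.big`, `M1`). -/
theorem s5_list {E : Finset (Finset V)} {D M R l C G b0 K0 : ℕ} (H : Hyp E D)
    (P : Par D M R l C G b0 K0) (i : ℕ) (hK : K0 ≤ bs b0 (i + 1)) (χ : Finset V → Option (Fin D))
    (hS : State E D l C G b0 (bs b0 i) χ) {g : Finset V} (hg : g ∈ E) (hl : ¬ Lazy E D G b0 g)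
    (h1 : bs b0 (i + 1) ≤ g.card) (h2 : g.card < bs b0 i) :
    5 * (E.filter fun h => Nb g h ∧ χ h ≠ none).card ≤ D := by
  have hb : bs b0 (i + 1) ≤ bs b0 i := a5_anti b0 i (i + 1) (Nat.le_succ i)
  have hK1 := P.K1
  have hbig := P.big
  have hR1 : 1 ≤ R := by omega
  have hRR : R ≤ R * R := Nat.le_mul_self R
  have hMM : M ≤ M * M := Nat.le_mul_self M
  have hR := P.R1
  have hM := P.M1
  have hl1 : 10 ^ 12 * l ≤ D := by omega
  obtain ⟨b, hbb⟩ : ∃ b, b = bs b0 i := ⟨_, rfl⟩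
  have hnl : 20 * NN E g (b + G) ≤ D := by
    rw [hbb]
    exact a5_not_lazy hl h1 h2
  rw [← hbb] at hS h2 hb
  have hs3 := hS.s3 g hg (b + G) le_rfl
  have hBB : (b - 1) * BB E g b (b + G) ≤ g.card * (D - g.card) := by
    unfold BB
    refine a1_count H hg _ b ?_
    intro h hh
    rw [mem_filter] at hh
    exact ⟨hh.1, hh.2.1, hh.2.2.1⟩
  have hBB2 : BB E g b (b + G) ≤ 2 * D := by
    have h3 : g.card * (D - g.card) ≤ b * D := Nat.mul_le_mul h2.le (Nat.sub_le _ _)
    have h4 : b * D ≤ (b - 1) * (2 * D) := by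
      have h5 : b ≤ 2 * (b - 1) := by omega
      calc b * D ≤ 2 * (b - 1) * D := Nat.mul_le_mul_right _ h5
        _ = (b - 1) * (2 * D) := by ring
    have h6 : (b - 1) * BB E g b (b + G) ≤ (b - 1) * (2 * D) := hBB.trans (h3.trans h4)
    exact Nat.le_of_mul_le_mul_left h6 (by omega)
  have hcard : (E.filter fun h => Nb g h ∧ χ h ≠ none).card ≤ NN E g (b + G) +
      (E.filter fun h => Nb g h ∧ χ h ≠ none ∧ key E D C G b0 h < b + G).card := by
    unfold NN
    refine (card_le_card ?_).trans (card_union_le _ _)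
    intro h hh
    rw [mem_filter] at hh
    rw [mem_union, mem_filter, mem_filter]
    rcases lt_or_ge (key E D C G b0 h) (b + G) with h3 | h3
    · right
      exact ⟨hh.1, hh.2.1, hh.2.2, h3⟩
    · left
      exact ⟨hh.1, hh.2.1, h3.trans (a5_key_le E D C G b0 h).1⟩
  omega

end Pool.Agent.Lib.BFE
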