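import Pool.Agent.Lib.BFE.Defs
import Pool.Agent.Lib.BFE.S2
import Pool.Agent.Lib.BFE.S5
import Pool.Agent.Lib.BFE.A5

set_option autoImplicit false
set_option linter.unusedSectionVars false

open Finset
open scoped Classical

namespace Pool.Agent.Lib.BFE

variable {V : Type} [DecidableEq V]

/-- the participants of the window `[bs (i+1), bs i)` -/
noncomputable def Part (E : Finset (Finset V)) (D G b0 i : ℕ) : Finset (Finset V) :=
  E.filter fun g => ¬ Lazy E D G b0 g ∧ bs b0 (i + 1) ≤ g.card ∧ g.card < bs b0 i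

/-- the colouring after the random step in the window `[bs (i+1), bs i)` -/
structure Mid (E : Finset (Finset V)) (D l C G b0 i : ℕ) (χ χ1 : Finset V → Option (Fin D)) :
    Prop where
  proper : Proper Nb χ1
  ext : ∀ g, χ g ≠ none → χ1 g = χ g
  dom : ∀ g, χ1 g ≠ none → χ g ≠ none ∨ g ∈ Part E D G b0 i
  load : ∀ f ∈ E, ∀ u,
    5000 * ((Part E D G b0 i).filter fun g => Nb f g ∧ χ1 g ≠ none ∧ g.card < u).card
      ≤ ((Part E D G b0 i).filter fun g => Nb f g ∧ g.card < u).card + 5000 * l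
  save : ∀ e ∈ E, ∀ s, e.card ≤ s →
    10 ^ 10 * l * D ≤ n2 Nb ((Part E D G b0 i).filter fun g => Nb e g ∧ s ≤ g.card ∧
      g.card < s + C) →
    n2 Nb ((Part E D G b0 i).filter fun g => Nb e g ∧ s ≤ g.card ∧ g.card < s + C)
      ≤ 4 * 10 ^ 9 * D *
      sav χ1 ((Part E D G b0 i).filter fun g => Nb e g ∧ s ≤ g.card ∧ g.card < s + C)

/-- Chunk S6 (S/M): the random step in a window.

**Proof.** `s2_random` with `Pp = Part`, `a = bs (i+1) ≥ K0 ≥ 100`, `b = bs i ≤ 4 a + 3` (`a5_div`),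
`b ≤ b0 ≤ M ≤ D`; the participants are uncoloured: a coloured `g` has `key g ≥ b + G`, so `|g| ≥ b`, or
`b ≤ |g|` by `State.s2`. Lists: `s5_list`. -/
theorem s6_mid {E : Finset (Finset V)} {D M R l C G b0 K0 : ℕ} (H : Hyp E D)
    (P : Par D M R l C G b0 K0) (i : ℕ) (hK : K0 ≤ bs b0 (i + 1)) (χ : Finset V → Option (Fin D))
    (hS : State E D l C G b0 (bs b0 i) χ) :
    ∃ χ1, Mid E D l C G b0 i χ χ1 := by
  have hM1 : 1 ≤ M := by
    have h1 := P.R1
    have h2 := P.big
    have h3 : 1 ≤ R := by nlinarith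
    nlinarith
  have hMD : M + 1 ≤ D := by
    have h1 := P.M1
    have h2 := H.D_pos
    have h3 : M ≤ M * M := by nlinarith
    omega
  have hRM : R ≤ M := by
    have h1 := P.R1
    have h2 := P.big
    have h3 : 1 ≤ R := by nlinarith
    nlinarith
  have hR : 10 ^ 12 ≤ R := by
    have h2 := P.big
    nlinarith [Nat.zero_le l, Nat.zero_le G]
  have hb : bs b0 i ≤ b0 := a5_anti b0 0 i (Nat.zero_le i)
  have hz := P.z1
  have hK1 := P.K1
  obtain ⟨χ1, h1, h2, h3, h4, h5⟩ := s2_random H (by omega) l C P.ell χ hS.proper hS.dom (Part E D G b0 i)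
    (filter_subset _ _) (by
      intro g hg
      obtain ⟨hgE, hg1, hg2, hg3⟩ := mem_filter.1 hg
      by_contra hne
      rcases Nat.lt_or_ge (key E D C G b0 g) (bs b0 i + G) with hlt | hge
      · have := (hS.s2 g hne hlt).1
        omega
      · have := (a5_key_le E D C G b0 g).1
        omega) (bs b0 (i + 1)) (bs b0 i) (by omega) (a5_div b0 i).2 (by omega)
    (fun g hg => ⟨(mem_filter.1 hg).2.2.1, (mem_filter.1 hg).2.2.2⟩)
    (fun g hg => s5_list H P i hK χ hS (mem_filter.1 hg).1 (mem_filter.1 hg).2.1 (mem_filter.1 hg).2.2.1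
      (mem_filter.1 hg).2.2.2)
  exact ⟨χ1, h1, h2, h3, h4, h5⟩

end Pool.Agent.Lib.BFE
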