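import Pool.Agent.Lib.BFE.Defs
import Pool.Agent.Lib.BFE.S6
import Pool.Agent.Lib.BFE.A3
import Pool.Agent.Lib.BFE.A5

set_option autoImplicit false
set_option linter.unusedSectionVars false

open Finset
open scoped Classical

namespace Pool.Agent.Lib.BFE

variable {V : Type} [DecidableEq V]

/-- Chunk S7 (M): the precoloured neighbours with smaller key.

**Proof.** Let `a = bs (i+1)`, `b = bs i`, `u ≤ b + G`. A neighbour `g` with `χ1 g ≠ none`, `key g < u` is coloured
by `χ` (number `n₁`, `5000 n₁ ≤ BB E f b u + 5000 l` by `State.s3`) or a participant, not lazy, `|g| = key g < u`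
(number `n₂`, `5000 n₂ ≤ #{g ∈ Part : Nb f g, |g| < u} + 5000 l`, and this family has sizes in `[a, min u b)`).
The two families of sizes `[b, u)` and `[a, min u b)` are disjoint and contained in the family of `BB E f a u`. -/
theorem s7_pre {E : Finset (Finset V)} {D M R l C G b0 K0 : ℕ} (H : Hyp E D)
    (P : Par D M R l C G b0 K0) (i : ℕ) (hK : K0 ≤ bs b0 (i + 1))
    (χ χ1 : Finset V → Option (Fin D)) (hS : State E D l C G b0 (bs b0 i) χ)
    (hM : Mid E D l C G b0 i χ χ1) {f : Finset V} (hf : f ∈ E) (u : ℕ) (hu : u ≤ bs b0 i + G) :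
    5000 * (E.filter fun g => Nb f g ∧ χ1 g ≠ none ∧ key E D C G b0 g < u).card
      ≤ BB E f (bs b0 (i + 1)) u + 10000 * l := by
  classical
  have hab : bs b0 (i + 1) ≤ bs b0 i := a5_anti b0 i (i + 1) (Nat.le_succ i)
  have h1 := hS.s3 f hf u hu
  have h2 := hM.load f hf u
  have hsub : (E.filter fun g => Nb f g ∧ χ1 g ≠ none ∧ key E D C G b0 g < u) ⊆
      (E.filter fun g => Nb f g ∧ χ g ≠ none ∧ key E D C G b0 g < u) ∪
        ((Part E D G b0 i).filter fun g => Nb f g ∧ χ1 g ≠ none ∧ g.card < u) := by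
    intro g hg
    rw [mem_filter] at hg
    obtain ⟨hgE, hN, hc, hk⟩ := hg
    rw [mem_union, mem_filter, mem_filter]
    rcases hM.dom g hc with h | h
    · exact Or.inl ⟨hgE, hN, h, hk⟩
    · refine Or.inr ⟨h, hN, hc, ?_⟩
      have hl : ¬ Lazy E D G b0 g := by
        unfold Part at h
        rw [mem_filter] at h
        exact h.2.1
      unfold key at hk
      rw [if_neg hl] at hk
      exact hk
  have h3 := (card_le_card hsub).trans (card_union_le _ _)
  have hdisj : Disjoint (E.filter fun g => Nb f g ∧ bs b0 i ≤ g.card ∧ g.card < u)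
      ((Part E D G b0 i).filter fun g => Nb f g ∧ g.card < u) := by
    rw [disjoint_left]
    intro g hg hg'
    rw [mem_filter] at hg hg'
    have h := hg'.1
    unfold Part at h
    rw [mem_filter] at h
    have h4 := h.2.2.2
    have h5 := hg.2.2.1
    omega
  have h6 : ((E.filter fun g => Nb f g ∧ bs b0 i ≤ g.card ∧ g.card < u) ∪
      ((Part E D G b0 i).filter fun g => Nb f g ∧ g.card < u)) ⊆
      E.filter fun g => Nb f g ∧ bs b0 (i + 1) ≤ g.card ∧ g.card < u := by
    intro g hg
    rw [mem_union, mem_filter, mem_filter] at hg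
    rw [mem_filter]
    rcases hg with ⟨hgE, hN, hb, hu'⟩ | ⟨h, hN, hu'⟩
    · exact ⟨hgE, hN, hab.trans hb, hu'⟩
    · unfold Part at h
      rw [mem_filter] at h
      exact ⟨h.1, hN, h.2.2.1, hu'⟩
  have h7 := card_le_card h6
  rw [card_union_of_disjoint hdisj] at h7
  have h8 : BB E f (bs b0 i) u + ((Part E D G b0 i).filter fun g => Nb f g ∧ g.card < u).card
      ≤ BB E f (bs b0 (i + 1)) u := h7
  omega

end Pool.Agent.Lib.BFE
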