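import Pool.Agent.Lib.BFE.Defs
import Pool.Agent.Lib.BFE.MDefs

set_option autoImplicit false
set_option linter.unusedSectionVars false

open Finset
open scoped Classical

namespace Pool.Agent.Lib.BFE

/-- the arithmetic over the reals. -/
lemma w1_real (D M R l s a F X β P' Y : ℝ) (hl : 0 ≤ l) (hs0 : 10 ^ 11 ≤ s) (hF : 0 ≤ F) (hX : 0 ≤ X)
    (hβ : 0 ≤ β) (hR12 : 10 ^ 12 ≤ R) (hlR : 10 ^ 12 * l ≤ R) (hRM : R * R ≤ M)
    (hD1 : M * M + 1 ≤ D) (hsM : s ≤ M - R / 3) (hY : D = s * s + Y) (ha : 10 ^ 11 ≤ a) (h5 : s ≤ 5 * a)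
    (hvol : (s - 1) * F + X + (a - 1) * β ≤ s * (D - s)) (hP : 5000 * P' ≤ β + 10000 * l) (hD : D ≤ F + P') :
    R * M ≤ 2 * Y ∧ 100 * X ≤ 101 * Y ∧ 10 ^ 12 * D ≤ 10 ^ 12 * F + Y ∧
      10 ^ 11 * (F + P') ≤ 10 ^ 11 * D + 2 * Y := by
  have hR0 : 0 < R := lt_of_lt_of_le (by norm_num) hR12
  have hRM' : R ≤ M := by nlinarith
  have hM0 : 0 < M := lt_of_lt_of_le hR0 hRM'
  have hMR12 : 10 ^ 12 ≤ M := hR12.trans hRM'
  have hRMpos : 0 < R * M := mul_pos hR0 hM0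
  have hRR : R * R ≤ R * M := mul_le_mul_of_nonneg_left hRM' hR0.le
  have hss : s * s ≤ (M - R / 3) * (M - R / 3) :=
    mul_le_mul hsM hsM (by linarith) (by linarith)
  have hY2 : R * M ≤ 2 * Y := by nlinarith
  have hY0 : 0 < Y := by linarith
  have hlM : 10 ^ 12 * (l * M) ≤ 2 * Y := by
    have h1 : 10 ^ 12 * l * M ≤ R * M := mul_le_mul_of_nonneg_right hlR hM0.le
    linarith
  have hl1 : 10 ^ 12 * l ≤ 2 * Y := by
    have h1 : l ≤ l * M := by nlinarith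
    linarith
  have hl2 : 10 ^ 12 * (10 ^ 12 * l) ≤ 2 * Y := by
    have h1 : l * 10 ^ 12 ≤ l * M := mul_le_mul_of_nonneg_left hMR12 hl
    linarith
  have hls : 10 ^ 12 * (l * s) ≤ 2 * Y := by
    have h1 : l * s ≤ l * M := mul_le_mul_of_nonneg_left (by linarith) hl
    linarith
  -- the main inequality
  have h1 : (s - 1) * (D - P') ≤ (s - 1) * F := mul_le_mul_of_nonneg_left (by linarith) (by linarith)
  have h2 : X + (a - 1) * β ≤ Y + (s - 1) * P' := by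
    have e1 : s * (D - s) = (s - 1) * D + Y := by rw [hY]; ring
    have e2 : (s - 1) * (D - P') = (s - 1) * D - (s - 1) * P' := by ring
    linarith
  have h3 : (s - 1) * (5000 * P') ≤ (s - 1) * (β + 10000 * l) := mul_le_mul_of_nonneg_left hP (by linarith)
  have h4 : (s - 1) * (β + 10000 * l) ≤ 5 * a * β + 10000 * (l * s) := by
    have h5' : (s - 1) * β ≤ 5 * a * β := mul_le_mul_of_nonneg_right (by linarith) hβ
    have h6 : (s - 1) * (10000 * l) ≤ 10000 * (l * s) := by nlinarith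
    linarith
  have h7 : (s - 1) * P' ≤ a * β / 1000 + 2 * (l * s) := by linarith
  have haβ : 99 / 100 * ((a - 1) * β) ≤ (a - 1) * β - a * β / 1000 := by
    have : 0 ≤ (a / 100 - 1 / 100 - a / 1000) * β := mul_nonneg (by linarith) hβ
    linarith
  have h8 : X + 99 / 100 * ((a - 1) * β) ≤ (1 + 4 / 10 ^ 12) * Y := by linarith
  have haβ0 : 0 ≤ (a - 1) * β := mul_nonneg (by linarith) hβ
  have h9 : β * (99 / 100 * 10 ^ 11) ≤ (1 + 1 / 100) * Y := by
    have h10 : (10 ^ 11 - 1) * β ≤ (a - 1) * β := mul_le_mul_of_nonneg_right (by linarith) hβ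
    have h11 : β ≤ Y := by
      have : 1 * β ≤ 99 / 100 * ((10 ^ 11 - 1) * β) := by
        have : 0 ≤ (99 / 100 * (10 ^ 11 - 1) - 1) * β := mul_nonneg (by norm_num) hβ
        linarith
      have h12 : 99 / 100 * ((10 ^ 11 - 1) * β) ≤ 99 / 100 * ((a - 1) * β) := by linarith
      by_contra hcon
      push Not at hcon
      have h13 : 2 * β ≤ 99 / 100 * ((10 ^ 11 - 1) * β) := by
        have : 0 ≤ (99 / 100 * (10 ^ 11 - 1) - 2) * β := mul_nonneg (by norm_num) hβ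
        linarith
      linarith
    have h14 : β ≤ 10 ^ 9 * 0 + Y := by linarith
    -- sharper
    have h15 : 99 / 100 * ((10 ^ 11 - 1) * β) ≤ (1 + 4 / 10 ^ 12) * Y := by linarith
    have h16 : (99 / 100 * (10 ^ 11 - 1)) * β ≤ (1 + 4 / 10 ^ 12) * Y := by linarith
    have h17 : β ≤ 1 / 1000 * Y := by
      have : 2000 * β ≤ (99 / 100 * (10 ^ 11 - 1)) * β := mul_le_mul_of_nonneg_right (by norm_num) hβ
      linarith
    linarith
  have hP2 : 10 ^ 12 * P' ≤ Y := by linarith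
  refine ⟨hY2, ?_, ?_, ?_⟩
  · linarith
  · linarith
  · have h20 : (s - 1) * F ≤ (s - 1) * D + Y := by
      have e1 : s * (D - s) = (s - 1) * D + Y := by rw [hY]; ring
      linarith
    have h21 : (s - 1) * (F - D) ≤ Y := by linarith
    have h22 : 10 ^ 11 * (F - D) ≤ (1 + 1 / 100) * Y := by
      by_cases h23 : F - D ≤ 0
      · nlinarith
      · push Not at h23
        have h24 : (10 ^ 11 - 1) * (F - D) ≤ (s - 1) * (F - D) :=
          mul_le_mul_of_nonneg_right (by linarith) h23.le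
        have h25 : (10 ^ 11 : ℝ) * (F - D) ≤ (1 + 1 / 100) * ((10 ^ 11 - 1) * (F - D)) := by
          have : 0 ≤ ((1 + 1 / 100) * (10 ^ 11 - 1) - 10 ^ 11 : ℝ) * (F - D) := mul_nonneg (by norm_num) h23.le
          linarith
        linarith
    linarith

/-- Chunk W1 (M, arithmetic): an edge of a window without slack.

**Proof.** Work with real numbers (`D - s²` etc.). `Y = D - s²`; `s < b0 - C ≤ M - R/3`, so
`Y ≥ M² - (M - R/3)² ≥ R M / 2` (first two claims). From `hvol`: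
`X + (a - 1) β ≤ s (D - s) - (s - 1) F = Y + (s - 1) (D - F)` and `D - F ≤ P' ≤ β / 5000 + 2 l`. As
`s - 1 ≤ 5 a` and `5 a / 5000 ≤ (a - 1)/100`: `X + 0.99 (a - 1) β ≤ Y + 2 l s ≤ 1.005 Y` (`2 l s ≤ 2 l M ≤ 0.005 R M/2`,
`Par.big`). So `X ≤ 1.01 Y`, `β ≤ 1.02 Y / (a - 1) ≤ 1.1 * 10^(-11) Y` (`a ≥ 10^11`),
`D - F ≤ P' ≤ β/5000 + 2 l ≤ 10^(-12) Y` (`2 l ≤ 10^(-13) R M`), and
`(s - 1) F ≤ s (D - s) = (s - 1) D + Y`, so `F ≤ D + Y/(s - 1) ≤ D + 1.1 * 10^(-11) Y`, and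
`F + P' ≤ D + 2 * 10^(-11) Y`. -/
theorem w1_num {D M R l C G b0 K0 : ℕ} (P : Par D M R l C G b0 K0) (s a F X β P' : ℕ)
    (hs : s + C < b0) (ha : K0 ≤ a) (h5 : s ≤ 5 * a) (has : a ≤ s)
    (hvol : (s - 1) * F + X + (a - 1) * β ≤ s * (D - s)) (hP : 5000 * P' ≤ β + 10000 * l)
    (hD : D ≤ F + P') :
    s * s ≤ D ∧ R * M ≤ 2 * (D - s * s) ∧ 100 * X ≤ 101 * (D - s * s) ∧
      10 ^ 12 * D ≤ 10 ^ 12 * F + (D - s * s) ∧
      10 ^ 11 * (F + P') ≤ 10 ^ 11 * D + 2 * (D - s * s) := by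
  have hb := P.big
  have hK1 := P.K1
  have hz1 := P.z1
  have hC1 := P.C1
  have hM1 := P.M1
  have hR1 := P.R1
  have hR12 : 10 ^ 12 ≤ R := by
    refine le_trans ?_ hb
    exact Nat.le_mul_of_pos_right _ (by omega)
  have hlR : 10 ^ 12 * l ≤ R := by
    refine le_trans ?_ hb
    exact Nat.mul_le_mul_left _ (by omega)
  have hR0 : 1 ≤ R := le_trans (by norm_num) hR12
  have hRM : R ≤ M := by
    refine le_trans ?_ hR1
    exact Nat.le_mul_of_pos_right _ hR0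
  have hM0 : 1 ≤ M := hR0.trans hRM
  have hMM : 1 ≤ M * M := Nat.mul_pos hM0 hM0
  have hD1 : M * M + 1 ≤ D := by omega
  have h3s : 3 * s + R ≤ 3 * M := by omega
  have hsM : s ≤ M := by omega
  have hssM : s * s ≤ M * M := Nat.mul_le_mul hsM hsM
  have hss : s * s ≤ D := by omega
  have hs11 : 10 ^ 11 ≤ s := (hK1.trans ha).trans has
  have ha11 : 10 ^ 11 ≤ a := hK1.trans ha
  have hs1 : 1 ≤ s := le_trans (by norm_num) hs11
  have ha1 : 1 ≤ a := le_trans (by norm_num) ha11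
  have hsD : s ≤ D := by
    refine le_trans ?_ hss
    exact Nat.le_mul_of_pos_right _ hs1
  obtain ⟨Y, hY⟩ : ∃ Y, D = s * s + Y := ⟨D - s * s, by omega⟩
  have hDY : D - s * s = Y := by omega
  rw [hDY]
  have hvol' : ((s : ℝ) - 1) * F + X + ((a : ℝ) - 1) * β ≤ s * ((D : ℝ) - s) := by
    have h1 : (((s - 1) * F + X + (a - 1) * β : ℕ) : ℝ) ≤ ((s * (D - s) : ℕ) : ℝ) := by exact_mod_cast hvol
    push_cast [Nat.cast_sub hs1, Nat.cast_sub ha1, Nat.cast_sub hsD] at h1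
    exact h1
  have hmain := w1_real D M R l s a F X β P' Y (Nat.cast_nonneg _) (by exact_mod_cast hs11) (Nat.cast_nonneg _)
    (Nat.cast_nonneg _) (Nat.cast_nonneg _) (by exact_mod_cast hR12) (by exact_mod_cast hlR) (by exact_mod_cast hR1)
    (by exact_mod_cast hD1) (by
      have h1 : (3 : ℝ) * s + R ≤ 3 * M := by exact_mod_cast h3s
      linarith) (by exact_mod_cast hY) (by exact_mod_cast ha11) (by exact_mod_cast h5) hvol' (by exact_mod_cast hP)
    (by exact_mod_cast hD)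
  obtain ⟨r1, r2, r3, r4⟩ := hmain
  refine ⟨hss, ?_, ?_, ?_, ?_⟩
  · exact_mod_cast r1
  · exact_mod_cast r2
  · exact_mod_cast r3
  · exact_mod_cast r4

end Pool.Agent.Lib.BFE
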