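import Pool.Agent.Lib.BFE.Defs
import Pool.Agent.Lib.BFE.MDefs

set_option autoImplicit false
set_option linter.unusedSectionVars false

open Finset
open scoped Classical

namespace Pool.Agent.Lib.BFE

/-- Chunk W2 (M, arithmetic): the number of non-adjacent pairs in the first window.

**Proof.** `Y = D - s²` (real numbers). `n = F - h ≥ D - 10^(-12) Y - 0.00101 Y ≥ D - 0.002 Y` (`C h ≤ X ≤ 1.01 Y`).
`n - am - (s - 1)² ≥ 0.99 Y`: if `16 s² ≥ 9 M²` then `(2 s - 1) (s - 1) ≥ D - s ≥ (s - 1) am`, so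
`am ≤ 2 s - 1` and the left side is at least `D - 0.002 Y - s² = 0.998 Y`; if `16 s² < 9 M²` then `Y ≥ 0.43 D`,
`am ≤ D / (s - 1) ≤ 2 * 10^(-11) D ≤ 10^(-10) Y`. With `hp`, `hvol`:
`N2 ≥ n (n - am - (s - 1)²) - (s - 1) X ≥ (0.998 D)(0.99 Y) - 1.01 M Y ≥ 0.97 D Y` (`M ≤ D / 1000`). -/
theorem w2_pairs {D M R l C G b0 K0 : ℕ} (P : Par D M R l C G b0 K0) (s F X n h am vol N2 : ℕ)
    (hs : s + C < b0) (hs2 : K0 ≤ s) (hX : 100 * X ≤ 101 * (D - s * s))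
    (hF : 10 ^ 12 * D ≤ 10 ^ 12 * F + (D - s * s)) (hn : F ≤ n + h) (hh : C * h ≤ X)
    (ham : (s - 1) * am ≤ D - s) (hvol : vol ≤ (s - 1) * n + X)
    (hp : n * n ≤ N2 + am * n + (s - 1) * vol) :
    9 * (D * (D - s * s)) ≤ 10 * N2 := by
  have hM1 := P.M1
  have hM2 := P.M2
  have hR1 := P.R1
  have hK1 := P.K1
  have hK3 := P.K3
  have hz1 := P.z1
  have hC1 := P.C1
  have hRM : 10 ^ 11 * R ≤ M := le_trans (Nat.mul_le_mul_right R (hK1.trans hK3)) hR1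
  have hR11 : 10 ^ 11 ≤ R := hK1.trans hK3
  have hM22 : 10 ^ 22 ≤ M := by
    have : 10 ^ 11 * 10 ^ 11 ≤ 10 ^ 11 * R := Nat.mul_le_mul_left _ hR11
    omega
  have hMpos : 0 < M := by omega
  have hMMD : M * M + 1 ≤ D := by
    have : 0 < M * M := Nat.mul_pos hMpos hMpos
    omega
  have hDM : D ≤ (M + 1) * (M + 1) := by omega
  have hsM : s ≤ M := by omega
  have hss : s * s ≤ M * M := Nat.mul_self_le_mul_self hsM
  have hsD : s * s ≤ D := by omega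
  have hsDl : s ≤ D := by
    have : s ≤ s * s := Nat.le_mul_self s
    omega
  have hs1 : 1 ≤ s := by omega
  -- real numbers
  have eY : ((D - s * s : ℕ) : ℝ) = (D : ℝ) - (s : ℝ) * s := by
    rw [Nat.cast_sub hsD]; push_cast; ring
  have eS : ((s - 1 : ℕ) : ℝ) = (s : ℝ) - 1 := by
    rw [Nat.cast_sub hs1]; push_cast; ring
  have eD : ((D - s : ℕ) : ℝ) = (D : ℝ) - s := by
    rw [Nat.cast_sub hsDl]
  have rX : 100 * (X : ℝ) ≤ 101 * ((D : ℝ) - (s : ℝ) * s) := by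
    rw [← eY]; exact_mod_cast hX
  have rF : 10 ^ 12 * (D : ℝ) ≤ 10 ^ 12 * (F : ℝ) + ((D : ℝ) - (s : ℝ) * s) := by
    rw [← eY]; exact_mod_cast hF
  have rn : (F : ℝ) ≤ n + h := by exact_mod_cast hn
  have rh : (C : ℝ) * h ≤ X := by exact_mod_cast hh
  have rC : (1000 : ℝ) ≤ C := by exact_mod_cast hC1
  have ram : ((s : ℝ) - 1) * am ≤ (D : ℝ) - s := by
    rw [← eS, ← eD]; exact_mod_cast ham
  have rvol : (vol : ℝ) ≤ ((s : ℝ) - 1) * n + X := by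
    rw [← eS]; exact_mod_cast hvol
  have rp : (n : ℝ) * n ≤ N2 + am * n + ((s : ℝ) - 1) * vol := by
    rw [← eS]; exact_mod_cast hp
  have rMM : (M : ℝ) * M ≤ D := by
    have : M * M ≤ D := by omega
    exact_mod_cast this
  have rDM : (D : ℝ) ≤ (M + 1) * (M + 1) := by exact_mod_cast hDM
  have rM : (10 : ℝ) ^ 22 ≤ M := by exact_mod_cast hM22
  have rsM : (s : ℝ) ≤ M := by exact_mod_cast hsM
  have rs : (10 : ℝ) ^ 11 ≤ s := by
    have : 10 ^ 11 ≤ s := hK1.trans hs2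
    exact_mod_cast this
  have hh0 : (0 : ℝ) ≤ h := Nat.cast_nonneg _
  have hn0 : (0 : ℝ) ≤ n := Nat.cast_nonneg _
  have ham0 : (0 : ℝ) ≤ am := Nat.cast_nonneg _
  have hX0 : (0 : ℝ) ≤ X := Nat.cast_nonneg _
  have hM0 : (0 : ℝ) ≤ M := Nat.cast_nonneg _
  have hD0 : (0 : ℝ) ≤ D := Nat.cast_nonneg _
  have hs0 : (0 : ℝ) ≤ s := Nat.cast_nonneg _
  obtain ⟨Y, hYdef⟩ : ∃ Y : ℝ, Y = (D : ℝ) - (s : ℝ) * s := ⟨_, rfl⟩
  rw [← hYdef] at rX rF
  have hY0 : 0 ≤ Y := by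
    have : (s : ℝ) * s ≤ D := by exact_mod_cast hsD
    linarith
  have hYD : Y ≤ D := by
    have := mul_self_nonneg (s : ℝ)
    linarith
  have h1000 : 1000 * (h : ℝ) ≤ X := (mul_le_mul_of_nonneg_right rC hh0).trans rh
  have hnD : (D : ℝ) - 2 / 1000 * Y ≤ n := by linarith
  have hMD : 10 ^ 22 * (M : ℝ) ≤ D := (mul_le_mul_of_nonneg_right rM hM0).trans rMM
  have hkey : 99 / 100 * Y ≤ n - am - ((s : ℝ) - 1) * ((s : ℝ) - 1) := by
    by_cases hc : 9 * ((M : ℝ) * M) ≤ 16 * ((s : ℝ) * s)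
    · have h1 : (D : ℝ) ≤ 2 * ((s : ℝ) * s) - 2 * s + 1 := by
        nlinarith
      have h2 : ((s : ℝ) - 1) * am ≤ ((s : ℝ) - 1) * (2 * s - 1) := by
        have e : ((s : ℝ) - 1) * (2 * s - 1) = 2 * ((s : ℝ) * s) - 3 * s + 1 := by ring
        rw [e]; linarith
      have h3 : (am : ℝ) ≤ 2 * s - 1 := le_of_mul_le_mul_left h2 (by linarith)
      have e : ((s : ℝ) - 1) * ((s : ℝ) - 1) = (s : ℝ) * s - 2 * s + 1 := by ring
      rw [e]; linarith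
    · have hc' : 16 * ((s : ℝ) * s) < 9 * ((M : ℝ) * M) := not_le.mp hc
      have h1 : 43 / 100 * (D : ℝ) ≤ Y := by linarith
      have h2 : (10 : ℝ) ^ 10 * am ≤ D := by
        have h3 : ((10 : ℝ) ^ 11 - 1) * am ≤ ((s : ℝ) - 1) * am :=
          mul_le_mul_of_nonneg_right (by linarith) ham0
        have h4 : (10 : ℝ) ^ 10 * am ≤ ((10 : ℝ) ^ 11 - 1) * am :=
          mul_le_mul_of_nonneg_right (by norm_num) ham0
        linarith
      have e : ((s : ℝ) - 1) * ((s : ℝ) - 1) = (s : ℝ) * s - 2 * s + 1 := by ring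
      rw [e]; linarith
  have hnD' : 998 / 1000 * (D : ℝ) ≤ n := by linarith
  have hprod : (998 / 1000 * (D : ℝ)) * (99 / 100 * Y) ≤
      n * (n - am - ((s : ℝ) - 1) * ((s : ℝ) - 1)) :=
    mul_le_mul hnD' hkey (by positivity) hn0
  have hv : ((s : ℝ) - 1) * vol ≤ ((s : ℝ) - 1) * (((s : ℝ) - 1) * n + X) :=
    mul_le_mul_of_nonneg_left rvol (by linarith)
  have hsX : ((s : ℝ) - 1) * X ≤ (1 / 10000 * D) * (101 / 100 * Y) :=
    mul_le_mul (by linarith) (by linarith) hX0 (by positivity)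
  have hDY : 0 ≤ (D : ℝ) * Y := mul_nonneg hD0 hY0
  have hfin : 9 * ((D : ℝ) * Y) ≤ 10 * N2 := by
    nlinarith
  rw [hYdef, ← eY] at hfin
  exact_mod_cast hfin

end Pool.Agent.Lib.BFE
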