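import Pool.Agent.Lib.BFE.Defs
import Pool.Agent.Lib.BFE.MDefs
import Pool.Agent.Lib.BFE.A1
import Pool.Agent.Lib.BFE.A2
import Pool.Agent.Lib.BFE.A5

set_option autoImplicit false
set_option linter.unusedSectionVars false

open Finset
open scoped Classical

namespace Pool.Agent.Lib.BFE

variable {V : Type} [DecidableEq V]

/-- Chunk W3 (M): the volume inequality for an edge `f` with `key f = |f| = s`: `F` neighbours have key at
least `s`, `X` is their excess, `BB E f a s` the number of neighbours with size in `[a, s)`.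

**Proof.** `key g ≤ |g|`, so the sets `{g : Nb f g, s ≤ key g}` and `{g : Nb f g, a ≤ |g| < s}` are disjoint;
`a1_vol` for their union: the first contributes `∑ (|g| - 1) = (s - 1) F + ∑ (|g| - s)` (for `s ≥ 1`), the second at
least `(a - 1) BB`. -/
theorem w3_vol {E : Finset (Finset V)} {D C G b0 : ℕ} (H : Hyp E D) {f : Finset V} (hf : f ∈ E)
    (a s : ℕ) (hs : f.card = s) :
    (s - 1) * (E.filter fun g => Nb f g ∧ s ≤ key E D C G b0 g).card
      + ∑ g ∈ E.filter (fun g => Nb f g ∧ s ≤ key E D C G b0 g), (g.card - s)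
      + (a - 1) * BB E f a s ≤ s * (D - s) := by
  set A1 : Finset (Finset V) := E.filter (fun g => Nb f g ∧ s ≤ key E D C G b0 g) with hA1
  set A2 : Finset (Finset V) := E.filter (fun g => Nb f g ∧ a ≤ g.card ∧ g.card < s) with hA2
  have hB : BB E f a s = A2.card := rfl
  have hs2 : 2 ≤ s := by
    rw [← hs]
    exact H.size f hf
  have hdisj : Disjoint A1 A2 := by
    rw [Finset.disjoint_left]
    intro g h1 h2
    have h1' := (Finset.mem_filter.1 h1).2.2
    have h2' := (Finset.mem_filter.1 h2).2.2.2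
    have h3 := (a5_key_le E D C G b0 g).1
    omega
  have hvol := a1_vol H hf (A1 ∪ A2) (by
    intro g hg
    rcases Finset.mem_union.1 hg with h | h
    · exact ⟨(Finset.mem_filter.1 h).1, (Finset.mem_filter.1 h).2.1⟩
    · exact ⟨(Finset.mem_filter.1 h).1, (Finset.mem_filter.1 h).2.1⟩)
  rw [Finset.sum_union hdisj, hs] at hvol
  have h1 : (s - 1) * A1.card + ∑ g ∈ A1, (g.card - s) = ∑ g ∈ A1, (g.card - 1) := by
    rw [mul_comm, ← smul_eq_mul, ← Finset.sum_const, ← Finset.sum_add_distrib]
    refine Finset.sum_congr rfl fun g hg => ?_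
    have h2 := (Finset.mem_filter.1 hg).2.2
    have h3 := (a5_key_le E D C G b0 g).1
    omega
  have h2 : (a - 1) * BB E f a s ≤ ∑ g ∈ A2, (g.card - 1) := by
    rw [hB, mul_comm, ← smul_eq_mul, ← Finset.sum_const]
    refine Finset.sum_le_sum fun g hg => ?_
    have h3 := (Finset.mem_filter.1 hg).2.2.1
    omega
  rw [h1]
  exact (Nat.add_le_add_left h2 _).trans hvol

end Pool.Agent.Lib.BFE
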