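import Pool.Agent.Lib.BFE.Defs
import Pool.Agent.Lib.BFE.MDefs
import Pool.Agent.Lib.BFE.A1
import Pool.Agent.Lib.BFE.A2
import Pool.Agent.Lib.BFE.A5

set_option autoImplicit false
set_option linter.unusedSectionVars false

open Finset
open scoped Classical

namespace Pool.Agent.Lib.BFE

variable {V : Type} [DecidableEq V]

/-- Chunk W3B (M): the neighbours with key at least `s` are, up to few, non-lazy with size in
`[s, s + C)`.

**Proof.** Let `Fs = {g : Nb f g, s ≤ key g}`, `X = ∑_{Fs} (|g| - s)`, `A = {g : Nb f g, ¬ Lazy g, s ≤ |g| < s + C}`.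
`A ⊆ Fs` (non-lazy: `key g = |g|`), and `g ∈ Fs \ A` has `|g| ≥ s + C`: if `g` is lazy then
`s ≤ key g = |g| - C` (and `C ≤ |g|` as `s ≥ 1`); so `C * |Fs \ A| ≤ X`; take `h = |Fs \ A|`. Volume of a subset `B`
of `A`: `∑_B (|g| - 1) = (s - 1) |B| + ∑_B (|g| - s) ≤ (s - 1) |B| + X`. At most `am = (D - s)/(s - 1)` members
through a vertex of `f` (`a1_deg`). Pairs: `a2_pairs` for `B`. -/
theorem w3_set {E : Finset (Finset V)} {D C G b0 : ℕ} (H : Hyp E D) {f : Finset V} (hf : f ∈ E)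
    (s : ℕ) (hs : f.card = s) (hs1 : 2 ≤ s) :
    (∃ h, (E.filter fun g => Nb f g ∧ s ≤ key E D C G b0 g).card
        ≤ (E.filter fun g => Nb f g ∧ ¬ Lazy E D G b0 g ∧ s ≤ g.card ∧ g.card < s + C).card + h ∧
      C * h ≤ ∑ g ∈ E.filter (fun g => Nb f g ∧ s ≤ key E D C G b0 g), (g.card - s)) ∧
    (s - 1) * ((D - s) / (s - 1)) ≤ D - s ∧
    ∀ B, B ⊆ (E.filter fun g => Nb f g ∧ ¬ Lazy E D G b0 g ∧ s ≤ g.card ∧ g.card < s + C) →
      (∑ g ∈ B, (g.card - 1) ≤ (s - 1) * B.card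
        + ∑ g ∈ E.filter (fun g => Nb f g ∧ s ≤ key E D C G b0 g), (g.card - s)) ∧
      B.card * B.card ≤ n2 Nb B + (D - s) / (s - 1) * B.card + (s - 1) * ∑ g ∈ B, (g.card - 1) := by
  obtain ⟨Fs, hFs⟩ : ∃ Fs, Fs = E.filter fun g => Nb f g ∧ s ≤ key E D C G b0 g := ⟨_, rfl⟩
  obtain ⟨A, hA⟩ : ∃ A, A = E.filter fun g => Nb f g ∧ ¬ Lazy E D G b0 g ∧ s ≤ g.card ∧ g.card < s + C := ⟨_, rfl⟩
  rw [← hFs, ← hA]
  have hkey : ∀ g, ¬ Lazy E D G b0 g → key E D C G b0 g = g.card := by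
    intro g hg
    unfold key
    rw [if_neg hg]
  have hkey2 : ∀ g, Lazy E D G b0 g → key E D C G b0 g = g.card - C := by
    intro g hg
    unfold key
    rw [if_pos hg]
  have hAF : A ⊆ Fs := by
    intro g hg
    rw [hA, mem_filter] at hg
    rw [hFs, mem_filter]
    exact ⟨hg.1, hg.2.1, by rw [hkey g hg.2.2.1]; exact hg.2.2.2.1⟩
  refine ⟨⟨(Fs \ A).card, ?_, ?_⟩, Nat.mul_div_le _ _, ?_⟩
  · have h1 := card_sdiff_add_card_eq_card hAF
    omega
  · have h2 : ∀ g ∈ Fs \ A, C ≤ g.card - s := by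
      intro g hg
      rw [mem_sdiff, hFs, mem_filter, hA, mem_filter] at hg
      obtain ⟨⟨hgE, hgN, hgk⟩, hgA⟩ := hg
      by_cases hL : Lazy E D G b0 g
      · rw [hkey2 g hL] at hgk
        omega
      · rw [hkey g hL] at hgk
        have h3 : ¬ g.card < s + C := fun h => hgA ⟨hgE, hgN, hL, hgk, h⟩
        omega
    calc C * (Fs \ A).card = ∑ _g ∈ Fs \ A, C := by rw [sum_const, smul_eq_mul, mul_comm]
      _ ≤ ∑ g ∈ Fs \ A, (g.card - s) := sum_le_sum h2
      _ ≤ ∑ g ∈ Fs, (g.card - s) := sum_le_sum_of_subset sdiff_subset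
  · intro B hB
    have hBA : ∀ g ∈ B, g ∈ E ∧ Nb f g ∧ s ≤ g.card := by
      intro g hg
      have h1 := hB hg
      rw [hA, mem_filter] at h1
      exact ⟨h1.1, h1.2.1, h1.2.2.2.1⟩
    constructor
    · calc ∑ g ∈ B, (g.card - 1) = ∑ g ∈ B, ((s - 1) + (g.card - s)) := by
            apply sum_congr rfl
            intro g hg
            have := (hBA g hg).2.2
            omega
        _ = (s - 1) * B.card + ∑ g ∈ B, (g.card - s) := by
            rw [sum_add_distrib, sum_const, smul_eq_mul, mul_comm]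
        _ ≤ (s - 1) * B.card + ∑ g ∈ Fs, (g.card - s) :=
            Nat.add_le_add_left (sum_le_sum_of_subset (hB.trans hAF)) _
    · have h1 := a2_pairs H hf B (fun g hg => ⟨(hBA g hg).1, (hBA g hg).2.1⟩) ((D - s) / (s - 1))
        (fun w hw => by
          have h2 := a1_deg H hf B s hBA hw
          rw [hs] at h2
          rw [Nat.le_div_iff_mul_le (by omega), mul_comm]
          exact h2)
      rw [hs] at h1
      exact h1

end Pool.Agent.Lib.BFE
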