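import Pool.Agent.Lib.BFE.Defs
import Pool.Agent.Lib.BFE.W3
import Pool.Agent.Lib.BFE.W3B
import Pool.Agent.Lib.BFE.W1
import Pool.Agent.Lib.BFE.W2

set_option autoImplicit false
set_option linter.unusedSectionVars false

open Finset
open scoped Classical

namespace Pool.Agent.Lib.BFE

variable {V : Type} [DecidableEq V]

theorem w4_fin {D M R l C G b0 K0 : ℕ} (P : Par D M R l C G b0 K0) (hD : 1 ≤ D) (Y N2 σ FP : ℕ) (hY : R * M ≤ 2 * Y)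
    (h9 : 9 * (D * Y) ≤ 10 * N2) (hσ : 10 ^ 10 * l * D ≤ N2 → N2 ≤ 4 * 10 ^ 9 * D * σ)
    (hFP : 10 ^ 11 * FP ≤ 10 ^ 11 * D + 2 * Y) : FP + 1 ≤ D + σ := by
  have h1 := P.big
  have hR : 10 ^ 12 * (l + 1) ≤ R := le_trans (Nat.mul_le_mul_left _ (by omega)) h1
  have hM : 1 ≤ M := by
    have h2 := P.R1
    have h3 : 1 * 1 ≤ R * R := Nat.mul_le_mul (by omega) (by omega)
    omega
  have hRM : R * 1 ≤ R * M := Nat.mul_le_mul_left R hM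
  have hY2 : 10 ^ 12 * (l + 1) ≤ 2 * Y := by omega
  have h4 : N2 ≤ 4 * 10 ^ 9 * D * σ := by
    refine hσ ?_
    have h5 : D * (10 ^ 11 * l) ≤ D * (9 * Y) := Nat.mul_le_mul_left D (by omega)
    have h6 : D * (10 ^ 11 * l) = 10 * (10 ^ 10 * l * D) := by ring
    have h7 : D * (9 * Y) = 9 * (D * Y) := by ring
    omega
  have h5 : D * (9 * Y) ≤ D * (4 * 10 ^ 10 * σ) := by
    have h6 : D * (9 * Y) = 9 * (D * Y) := by ring
    have h7 : D * (4 * 10 ^ 10 * σ) = 10 * (4 * 10 ^ 9 * D * σ) := by ring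
    omega
  have h6 := Nat.le_of_mul_le_mul_left h5 hD
  omega

/-- Chunk W4 (S/M): the first window.

**Proof.** Suppose `D ≤ F + P'` with `F = #{g : Nb f g, |f| ≤ key g}` (otherwise the claim holds). `w3_vol` and
`w1_num` (with `a = b0/4`, `s ≤ 5 a` since `s < b0 ≤ 4 a + 3`), `w3_set` with `B = A`, `w2_pairs`:
`9 D Y ≤ 10 n2 Nb A`, `Y = D - s²`. `Y ≥ R M / 2 ≥ 10^11 l` (`Par.big`), so the hypothesis of `hσ` holds and
`0.9 D Y ≤ 4 * 10^9 D σ`, `σ ≥ 2.2 * 10^(-10) Y ≥ 2 * 10^(-11) Y + 1 ≥ F + P' - D + 1` (last claim of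
`w1_num`). -/
theorem w4_first {E : Finset (Finset V)} {D M R l C G b0 K0 : ℕ} (H : Hyp E D)
    (P : Par D M R l C G b0 K0) {f : Finset V} (hf : f ∈ E) (h1 : f.card + C < b0)
    (h2 : b0 / 4 ≤ f.card) (h3 : K0 ≤ b0 / 4) (P' σ : ℕ)
    (hP : 5000 * P' ≤ BB E f (b0 / 4) f.card + 10000 * l)
    (hσ : 10 ^ 10 * l * D ≤ n2 Nb (E.filter fun g => Nb f g ∧ ¬ Lazy E D G b0 g ∧
        f.card ≤ g.card ∧ g.card < f.card + C) →
      n2 Nb (E.filter fun g => Nb f g ∧ ¬ Lazy E D G b0 g ∧ f.card ≤ g.card ∧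
        g.card < f.card + C) ≤ 4 * 10 ^ 9 * D * σ) :
    (E.filter fun g => Nb f g ∧ f.card ≤ key E D C G b0 g).card + P' + 1 ≤ D + σ := by
  have k1 := P.K1
  obtain ⟨F, hF⟩ : ∃ F, F = (E.filter fun g => Nb f g ∧ f.card ≤ key E D C G b0 g).card := ⟨_, rfl⟩
  obtain ⟨X, hX⟩ : ∃ X, X = ∑ g ∈ E.filter (fun g => Nb f g ∧ f.card ≤ key E D C G b0 g), (g.card - f.card) := ⟨_, rfl⟩
  by_cases hD : D ≤ F + P'
  · have hvol := w3_vol (C := C) (G := G) (b0 := b0) H hf (b0 / 4) f.card rfl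
    rw [← hF, ← hX] at hvol
    obtain ⟨-, y1, y2, y3, y4⟩ := w1_num P f.card (b0 / 4) F X _ P' h1 h3 (by omega) h2 hvol hP hD
    obtain ⟨⟨h, z1, z2⟩, z3, z4⟩ := w3_set (C := C) (G := G) (b0 := b0) H hf f.card rfl (by omega)
    obtain ⟨z5, z6⟩ := z4 _ (Subset.refl _)
    rw [← hF] at z1
    rw [← hX] at z2 z5
    have h9 := w2_pairs P f.card F X _ h _ _ _ h1 (h3.trans h2) y2 y3 z1 z2 z3 z5 z6
    rw [← hF]
    exact w4_fin P H.D_pos _ _ σ (F + P') y1 h9 hσ y4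
  · rw [← hF]
    omega

end Pool.Agent.Lib.BFE
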