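import Pool.Agent.Lib.BFE.Defs
import Pool.Agent.Lib.BFE.MDefs

set_option autoImplicit false
set_option linter.unusedSectionVars false

open Finset
open scoped Classical

namespace Pool.Agent.Lib.BFE

/-- Chunk W2B (M, arithmetic): the lower windows, where the neighbours may be split between two
windows; `n` is the size of the larger half.

**Proof.** `Y = D - s² ≤ D`; `2 n ≥ F - h ≥ D - 0.002 Y ≥ 0.998 D`, so `n ≥ 0.499 D`. `s ≤ b0 / 4 + G ≤ 0.26 M`, so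
`(s - 1)² ≤ 0.07 D`; `am ≤ D/(s - 1) ≤ 10^(-3) D`. `N2 ≥ n (n - am - (s - 1)²) - (s - 1) X
≥ 0.499 D * 0.42 D - 1.01 * M D ≥ 0.2 D²`. -/
theorem w2_pairs2 {D M R l C G b0 K0 : ℕ} (P : Par D M R l C G b0 K0) (s F X n h am vol N2 : ℕ)
    (hs : s ≤ b0 / 4 + G) (hs2 : K0 ≤ s) (hX : 100 * X ≤ 101 * (D - s * s))
    (hF : 10 ^ 12 * D ≤ 10 ^ 12 * F + (D - s * s)) (hn : F ≤ 2 * n + h) (hh : C * h ≤ X)
    (ham : (s - 1) * am ≤ D - s) (hvol : vol ≤ (s - 1) * n + X)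
    (hp : n * n ≤ N2 + am * n + (s - 1) * vol) :
    3 * (D * D) ≤ 20 * N2 := by
  have hM1 := P.M1
  have hR1 := P.R1
  have hK1 := P.K1
  have hK3 := P.K3
  have hbig := P.big
  have hz1 := P.z1
  have hC1 := P.C1
  have hRM : 10 ^ 11 * R ≤ M := le_trans (Nat.mul_le_mul_right R (hK1.trans hK3)) hR1
  have hR11 : 10 ^ 11 ≤ R := hK1.trans hK3
  have hM22 : 10 ^ 22 ≤ M := by
    have : 10 ^ 11 * 10 ^ 11 ≤ 10 ^ 11 * R := Nat.mul_le_mul_left _ hR11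
    omega
  have hMpos : 0 < M := by omega
  have hMMD : M * M + 1 ≤ D := by
    have : 0 < M * M := Nat.mul_pos hMpos hMpos
    omega
  have hG : 10 ^ 12 * G ≤ M := by
    have : 10 ^ 12 * G ≤ 10 ^ 12 * (l + G + 1) := Nat.mul_le_mul_left _ (by omega)
    omega
  have hsM : 100 * s ≤ 26 * M := by omega
  have hss : s * s ≤ M * M := Nat.mul_self_le_mul_self (by omega)
  have hsD : s * s ≤ D := by omega
  have hsDl : s ≤ D := by
    have : s ≤ s * s := Nat.le_mul_self s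
    omega
  have hs1 : 1 ≤ s := by omega
  -- real numbers
  have eY : ((D - s * s : ℕ) : ℝ) = (D : ℝ) - (s : ℝ) * s := by
    rw [Nat.cast_sub hsD]; push_cast; ring
  have eS : ((s - 1 : ℕ) : ℝ) = (s : ℝ) - 1 := by
    rw [Nat.cast_sub hs1]; push_cast; ring
  have eD : ((D - s : ℕ) : ℝ) = (D : ℝ) - s := by
    rw [Nat.cast_sub hsDl]
  have rX : 100 * (X : ℝ) ≤ 101 * ((D : ℝ) - (s : ℝ) * s) := by
    rw [← eY]; exact_mod_cast hX
  have rF : 10 ^ 12 * (D : ℝ) ≤ 10 ^ 12 * (F : ℝ) + ((D : ℝ) - (s : ℝ) * s) := by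
    rw [← eY]; exact_mod_cast hF
  have rn : (F : ℝ) ≤ 2 * n + h := by exact_mod_cast hn
  have rh : (C : ℝ) * h ≤ X := by exact_mod_cast hh
  have rC : (1000 : ℝ) ≤ C := by exact_mod_cast hC1
  have ram : ((s : ℝ) - 1) * am ≤ (D : ℝ) - s := by
    rw [← eS, ← eD]; exact_mod_cast ham
  have rvol : (vol : ℝ) ≤ ((s : ℝ) - 1) * n + X := by
    rw [← eS]; exact_mod_cast hvol
  have rp : (n : ℝ) * n ≤ N2 + am * n + ((s : ℝ) - 1) * vol := by
    rw [← eS]; exact_mod_cast hp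
  have rMM : (M : ℝ) * M ≤ D := by
    have : M * M ≤ D := by omega
    exact_mod_cast this
  have rM : (10 : ℝ) ^ 22 ≤ M := by exact_mod_cast hM22
  have rsM : 100 * (s : ℝ) ≤ 26 * M := by exact_mod_cast hsM
  have rs : (10 : ℝ) ^ 11 ≤ s := by
    have : 10 ^ 11 ≤ s := hK1.trans hs2
    exact_mod_cast this
  have hh0 : (0 : ℝ) ≤ h := Nat.cast_nonneg _
  have hn0 : (0 : ℝ) ≤ n := Nat.cast_nonneg _
  have ham0 : (0 : ℝ) ≤ am := Nat.cast_nonneg _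
  have hX0 : (0 : ℝ) ≤ X := Nat.cast_nonneg _
  have hM0 : (0 : ℝ) ≤ M := Nat.cast_nonneg _
  have hD0 : (0 : ℝ) ≤ D := Nat.cast_nonneg _
  have hs0 : (0 : ℝ) ≤ s := Nat.cast_nonneg _
  have rss0 : 0 ≤ (s : ℝ) * s := mul_self_nonneg _
  have h1000 : 1000 * (h : ℝ) ≤ X := (mul_le_mul_of_nonneg_right rC hh0).trans rh
  have hnD : 499 / 1000 * (D : ℝ) ≤ n := by nlinarith
  have hamD : (am : ℝ) ≤ D / 10 ^ 10 := by
    have h1 : ((10 : ℝ) ^ 11 - 1) * am ≤ ((s : ℝ) - 1) * am :=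
      mul_le_mul_of_nonneg_right (by linarith) ham0
    have h2 : (10 : ℝ) ^ 10 * am ≤ ((10 : ℝ) ^ 11 - 1) * am :=
      mul_le_mul_of_nonneg_right (by norm_num) ham0
    rw [le_div_iff₀ (by norm_num)]
    linarith
  have hMD : 10 ^ 22 * (M : ℝ) ≤ D := (mul_le_mul_of_nonneg_right rM hM0).trans rMM
  have hs2D : ((s : ℝ) - 1) * ((s : ℝ) - 1) ≤ 7 / 100 * D := by
    have h1 : (s : ℝ) - 1 ≤ 26 / 100 * M := by linarith
    have h2 : ((s : ℝ) - 1) * ((s : ℝ) - 1) ≤ (26 / 100 * M) * (26 / 100 * M) :=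
      mul_le_mul h1 h1 (by linarith) (by positivity)
    nlinarith
  have hXD : (X : ℝ) ≤ 101 / 100 * D := by linarith
  have hsX : ((s : ℝ) - 1) * X ≤ 1 / 1000 * (D * D) := by
    have h1 : (s : ℝ) - 1 ≤ 1 / 2000 * D := by linarith
    have h2 : ((s : ℝ) - 1) * X ≤ (1 / 2000 * D) * (101 / 100 * D) :=
      mul_le_mul h1 hXD hX0 (by positivity)
    nlinarith [mul_nonneg hD0 hD0]
  have hq : 42 / 100 * (D : ℝ) ≤ n - am - ((s : ℝ) - 1) * ((s : ℝ) - 1) := by linarith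
  have hprod : (499 / 1000 * (D : ℝ)) * (42 / 100 * D) ≤
      n * (n - am - ((s : ℝ) - 1) * ((s : ℝ) - 1)) :=
    mul_le_mul hnD hq (by positivity) hn0
  have hv : ((s : ℝ) - 1) * vol ≤ ((s : ℝ) - 1) * (((s : ℝ) - 1) * n + X) :=
    mul_le_mul_of_nonneg_left rvol (by linarith)
  have hfin : 3 * ((D : ℝ) * D) ≤ 20 * N2 := by
    nlinarith [mul_nonneg hD0 hD0]
  exact_mod_cast hfin

end Pool.Agent.Lib.BFE
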