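import Pool.Agent.Lib.BFE.Defs
import Pool.Agent.Lib.BFE.W3
import Pool.Agent.Lib.BFE.W3B
import Pool.Agent.Lib.BFE.W1
import Pool.Agent.Lib.BFE.W2B
import Pool.Agent.Lib.BFE.A5

set_option autoImplicit false
set_option linter.unusedSectionVars false

open Finset
open scoped Classical

namespace Pool.Agent.Lib.BFE

variable {V : Type} [DecidableEq V]

/-- Chunk W4B (S/M): the lower windows.

**Proof.** As before, with `a` the bottom of the window (`s < b + G ≤ 4 a + 3 + G ≤ 5 a`,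
`s ≤ b + G ≤ b0 / 4 + G`, `s + C < b0`), and `w2_pairs2` for the larger of the two parts `|g| < b`, `b ≤ |g|` of
`A` (`|A| ≤ 2 n`): `3 D² ≤ 20 n2`, so `n2 ≥ 10^10 l D` and `σ ≥ 0.15 D / (4 * 10^9) ≥ 3.7 * 10^(-11) Y
≥ 2 * 10^(-11) Y + 1`. -/
theorem w4_lower {E : Finset (Finset V)} {D M R l C G b0 K0 : ℕ} (H : Hyp E D)
    (P : Par D M R l C G b0 K0) {f : Finset V} (hf : f ∈ E) (a b : ℕ) (ha : K0 ≤ a)
    (hab : b ≤ 4 * a + 3) (hb : b ≤ b0 / 4) (h1 : a ≤ f.card) (h2 : f.card < b + G)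
    (P' σ : ℕ) (hP : 5000 * P' ≤ BB E f a f.card + 10000 * l)
    (hσ1 : 10 ^ 10 * l * D ≤ n2 Nb (E.filter fun g => Nb f g ∧ ¬ Lazy E D G b0 g ∧
        f.card ≤ g.card ∧ g.card < f.card + C ∧ g.card < b) →
      n2 Nb (E.filter fun g => Nb f g ∧ ¬ Lazy E D G b0 g ∧
        f.card ≤ g.card ∧ g.card < f.card + C ∧ g.card < b) ≤ 4 * 10 ^ 9 * D * σ)
    (hσ2 : 10 ^ 10 * l * D ≤ n2 Nb (E.filter fun g => Nb f g ∧ ¬ Lazy E D G b0 g ∧
        b ≤ g.card ∧ f.card ≤ g.card ∧ g.card < f.card + C) →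
      n2 Nb (E.filter fun g => Nb f g ∧ ¬ Lazy E D G b0 g ∧
        b ≤ g.card ∧ f.card ≤ g.card ∧ g.card < f.card + C) ≤ 4 * 10 ^ 9 * D * σ) :
    (E.filter fun g => Nb f g ∧ f.card ≤ key E D C G b0 g).card + P' + 1 ≤ D + σ := by
  by_contra hcon
  rw [not_le] at hcon
  obtain ⟨s, hs⟩ : ∃ s, s = f.card := ⟨_, rfl⟩
  obtain ⟨F, hF⟩ : ∃ F, F = (E.filter fun g => Nb f g ∧ f.card ≤ key E D C G b0 g).card := ⟨_, rfl⟩
  obtain ⟨X, hX⟩ : ∃ X, X = ∑ g ∈ E.filter (fun g => Nb f g ∧ f.card ≤ key E D C G b0 g),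
    (g.card - f.card) := ⟨_, rfl⟩
  have hK1 := P.K1
  have hK2 := P.K2
  have hG1 := P.G1
  have hvol := w3_vol (C := C) (G := G) (b0 := b0) H hf a f.card rfl
  have h4 : 4 * (b0 / 4) ≤ b0 := Nat.mul_div_le b0 4
  have hsC : s + C < b0 := by omega
  have hnum := w1_num P s a F X (BB E f a f.card) P' hsC ha (by omega) (by omega)
    (by rw [hs, hF, hX]; exact hvol) hP (by omega)
  obtain ⟨c1, c2, c3, c4, c5⟩ := hnum
  obtain ⟨⟨h, hh1, hh2⟩, ham, hB⟩ := w3_set (C := C) (G := G) (b0 := b0) H hf f.card rfl (by omega)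
  have hbig := P.big
  have hM1 := P.M1
  have hR1 := P.R1
  have hDpos := H.D_pos
  have hRR : R ≤ R * R := Nat.le_mul_self R
  have hMM : M ≤ M * M := Nat.le_mul_self M
  -- the final contradiction from many pairs
  have key1 : ∀ N2, 3 * (D * D) ≤ 20 * N2 →
      (10 ^ 10 * l * D ≤ N2 → N2 ≤ 4 * 10 ^ 9 * D * σ) → False := by
    intro N2 hN hN'
    have e1 : 10 ^ 10 * l * D ≤ N2 := by
      have e2 : 20 * 10 ^ 10 * l ≤ 3 * D := by omega
      have e3 := Nat.mul_le_mul_right D e2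
      nlinarith
    have e4 := hN' e1
    have e5 : D * (3 * D) ≤ D * (80 * 10 ^ 9 * σ) := by nlinarith
    have e6 : 3 * D ≤ 80 * 10 ^ 9 * σ := Nat.le_of_mul_le_mul_left e5 (by omega)
    omega
  have hmain : ∀ B, B ⊆ (E.filter fun g => Nb f g ∧ ¬ Lazy E D G b0 g ∧ f.card ≤ g.card ∧
      g.card < f.card + C) → F ≤ 2 * B.card + h → 3 * (D * D) ≤ 20 * n2 Nb B := by
    intro B hBA hFB
    obtain ⟨v1, v2⟩ := hB B hBA
    exact w2_pairs2 P s F X B.card h ((D - s) / (s - 1)) (∑ g ∈ B, (g.card - 1)) (n2 Nb B)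
      (by omega) (by omega) c3 c4 hFB (by rw [hX]; exact hh2) (by rw [hs]; exact ham)
      (by rw [hs, hX]; exact v1) (by rw [hs]; exact v2)
  obtain ⟨A1, hA1⟩ : ∃ A1, A1 = E.filter fun g => Nb f g ∧ ¬ Lazy E D G b0 g ∧
        f.card ≤ g.card ∧ g.card < f.card + C ∧ g.card < b := ⟨_, rfl⟩
  obtain ⟨A2, hA2⟩ : ∃ A2, A2 = E.filter fun g => Nb f g ∧ ¬ Lazy E D G b0 g ∧
        b ≤ g.card ∧ f.card ≤ g.card ∧ g.card < f.card + C := ⟨_, rfl⟩
  have hsub : (E.filter fun g => Nb f g ∧ ¬ Lazy E D G b0 g ∧ f.card ≤ g.card ∧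
      g.card < f.card + C) ⊆ A1 ∪ A2 := by
    intro g hg
    rw [Finset.mem_filter] at hg
    rw [hA1, hA2, Finset.mem_union, Finset.mem_filter, Finset.mem_filter]
    obtain ⟨g1, g2, g3, g4, g5⟩ := hg
    rcases lt_or_ge g.card b with h7 | h7
    · exact Or.inl ⟨g1, g2, g3, g4, g5, h7⟩
    · exact Or.inr ⟨g1, g2, g3, h7, g4, g5⟩
  have hcard := (Finset.card_le_card hsub).trans (Finset.card_union_le A1 A2)
  rcases le_total A1.card A2.card with h8 | h8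
  · refine key1 (n2 Nb A2) (hmain A2 ?_ (by omega)) (by rw [hA2]; exact hσ2)
    intro g hg
    rw [hA2, Finset.mem_filter] at hg
    rw [Finset.mem_filter]
    exact ⟨hg.1, hg.2.1, hg.2.2.1, hg.2.2.2.2.1, hg.2.2.2.2.2⟩
  · refine key1 (n2 Nb A1) (hmain A1 ?_ (by omega)) (by rw [hA1]; exact hσ1)
    intro g hg
    rw [hA1, Finset.mem_filter] at hg
    rw [Finset.mem_filter]
    exact ⟨hg.1, hg.2.1, hg.2.2.1, hg.2.2.2.1, hg.2.2.2.2.1⟩

end Pool.Agent.Lib.BFE
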