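import Pool.Agent.Lib.BFE.Defs
import Pool.Agent.Lib.BFE.S6
import Pool.Agent.Lib.BFE.S7
import Pool.Agent.Lib.BFE.B1
import Pool.Agent.Lib.BFE.B2
import Pool.Agent.Lib.BFE.W4
import Pool.Agent.Lib.BFE.W4B
import Pool.Agent.Lib.BFE.A3
import Pool.Agent.Lib.BFE.A5

set_option autoImplicit false
set_option linter.unusedSectionVars false

open Finset
open scoped Classical

namespace Pool.Agent.Lib.BFE

variable {V : Type} [DecidableEq V]

/-- Chunk S7B (M/L): enough room for every edge that is coloured in this window.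

**Proof.** Let `u = key f`, `P' = #{g : Nb f g, χ1 g ≠ none, key g < u}`, `a = bs (i+1)`, `b = bs i`
(`b ≤ 4 a + 3`, `a5_div`), `s7_pre`: `5000 P' ≤ BB E f a u + 10000 l`. Every coloured neighbour of `f` has
`key ≥ u` or is counted in `P'`; a member of `T` is uncoloured. So the two families of the claim have together
at most `F + P'` members, `F = #{g : Nb f g, u ≤ key g} ≤ NN E f u`. Cases.
* `f` lazy: `b1_lazy` (`NN + BB/5000 + 2 l ≤ D - 1`).
* `f` not lazy (`u = |f|`) and `b0 ≤ |f| + C`: then `i = 0`, because `|f| < b + G` and for `i ≥ 1`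
  `b + G ≤ b0/4 + G < b0 - C`; `b2_zone` (`a = b0 / 4`, `|f| < b0 + G`).
* `f` not lazy, `|f| + C < b0`. `σ = sav χ1 {g ∈ E : Nb f g, χ1 g ≠ none}`. If `i = 0`: `w4_first`; the family in
  `hσ` is `(Part i).filter (Nb f g ∧ |f| ≤ |g| < |f| + C)` (`|f| ≥ a`, `|f| + C < b0 = b`), `Mid.save` and `a3_mono`.
  If `i ≥ 1`: `w4_lower` with `b ≤ b0/4` (`a5_anti`); `hσ1`: the family is
  `(Part i).filter (Nb f g ∧ |f| ≤ |g| < |f| + C)` (the condition `|g| < b` is in `Part`), `Mid.save`, `a3_mono`;
  `hσ2`: `State.s4` for `s = |f| ≤ b + G` (`b < b0`) and `sav χ A ≤ sav χ1 A ≤ σ` (`a3_ext`, `a3_mono`). -/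
theorem s7_room {E : Finset (Finset V)} {D M R l C G b0 K0 : ℕ} (H : Hyp E D)
    (P : Par D M R l C G b0 K0) (i : ℕ) (hK : K0 ≤ bs b0 (i + 1))
    (χ χ1 : Finset V → Option (Fin D)) (hS : State E D l C G b0 (bs b0 i) χ)
    (hM : Mid E D l C G b0 i χ χ1) {f : Finset V} (hf : f ∈ E) (hf0 : χ1 f = none)
    (h1 : bs b0 (i + 1) + G ≤ key E D C G b0 f) :
    (E.filter fun g => Nb f g ∧ χ1 g ≠ none).card
      + ((E.filter fun g => χ1 g = none ∧ bs b0 (i + 1) + G ≤ key E D C G b0 g).filter
          fun g => Nb f g ∧ key E D C G b0 f ≤ key E D C G b0 g).card + 1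
      ≤ D + sav χ1 (E.filter fun g => Nb f g ∧ χ1 g ≠ none) := by
  have hkl : ∀ g, key E D C G b0 g ≤ g.card := fun g => (a5_key_le E D C G b0 g).1
  have hdiv := a5_div b0 i
  -- the key of f
  have hχf : χ f = none := by
    by_contra hc
    rw [hM.ext f hc] at hf0
    exact hc hf0
  have hu : key E D C G b0 f < bs b0 i + G := by
    by_contra hc
    exact hS.s1 f hf (not_lt.1 hc) hχf
  have hpre := s7_pre H P i hK χ χ1 hS hM hf (key E D C G b0 f) hu.le
  set P' := (E.filter fun g => Nb f g ∧ χ1 g ≠ none ∧ key E D C G b0 g < key E D C G b0 f).card with hP'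
  set F := (E.filter fun g => Nb f g ∧ key E D C G b0 f ≤ key E D C G b0 g).card with hF
  -- the two families
  have hfam : (E.filter fun g => Nb f g ∧ χ1 g ≠ none).card
      + ((E.filter fun g => χ1 g = none ∧ bs b0 (i + 1) + G ≤ key E D C G b0 g).filter
          fun g => Nb f g ∧ key E D C G b0 f ≤ key E D C G b0 g).card ≤ F + P' := by
    have e1 : (E.filter fun g => Nb f g ∧ χ1 g ≠ none).card ≤
        (E.filter fun g => Nb f g ∧ χ1 g ≠ none ∧ key E D C G b0 f ≤ key E D C G b0 g).card + P' := by
      refine le_trans (Finset.card_le_card ?_) (Finset.card_union_le _ _)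
      intro g hg
      rw [Finset.mem_filter] at hg
      rw [Finset.mem_union, Finset.mem_filter, Finset.mem_filter]
      rcases le_or_gt (key E D C G b0 f) (key E D C G b0 g) with h | h
      · exact Or.inl ⟨hg.1, hg.2.1, hg.2.2, h⟩
      · exact Or.inr ⟨hg.1, hg.2.1, hg.2.2, h⟩
    have e2 : (E.filter fun g => Nb f g ∧ χ1 g ≠ none ∧ key E D C G b0 f ≤ key E D C G b0 g).card +
        ((E.filter fun g => χ1 g = none ∧ bs b0 (i + 1) + G ≤ key E D C G b0 g).filter
          fun g => Nb f g ∧ key E D C G b0 f ≤ key E D C G b0 g).card ≤ F := by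
      rw [← Finset.card_union_of_disjoint]
      · refine Finset.card_le_card ?_
        intro g hg
        rw [Finset.mem_union, Finset.mem_filter, Finset.mem_filter, Finset.mem_filter] at hg
        rw [Finset.mem_filter]
        rcases hg with h | h
        · exact ⟨h.1, h.2.1, h.2.2.2⟩
        · exact ⟨h.1.1, h.2.1, h.2.2⟩
      · rw [Finset.disjoint_left]
        intro g hg hg'
        rw [Finset.mem_filter] at hg hg'
        rw [Finset.mem_filter] at hg'
        exact hg.2.2.1 hg'.1.2.1
    omega
  -- it is enough to bound F + P'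
  suffices hmain : F + P' + 1 ≤ D + sav χ1 (E.filter fun g => Nb f g ∧ χ1 g ≠ none) by omega
  have hFN : F ≤ NN E f (key E D C G b0 f) := by
    unfold NN
    refine Finset.card_le_card ?_
    intro g hg
    rw [Finset.mem_filter] at hg ⊢
    exact ⟨hg.1, hg.2.1, hg.2.2.trans (hkl g)⟩
  have hD1 : 1 ≤ D := H.D_pos
  -- size of b0
  have hbig := P.big
  have hG1 := P.G1
  have hC1 := P.C1
  have hR : 10 ^ 12 * (G + 1) ≤ R := by
    have : 10 ^ 12 * (G + 1) ≤ 10 ^ 12 * (l + G + 1) := Nat.mul_le_mul_left _ (by omega)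
    omega
  have hRM : R * R ≤ M := P.R1
  have hz2 := P.z2
  have hb0 : 10 ^ 12 * (G + 1) ≤ b0 := by
    have h3 : 2 * R ≤ R * R := Nat.mul_le_mul_right _ (by omega)
    omega
  by_cases hL : Lazy E D G b0 f
  · have := b1_lazy H P hf hL (bs b0 (i + 1)) (bs b0 i) hdiv.2 hK h1 hu
    omega
  · have hkf : key E D C G b0 f = f.card := by
      unfold key
      rw [if_neg hL]
    rw [hkf] at hpre hFN h1 hu
    -- the savings on a family
    have hsav : ∀ A : Finset (Finset V), (∀ g ∈ A, g ∈ E ∧ Nb f g) →
        sav χ1 A ≤ sav χ1 (E.filter fun g => Nb f g ∧ χ1 g ≠ none) := by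
      intro A hA
      refine a3_mono χ1 ?_
      intro g hg hg'
      rw [Finset.mem_filter]
      exact ⟨(hA g hg).1, (hA g hg).2, hg'⟩
    rcases Nat.eq_zero_or_pos i with hi | hi
    · subst hi
      have hbz : bs b0 (0 + 1) = b0 / 4 := rfl
      have hb00 : bs b0 0 = b0 := rfl
      rw [hbz] at hpre h1 hK
      rw [hb00] at hu
      rcases le_or_gt b0 (f.card + C) with hz | hz
      · have := b2_zone H P hf hz hu.le
        omega
      · have hw := w4_first H P hf hz (by omega) hK P'
          (sav χ1 (E.filter fun g => Nb f g ∧ χ1 g ≠ none)) hpre ?_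
        · rw [hF, hkf]
          exact hw
        · intro hn
          have hset : (E.filter fun g => Nb f g ∧ ¬ Lazy E D G b0 g ∧
              f.card ≤ g.card ∧ g.card < f.card + C) =
              ((Part E D G b0 0).filter fun g => Nb f g ∧ f.card ≤ g.card ∧
                g.card < f.card + C) := by
            ext g
            unfold Part
            rw [Finset.mem_filter, Finset.mem_filter, Finset.mem_filter, hbz, hb00]
            constructor
            · rintro ⟨g1, g2, g3, g4, g5⟩
              exact ⟨⟨g1, g3, by omega, by omega⟩, g2, g4, g5⟩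
            · rintro ⟨⟨g1, g3, _, _⟩, g2, g4, g5⟩
              exact ⟨g1, g2, g3, g4, g5⟩
          rw [hset] at hn ⊢
          refine (hM.save f hf f.card (le_refl _) hn).trans ?_
          refine Nat.mul_le_mul_left _ (hsav _ ?_)
          intro g hg
          unfold Part at hg
          rw [Finset.mem_filter, Finset.mem_filter] at hg
          exact ⟨hg.1.1, hg.2.1⟩
    · have hb4 : bs b0 i ≤ b0 / 4 := a5_anti b0 1 i hi
      have hz : f.card + C < b0 := by omega
      have hw := w4_lower H P hf (bs b0 (i + 1)) (bs b0 i) hK hdiv.2 hb4 (by omega) hu P'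
        (sav χ1 (E.filter fun g => Nb f g ∧ χ1 g ≠ none)) hpre ?_ ?_
      · rw [hF, hkf]
        exact hw
      · intro hn
        have hset : (E.filter fun g => Nb f g ∧ ¬ Lazy E D G b0 g ∧
            f.card ≤ g.card ∧ g.card < f.card + C ∧ g.card < bs b0 i) =
            ((Part E D G b0 i).filter fun g => Nb f g ∧ f.card ≤ g.card ∧
              g.card < f.card + C) := by
          ext g
          unfold Part
          rw [Finset.mem_filter, Finset.mem_filter, Finset.mem_filter]
          constructor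
          · rintro ⟨g1, g2, g3, g4, g5, g6⟩
            exact ⟨⟨g1, g3, by omega, g6⟩, g2, g4, g5⟩
          · rintro ⟨⟨g1, g3, _, g6⟩, g2, g4, g5⟩
            exact ⟨g1, g2, g3, g4, g5, g6⟩
        rw [hset] at hn ⊢
        refine (hM.save f hf f.card (le_refl _) hn).trans ?_
        refine Nat.mul_le_mul_left _ (hsav _ ?_)
        intro g hg
        unfold Part at hg
        rw [Finset.mem_filter, Finset.mem_filter] at hg
        exact ⟨hg.1.1, hg.2.1⟩
      · intro hn
        refine (hS.s4 (by omega) f hf f.card (le_refl _) hu.le hn).trans ?_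
        refine Nat.mul_le_mul_left _ ?_
        refine (a3_ext χ χ1 _ (fun g _ hg => hM.ext g hg)).trans (hsav _ ?_)
        intro g hg
        rw [Finset.mem_filter] at hg
        exact ⟨hg.1, hg.2.1⟩

end Pool.Agent.Lib.BFE
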