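import Pool.Agent.Lib.BFE.Defs
import Pool.Agent.Lib.BFE.S7B
import Pool.Agent.Lib.BFE.S4
import Pool.Agent.Lib.BFE.A4

set_option autoImplicit false
set_option linter.unusedSectionVars false

open Finset
open scoped Classical

namespace Pool.Agent.Lib.BFE

variable {V : Type} [DecidableEq V]

/-- Chunk S8 (M): from one window to the next.

**Proof.** `χ1` from `s6_mid`, then `a4_greedy` with `T = {g ∈ E : χ1 g = none, bs (i+1) + G ≤ key g}` and
`s7_room`. Let `χ'` be the result, `a = bs (i+1)`, `b = bs i`. `State … a χ'`: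
`dom`, `proper`, `s1`: clear (`T`). `s2`: if `χ' f ≠ none`, `key f < a + G` then `f ∉ T`, so `χ1 f ≠ none`: `χ f ≠ none`
gives by `State.s2` (`key f < a + G < b + G`) `b ≤ |f|`, not lazy, so `key f = |f| ≥ b ≥ 4 a > a + G`,
contradiction (`a ≥ K0 ≥ 1000 G`); so `f ∈ Part`: `a ≤ |f|`, not lazy. `s3`: for `u ≤ a + G` the coloured `g` with
`key g < u` are in `Part`, `χ' g = χ1 g`, `|g| = key g < u`: `Mid.load`, and `{g ∈ Part : Nb f g, |g| < u}` is
contained in the family of `BB E f a u`. `s4` (`s ≤ a + G`): the family is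
`(Part i).filter (Nb e g ∧ s ≤ |g| < s + C)`, because `s + C ≤ a + G + C < b`; `Mid.save` and
`sav χ1 A ≤ sav χ' A` (`a3_ext`). -/
theorem s8_step {E : Finset (Finset V)} {D M R l C G b0 K0 : ℕ} (H : Hyp E D)
    (P : Par D M R l C G b0 K0) (i : ℕ) (hK : K0 ≤ bs b0 (i + 1)) (χ : Finset V → Option (Fin D))
    (hS : State E D l C G b0 (bs b0 i) χ) :
    ∃ χ' : Finset V → Option (Fin D), State E D l C G b0 (bs b0 (i + 1)) χ' := by
  obtain ⟨χ1, hM⟩ := s6_mid H P i hK χ hS
  have hG := P.G1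
  have hC := P.C1
  have hK2 := P.K2
  have hT := (a5_div b0 i).1
  have hdom1 : ∀ g, χ1 g ≠ none → g ∈ E := by
    intro g hg
    rcases hM.dom g hg with h | h
    · exact hS.dom g h
    · exact (mem_filter.1 h).1
  obtain ⟨χ', p1, p2, p3⟩ := a4_greedy Nb (fun e f h => ⟨h.1.symm, fun h' => h.2 h'.symm⟩) (fun e h => h.1 rfl) D E χ1
    hM.proper hdom1 (key E D C G b0)
    (E.filter fun g => χ1 g = none ∧ bs b0 (i + 1) + G ≤ key E D C G b0 g) (filter_subset _ _)
    (fun g hg => (mem_filter.1 hg).2.1) (fun f hf => by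
      obtain ⟨h1, h2, h3⟩ := mem_filter.1 hf
      exact s7_room H P i hK χ χ1 hS hM h1 h2 h3)
  have hmain : ∀ g, χ' g ≠ none → key E D C G b0 g < bs b0 (i + 1) + G → χ1 g ≠ none ∧ g ∈ Part E D G b0 i := by
    intro g hg hk
    have h1 : χ1 g ≠ none := by
      rcases (p3 g).1 hg with h | h
      · exact h
      · have := (mem_filter.1 h).2.2
        omega
    refine ⟨h1, ?_⟩
    rcases hM.dom g h1 with h | h
    · exfalso
      obtain ⟨h2, h3⟩ := hS.s2 g h (by omega)
      unfold key at hk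
      rw [if_neg h3] at hk
      omega
    · exact h
  refine ⟨χ', ?_, p1, ?_, ?_, ?_, ?_⟩
  · intro f hf
    rcases (p3 f).1 hf with h | h
    · exact hdom1 f h
    · exact (mem_filter.1 h).1
  · intro f hf hk
    rw [p3]
    by_cases h : χ1 f = none
    · exact Or.inr (mem_filter.2 ⟨hf, h, hk⟩)
    · exact Or.inl h
  · intro f hf hk
    obtain ⟨h1, h2⟩ := hmain f hf hk
    exact ⟨(mem_filter.1 h2).2.2.1, (mem_filter.1 h2).2.1⟩
  · intro f hf u hu
    have h1 : (E.filter fun g => Nb f g ∧ χ' g ≠ none ∧ key E D C G b0 g < u).card ≤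
        ((Part E D G b0 i).filter fun g => Nb f g ∧ χ1 g ≠ none ∧ g.card < u).card := by
      refine card_le_card fun g hg => ?_
      obtain ⟨h1, h2, h3, h4⟩ := mem_filter.1 hg
      obtain ⟨h5, h6⟩ := hmain g h3 (by omega)
      refine mem_filter.2 ⟨h6, h2, h5, ?_⟩
      unfold key at h4
      rw [if_neg (mem_filter.1 h6).2.1] at h4
      exact h4
    have h2 := hM.load f hf u
    have h3 : ((Part E D G b0 i).filter fun g => Nb f g ∧ g.card < u).card ≤ BB E f (bs b0 (i + 1)) u := by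
      unfold BB
      refine card_le_card fun g hg => ?_
      obtain ⟨h1, h2, h3⟩ := mem_filter.1 hg
      exact mem_filter.2 ⟨(mem_filter.1 h1).1, h2, (mem_filter.1 h1).2.2.1, h3⟩
    omega
  · intro _ e he s hs1 hs2 h
    have hF : (E.filter fun g => Nb e g ∧ ¬ Lazy E D G b0 g ∧ bs b0 (i + 1) ≤ g.card ∧ s ≤ g.card ∧ g.card < s + C) =
        (Part E D G b0 i).filter fun g => Nb e g ∧ s ≤ g.card ∧ g.card < s + C := by
      ext g
      unfold Part
      rw [mem_filter, mem_filter, mem_filter]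
      constructor
      · rintro ⟨h1, h2, h3, h4, h5, h6⟩
        exact ⟨⟨h1, h3, h4, by omega⟩, h2, h5, h6⟩
      · rintro ⟨⟨h1, h3, h4, _⟩, h2, h5, h6⟩
        exact ⟨h1, h2, h3, h4, h5, h6⟩
    rw [hF] at h ⊢
    exact (hM.save e he s hs1 h).trans (Nat.mul_le_mul_left _ (a3_ext χ1 χ' _ fun g _ hg => p2 g hg))

/-- **Proof.** Induction on `i`: `s4_start` and `s8_step` (`a5_anti`: `K0 ≤ bs (i+1) ≤ bs i`). -/
theorem s8_chain {E : Finset (Finset V)} {D M R l C G b0 K0 : ℕ} (H : Hyp E D)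
    (P : Par D M R l C G b0 K0) (i : ℕ) (hK : K0 ≤ bs b0 i) :
    ∃ χ : Finset V → Option (Fin D), State E D l C G b0 (bs b0 i) χ := by
  induction i with
  | zero => exact s4_start H P
  | succ i ih =>
    obtain ⟨χ, hS⟩ := ih (hK.trans (a5_anti b0 i (i + 1) (Nat.le_succ i)))
    exact s8_step H P i hK χ hS

end Pool.Agent.Lib.BFE
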