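import Pool.Agent.Lib.BFE.Defs
import Pool.Agent.Lib.BFE.MDefs
import Pool.Agent.Lib.BFE.A1
import Pool.Agent.Lib.BFE.A2
import Pool.Agent.Lib.BFE.A3
import Pool.Agent.Lib.BFE.A5

set_option autoImplicit false
set_option linter.unusedSectionVars false

open Finset
open scoped Classical

namespace Pool.Agent.Lib.BFE

variable {V : Type} [DecidableEq V]

/-- Arithmetic of chunk S9. -/
lemma s9_arith {D M R l C G b0 K0 : ℕ} (P : Par D M R l C G b0 K0) (hKC : K0 ≤ 2 * 10 ^ 8 * C)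
    (b F n β X h a t N2 S cA : ℕ) (hb : K0 ≤ b) (hb4 : b < 4 * K0 + 4) (ht : t < b + G)
    (hV : (b + G - 1) * F + X + (b - 1) * β ≤ (b + G - 1) * D)
    (hn : 5000 * n ≤ β + 5000 * l) (hh : C * h ≤ X) (hA : F ≤ cA + h) (hAF : cA ≤ F)
    (ha : (b + G - 1) * a ≤ D)
    (hp : cA * cA ≤ N2 + a * cA + (t - 1) * ((b + G + C) * cA))
    (hs4 : 10 ^ 10 * l * D ≤ N2 → N2 ≤ 4 * 10 ^ 9 * D * S) :
    10 ^ 10 * (F + n) + D ≤ 10 ^ 10 * (D + S) := by
  by_cases hc : 10 ^ 10 * (F + n) + D ≤ 10 ^ 10 * D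
  · omega
  have hc' : 10 ^ 10 * D < 10 ^ 10 * (F + n) + D := not_le.mp hc
  have hM1 := P.M1
  have hR1 := P.R1
  have hK1 := P.K1
  have hK2 := P.K2
  have hK3 := P.K3
  have hbig := P.big
  have hC1 := P.C1
  have hG1 := P.G1
  have hRM : 10 ^ 11 * R ≤ M := le_trans (Nat.mul_le_mul_right R (hK1.trans hK3)) hR1
  have hR11 : 10 ^ 11 ≤ R := hK1.trans hK3
  have hM22 : 10 ^ 22 ≤ M := by
    have : 10 ^ 11 * 10 ^ 11 ≤ 10 ^ 11 * R := Nat.mul_le_mul_left _ hR11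
    omega
  have hMpos : 0 < M := by omega
  have hMMD : M * M ≤ D := by omega
  have hb11 : 10 ^ 11 ≤ b := hK1.trans hb
  have hGb : 1000 * G ≤ b := hK2.trans hb
  have huR : b + G ≤ 5 * R := by omega
  have hCG : C ≤ R := by omega
  have hlR : 10 ^ 12 * l ≤ R := by
    have : 10 ^ 12 * l ≤ 10 ^ 12 * (l + G + 1) := Nat.mul_le_mul_left _ (by omega)
    omega
  -- real numbers
  have eU : ((b + G - 1 : ℕ) : ℝ) = (b : ℝ) + G - 1 := by
    rw [Nat.cast_sub (by omega)]; push_cast; ring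
  have eB : ((b - 1 : ℕ) : ℝ) = (b : ℝ) - 1 := by
    rw [Nat.cast_sub (by omega)]; push_cast; ring
  have rV : ((b : ℝ) + G - 1) * F + X + ((b : ℝ) - 1) * β ≤ ((b : ℝ) + G - 1) * D := by
    rw [← eU, ← eB]; exact_mod_cast hV
  have rn : 5000 * (n : ℝ) ≤ β + 5000 * l := by exact_mod_cast hn
  have rh : (C : ℝ) * h ≤ X := by exact_mod_cast hh
  have rA : (F : ℝ) ≤ cA + h := by exact_mod_cast hA
  have rAF : (cA : ℝ) ≤ F := by exact_mod_cast hAF
  have ra : ((b : ℝ) + G - 1) * a ≤ D := by rw [← eU]; exact_mod_cast ha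
  have rc : 10 ^ 10 * (D : ℝ) < 10 ^ 10 * ((F : ℝ) + n) + D := by exact_mod_cast hc'
  have rC : (1000 : ℝ) ≤ C := by exact_mod_cast hC1
  have rb11 : (10 : ℝ) ^ 11 ≤ b := by exact_mod_cast hb11
  have rGb : 1000 * (G : ℝ) ≤ b := by exact_mod_cast hGb
  have rb4 : (b : ℝ) ≤ 8 * 10 ^ 8 * C + 4 := by
    have : b ≤ 8 * 10 ^ 8 * C + 4 := by omega
    exact_mod_cast this
  have rM : (10 : ℝ) ^ 22 ≤ M := by exact_mod_cast hM22
  have rMM : (M : ℝ) * M ≤ D := by exact_mod_cast hMMD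
  have rRR : (R : ℝ) * R ≤ M := by exact_mod_cast hR1
  have rRM : 10 ^ 11 * (R : ℝ) ≤ M := by exact_mod_cast hRM
  have rlR : 10 ^ 12 * (l : ℝ) ≤ R := by exact_mod_cast hlR
  have rCR : (C : ℝ) ≤ R := by exact_mod_cast hCG
  have ruR : (b : ℝ) + G ≤ 5 * R := by exact_mod_cast huR
  have hn0 : (0 : ℝ) ≤ n := Nat.cast_nonneg _
  have hh0 : (0 : ℝ) ≤ h := Nat.cast_nonneg _
  have hβ0 : (0 : ℝ) ≤ β := Nat.cast_nonneg _
  have hX0 : (0 : ℝ) ≤ X := Nat.cast_nonneg _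
  have hl0 : (0 : ℝ) ≤ l := Nat.cast_nonneg _
  have hG0 : (0 : ℝ) ≤ G := Nat.cast_nonneg _
  have hD0 : (0 : ℝ) ≤ D := Nat.cast_nonneg _
  have ha0 : (0 : ℝ) ≤ a := Nat.cast_nonneg _
  have hcA0 : (0 : ℝ) ≤ cA := Nat.cast_nonneg _
  have hR0 : (0 : ℝ) ≤ R := Nat.cast_nonneg _
  have hM0 : (0 : ℝ) ≤ M := Nat.cast_nonneg _
  have hC0 : (0 : ℝ) ≤ C := Nat.cast_nonneg _
  have hMD : 10 ^ 22 * (M : ℝ) ≤ D := (mul_le_mul_of_nonneg_right rM hM0).trans rMM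
  have hlD : (l : ℝ) ≤ D / 10 ^ 13 := by
    rw [le_div_iff₀ (by norm_num)]; linarith
  obtain ⟨U, hU⟩ : ∃ U : ℝ, U = (b : ℝ) + G - 1 := ⟨_, rfl⟩
  rw [← hU] at rV ra
  have hU1 : U ≤ 1001 / 1000 * ((b : ℝ) - 1) + 1 := by rw [hU]; linarith
  have hU2 : U ≤ 1002 / 1000 * ((b : ℝ) - 1) := by linarith
  have hU0 : 10 ^ 10 ≤ U := by rw [hU]; linarith
  have hUpos : 0 < U := by linarith [hU0, (by norm_num : (0 : ℝ) < 10 ^ 10)]
  have hB0 : (0 : ℝ) ≤ (b : ℝ) - 1 := by linarith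
  have hBpos : (0 : ℝ) < (b : ℝ) - 1 := by linarith
  -- the excess
  have hn' : (n : ℝ) ≤ β / 5000 + l := by linarith
  have hDF : (D : ℝ) - F ≤ D / 10 ^ 10 + (β / 5000 + l) := by
    have : (D : ℝ) - F ≤ D / 10 ^ 10 + n := by linarith
    linarith
  have h1 : U * ((D : ℝ) - F) ≤ U * (D / 10 ^ 10 + (β / 5000 + l)) :=
    mul_le_mul_of_nonneg_left hDF hUpos.le
  have h2 : U * (β / 5000) ≤ (1002 / 1000 * ((b : ℝ) - 1)) * (β / 5000) :=
    mul_le_mul_of_nonneg_right hU2 (by positivity)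
  have h3 : X + 99 / 100 * (((b : ℝ) - 1) * β) ≤ U * (1001 / 1000 * (D / 10 ^ 10)) := by
    have h4 : U * (D / 10 ^ 10 + l) ≤ U * (1001 / 1000 * (D / 10 ^ 10)) :=
      mul_le_mul_of_nonneg_left (by linarith) hUpos.le
    have h5 : 0 ≤ ((b : ℝ) - 1) * β := mul_nonneg hB0 hβ0
    linarith only [rV, h1, h2, h4, h5]
  have hβD : (β : ℝ) ≤ 2 * (D / 10 ^ 10) := by
    have h4 : U * (1001 / 1000 * (D / 10 ^ 10)) ≤
        (1002 / 1000 * ((b : ℝ) - 1)) * (1001 / 1000 * (D / 10 ^ 10)) :=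
      mul_le_mul_of_nonneg_right hU2 (by positivity)
    have h5 : ((b : ℝ) - 1) * β ≤ ((b : ℝ) - 1) * (2 * (D / 10 ^ 10)) := by
      have h6 : 0 ≤ ((b : ℝ) - 1) * (D / 10 ^ 10) := by positivity
      linarith only [h3, h4, h6, hX0]
    exact le_of_mul_le_mul_left h5 hBpos
  have hnD : (n : ℝ) ≤ D / 10 ^ 12 := by
    linarith
  have hXD : (X : ℝ) ≤ (C : ℝ) * (9 / 100 * D) := by
    have h4 : (X : ℝ) ≤ U * (1001 / 1000 * (D / 10 ^ 10)) := by
      have h5 : 0 ≤ ((b : ℝ) - 1) * β := mul_nonneg hB0 hβ0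
      linarith
    have h5 : U ≤ 85 * 10 ^ 7 * C := by linarith
    have h6 : U * (1001 / 1000 * (D / 10 ^ 10)) ≤
        (85 * 10 ^ 7 * C) * (1001 / 1000 * (D / 10 ^ 10)) :=
      mul_le_mul_of_nonneg_right h5 (by positivity)
    have h7 : 0 ≤ (C : ℝ) * D := mul_nonneg hC0 hD0
    linarith only [h4, h6, h7]
  have hhD : (h : ℝ) ≤ 9 / 100 * D :=
    le_of_mul_le_mul_left (rh.trans hXD) (by linarith)
  have hcA : 9 / 10 * (D : ℝ) ≤ cA := by linarith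
  have hFD : (F : ℝ) ≤ D := by
    have h5 : 0 ≤ ((b : ℝ) - 1) * β := mul_nonneg hB0 hβ0
    have : U * F ≤ U * D := by linarith
    exact le_of_mul_le_mul_left this hUpos
  have hcD : (cA : ℝ) ≤ D := rAF.trans hFD
  have haD : (a : ℝ) ≤ D / 10 ^ 10 := by
    rw [le_div_iff₀ (by norm_num)]
    have : (10 : ℝ) ^ 10 * a ≤ U * a := mul_le_mul_of_nonneg_right hU0 ha0
    linarith
  have rp : (cA : ℝ) * cA ≤ N2 + a * cA + (5 * R) * ((6 * R) * D) := by
    have h4 : (cA : ℝ) * cA ≤ N2 + a * cA + ((t - 1 : ℕ) : ℝ) * (((b : ℝ) + G + C) * cA) := by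
      exact_mod_cast hp
    have h5 : ((t - 1 : ℕ) : ℝ) ≤ 5 * R := by
      have : t - 1 ≤ 5 * R := by omega
      exact_mod_cast this
    have h6 : ((b : ℝ) + G + C) * cA ≤ (6 * R) * D :=
      mul_le_mul (by linarith) hcD hcA0 (by positivity)
    have h7 : ((t - 1 : ℕ) : ℝ) * (((b : ℝ) + G + C) * cA) ≤ (5 * R) * ((6 * R) * D) :=
      mul_le_mul h5 h6 (by positivity) (by positivity)
    linarith
  have h8 : (5 * (R : ℝ)) * ((6 * R) * D) ≤ 1 / 1000 * (D * D) := by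
    have h9 : (R : ℝ) * R * D ≤ M * D := mul_le_mul_of_nonneg_right rRR hD0
    have h10 : (M : ℝ) * D ≤ (D / 10 ^ 22) * D := by
      apply mul_le_mul_of_nonneg_right _ hD0
      rw [le_div_iff₀ (by norm_num)]; linarith
    have h11 : 0 ≤ (D : ℝ) * D := mul_nonneg hD0 hD0
    linarith only [h9, h10, h11]
  have h12 : (a : ℝ) * cA ≤ (D / 10 ^ 10) * D := mul_le_mul haD hcD hcA0 (by positivity)
  have h13 : (9 / 10 * (D : ℝ)) * (9 / 10 * D) ≤ cA * cA :=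
    mul_le_mul hcA hcA (by positivity) hcA0
  have hN2 : 8 / 10 * ((D : ℝ) * D) ≤ N2 := by
    have h11 : 0 ≤ (D : ℝ) * D := mul_nonneg hD0 hD0
    linarith only [rp, h8, h12, h13, h11]
  have hpre : 10 ^ 10 * l * D ≤ N2 := by
    have : 10 ^ 10 * (l : ℝ) * D ≤ N2 := by
      have h14 : (l : ℝ) * D ≤ (D / 10 ^ 13) * D := mul_le_mul_of_nonneg_right hlD hD0
      have h11 : 0 ≤ (D : ℝ) * D := mul_nonneg hD0 hD0
      linarith only [h14, h11, hN2]
    exact_mod_cast this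
  have hS4 := hs4 hpre
  have rS4 : (N2 : ℝ) ≤ 4 * 10 ^ 9 * D * S := by exact_mod_cast hS4
  have hDpos : (0 : ℝ) < D := by linarith
  have hSD : 8 / 10 * (D : ℝ) ≤ 4 * 10 ^ 9 * S := by
    have h15 : (D : ℝ) * (8 / 10 * D) ≤ D * (4 * 10 ^ 9 * S) := by
      linarith only [rS4, hN2]
    exact le_of_mul_le_mul_left h15 hDpos
  have hfin : 10 ^ 10 * ((F : ℝ) + n) + D ≤ 10 ^ 10 * ((D : ℝ) + S) := by
    linarith
  exact_mod_cast hfin

/-- Chunk S9 (M/L): lists of the small edges, first case.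

**Proof.** `b = bs b0 (i+1)`, `u = b + G`, `t = |e| < u`, `Nc` the coloured neighbours. All with `key ≥ u`
(number `F`, sizes `≥ u`, excess `X = ∑ (|g| - u)`) or, by `State.s2`, sizes in `[b, u)` (number `n`,
`5000 n ≤ β + 5000 l`, `β = BB E e b u`, `State.s3`). Volume (`a1_vol`):
`(u - 1) F + X + (b - 1) β ≤ t (D - t) ≤ (u - 1) D`. If `10^10 (F + n) ≤ (10^10 - 1) D` the claim is clear
(`sav ≥ 0`). Otherwise `D - F ≤ 10^(-10) D + n`, so `X + (b - 1) β ≤ (u - 1)(10^(-10) D + β/5000 + l)`, hence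
(`u ≤ 1.01 b`) `X + 0.99 (b - 1) β ≤ (u - 1)(10^(-10) D + l) ≤ 1.001 * 10^(-10) u D` (`l ≤ 10^(-13) D`), so
`n ≤ β/5000 + l ≤ 10^(-12) D`, and the number of neighbours with size `≥ u + C` is at most
`X / C ≤ 1.001 * 10^(-10) * 1.01 b D / C ≤ 0.09 D`, because `b < 4 K0 + 4 ≤ 8 * 10^8 C + 4`. The remaining
`A' = {g : Nb e g, u ≤ key g, |g| < u + C}`, at least `0.9 D` many, are not lazy (a lazy `g` has
`key g = |g| - C < u`), so `A = {g : Nb e g, ¬ Lazy g, b ≤ |g|, u ≤ |g| < u + C} ⊇ A'` has `|A| ≥ 0.9 D`, and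
`|A| ≤ F ≤ D` (non-lazy, `key g = |g| ≥ u`). `a2_pairs` with `am = D/(u - 1)` (`a1_deg`) and
`∑_A (|g| - 1) ≤ (u + C) D`: `n2 ≥ |A|² - |A| D/(u-1) - u (u + C) D ≥ 0.7 D²` (`u ≤ 5 R`, `R⁴ ≤ D`). So
`10^10 l D ≤ n2` and `State.s4` (with `s = u`; `b < b0` by `a5_div`) gives
`0.7 D² ≤ 4 * 10^9 D sav χ A`, `sav χ Nc ≥ sav χ A ≥ 1.7 * 10^(-10) D` (`a3_mono`). And
`F + n ≤ D + 10^(-12) D`. So `10^10 (F + n) + D ≤ 10^10 D + 10^10 sav`. -/
theorem s9_small {E : Finset (Finset V)} {D M R l C G b0 K0 : ℕ} (H : Hyp E D)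
    (P : Par D M R l C G b0 K0) (hKC : K0 ≤ 2 * 10 ^ 8 * C) (i : ℕ) (hK : K0 ≤ bs b0 (i + 1))
    (hK4 : bs b0 (i + 1) < 4 * K0 + 4) (χ : Finset V → Option (Fin D))
    (hS : State E D l C G b0 (bs b0 (i + 1)) χ) {e : Finset V} (he : e ∈ E)
    (h : e.card < bs b0 (i + 1) + G) :
    10 ^ 10 * (E.filter fun g => Nb e g ∧ χ g ≠ none).card + D
      ≤ 10 ^ 10 * (D + sav χ (E.filter fun g => Nb e g ∧ χ g ≠ none)) := by
  obtain ⟨b, hbdef⟩ : ∃ b, b = bs b0 (i + 1) := ⟨_, rfl⟩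
  rw [← hbdef] at hK hK4 hS h
  have hK1 := P.K1
  have hb11 : 10 ^ 11 ≤ b := hK1.trans hK
  have hbb0 : b < b0 := by
    have h1 := a5_anti b0 0 i (Nat.zero_le _)
    have h2 := (a5_div b0 i).1
    rw [← hbdef] at h2
    have h3 : bs b0 i ≤ b0 := h1
    omega
  obtain ⟨u, hu⟩ : ∃ u, u = b + G := ⟨_, rfl⟩
  -- the sets
  obtain ⟨F, hF⟩ : ∃ F, F = E.filter (fun g => Nb e g ∧ χ g ≠ none ∧ u ≤ key E D C G b0 g) :=
    ⟨_, rfl⟩
  obtain ⟨N, hN⟩ : ∃ N, N = E.filter (fun g => Nb e g ∧ χ g ≠ none ∧ key E D C G b0 g < u) :=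
    ⟨_, rfl⟩
  obtain ⟨B, hB⟩ : ∃ B, B = E.filter (fun g => Nb e g ∧ b ≤ g.card ∧ g.card < u) := ⟨_, rfl⟩
  obtain ⟨A, hA⟩ : ∃ A, A = E.filter (fun g => Nb e g ∧ ¬ Lazy E D G b0 g ∧ b ≤ g.card ∧
      b + G ≤ g.card ∧ g.card < b + G + C) := ⟨_, rfl⟩
  obtain ⟨Nc, hNc⟩ : ∃ Nc, Nc = E.filter (fun g => Nb e g ∧ χ g ≠ none) := ⟨_, rfl⟩
  rw [← hNc]
  have hcard : Nc.card ≤ F.card + N.card := by
    have hsub : Nc ⊆ F ∪ N := by
      intro g hg
      rw [hNc, mem_filter] at hg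
      rw [mem_union, hF, hN, mem_filter, mem_filter]
      rcases le_or_gt u (key E D C G b0 g) with h1 | h1
      · exact Or.inl ⟨hg.1, hg.2.1, hg.2.2, h1⟩
      · exact Or.inr ⟨hg.1, hg.2.1, hg.2.2, h1⟩
    exact (card_le_card hsub).trans (card_union_le _ _)
  have hFu : ∀ g ∈ F, u ≤ g.card := by
    intro g hg
    rw [hF, mem_filter] at hg
    exact hg.2.2.2.trans (a5_key_le E D C G b0 g).1
  have hdisj : Disjoint F B := by
    rw [Finset.disjoint_left]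
    intro g hg hg2
    have h1 := hFu g hg
    rw [hB, mem_filter] at hg2
    omega
  have hvol := a1_vol H he (F ∪ B) (by
    intro g hg
    rw [mem_union, hF, hB, mem_filter, mem_filter] at hg
    rcases hg with hg | hg
    · exact ⟨hg.1, hg.2.1⟩
    · exact ⟨hg.1, hg.2.1⟩)
  rw [sum_union hdisj] at hvol
  have hsF : ∑ g ∈ F, (g.card - 1) = (u - 1) * F.card + ∑ g ∈ F, (g.card - u) := by
    rw [mul_comm, ← smul_eq_mul, ← sum_const, ← sum_add_distrib]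
    apply sum_congr rfl
    intro g hg
    have h1 := hFu g hg
    omega
  have hsB : (b - 1) * B.card ≤ ∑ g ∈ B, (g.card - 1) := by
    rw [mul_comm, ← smul_eq_mul]
    apply card_nsmul_le_sum
    intro g hg
    rw [hB, mem_filter] at hg
    omega
  have hcD : e.card ≤ D := a1_card_le H he
  have hVol : (u - 1) * F.card + (∑ g ∈ F, (g.card - u)) + (b - 1) * B.card ≤ (u - 1) * D := by
    have h1 : e.card * (D - e.card) ≤ (u - 1) * D := Nat.mul_le_mul (by omega) (Nat.sub_le _ _)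
    omega
  -- s3
  have h3 := hS.s3 e he (b + G) le_rfl
  have hn5 : 5000 * N.card ≤ B.card + 5000 * l := by
    have e1 : N = E.filter (fun g => Nb e g ∧ χ g ≠ none ∧ key E D C G b0 g < b + G) := by
      rw [hN, hu]
    have e2 : B.card = BB E e b (b + G) := by
      rw [hB, hu, BB]
    rw [e1, e2]
    exact h3
  -- large elements
  have hh : C * (F.filter fun g => u + C ≤ g.card).card ≤ ∑ g ∈ F, (g.card - u) := by
    have h1 : C * (F.filter fun g => u + C ≤ g.card).card ≤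
        ∑ g ∈ F.filter (fun g => u + C ≤ g.card), (g.card - u) := by
      rw [mul_comm, ← smul_eq_mul]
      apply card_nsmul_le_sum
      intro g hg
      rw [mem_filter] at hg
      omega
    exact h1.trans (sum_le_sum_of_subset (filter_subset _ _))
  have hFA : F.card ≤ A.card + (F.filter fun g => u + C ≤ g.card).card := by
    have hsub : F ⊆ A ∪ F.filter (fun g => u + C ≤ g.card) := by
      intro g hg
      rw [mem_union]
      rcases le_or_gt (u + C) g.card with h1 | h1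
      · exact Or.inr (mem_filter.mpr ⟨hg, h1⟩)
      · left
        have h2 := hFu g hg
        rw [hF, mem_filter] at hg
        rw [hA, mem_filter]
        refine ⟨hg.1, hg.2.1, ?_, by omega, by omega, by omega⟩
        intro hlz
        have h4 := hg.2.2.2
        rw [key, if_pos hlz] at h4
        omega
    exact (card_le_card hsub).trans (card_union_le _ _)
  have hAF : A ⊆ F := by
    intro g hg
    rw [hA, mem_filter] at hg
    have hk : key E D C G b0 g = g.card := by rw [key, if_neg hg.2.2.1]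
    rw [hF, mem_filter]
    refine ⟨hg.1, hg.2.1, hS.s1 g hg.1 ?_, ?_⟩
    · rw [hk]; exact hg.2.2.2.2.1
    · rw [hk, hu]; exact hg.2.2.2.2.1
  -- pairs
  have hu1 : 0 < u - 1 := by omega
  have hdeg : ∀ w ∈ e, (A.filter fun g => w ∈ g).card ≤ D / (u - 1) := by
    intro w hw
    rw [Nat.le_div_iff_mul_le hu1, mul_comm]
    exact (a1_deg H he A u (by
      intro g hg
      rw [hA, mem_filter] at hg
      exact ⟨hg.1, hg.2.1, by omega⟩) hw).trans (Nat.sub_le _ _)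
  have hpairs := a2_pairs H he A (by
    intro g hg
    rw [hA, mem_filter] at hg
    exact ⟨hg.1, hg.2.1⟩) (D / (u - 1)) hdeg
  have hsA : ∑ g ∈ A, (g.card - 1) ≤ (b + G + C) * A.card := by
    rw [mul_comm, ← smul_eq_mul]
    apply sum_le_card_nsmul
    intro g hg
    rw [hA, mem_filter] at hg
    omega
  have hp : A.card * A.card ≤ n2 Nb A + D / (u - 1) * A.card +
      (e.card - 1) * ((b + G + C) * A.card) := by
    have h1 : (e.card - 1) * ∑ g ∈ A, (g.card - 1) ≤ (e.card - 1) * ((b + G + C) * A.card) :=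
      Nat.mul_le_mul_left _ hsA
    omega
  -- s4
  have h4 := hS.s4 hbb0 e he (b + G) h.le le_rfl
  rw [← hA] at h4
  have hmono : sav χ A ≤ sav χ Nc := by
    apply a3_mono
    intro g hg hg2
    rw [hA, mem_filter] at hg
    rw [hNc, mem_filter]
    exact ⟨hg.1, hg.2.1, hg2⟩
  have hdiv : (b + G - 1) * (D / (u - 1)) ≤ D := by
    rw [← hu]
    exact Nat.mul_div_le D (u - 1)
  rw [hu] at hVol hh hFA hp hdiv
  have hfin := s9_arith P hKC b F.card N.card B.card (∑ g ∈ F, (g.card - (b + G)))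
    (F.filter fun g => b + G + C ≤ g.card).card (D / (b + G - 1)) e.card (n2 Nb A) (sav χ A) A.card
    hK hK4 h hVol hn5 hh hFA (card_le_card hAF) hdiv hp h4
  have h9 : 10 ^ 10 * Nc.card ≤ 10 ^ 10 * (F.card + N.card) := Nat.mul_le_mul_left _ hcard
  have h10 : 10 ^ 10 * (D + sav χ A) ≤ 10 ^ 10 * (D + sav χ Nc) :=
    Nat.mul_le_mul_left _ (Nat.add_le_add_left hmono _)
  omega

end Pool.Agent.Lib.BFE
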