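import Pool.Agent.Lib.BFE.Defs
import Pool.Agent.Lib.BFE.MDefs

set_option autoImplicit false
set_option linter.unusedSectionVars false

open Finset
open scoped Classical

namespace Pool.Agent.Lib.BFE

/-- Chunk X1 (S/M, arithmetic): the zone inequality for one size `s = M + 1 - y`.

**Proof.** With `m = M - y`: `D - 1 = M² + t = m (M + y + z) + r`, `r = y² + t - z m ∈ [M/7, m)`. So
`q = (D - 1)/(s - 1) = M + y + z` (`Nat.div_eq_of_lt_le`) and
`s (q - 1) = (m + 1)(M + y + z - 1) = D - r + 2 y + z - 2 ≤ D - M/7 + 2 R + 1`; `8 (M/7) ≥ M + 16 R + 8`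
(`M ≥ R² ≥ 1000 R`). -/
theorem x1_one (D M R t y z : ℕ) (hD : D - 1 = M * M + t) (hD1 : 1 ≤ D) (hR : R * R ≤ M)
    (hR1 : 1000 ≤ R) (hy1 : 1 ≤ y) (hy : y ≤ R) (hz : z ≤ 3)
    (h1 : z * (M - y) + M / 7 ≤ y * y + t) (h2 : y * y + t < (z + 1) * (M - y)) :
    8 * ((M + 1 - y) * ((D - 1) / (M + 1 - y - 1) - 1)) + M ≤ 8 * D := by
  have hRM : 1000 * R ≤ M := (Nat.mul_le_mul_right R hR1).trans hR
  obtain ⟨m, rfl⟩ : ∃ m, M = m + y := ⟨M - y, by omega⟩
  have e1 : m + y + 1 - y = m + 1 := by omega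
  have e2 : m + y - y = m := by omega
  rw [e2] at h1 h2
  rw [e1]
  have e3 : m + 1 - 1 = m := by omega
  rw [e3]
  have hm : 0 < m := by omega
  have hdiv : (D - 1) / m = m + 2 * y + z := by
    rw [hD]
    have hz1 : z * m ≤ y * y + t := le_trans (Nat.le_add_right _ _) h1
    have r1 : (m + 2 * y + z) * m = m * m + 2 * (y * m) + z * m := by ring
    have r2 : (m + y) * (m + y) + t = m * m + 2 * (y * m) + (y * y + t) := by ring
    have r3 : (m + 2 * y + z + 1) * m = m * m + 2 * (y * m) + (z + 1) * m := by ring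
    apply Nat.div_eq_of_lt_le
    · rw [r1, r2]
      exact Nat.add_le_add_left hz1 _
    · rw [r3, r2]
      exact Nat.add_lt_add_left h2 _
  rw [hdiv]
  obtain ⟨k, hk⟩ : ∃ k, m + 2 * y + z = k + 1 := ⟨m + 2 * y + z - 1, by omega⟩
  have e4 : m + 2 * y + z - 1 = k := by omega
  rw [e4]
  have hk' : k = m + 2 * y + z - 1 := by omega
  have h7 : 8 * (m + y) ≤ 7 * (8 * ((m + y) / 7)) + 48 := by omega
  have e5 : (m + 1) * k = m * (k + 1) + k - m := by
    have : m * (k + 1) + k = (m + 1) * k + m := by ring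
    omega
  have hD' : D = (m + y) * (m + y) + t + 1 := by omega
  have e6 : (m + 1) * k + m = m * (m + 2 * y + z) + k := by
    rw [hk]
    ring
  have e7 : (m + 1) * k + 1 = m * (m + 2 * y + z) + 2 * y + z := by omega
  rw [hD']
  nlinarith

end Pool.Agent.Lib.BFE
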