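import Pool.Agent.Lib.BFE.Defs
import Pool.Agent.Lib.BFE.MDefs
import Pool.Agent.Lib.BFE.X1

set_option autoImplicit false
set_option linter.unusedSectionVars false

open Finset
open scoped Classical

namespace Pool.Agent.Lib.BFE

lemma x1b_aux (D M R C G w z t : ℕ) (hD : D - 1 = M * M + t) (hD1 : 1 ≤ D) (R1 : R * R ≤ M)
    (hbig : 10 ^ 9 * (G + C + 1) ≤ R) (hwG : G + 1 ≤ w) (hwR : w + C + 1 ≤ R) (hz : z ≤ 3)
    (h1 : z * M + M / 7 + 2 * (R * (G + C + 1)) ≤ w * w + t)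
    (h2 : w * w + t + 3 * (R * (G + C + 1)) < (z + 1) * (M - R)) :
    ∀ s, M - w ≤ s + C → s ≤ M - w + G →
      8 * (s * ((D - 1) / (s - 1) - 1)) + M ≤ 8 * D := by
  intro s hs1 hs2
  have hR1000 : 1000 ≤ R := by omega
  have hRM : R ≤ M := le_trans (by nlinarith) R1
  obtain ⟨y, hy⟩ : ∃ y, y = M + 1 - s := ⟨_, rfl⟩
  have hsy : s = M + 1 - y := by omega
  have hyle : y ≤ w + 1 + C := by omega
  have hyge : w + 1 ≤ y + G := by omega
  obtain ⟨g, hg⟩ : ∃ g, g = G + C + 1 := ⟨_, rfl⟩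
  rw [← hg] at h1 h2 hbig
  have hgR : g ≤ R := by omega
  have hwR' : w ≤ R := by omega
  have hy1 : 1 ≤ y := by omega
  have hyR : y ≤ R := by omega
  have hywg : y ≤ w + g := by omega
  have hwyg : w ≤ y + g := by omega
  have hlow : w * w ≤ y * y + 2 * (R * g) := by
    rcases le_total w y with h | h
    · have := Nat.mul_le_mul h h
      omega
    · obtain ⟨d, rfl⟩ : ∃ d, w = y + d := ⟨w - y, by omega⟩
      have hd : d ≤ g := by omega
      have e1 : (y + d) * (y + d) = y * y + (2 * y + d) * d := by ring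
      have e2 : (2 * y + d) * d ≤ (2 * R) * g :=
        Nat.mul_le_mul (by omega) hd
      have e3 : (2 * R) * g = 2 * (R * g) := by ring
      omega
  have hup : y * y ≤ w * w + 3 * (R * g) := by
    rcases le_total y w with h | h
    · have := Nat.mul_le_mul h h
      omega
    · obtain ⟨d, rfl⟩ : ∃ d, y = w + d := ⟨y - w, by omega⟩
      have hd : d ≤ g := by omega
      have e1 : (w + d) * (w + d) = w * w + (2 * w + d) * d := by ring
      have e2 : (2 * w + d) * d ≤ (3 * R) * g :=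
        Nat.mul_le_mul (by omega) hd
      have e3 : (3 * R) * g = 3 * (R * g) := by ring
      omega
  rw [hsy]
  refine x1_one D M R t y z hD hD1 R1 hR1000 hy1 hyR hz ?_ ?_
  · have e1 : z * (M - y) ≤ z * M := Nat.mul_le_mul_left z (by omega)
    omega
  · have e1 : (z + 1) * (M - R) ≤ (z + 1) * (M - y) := Nat.mul_le_mul_left _ (by omega)
    omega

/-- Chunk X1B (M, arithmetic): the zone exists.

**Proof.** `n = D - 1 = M² + t`, `0 ≤ t ≤ 2 M`. For `s = m + 1`, `m = M - y`, `1 ≤ y ≤ R`: `n = m (m + 2 y) + y² + t`,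
and with `z = (y² + t)/m ≤ 3` and `r = (y² + t) mod m` the zone inequality at `s` follows from `r ≥ M/7`: this is
`x1_one`.
Candidates `b0 = M - R/2` and `b0 = M - 3 (R/4)`. The sizes `s` with `b0 ≤ s + C`, `s ≤ b0 + G` have
`y = M + 1 - s ∈ [M + 1 - b0 - G, M + 1 - b0 + C]`, so `|y² - (M - b0)²| ≤ 2 R (G + C + 1) + (G + C + 1)²` and
`(M - b0)²` is `M/4` resp. `9 M/16` up to `4 R` (`R² ≤ M < (R+1)²`): altogether `|y² - M/4| ≤ M / 1000` resp.
`|y² - 9 M/16| ≤ M/1000` (`10^9 (G + C + 1) ≤ R`, `R² ≤ M`). Let `v = (M/4 + t) mod M` (real or integer part).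
If `0.16 M ≤ v ≤ 0.98 M` take the first candidate: `y² + t` is within `M/1000` of `M/4 + t`, and `m = M - y` with
`y ≤ R`, quotient `z ≤ 3`, so `r = (y² + t) - z m ∈ [v - M/500 - 3 R, v + M/500 + 3 R]`, in particular
`r ≥ M/7` (and no wrap-around). Otherwise `v + 5 M/16` modulo `M` lies in `[0.29 M, 0.48 M]`, and the second
candidate works in the same way. (One may split into the cases `t < c₁ M`, `c₁ M ≤ t < c₂ M`, … instead of
using `mod`: first candidate for `t ≤ 0.72 M` or `0.92 M ≤ t ≤ 1.72 M` or `t ≥ 1.92 M`, second candidate for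
`0.72 M ≤ t ≤ 0.92 M` and `1.72 M ≤ t ≤ 1.92 M`.) `b0 + R/3 ≤ M`, `M ≤ b0 + R`: clear. -/
theorem x1_zone (D M R C G : ℕ) (M1 : M * M ≤ D - 1) (M2 : D - 1 < (M + 1) * (M + 1))
    (R1 : R * R ≤ M) (R2 : M < (R + 1) * (R + 1)) (hbig : 10 ^ 9 * (G + C + 1) ≤ R) :
    ∃ b0 : ℕ, b0 + R / 3 ≤ M ∧ M ≤ b0 + R ∧
      ∀ s, b0 ≤ s + C → s ≤ b0 + G → 8 * (s * ((D - 1) / (s - 1) - 1)) + M ≤ 8 * D := by
  have hR9 : 10 ^ 9 ≤ R := by omega
  have hRM : 10 ^ 9 * R ≤ M := (Nat.mul_le_mul_right R hR9).trans R1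
  have hD1 : 1 ≤ D := by
    by_contra hcon
    have : D - 1 = 0 := by omega
    have hM0 : 0 < M := by omega
    have h1 : 0 < M * M := Nat.mul_pos hM0 hM0
    omega
  obtain ⟨t, ht⟩ : ∃ t, D - 1 = M * M + t := ⟨D - 1 - M * M, by omega⟩
  have ht2 : t ≤ 2 * M := by
    have : (M + 1) * (M + 1) = M * M + 2 * M + 1 := by ring
    omega
  have hg : 10 ^ 9 * (R * (G + C + 1)) ≤ M := by
    have h1 : R * (10 ^ 9 * (G + C + 1)) ≤ R * R := Nat.mul_le_mul_left R hbig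
    have h2 : R * (10 ^ 9 * (G + C + 1)) = 10 ^ 9 * (R * (G + C + 1)) := by ring
    omega
  have hMR : M ≤ R * R + 2 * R := by
    have : (R + 1) * (R + 1) = R * R + 2 * R + 1 := by ring
    omega
  -- the two candidates
  obtain ⟨k, hk⟩ : ∃ k, k = R / 2 := ⟨_, rfl⟩
  obtain ⟨j, hj⟩ : ∃ j, j = R / 4 := ⟨_, rfl⟩
  have hk1 : 2 * k ≤ R := by omega
  have hk2 : R ≤ 2 * k + 1 := by omega
  have hj1 : 4 * j ≤ R := by omega
  have hj2 : R ≤ 4 * j + 3 := by omega
  have hw1a : 4 * (k * k) ≤ M := by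
    have : (2 * k) * (2 * k) ≤ R * R := Nat.mul_le_mul hk1 hk1
    have e : (2 * k) * (2 * k) = 4 * (k * k) := by ring
    omega
  have hw1b : M ≤ 4 * (k * k) + 6 * R := by
    have : R * R ≤ (2 * k + 1) * (2 * k + 1) := Nat.mul_le_mul hk2 hk2
    have e : (2 * k + 1) * (2 * k + 1) = 4 * (k * k) + 4 * k + 1 := by ring
    omega
  have hw2a : 16 * (3 * j * (3 * j)) ≤ 9 * M := by
    have : (4 * j) * (4 * j) ≤ R * R := Nat.mul_le_mul hj1 hj1
    have e : 16 * (3 * j * (3 * j)) = 9 * ((4 * j) * (4 * j)) := by ring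
    omega
  have hw2b : 9 * M ≤ 16 * (3 * j * (3 * j)) + 90 * R := by
    have : R * R ≤ (4 * j + 3) * (4 * j + 3) := Nat.mul_le_mul hj2 hj2
    have e : (4 * j + 3) * (4 * j + 3) = (4 * j) * (4 * j) + 24 * j + 9 := by ring
    have e2 : 16 * (3 * j * (3 * j)) = 9 * ((4 * j) * (4 * j)) := by ring
    omega
  have hc1 : t * 10 ≤ 7 * M ∨ (7 * M ≤ t * 10 ∧ t * 10 ≤ 13 * M) ∨
      (13 * M ≤ t * 10 ∧ t * 10 ≤ 17 * M) ∨ 17 * M ≤ t * 10 := by omega
  rcases hc1 with h | h | h | h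
  · refine ⟨M - k, by omega, by omega, x1b_aux D M R C G k 0 t ht hD1 R1 hbig (by omega)
      (by omega) (by norm_num) (by omega) (by omega)⟩
  · refine ⟨M - 3 * j, by omega, by omega, x1b_aux D M R C G (3 * j) 1 t ht hD1 R1 hbig (by omega)
      (by omega) (by norm_num) (by omega) (by omega)⟩
  · refine ⟨M - k, by omega, by omega, x1b_aux D M R C G k 1 t ht hD1 R1 hbig (by omega)
      (by omega) (by norm_num) (by omega) (by omega)⟩
  · refine ⟨M - 3 * j, by omega, by omega, x1b_aux D M R C G (3 * j) 2 t ht hD1 R1 hbig (by omega)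
      (by omega) (by norm_num) (by omega) (by omega)⟩

end Pool.Agent.Lib.BFE
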