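import Pool.Agent.Lib.BFE.Defs
import Pool.Agent.Lib.BFE.X1B

set_option autoImplicit false
set_option linter.unusedSectionVars false

open Finset
open scoped Classical

namespace Pool.Agent.Lib.BFE

/-- an exponential beats a polynomial of degree four -/
theorem x2_exp (W : ℕ) : ∃ k0 : ℕ, 1 ≤ k0 ∧ ∀ k, k0 ≤ k → (W * k) ^ 4 + 1 ≤ 2 ^ k := by
  have h := tendsto_pow_const_div_const_pow_of_one_lt 4 (r := (2 : ℝ)) (by norm_num)
  have hpos : (0 : ℝ) < 1 / ((W : ℝ) ^ 4 + 1) := by positivity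
  have h2 := (h.eventually (gt_mem_nhds hpos))
  obtain ⟨k0, hk0⟩ := Filter.eventually_atTop.1 h2
  refine ⟨max 1 k0, le_max_left _ _, fun k hk => ?_⟩
  have h3 := hk0 k ((le_max_right _ _).trans hk)
  have hk1 : 1 ≤ k := (le_max_left _ _).trans hk
  rw [div_lt_div_iff₀ (by positivity) (by positivity)] at h3
  have h4 : ((k : ℝ) ^ 4 * ((W : ℝ) ^ 4 + 1)) < 2 ^ k := by linarith
  have h5 : (k ^ 4 * (W ^ 4 + 1)) < 2 ^ k := by exact_mod_cast h4
  have h6 : 1 ≤ k ^ 4 := Nat.one_le_pow _ _ hk1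
  rw [mul_pow]
  nlinarith

/-- Chunk X2 (M): parameters exist for large `D`.

**Proof.** `M = Nat.sqrt (D - 1)`, `R = Nat.sqrt M`, `l = 20 * (Nat.log 2 D + 1)` (`D < 2^(log + 1)`), `b0` from
`x1_zone`. For large `D`: `10^12 (l + G + 1) ≤ R` and `K0 ≤ R`, because `R ≥ D^(1/4) / 2` grows faster than the
logarithm: for instance with `k = Nat.log 2 D`: `2^k ≤ D`, so `(R+1)^4 > M + …`, `R + 2 ≥ 2^(k/4)`, and
`2^(k/4) ≥ 10^13 (20 k + 20 + G + K0 + 10)` for `k` large (exponential beats linear). The remaining fields are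
hypotheses. -/
theorem x2_par (C G K0 : ℕ) (hC : 1000 ≤ C) (hG : G = 20 * C + 40) (hK1 : 10 ^ 11 ≤ K0)
    (hK2 : 1000 * G ≤ K0) :
    ∃ N : ℕ, ∀ D, N ≤ D → ∃ M R l b0, Par D M R l C G b0 K0 ∧ 4 * K0 + 4 ≤ b0 := by
  obtain ⟨k0, hk01, hk0⟩ := x2_exp (10 ^ 12 * (41 + G) + K0)
  refine ⟨2 ^ k0, fun D hD => ?_⟩
  have hD0 : D ≠ 0 := by
    have := Nat.one_le_two_pow (n := k0)
    omega
  set k := Nat.log 2 D with hk
  have hkk : k0 ≤ k := by
    rw [hk]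
    exact (Nat.le_log_iff_pow_le (by norm_num) hD0).2 hD
  have hk1 : 1 ≤ k := hk01.trans hkk
  have h1 := hk0 k hkk
  have h2 : 2 ^ k ≤ D := Nat.pow_log_le_self 2 hD0
  have h3 : D < 2 ^ (k + 1) := Nat.lt_pow_succ_log_self (by norm_num) D
  set M := Nat.sqrt (D - 1) with hM
  set R := Nat.sqrt M with hR
  have hB : (10 ^ 12 * (41 + G) + K0) * k ≤ R := by
    rw [hR, Nat.le_sqrt, hM, Nat.le_sqrt]
    have e : ((10 ^ 12 * (41 + G) + K0) * k) * ((10 ^ 12 * (41 + G) + K0) * k) *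
        (((10 ^ 12 * (41 + G) + K0) * k) * ((10 ^ 12 * (41 + G) + K0) * k)) =
        ((10 ^ 12 * (41 + G) + K0) * k) ^ 4 := by ring
    rw [e]
    omega
  have hbig : 10 ^ 12 * (20 * (k + 1) + G + 1) + K0 ≤ R := by
    refine le_trans ?_ hB
    nlinarith
  have hM1 : M * M ≤ D - 1 := Nat.sqrt_le _
  have hM2 : D - 1 < (M + 1) * (M + 1) := Nat.lt_succ_sqrt _
  have hR1 : R * R ≤ M := Nat.sqrt_le _
  have hR2 : M < (R + 1) * (R + 1) := Nat.lt_succ_sqrt _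
  obtain ⟨b0, hb1, hb2, hb3⟩ := x1_zone D M R C G hM1 hM2 hR1 hR2 (by omega)
  refine ⟨M, R, 20 * (k + 1), b0, ⟨hM1, hM2, hR1, hR2, by omega, hC, hG, ?_, hK1, hK2, by omega, hb1, hb2, hb3⟩, ?_⟩
  · rw [mul_comm 20 (k + 1), pow_mul]
    exact Nat.pow_le_pow_left h3.le 20
  · have h5 : 10 ^ 12 * R ≤ R * R := Nat.mul_le_mul_right _ (by omega)
    omega

end Pool.Agent.Lib.BFE
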