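import Pool.Agent.Lib.BFE.Defs
import Pool.Agent.Lib.BFE.MDefs

set_option autoImplicit false
set_option linter.unusedSectionVars false

open Finset
open scoped Classical

namespace Pool.Agent.Lib.BFE

variable {V : Type} [DecidableEq V]

/-- Chunk Y1 (M): the weights of the lists of the uncoloured edges.

**Proof.** Real numbers; `b = bs b0 (i+1) ≥ K0 = 2 * 10^11 n²`. Let `U_v = {e ∈ E : v ∈ e, χ e = none}`, and `L` the
lower bounds `hL1`, `hL2` for the list sizes `L e`. Edges with `4 n |e| ≤ b - 1`: `L e ≥ (1 - 1/(4n)) D` by `hL2`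
(`(b - 1)(D - L e) ≤ |e| D`), there are at most `(1 - 1/n) D` of them, so they contribute at most
`(1 - 1/n)/(1 - 1/(4n)) ≤ 1 - 3/(4n)`. Edges with `4 n |e| > b - 1`: `|e| - 1 ≥ (b - 1)/(4n) - 1 ≥ 4.9 * 10^10 n`,
by `Hyp.vol` at most `D / (4.9 * 10^10 n)` of them, each contributes at most `10^10 / D` (`hL1`), together at most
`1/(4.9 n) ≤ 1/(4n)`. Sum at most `1 - 1/(2n)`. -/
theorem y1_load {E : Finset (Finset V)} {D : ℕ} (H : Hyp E D) (n b : ℕ) (hn : 1 ≤ n)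
    (hb : 2 * 10 ^ 11 * n ^ 2 ≤ b) (v : V)
    (hdeg : n * (E.filter fun e => v ∈ e).card ≤ (n - 1) * D)
    (U : Finset (Finset V)) (hU : U ⊆ E) (L : Finset V → ℕ)
    (hL1 : ∀ e ∈ U, D ≤ 10 ^ 10 * L e) (hL2 : ∀ e ∈ U, (b - 1) * D ≤ (b - 1) * L e + e.card * D) :
    ∑ e ∈ U.filter (fun e => v ∈ e), 1 / (L e : ℝ) ≤ 1 - 1 / (2 * n) := by
  classical
  have hD : 1 ≤ D := H.D_pos
  have hDr : (1 : ℝ) ≤ D := by exact_mod_cast hD
  have hD0 : (0 : ℝ) < D := by linarith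
  have hnr : (1 : ℝ) ≤ n := by exact_mod_cast hn
  have hn0 : (0 : ℝ) < n := by linarith
  have hbr : 2 * 10 ^ 11 * (n : ℝ) ^ 2 ≤ (b : ℝ) := by exact_mod_cast hb
  have hb1 : 1 ≤ b := by
    have : 1 ≤ 2 * 10 ^ 11 * n ^ 2 := by
      have : 1 ≤ n ^ 2 := Nat.one_le_pow _ _ hn
      omega
    omega
  have hbc : ((b - 1 : ℕ) : ℝ) = (b : ℝ) - 1 := by
    rw [Nat.cast_sub hb1, Nat.cast_one]
  have hnc : ((n - 1 : ℕ) : ℝ) = (n : ℝ) - 1 := by
    rw [Nat.cast_sub hn, Nat.cast_one]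
  have hn2 : (n : ℝ) ≤ (n : ℝ) ^ 2 := by nlinarith
  have hbpos : (0 : ℝ) < (b : ℝ) - 1 := by nlinarith
  -- the degree
  have hdegr : (n : ℝ) * ((E.filter fun e => v ∈ e).card : ℝ) ≤ ((n : ℝ) - 1) * D := by
    rw [← hnc]; exact_mod_cast hdeg
  set F := U.filter (fun e => v ∈ e) with hF
  have hFE : F ⊆ E.filter (fun e => v ∈ e) := Finset.filter_subset_filter _ hU
  have hsplit : ∑ e ∈ F, 1 / (L e : ℝ) =
      ∑ e ∈ F.filter (fun e => 4 * (n : ℝ) * e.card ≤ (b : ℝ) - 1), 1 / (L e : ℝ) +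
      ∑ e ∈ F.filter (fun e => ¬ 4 * (n : ℝ) * e.card ≤ (b : ℝ) - 1), 1 / (L e : ℝ) :=
    (Finset.sum_filter_add_sum_filter_not _ _ _).symm
  have h4n : (0 : ℝ) < 4 * n - 1 := by linarith
  -- small edges
  have p1 : ∑ e ∈ F.filter (fun e => 4 * (n : ℝ) * e.card ≤ (b : ℝ) - 1), 1 / (L e : ℝ) ≤
      1 - 3 / (4 * n) := by
    have e1 : ∀ e ∈ F.filter (fun e => 4 * (n : ℝ) * e.card ≤ (b : ℝ) - 1),
        1 / (L e : ℝ) ≤ 4 * n / ((4 * n - 1) * D) := by
      intro e he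
      rw [Finset.mem_filter] at he
      have heU : e ∈ U := (Finset.mem_filter.1 he.1).1
      have h2 := hL2 e heU
      have h2r : ((b : ℝ) - 1) * D ≤ ((b : ℝ) - 1) * L e + e.card * D := by
        rw [← hbc]; exact_mod_cast h2
      have h3 : ((b : ℝ) - 1) * ((4 * n - 1) * D) ≤ ((b : ℝ) - 1) * (4 * n * L e) := by
        have h4 : 4 * (n : ℝ) * e.card * D ≤ ((b : ℝ) - 1) * D :=
          mul_le_mul_of_nonneg_right he.2 hD0.le
        nlinarith
      have h5 : (4 * (n : ℝ) - 1) * D ≤ 4 * n * L e := le_of_mul_le_mul_left h3 hbpos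
      have h6 : (0 : ℝ) < (4 * n - 1) * D := mul_pos h4n hD0
      have hLp : (0 : ℝ) < L e := by
        by_contra hcon
        have : (L e : ℝ) ≤ 0 := not_lt.1 hcon
        nlinarith
      rw [div_le_div_iff₀ hLp h6]
      linarith
    have e2 := Finset.sum_le_card_nsmul _ _ _ e1
    rw [nsmul_eq_mul] at e2
    have e3 : ((F.filter (fun e => 4 * (n : ℝ) * e.card ≤ (b : ℝ) - 1)).card : ℝ) ≤
        ((E.filter fun e => v ∈ e).card : ℝ) := by
      exact_mod_cast Finset.card_le_card ((Finset.filter_subset _ _).trans hFE)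
    have e4 : (0 : ℝ) ≤ 4 * n / ((4 * n - 1) * D) := by positivity
    refine e2.trans ?_
    have e5 : ((F.filter (fun e => 4 * (n : ℝ) * e.card ≤ (b : ℝ) - 1)).card : ℝ) *
        (4 * n / ((4 * n - 1) * D)) ≤
        ((E.filter fun e => v ∈ e).card : ℝ) * (4 * n / ((4 * n - 1) * D)) :=
      mul_le_mul_of_nonneg_right e3 e4
    refine e5.trans ?_
    have e6 : ((E.filter fun e => v ∈ e).card : ℝ) * (4 * n / ((4 * n - 1) * D)) =
        4 * (n * ((E.filter fun e => v ∈ e).card : ℝ)) / ((4 * n - 1) * D) := by ring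
    rw [e6, div_le_iff₀ (mul_pos h4n hD0)]
    have e7 : (1 - 3 / (4 * (n : ℝ))) * ((4 * n - 1) * D) =
        (4 * n - 4) * D + 3 / (4 * n) * D := by
      field_simp
      ring
    rw [e7]
    have e8 : (0 : ℝ) ≤ 3 / (4 * n) * D := by positivity
    nlinarith
  -- large edges
  have p2 : ∑ e ∈ F.filter (fun e => ¬ 4 * (n : ℝ) * e.card ≤ (b : ℝ) - 1), 1 / (L e : ℝ) ≤
      1 / (4 * n) := by
    have e1 : ∀ e ∈ F.filter (fun e => ¬ 4 * (n : ℝ) * e.card ≤ (b : ℝ) - 1),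
        1 / (L e : ℝ) ≤ 10 ^ 10 / D := by
      intro e he
      rw [Finset.mem_filter] at he
      have heU : e ∈ U := (Finset.mem_filter.1 he.1).1
      have h2 : (D : ℝ) ≤ 10 ^ 10 * L e := by exact_mod_cast hL1 e heU
      have hLp : (0 : ℝ) < L e := by
        by_contra hcon
        have : (L e : ℝ) ≤ 0 := not_lt.1 hcon
        nlinarith
      rw [div_le_div_iff₀ hLp hD0]
      linarith
    have e2 := Finset.sum_le_card_nsmul _ _ _ e1
    rw [nsmul_eq_mul] at e2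
    refine e2.trans ?_
    have e3 : ∀ e ∈ F.filter (fun e => ¬ 4 * (n : ℝ) * e.card ≤ (b : ℝ) - 1),
        4 * 10 ^ 10 * (n : ℝ) ≤ ((e.card - 1 : ℕ) : ℝ) := by
      intro e he
      rw [Finset.mem_filter] at he
      have h2 : (b : ℝ) - 1 < 4 * n * e.card := not_le.1 he.2
      have heE : e ∈ E := hU (Finset.mem_filter.1 he.1).1
      have h3 : 2 ≤ e.card := H.size e heE
      rw [Nat.cast_sub (by omega), Nat.cast_one]
      have h4 : (n : ℝ) * (8 * 10 ^ 10 * 2 * n + 4) ≤ 4 * n * e.card := by nlinarith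
      have h5 : (n : ℝ) * (8 * 10 ^ 10 * 2 * n + 4) ≤ n * (4 * e.card) := by linarith
      have h6 := le_of_mul_le_mul_left h5 hn0
      linarith
    have e4 := Finset.card_nsmul_le_sum _ _ _ e3
    rw [nsmul_eq_mul] at e4
    have e5 : ∑ e ∈ F.filter (fun e => ¬ 4 * (n : ℝ) * e.card ≤ (b : ℝ) - 1),
        ((e.card - 1 : ℕ) : ℝ) ≤ D := by
      have h1 : ∑ e ∈ F.filter (fun e => ¬ 4 * (n : ℝ) * e.card ≤ (b : ℝ) - 1), (e.card - 1) ≤
          ∑ e ∈ E.filter (fun e => v ∈ e), (e.card - 1) :=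
        Finset.sum_le_sum_of_subset ((Finset.filter_subset _ _).trans hFE)
      have h2 := H.vol v
      have h3 : ∑ e ∈ F.filter (fun e => ¬ 4 * (n : ℝ) * e.card ≤ (b : ℝ) - 1), (e.card - 1) ≤ D := by
        omega
      exact_mod_cast h3
    have e6 := e4.trans e5
    rw [← mul_div_assoc, div_le_div_iff₀ hD0 (by positivity)]
    nlinarith
  rw [hsplit]
  have e9 : (1 : ℝ) - 1 / (2 * n) = (1 - 3 / (4 * n)) + 1 / (4 * n) := by
    field_simp
    ring
  rw [e9]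
  exact add_le_add p1 p2

end Pool.Agent.Lib.BFE
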