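import Pool.Agent.Lib.BFE.Defs
import Pool.Agent.Lib.BFE.Y1
import Pool.Agent.Lib.BFE.N12B
import Pool.Agent.Lib.BFE.S8
import Pool.Agent.Lib.BFE.S9
import Pool.Agent.Lib.BFE.S10
import Pool.Agent.Lib.BFE.A5
import Pool.Agent.Lib.BFE.X2

set_option autoImplicit false
set_option linter.unusedSectionVars false

open Finset
open scoped Classical

namespace Pool.Agent.Lib.BFE

variable {V : Type} [DecidableEq V]

/-- the colours not used by coloured neighbours -/
noncomputable def y2_L (E : Finset (Finset V)) (D : ℕ) (χ : Finset V → Option (Fin D)) (e : Finset V) : Finset (Fin D) :=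
  univ.filter fun c => ∀ g ∈ E, Nb e g → χ g ≠ some c

lemma y2_card (E : Finset (Finset V)) (D : ℕ) (χ : Finset V → Option (Fin D)) (e : Finset V) :
    D + sav χ (E.filter fun g => Nb e g ∧ χ g ≠ none) ≤
      (y2_L E D χ e).card + (E.filter fun g => Nb e g ∧ χ g ≠ none).card := by
  set A := E.filter fun g => Nb e g ∧ χ g ≠ none with hA
  have h1 : A.filter (fun g => χ g ≠ none) = A := by
    refine filter_true_of_mem fun g hg => ?_
    rw [hA, mem_filter] at hg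
    exact hg.2.2
  have h2 : sav χ A = A.card - (A.image χ).card := by
    unfold sav
    rw [h1]
    congr
    exact Subsingleton.elim _ _
  have h3 : (A.image χ).card ≤ A.card := card_image_le
  have h4 : ((y2_L E D χ e)ᶜ).card ≤ (A.image χ).card := by
    refine card_le_card_of_injOn (fun c => some c) ?_ ?_
    · intro c hc
      rw [mem_coe, mem_compl] at hc
      have h5 : ¬ ∀ g ∈ E, Nb e g → χ g ≠ some c := by
        intro h
        exact hc (mem_filter.2 ⟨mem_univ _, h⟩)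
      push Not at h5
      obtain ⟨g, hg, hn, hc⟩ := h5
      rw [mem_coe, mem_image]
      refine ⟨g, ?_, hc⟩
      rw [hA, mem_filter]
      refine ⟨hg, hn, ?_⟩
      rw [hc]
      exact Option.some_ne_none c
    · intro c _ c' _ h
      exact Option.some_injective _ h
  have h5 := card_add_card_compl (y2_L E D χ e)
  rw [Fintype.card_fin] at h5
  omega

lemma y2_sum (U : Finset (Finset V)) (v : V) (f : Finset V → ℝ) :
    ∑ i ∈ (univ : Finset {e // e ∈ U}).filter (fun i => v ∈ i.1), f i.1 = ∑ e ∈ U.filter (fun e => v ∈ e), f e := by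
  rw [sum_filter, sum_filter]
  exact Finset.sum_coe_sort U (fun e => if v ∈ e then f e else 0)

/-- Chunk Y2 (M): **the theorem for hypergraphs in the form `Hyp`**.

**Proof.** Given `n`, put `C = 1000 n²`, `G = 20 C + 40`, `K0 = 2 * 10^11 n²` (so `K0 ≤ 2 * 10^8 C`,
`1000 G = 2 * 10^7 n² + 40000 ≤ K0`), `K = 4 K0 + 4 + G + C`, `N₁` from `n12_nibble K (1/(2n)) (10^(-10))`, `N₂` from
`x2_par`, `N = max N₁ N₂`. Let `D ≥ N`; parameters from `x2_par`. By `a5_last` there is `j` with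
`K0 ≤ bs b0 j < 4 K0 + 4 ≤ b0`, so `j = i + 1`. `s8_chain`: a state `χ` at `b = bs b0 (i+1)`. Let
`U = {e ∈ E : χ e = none}`, `ι = {e // e ∈ U}`, `vt e = e`, `C = Fin D`, `L e` the colours not used by coloured
neighbours of `e`: `|L e| = D - (|Nc| - sav χ Nc)`, `Nc = {g ∈ E : Nb e g, χ g ≠ none}` (the colours used on `Nc`
are `|Nc| - sav` many). An edge of `U` has `|e| < b + G` or (`s10_lazy`) `|e| < b + G + C`: `LinSys vt K`
(`Hyp.lin`). `|L e| ≥ 10^(-10) D`: `s9_small` or `s10_lazy` (`|L e| ≥ D - |Nc| ≥ D/10`). `hL2` of `y1_load`: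
`|L e| ≥ D - |Nc|` and `s10_count`. So `n12_nibble` gives `φ`; colour `e` by `χ e` if it is coloured and by `φ e`
otherwise. Proper: `State.proper`, lists, `φ`; `adjV` for `ι` is `Nb`. -/
theorem y2_main (n : ℕ) (hn : 1 ≤ n) : ∃ N : ℕ, ∀ (V : Type) [DecidableEq V]
    (E : Finset (Finset V)) (D : ℕ), N ≤ D → Hyp E D →
    (∀ v, n * (E.filter fun e => v ∈ e).card ≤ (n - 1) * D) →
    ∃ c : Finset V → Fin D, ∀ e ∈ E, ∀ f ∈ E, e ≠ f → ¬ Disjoint e f → c e ≠ c f := by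
  obtain ⟨C, hC⟩ : ∃ C : ℕ, C = 1000 * n ^ 2 := ⟨_, rfl⟩
  obtain ⟨G, hG⟩ : ∃ G : ℕ, G = 20 * C + 40 := ⟨_, rfl⟩
  obtain ⟨K0, hK0⟩ : ∃ K0 : ℕ, K0 = 2 * 10 ^ 11 * n ^ 2 := ⟨_, rfl⟩
  have hn2 : 1 ≤ n ^ 2 := Nat.one_le_pow _ _ hn
  have hC1 : 1000 ≤ C := by omega
  have hK1 : 10 ^ 11 ≤ K0 := by
    rw [hK0]
    nlinarith
  have hK2 : 1000 * G ≤ K0 := by
    rw [hK0, hG, hC]
    norm_num
    nlinarith
  have hKC : K0 ≤ 2 * 10 ^ 8 * C := by
    rw [hK0, hC]
    refine le_of_eq ?_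
    ring
  have hnr : (1 : ℝ) ≤ n := by exact_mod_cast hn
  have hnr0 : (0 : ℝ) < n := by linarith
  have hε : (0 : ℝ) < 1 / (2 * n) := by positivity
  have hε1 : (1 : ℝ) / (2 * n) ≤ 1 := by
    rw [div_le_one (by positivity)]
    linarith
  obtain ⟨N1, hN1, hnib⟩ := n12_nibble (4 * K0 + 4 + G + C) (1 / (2 * n)) (1 / 10 ^ 10) (by omega) hε hε1 (by positivity)
  obtain ⟨N2, hN2⟩ := x2_par C G K0 hC1 hG hK1 hK2
  refine ⟨max N1 N2, ?_⟩
  intro V _ E D hD H hdeg
  have hD1 : N1 ≤ D := (le_max_left _ _).trans hD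
  have hD2 : N2 ≤ D := (le_max_right _ _).trans hD
  obtain ⟨M, R, l, b0, P, hb0⟩ := hN2 D hD2
  obtain ⟨j, hj1, hj2⟩ := a5_last b0 K0 (by omega) (by omega)
  obtain ⟨i, rfl⟩ : ∃ i, j = i + 1 := by
    cases j with
    | zero =>
      exfalso
      have h1 : bs b0 0 = b0 := rfl
      omega
    | succ i => exact ⟨i, rfl⟩
  obtain ⟨χ, hS⟩ := s8_chain H P (i + 1) hj1
  obtain ⟨b, hb⟩ : ∃ b, b = bs b0 (i + 1) := ⟨_, rfl⟩
  obtain ⟨U, hU⟩ : ∃ U : Finset (Finset V), U = E.filter fun e => χ e = none := ⟨_, rfl⟩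
  have hUE : U ⊆ E := by
    rw [hU]
    exact filter_subset _ _
  have hU0 : ∀ e ∈ U, e ∈ E ∧ χ e = none := fun e he => by
    rw [hU, mem_filter] at he
    exact he
  have hU1 : ∀ e ∈ E, e ∉ U → χ e ≠ none := fun e he he' h => he' (by
    rw [hU, mem_filter]
    exact ⟨he, h⟩)
  -- sizes and lists
  have hsize : ∀ e ∈ U, e.card ≤ 4 * K0 + 4 + G + C := by
    intro e he
    rcases lt_or_ge e.card (bs b0 (i + 1) + G) with h | h
    · omega
    · have h1 := (s10_lazy H P i hj1 χ hS (hU0 e he).1 (hU0 e he).2 h).1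
      omega
  have hL1 : ∀ e ∈ U, D ≤ 10 ^ 10 * (y2_L E D χ e).card := by
    intro e he
    have h0 := y2_card E D χ e
    rcases lt_or_ge e.card (bs b0 (i + 1) + G) with h | h
    · have h1 := s9_small H P hKC i hj1 hj2 χ hS (hU0 e he).1 h
      omega
    · have h1 := (s10_lazy H P i hj1 χ hS (hU0 e he).1 (hU0 e he).2 h).2
      omega
  have hL2 : ∀ e ∈ U, (b - 1) * D ≤ (b - 1) * (y2_L E D χ e).card + e.card * D := by
    intro e he
    have h0 := y2_card E D χ e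
    have h1 := s10_count H (bs b0 (i + 1)) χ hS (hU0 e he).1
    rw [← hb] at h1
    have h2 : D ≤ (y2_L E D χ e).card + (E.filter fun g => Nb e g ∧ χ g ≠ none).card := by omega
    have h3 : (b - 1) * D ≤ (b - 1) * (y2_L E D χ e).card +
        (b - 1) * (E.filter fun g => Nb e g ∧ χ g ≠ none).card := by
      rw [← Nat.mul_add]
      exact Nat.mul_le_mul_left _ h2
    have h4 : e.card * (D - e.card) ≤ e.card * D := Nat.mul_le_mul_left _ (Nat.sub_le _ _)
    omega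
  have hload : ∀ v, ∑ i ∈ (univ : Finset {e // e ∈ U}).filter (fun i => v ∈ i.1),
      1 / ((y2_L E D χ i.1).card : ℝ) ≤ 1 - 1 / (2 * n) := by
    intro v
    rw [y2_sum U v (fun e => 1 / ((y2_L E D χ e).card : ℝ))]
    refine y1_load H n b hn ?_ v (hdeg v) U hUE (fun e => (y2_L E D χ e).card) hL1 hL2
    rw [hb, ← hK0]
    exact hj1
  obtain ⟨φ, hφ1, hφ2⟩ := hnib {e // e ∈ U} V (Fin D) (fun i => i.1) (fun i => y2_L E D χ i.1)
    (by rw [Fintype.card_fin]; exact hD1)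
    ⟨fun i => hsize i.1 i.2, fun i j hij => H.lin i.1 (hUE i.2) j.1 (hUE j.2) fun h => hij (Subtype.ext h)⟩
    (fun i => by
      rw [Fintype.card_fin]
      have h1 : (D : ℝ) ≤ 10 ^ 10 * ((y2_L E D χ i.1).card : ℝ) := by exact_mod_cast hL1 i.1 i.2
      rw [div_mul_eq_mul_div, one_mul, div_le_iff₀ (by positivity)]
      linarith) hload
  have hDp : 0 < D := H.D_pos
  refine ⟨fun e => if h : e ∈ U then φ ⟨e, h⟩ else (χ e).getD ⟨0, hDp⟩, ?_⟩
  have hget : ∀ e, ∀ c : Fin D, χ e = some c → (χ e).getD ⟨0, hDp⟩ = c := fun e c h => by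
    rw [h]
    rfl
  have hmix : ∀ e ∈ E, ∀ f ∈ E, e ≠ f → ¬ Disjoint e f → ∀ he : e ∈ U, f ∉ U → φ ⟨e, he⟩ ≠ (χ f).getD ⟨0, hDp⟩ := by
    intro e _ f hf hne hd he hfU heq
    obtain ⟨c, hc⟩ := Option.ne_none_iff_exists'.1 (hU1 f hf hfU)
    rw [hget f c hc] at heq
    have h1 := hφ1 ⟨e, he⟩
    unfold y2_L at h1
    rw [mem_filter] at h1
    refine h1.2 f hf ⟨hne, hd⟩ ?_
    rw [heq]
    exact hc
  intro e he f hf hne hd
  by_cases heU : e ∈ U
  · by_cases hfU : f ∈ U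
    · simp only [dif_pos heU, dif_pos hfU]
      exact hφ2 ⟨e, heU⟩ ⟨f, hfU⟩ ⟨fun h => hne (congrArg Subtype.val h), hd⟩
    · simp only [dif_pos heU, dif_neg hfU]
      exact hmix e he f hf hne hd heU hfU
  · by_cases hfU : f ∈ U
    · simp only [dif_neg heU, dif_pos hfU]
      exact fun h => hmix f hf e he hne.symm (fun h => hd h.symm) hfU heU h.symm
    · simp only [dif_neg heU, dif_neg hfU]
      intro h
      obtain ⟨c, hc⟩ := Option.ne_none_iff_exists'.1 (hU1 e he heU)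
      obtain ⟨c', hc'⟩ := Option.ne_none_iff_exists'.1 (hU1 f hf hfU)
      rw [hget e c hc, hget f c' hc'] at h
      refine hS.proper e f ⟨hne, hd⟩ (hU1 e he heU) ?_
      rw [hc, hc', h]

end Pool.Agent.Lib.BFE
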