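import Pool.Agent.Lib.BFE.Defs
import Pool.Agent.Lib.BFE.Y2

set_option autoImplicit false
set_option linter.unusedSectionVars false

open Finset
open scoped Classical

namespace Pool.Agent.Lib.BFE

variable {V : Type} [DecidableEq V]

/-- the closed neighbourhood of `v`: the union of the edges through `v` -/
noncomputable def nbhd (E : Finset (Finset V)) (v : V) : Finset V :=
  (E.filter fun e => v ∈ e).biUnion id

/-- Chunk Y3 (S/M): closed neighbourhoods and volumes.

**Proof.** If no edge contains `v` the sum is empty. Otherwise `nbhd E v = {v} ∪ ⋃_{e ∋ v} (e \ {v})`, a disjoint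
union (two different edges through `v` have only `v` in common), so `|nbhd| = 1 + ∑ (|e| - 1)`
(`card_biUnion`). -/
theorem y3_vol {E : Finset (Finset V)} (hlin : ∀ e ∈ E, ∀ f ∈ E, e ≠ f → (e ∩ f).card ≤ 1) (D : ℕ)
    (v : V) (h : (nbhd E v).card ≤ D) :
    ∑ e ∈ E.filter (fun e => v ∈ e), (e.card - 1) ≤ D - 1 := by
  classical
  rcases (E.filter fun e => v ∈ e).eq_empty_or_nonempty with h0 | h0
  · rw [h0, Finset.sum_empty]
    exact Nat.zero_le _
  · have hv : v ∈ nbhd E v := by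
      obtain ⟨e, he⟩ := h0
      unfold nbhd
      exact Finset.mem_biUnion.2 ⟨e, he, (Finset.mem_filter.1 he).2⟩
    have hsub : (E.filter fun e => v ∈ e).biUnion (fun e => e.erase v) ⊆ (nbhd E v).erase v := by
      intro x hx
      obtain ⟨e, he, hxe⟩ := Finset.mem_biUnion.1 hx
      rw [Finset.mem_erase] at hxe ⊢
      refine ⟨hxe.1, ?_⟩
      unfold nbhd
      exact Finset.mem_biUnion.2 ⟨e, he, hxe.2⟩
    have hdis : ∀ e ∈ E.filter (fun e => v ∈ e), ∀ f ∈ E.filter (fun e => v ∈ e), e ≠ f →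
        Disjoint (e.erase v) (f.erase v) := by
      intro e he f hf hne
      rw [Finset.disjoint_left]
      intro x hx hx'
      rw [Finset.mem_filter] at he hf
      rw [Finset.mem_erase] at hx hx'
      have h1 := hlin e he.1 f hf.1 hne
      have h2 : ({v, x} : Finset V) ⊆ e ∩ f := by
        intro y hy
        rw [Finset.mem_insert, Finset.mem_singleton] at hy
        rcases hy with rfl | rfl
        · exact Finset.mem_inter.2 ⟨he.2, hf.2⟩
        · exact Finset.mem_inter.2 ⟨hx.2, hx'.2⟩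
      have h3 := Finset.card_le_card h2
      rw [Finset.card_pair (Ne.symm hx.1)] at h3
      omega
    have hc := Finset.card_le_card hsub
    rw [Finset.card_biUnion hdis, Finset.card_erase_of_mem hv] at hc
    have hs : ∑ e ∈ E.filter (fun e => v ∈ e), (e.erase v).card =
        ∑ e ∈ E.filter (fun e => v ∈ e), (e.card - 1) :=
      Finset.sum_congr rfl (fun e he => Finset.card_erase_of_mem (Finset.mem_filter.1 he).2)
    rw [hs] at hc
    omega

/-- Chunk Y3, main part (S/M): **the theorem**.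

**Proof.** Choose `n ≥ 1` with `1 / n ≤ ε` (`exists_nat_ge`), `D0 = max N 1` with `N` from `y2_main`; `Hyp` by
`y3_vol`; `n * deg ≤ (n - 1) * D` from `deg ≤ (1 - ε) D ≤ (1 - 1/n) D` (real numbers, `n ≥ 1`; for the natural
subtraction `(n - 1 : ℕ)` cast with `Nat.cast_sub`). -/
theorem y3_final (ε : ℝ) (hε : 0 < ε) : ∃ D0 : ℕ, ∀ (V : Type) [DecidableEq V]
    (E : Finset (Finset V)) (D : ℕ), D0 ≤ D → (∀ e ∈ E, 2 ≤ e.card) →
    (∀ e ∈ E, ∀ f ∈ E, e ≠ f → (e ∩ f).card ≤ 1) → (∀ v, (nbhd E v).card ≤ D) →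
    (∀ v, ((E.filter fun e => v ∈ e).card : ℝ) ≤ (1 - ε) * D) →
    ∃ c : Finset V → Fin D, ∀ e ∈ E, ∀ f ∈ E, e ≠ f → ¬ Disjoint e f → c e ≠ c f := by
  obtain ⟨m, hm⟩ := exists_nat_ge (1 / ε)
  obtain ⟨N, hN⟩ := y2_main (m + 1) (by omega)
  refine ⟨max N 1, ?_⟩
  intro V _ E D hD hsz hlin hnb hdeg
  have hD1 : 1 ≤ D := (le_max_right _ _).trans hD
  have H : Hyp E D := ⟨hD1, hsz, hlin, fun v => y3_vol hlin D v (hnb v)⟩
  refine hN V E D ((le_max_left _ _).trans hD) H ?_
  intro v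
  have h1 := hdeg v
  have hm1 : (0 : ℝ) < (m : ℝ) + 1 := by positivity
  have h2 : 1 ≤ ε * ((m : ℝ) + 1) := by
    have h3 : 1 / ε ≤ (m : ℝ) + 1 := by linarith
    rw [div_le_iff₀ hε] at h3
    linarith
  have hD0 : (0 : ℝ) ≤ D := Nat.cast_nonneg _
  have h4 : ((m : ℝ) + 1) * ((E.filter fun e => v ∈ e).card : ℝ) ≤ (m : ℝ) * D := by
    have h5 := mul_le_mul_of_nonneg_left h1 hm1.le
    have h6 : 1 * (D : ℝ) ≤ ε * ((m : ℝ) + 1) * D := mul_le_mul_of_nonneg_right h2 hD0
    nlinarith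
  have h7 : (((m + 1) * (E.filter fun e => v ∈ e).card : ℕ) : ℝ) ≤ ((m * D : ℕ) : ℝ) := by
    push_cast
    exact h4
  have h8 : (m + 1) * (E.filter fun e => v ∈ e).card ≤ m * D := by exact_mod_cast h7
  rw [Nat.add_sub_cancel]
  exact h8

end Pool.Agent.Lib.BFE
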